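import Pool.Agent.Work.MP_67388f_an.MX.Defs

set_option autoImplicit false

/-!
Definitions for the second part of the project MX: samples and exponential mixing of order two.
-/

namespace PoolMX

open MeasureTheory Filter Topology

/-- average of `f` over the points `a m • x`, `m` running over the list `l` -/
noncomputable def lavg {G X : Type*} [SMul G X] {r : ℕ} (a : V r → G) (l : List (V r))
    (f : X → ℝ) (x : X) : ℝ :=
  (l.map fun m => f (a m • x)).sum / (l.length : ℝ)

/-- The averages over the finite samples `F R` converge completely, for a dense set of compactly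
supported continuous functions. -/
def SampleConv {G X : Type*} [SMul G X] [TopologicalSpace X] [MeasurableSpace X] {r : ℕ}
    (a : V r → G) (μ : Measure X) (F : ℕ → List (V r)) : Prop :=
  ∀ θ : C(X, ℝ), HasCompactSupport θ → ∀ ε : ℝ, 0 < ε →
    ∃ f : C(X, ℝ), HasCompactSupport f ∧ (∀ x, |θ x - f x| ≤ ε) ∧
      ∀ δ : ℝ, 0 < δ → Summable fun R : ℕ =>
        μ.real {x | δ < |lavg a (F R) f x - ∫ y, f y ∂μ|}

/-- For every `N`, `η` there are samples in the strips of `w` with complete convergence. -/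
def Sampled {G X : Type*} [SMul G X] [TopologicalSpace X] [MeasurableSpace X] {r : ℕ}
    (a : V r → G) (μ : Measure X) (w : V r →+ ℝ) : Prop :=
  ∀ (N : ℕ) (η : ℝ), 0 < N → 0 < η → ∃ F : ℕ → List (V r),
    (∀ R, F R ≠ [] ∧ ∀ m ∈ F R, m ∈ strip w N η R) ∧ SampleConv a μ F

/-- Exponential mixing of order two: there is an algebra `T` of bounded continuous test functions
with a submultiplicative norm `nm`, invariant under translations, which increase the norm at most
exponentially, such that the correlations decay exponentially, and such that the compactly supported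
test functions are dense. -/
def ExpMix {G X : Type*} [SMul G X] [TopologicalSpace X] [MeasurableSpace X] {r : ℕ}
    (a : V r → G) (μ : Measure X) : Prop :=
  ∃ (T : Set C(X, ℝ)) (nm : C(X, ℝ) → ℝ) (K L c : ℝ), 0 < c ∧
    (∀ t : ℝ, ContinuousMap.const X t ∈ T ∧ nm (ContinuousMap.const X t) ≤ K * |t|) ∧
    (∀ f ∈ T, ∀ g ∈ T, f + g ∈ T ∧ nm (f + g) ≤ nm f + nm g ∧ f * g ∈ T ∧
      nm (f * g) ≤ nm f * nm g) ∧
    (∀ f ∈ T, (∀ x, |f x| ≤ nm f) ∧ ∀ m : V r, ∃ g ∈ T, (∀ x, g x = f (a m • x)) ∧
      nm g ≤ Real.exp (L * ‖m‖) * nm f) ∧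
    (∀ f ∈ T, ∀ g ∈ T, ∀ m : V r,
      |∫ x, f x * g (a m • x) ∂μ - (∫ x, f x ∂μ) * ∫ x, g x ∂μ| ≤
        nm f * nm g * Real.exp (-c * ‖m‖)) ∧
    ∀ θ : C(X, ℝ), HasCompactSupport θ → ∀ ε : ℝ, 0 < ε →
      ∃ f ∈ T, HasCompactSupport f ∧ ∀ x, |θ x - f x| ≤ ε

/-- one step of the tree: move by `v j` or by `-v j`, whichever brings `w` back to zero -/
noncomputable def nxt {r : ℕ} (w : V r →+ ℝ) (v : ℕ → V r) (j : ℕ) (p : V r) : V r :=
  if 0 ≤ w p * w (v j) then p - v j else p + v j

/-- the points of the binary tree of depth `j` with root `p` and steps `v (j-1), …, v 0` -/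
noncomputable def tree {r : ℕ} (w : V r →+ ℝ) (v : ℕ → V r) : ℕ → V r → List (V r)
  | 0, p => [p]
  | j + 1, p => tree w v j p ++ tree w v j (nxt w v j p)

end PoolMX
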