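import Pool.Agent.Work.MP_67388f_an.MX.Sep
import Pool.Agent.Work.MP_67388f_an.MX.EDefs

/-!
MODULE Cvx (size M-L). Ergodic averages for `V r` without amenability: a sequence of finite samples along which the averages
of all compactly supported continuous functions converge almost everywhere. Uses `exists_dense_cc` (Sep).

(1) For `f` continuous with compact support and `ε > 0` there is a list `l ≠ []` with `∫ (lavg a l f x - ∫ f)^2 ≤ ε^2`.
    In the Hilbert space `Lp ℝ 2 μ` let `K` be the closure of the convex hull of the classes of `x ↦ f (a m • x)`, `m : V r`.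
    Let `u` be the element of `K` of minimal norm (`exists_norm_eq_iInf_of_complete_convex`). The isometries
    `T m = Lp.compMeasurePreserving` map `K` to itself (`a (m+m') = a m * a m' = a m' * a m`, commutative), so `T m u` has minimal
    norm too and `T m u = u` (uniqueness: parallelogram law). So the sets `{u < q}` are invariant mod `μ`, hence null or conull by
    `herg`, and `u` is almost everywhere constant (`Filter.exists_eventuallyEq_const_of_forall_separating`, as in
    Mathlib/Dynamics/Ergodic/Function.lean). The constant is `∫ u = ∫ f` (the integral is continuous on `Lp 2` and equal to `∫ f`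
    on the convex hull). So there is a convex combination `∑ p_i f (a m_i • x)` at distance `< ε/2` of `∫ f` in `L²`; approximate the
    weights `p_i` by rational numbers with a common denominator (each `‖f ∘ a m‖ ≤ sup |f|`) to obtain a list.
    (Alternative avoiding real weights: let `K` be the closure of the set of the classes of all `lavg a l f`, `l ≠ []`; it is
    convex because it is closed and contains midpoints: `lavg` of the lists `l` repeated `l'.length` times and `l'`
    repeated `l.length` times. Minimal norm and uniqueness only need midpoints.)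
(2) `lavg a l (lavg a l' f) = lavg a (l + l' pairwise sums) f` (lengths multiply), and
    `∫ (lavg a l g - c)^2 ≤ ∫ (g - c)^2` for bounded continuous `g` (Cauchy-Schwarz for the list average and invariance of `μ`).
    Averages over different lists commute because `V r` is commutative.
(3) `D k` the dense family. For `n` choose for each `k ≤ n` a list `l_{k,n}` with error `≤ 2^(-n)` for `D k` in (1), and let `F n` be
    the sum of the lists `l_{0,n}, …, l_{n,n}`. By (2) `∫ (lavg a (F n) (D k) - ∫ D k)^2 ≤ 4^(-n)` for `k ≤ n`. So the sum over `n` of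
    these functions is integrable and `lavg a (F n) (D k) x → ∫ D k` for almost all `x` (or Markov + Borel-Cantelli,
    `measure_limsup_atTop_eq_zero`), for all `k` simultaneously. Density in the sup norm gives it for all `θ`.
-/

set_option autoImplicit false

namespace PoolMX

open MeasureTheory Filter Topology

section hilbert

variable {E : Type*} [NormedAddCommGroup E] [InnerProductSpace ℝ E] {r : ℕ}

/-- average of the operators `U m` over a list -/
private noncomputable def hav (U : V r → Module.End ℝ E) (l : List (V r)) : Module.End ℝ E :=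
  (l.length : ℝ)⁻¹ • (l.map U).sum

private lemma sum_apply (U : V r → Module.End ℝ E) (l : List (V r)) (x : E) :
    (l.map U).sum x = (l.map fun m => U m x).sum := by
  induction l with
  | nil => simp
  | cons m l ih => simp [ih]

private lemma hav_apply (U : V r → Module.End ℝ E) (l : List (V r)) (x : E) :
    hav U l x = (l.length : ℝ)⁻¹ • (l.map fun m => U m x).sum := by
  rw [hav, LinearMap.smul_apply, sum_apply]

private lemma hav_comm {U : V r → Module.End ℝ E} (hc : ∀ m m', Commute (U m) (U m'))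
    (l l' : List (V r)) : Commute (hav U l) (hav U l') := by
  unfold hav
  refine (Commute.smul_left ?_ _).smul_right _
  refine Commute.list_sum_left _ _ fun A hA => Commute.list_sum_right _ _ fun B hB => ?_
  obtain ⟨m, -, rfl⟩ := List.mem_map.1 hA
  obtain ⟨m', -, rfl⟩ := List.mem_map.1 hB
  exact hc m m'

private lemma len_pos {l : List (V r)} (hl : l ≠ []) : (0 : ℝ) < (l.length : ℝ) := by
  exact_mod_cast List.length_pos_iff.2 hl

private lemma norm_hav_le {U : V r → Module.End ℝ E} (hn : ∀ m x, ‖U m x‖ = ‖x‖)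
    (l : List (V r)) (x : E) : ‖hav U l x‖ ≤ ‖x‖ := by
  by_cases hl : l = []
  · subst hl
    simp [hav_apply]
  have h : ∀ l : List (V r), ‖(l.map fun m => U m x).sum‖ ≤ (l.length : ℝ) * ‖x‖ := by
    intro l
    induction l with
    | nil => simp
    | cons m l ih =>
      rw [List.map_cons, List.sum_cons, List.length_cons]
      refine (norm_add_le _ _).trans ?_
      rw [hn]
      push_cast
      linarith
  rw [hav_apply, norm_smul, norm_inv, Real.norm_of_nonneg (len_pos hl).le,
    inv_mul_le_iff₀ (len_pos hl)]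
  exact h l

private lemma sub_hav_le {U : V r → Module.End ℝ E} {l : List (V r)} (hl : l ≠ []) {x : E} {η : ℝ}
    (h : ∀ m, ‖x - U m x‖ ≤ η) : ‖x - hav U l x‖ ≤ η := by
  have h1 : ∀ l : List (V r), ‖(l.length : ℝ) • x - (l.map fun m => U m x).sum‖ ≤
      (l.length : ℝ) * η := by
    intro l
    induction l with
    | nil => simp
    | cons m l ih =>
      rw [List.map_cons, List.sum_cons, List.length_cons]
      have e : ((l.length + 1 : ℕ) : ℝ) • x - (U m x + (l.map fun m => U m x).sum) =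
          (x - U m x) + ((l.length : ℝ) • x - (l.map fun m => U m x).sum) := by
        push_cast
        rw [add_smul, one_smul]
        abel
      rw [e]
      refine (norm_add_le _ _).trans ?_
      have := h m
      push_cast
      linarith
  have h2 : x - hav U l x = (l.length : ℝ)⁻¹ • ((l.length : ℝ) • x -
      (l.map fun m => U m x).sum) := by
    rw [hav_apply, smul_sub, smul_smul, inv_mul_cancel₀ (len_pos hl).ne', one_smul]
  rw [h2, norm_smul, norm_inv, Real.norm_of_nonneg (len_pos hl).le, inv_mul_le_iff₀ (len_pos hl)]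
  exact h1 l

/-- pairwise sums -/
private def psum (l l' : List (V r)) : List (V r) := l.flatMap fun m => l'.map fun m' => m + m'

private lemma psum_length (l l' : List (V r)) : (psum l l').length = l.length * l'.length := by
  induction l with
  | nil => simp [psum]
  | cons m l ih =>
    have : psum (m :: l) l' = (l'.map fun m' => m + m') ++ psum l l' := rfl
    rw [this, List.length_append, List.length_map, ih, List.length_cons]
    ring

private lemma psum_ne {l l' : List (V r)} (hl : l ≠ []) (hl' : l' ≠ []) : psum l l' ≠ [] := by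
  intro h
  have h1 := psum_length l l'
  rw [h, List.length_nil] at h1
  have h2 := List.length_pos_iff.2 hl
  have h3 := List.length_pos_iff.2 hl'
  have := Nat.mul_pos h2 h3
  omega

private lemma hav_psum {U : V r → Module.End ℝ E} (hU : ∀ m m', U (m + m') = U m * U m')
    (l l' : List (V r)) : hav U (psum l l') = hav U l * hav U l' := by
  have h1 : ∀ m, ((l'.map fun m' => m + m').map U).sum = U m * (l'.map U).sum := by
    intro m
    rw [List.map_map]
    have : (U ∘ fun m' => m + m') = fun m' => U m * U m' := by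
      funext m'
      exact hU m m'
    rw [this]
    induction l' with
    | nil => simp
    | cons a l' ih => rw [List.map_cons, List.sum_cons, List.map_cons, List.sum_cons, ih, mul_add]
  have h2 : ∀ l : List (V r), ((psum l l').map U).sum = (l.map U).sum * (l'.map U).sum := by
    intro l
    induction l with
    | nil => simp [psum]
    | cons m l ih =>
      have : psum (m :: l) l' = (l'.map fun m' => m + m') ++ psum l l' := rfl
      rw [this, List.map_append, List.sum_append, h1, ih, List.map_cons, List.sum_cons, add_mul]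
  unfold hav
  rw [h2, psum_length, smul_mul_smul_comm]
  congr 1
  push_cast
  rw [mul_inv]

/-- the theorem of Alaoglu and Birkhoff -/
private theorem alaoglu_birkhoff [CompleteSpace E] {U : V r → Module.End ℝ E} (h0 : U 0 = 1)
    (hU : ∀ m m', U (m + m') = U m * U m') (hn : ∀ m x, ‖U m x‖ = ‖x‖) (f : E) :
    ∃ u : E, (∀ m, U m u = u) ∧ ∀ ε : ℝ, 0 < ε → ∃ l : List (V r), l ≠ [] ∧
      ‖hav U l f - u‖ ≤ ε := by
  have hc : ∀ m m', Commute (U m) (U m') := fun m m' => by
    rw [commute_iff_eq, ← hU, ← hU, add_comm]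
  set S : Set ℝ := {t | ∃ l : List (V r), l ≠ [] ∧ t = ‖hav U l f‖ ^ 2} with hS
  have hSne : S.Nonempty := ⟨_, [0], by simp, rfl⟩
  have hSb : BddBelow S := ⟨0, by
    rintro t ⟨l, -, rfl⟩
    positivity⟩
  set d := sInf S with hd
  have hdl : ∀ l : List (V r), l ≠ [] → d ≤ ‖hav U l f‖ ^ 2 := fun l hl =>
    csInf_le hSb ⟨l, hl, rfl⟩
  -- almost invariance
  have hai : ∀ (l : List (V r)) (η : ℝ), 0 ≤ η → l ≠ [] → ‖hav U l f‖ ^ 2 ≤ d + η ^ 2 → ∀ m,
      ‖hav U l f - U m (hav U l f)‖ ≤ 2 * η := by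
    intro l η hη hl h m
    have h1 := parallelogram_law_with_norm ℝ (hav U l f) (U m (hav U l f))
    have h2 : hav U l f + U m (hav U l f) = (2 : ℝ) • hav U (psum [0, m] l) f := by
      rw [hav_psum hU, Module.End.mul_apply, hav_apply U [0, m], smul_smul]
      simp [h0]
    have h3 := hdl (psum [0, m] l) (psum_ne (by simp) hl)
    have h4 : ‖hav U l f + U m (hav U l f)‖ ^ 2 = 4 * ‖hav U (psum [0, m] l) f‖ ^ 2 := by
      rw [h2, norm_smul, mul_pow]
      norm_num
    rw [h4, hn] at h1
    have h5 : ‖hav U l f - U m (hav U l f)‖ ^ 2 ≤ (2 * η) ^ 2 := by nlinarith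
    exact (abs_le_of_sq_le_sq' h5 (by positivity)).2
  have hex : ∀ n : ℕ, ∃ l : List (V r), l ≠ [] ∧ ‖hav U l f‖ ^ 2 ≤ d + ((1 / 2 : ℝ) ^ n) ^ 2 := by
    intro n
    obtain ⟨t, ⟨l, hl, rfl⟩, ht⟩ := exists_lt_of_csInf_lt hSne
      (show sInf S < d + ((1 / 2 : ℝ) ^ n) ^ 2 by rw [← hd]; linarith [show (0 : ℝ) < ((1 / 2 : ℝ) ^ n) ^ 2 by positivity])
    exact ⟨l, hl, ht.le⟩
  choose L hL hLd using hex
  have hinv : ∀ n m, ‖hav U (L n) f - U m (hav U (L n) f)‖ ≤ 2 * (1 / 2 : ℝ) ^ n := fun n m =>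
    hai (L n) _ (by positivity) (hL n) (hLd n) m
  have hcau : ∀ n k, n ≤ k → dist (hav U (L n) f) (hav U (L k) f) ≤ 4 * (1 / 2 : ℝ) ^ n := by
    intro n k hnk
    have h1 := sub_hav_le (hL k) (hinv n)
    have h2 := sub_hav_le (hL n) (hinv k)
    have h3 : hav U (L k) (hav U (L n) f) = hav U (L n) (hav U (L k) f) := by
      rw [← Module.End.mul_apply, ← Module.End.mul_apply, (hav_comm hc (L k) (L n)).eq]
    have h4 : (1 / 2 : ℝ) ^ k ≤ (1 / 2 : ℝ) ^ n :=
      pow_le_pow_of_le_one (by norm_num) (by norm_num) hnk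
    rw [dist_eq_norm]
    have e : hav U (L n) f - hav U (L k) f = (hav U (L n) f - hav U (L k) (hav U (L n) f)) -
        (hav U (L k) f - hav U (L n) (hav U (L k) f)) := by
      rw [h3]; abel
    rw [e]
    refine (norm_sub_le _ _).trans ?_
    linarith
  have hlim0 : Tendsto (fun n : ℕ => 4 * (1 / 2 : ℝ) ^ n) atTop (𝓝 0) := by
    have := (tendsto_pow_atTop_nhds_zero_of_lt_one (by norm_num : (0 : ℝ) ≤ 1 / 2)
      (by norm_num)).const_mul 4
    rwa [mul_zero] at this
  have hcs : CauchySeq fun n => hav U (L n) f :=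
    cauchySeq_of_le_tendsto_0' (fun n : ℕ => 4 * (1 / 2 : ℝ) ^ n) hcau hlim0
  obtain ⟨u, hu⟩ := cauchySeq_tendsto_of_complete hcs
  refine ⟨u, fun m => ?_, fun ε hε => ?_⟩
  · have hcont : Continuous (U m) := by
      have : Isometry (U m) := AddMonoidHomClass.isometry_of_norm (U m) (hn m)
      exact this.continuous
    have h1 : Tendsto (fun n => hav U (L n) f - U m (hav U (L n) f)) atTop (𝓝 (u - U m u)) :=
      hu.sub ((hcont.tendsto u).comp hu)
    have h2 : Tendsto (fun n => hav U (L n) f - U m (hav U (L n) f)) atTop (𝓝 0) := by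
      rw [tendsto_zero_iff_norm_tendsto_zero]
      refine squeeze_zero (fun n => norm_nonneg _) (fun n => ?_) hlim0
      have := hinv n m
      have h4 : (0 : ℝ) ≤ (1 / 2 : ℝ) ^ n := by positivity
      linarith
    have h3 := tendsto_nhds_unique h1 h2
    exact (sub_eq_zero.1 h3).symm
  · have h1 : Tendsto (fun n => ‖hav U (L n) f - u‖) atTop (𝓝 0) := by
      rw [← tendsto_iff_norm_sub_tendsto_zero]
      exact hu
    obtain ⟨n, hn'⟩ := (h1.eventually (gt_mem_nhds hε)).exists
    exact ⟨L n, hL n, hn'.le⟩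

end hilbert

section conv

variable {X : Type*} [MeasurableSpace X]

private lemma ae_tendsto_zero {μ : Measure X} (h : ℕ → Lp ℝ 2 μ) {C : ℝ}
    (hs : ∀ᶠ n in atTop, ‖h n‖ ≤ C * (1 / 2 : ℝ) ^ n) :
    ∀ᵐ x ∂μ, Tendsto (fun n => h n x) atTop (𝓝 0) := by
  have hsq : ∀ n, ∫ x, (h n x) ^ 2 ∂μ = ‖h n‖ ^ 2 := by
    intro n
    rw [← real_inner_self_eq_norm_sq, L2.inner_def]
    refine integral_congr_ae (Eventually.of_forall fun x => ?_)
    simp [sq]
  have hint : ∀ n, Integrable (fun x => (h n x) ^ 2) μ := fun n => (Lp.memLp (h n)).integrable_sq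
  have hsum : Summable fun n => ‖h n‖ ^ 2 := by
    have h1 : Summable fun n : ℕ => C ^ 2 * (1 / 4 : ℝ) ^ n :=
      (summable_geometric_of_lt_one (by norm_num) (by norm_num)).mul_left _
    refine Summable.of_norm_bounded_eventually_nat h1 ?_
    filter_upwards [hs] with n hn
    rw [Real.norm_of_nonneg (by positivity)]
    calc ‖h n‖ ^ 2 ≤ (C * (1 / 2 : ℝ) ^ n) ^ 2 := by
          exact pow_le_pow_left₀ (norm_nonneg _) hn 2
      _ = C ^ 2 * (1 / 4 : ℝ) ^ n := by
          rw [mul_pow, ← pow_mul, mul_comm n 2, pow_mul]; norm_num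
  have hlt : ∫⁻ x, ∑' n, ENNReal.ofReal ((h n x) ^ 2) ∂μ ≠ ⊤ := by
    rw [lintegral_tsum fun n => (hint n).1.aemeasurable.ennreal_ofReal]
    have e : ∀ n, ∫⁻ x, ENNReal.ofReal ((h n x) ^ 2) ∂μ = ENNReal.ofReal (‖h n‖ ^ 2) := by
      intro n
      rw [← hsq, ofReal_integral_eq_lintegral_ofReal (hint n)
        (Eventually.of_forall fun x => sq_nonneg _)]
    simp only [e]
    exact hsum.tsum_ofReal_ne_top
  have hae : AEMeasurable (fun x => ∑' n, ENNReal.ofReal ((h n x) ^ 2)) μ :=
    AEMeasurable.ennreal_tsum fun n => (hint n).1.aemeasurable.ennreal_ofReal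
  filter_upwards [ae_lt_top' hae hlt] with x hx
  have h1 := ENNReal.tendsto_atTop_zero_of_tsum_ne_top hx.ne
  have h2 : Tendsto (fun n => (h n x) ^ 2) atTop (𝓝 0) := by
    have h3 := (ENNReal.tendsto_toReal ENNReal.zero_ne_top).comp h1
    simp only [ENNReal.toReal_zero] at h3
    refine h3.congr fun n => ?_
    exact ENNReal.toReal_ofReal (sq_nonneg _)
  have h3 := h2.sqrt
  rw [Real.sqrt_zero] at h3
  rw [tendsto_zero_iff_abs_tendsto_zero]
  refine h3.congr fun n => ?_
  exact Real.sqrt_sq_eq_abs _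

end conv

section main

variable {G X : Type*} [Group G] [TopologicalSpace G] [TopologicalSpace X]
    [LocallyCompactSpace X] [T2Space X] [SecondCountableTopology X] [MeasurableSpace X]
    [BorelSpace X] [MulAction G X] [ContinuousSMul G X] {r : ℕ}

private lemma map_zero_eq (a : V r → G) (ha : ∀ m m', a (m + m') = a m * a m') : a 0 = 1 := by
  have := ha 0 0
  rw [add_zero] at this
  exact (mul_eq_left.1 this.symm)

private lemma mp_smul (a : V r → G) (μ : Measure X) (hμ : ∀ m, μ.map (fun x => a m • x) = μ)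
    (m : V r) : MeasurePreserving (fun x : X => a m • x) μ μ :=
  ⟨(continuous_const_smul (a m)).measurable, hμ m⟩

/-- the isometries -/
private noncomputable def koop (a : V r → G) (μ : Measure X)
    (hμ : ∀ m, μ.map (fun x => a m • x) = μ) (m : V r) : Module.End ℝ (Lp ℝ 2 μ) :=
  Lp.compMeasurePreservingₗ ℝ (fun x => a m • x) (mp_smul a μ hμ m)

private lemma koop_coe (a : V r → G) (μ : Measure X)
    (hμ : ∀ m, μ.map (fun x => a m • x) = μ) (m : V r) (g : Lp ℝ 2 μ) :
    koop a μ hμ m g =ᵐ[μ] fun x => g (a m • x) :=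
  Lp.coeFn_compMeasurePreserving g (mp_smul a μ hμ m)

private lemma koop_congr (a : V r → G) (μ : Measure X)
    (hμ : ∀ m, μ.map (fun x => a m • x) = μ) (m : V r) (g : Lp ℝ 2 μ) (f : X → ℝ)
    (h : g =ᵐ[μ] f) : koop a μ hμ m g =ᵐ[μ] fun x => f (a m • x) :=
  (koop_coe a μ hμ m g).trans ((mp_smul a μ hμ m).quasiMeasurePreserving.ae_eq_comp h)

private lemma koop_norm (a : V r → G) (μ : Measure X)
    (hμ : ∀ m, μ.map (fun x => a m • x) = μ) (m : V r) (g : Lp ℝ 2 μ) :
    ‖koop a μ hμ m g‖ = ‖g‖ :=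
  Lp.norm_compMeasurePreserving g (mp_smul a μ hμ m)

private lemma koop_zero (a : V r → G) (ha : ∀ m m', a (m + m') = a m * a m') (μ : Measure X)
    (hμ : ∀ m, μ.map (fun x => a m • x) = μ) : koop a μ hμ 0 = 1 := by
  ext1 g
  refine Lp.ext ((koop_coe a μ hμ 0 g).trans ?_)
  rw [Module.End.one_apply, map_zero_eq a ha]
  simp only [one_smul]
  rfl

private lemma koop_add (a : V r → G) (ha : ∀ m m', a (m + m') = a m * a m') (μ : Measure X)
    (hμ : ∀ m, μ.map (fun x => a m • x) = μ) (m m' : V r) :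
    koop a μ hμ (m + m') = koop a μ hμ m * koop a μ hμ m' := by
  ext1 g
  refine Lp.ext ((koop_coe a μ hμ (m + m') g).trans ?_)
  rw [Module.End.mul_apply]
  refine EventuallyEq.trans (EventuallyEq.of_eq ?_)
    (koop_congr a μ hμ m _ _ (koop_coe a μ hμ m' g)).symm
  funext x
  rw [add_comm m m', ha, mul_smul]

/-- the constant function `1` -/
private noncomputable def one2 (μ : Measure X) [IsProbabilityMeasure μ] : Lp ℝ 2 μ :=
  indicatorConstLp 2 MeasurableSet.univ (measure_ne_top μ _) (1 : ℝ)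

private lemma one2_coe (μ : Measure X) [IsProbabilityMeasure μ] :
    one2 μ =ᵐ[μ] fun _ => (1 : ℝ) := by
  refine (indicatorConstLp_coeFn (p := 2) (hs := MeasurableSet.univ)
    (hμs := measure_ne_top μ _) (c := (1 : ℝ))).trans ?_
  rw [Set.indicator_univ]

private lemma norm_one2 (μ : Measure X) [IsProbabilityMeasure μ] : ‖one2 μ‖ = 1 := by
  rw [one2, norm_indicatorConstLp (by norm_num) (by norm_num)]
  simp

private lemma inner_one2 (μ : Measure X) [IsProbabilityMeasure μ] (g : Lp ℝ 2 μ) :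
    inner ℝ (one2 μ) g = ∫ x, g x ∂μ := by
  rw [one2, L2.inner_indicatorConstLp_one, Measure.restrict_univ]

private lemma koop_one2 (a : V r → G) (μ : Measure X) [IsProbabilityMeasure μ]
    (hμ : ∀ m, μ.map (fun x => a m • x) = μ) (m : V r) :
    koop a μ hμ m (one2 μ) = one2 μ :=
  Lp.ext ((koop_congr a μ hμ m _ _ (one2_coe μ)).trans (one2_coe μ).symm)

private lemma hav_one2 (a : V r → G) (μ : Measure X) [IsProbabilityMeasure μ]
    (hμ : ∀ m, μ.map (fun x => a m • x) = μ) {l : List (V r)} (hl : l ≠ []) :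
    hav (koop a μ hμ) l (one2 μ) = one2 μ := by
  have h := sub_hav_le (U := koop a μ hμ) (x := one2 μ) (η := 0) hl fun m => by
    rw [koop_one2, sub_self, norm_zero]
  exact (sub_eq_zero.1 (norm_le_zero_iff.1 h)).symm

private lemma inner_koop (a : V r → G) (μ : Measure X) [IsProbabilityMeasure μ]
    (hμ : ∀ m, μ.map (fun x => a m • x) = μ) (m : V r) (g : Lp ℝ 2 μ) :
    inner ℝ (one2 μ) (koop a μ hμ m g) = inner ℝ (one2 μ) g := by
  have h := LinearIsometry.inner_map_map
    (⟨koop a μ hμ m, koop_norm a μ hμ m⟩ : Lp ℝ 2 μ →ₗᵢ[ℝ] Lp ℝ 2 μ) (one2 μ) g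
  have h2 : (⟨koop a μ hμ m, koop_norm a μ hμ m⟩ : Lp ℝ 2 μ →ₗᵢ[ℝ] Lp ℝ 2 μ) (one2 μ) =
      one2 μ := koop_one2 a μ hμ m
  rw [h2] at h
  exact h

private lemma inner_hav (a : V r → G) (μ : Measure X) [IsProbabilityMeasure μ]
    (hμ : ∀ m, μ.map (fun x => a m • x) = μ) {l : List (V r)} (hl : l ≠ []) (g : Lp ℝ 2 μ) :
    inner ℝ (one2 μ) (hav (koop a μ hμ) l g) = inner ℝ (one2 μ) g := by
  have h : ∀ l : List (V r), inner ℝ (one2 μ) ((l.map fun m => koop a μ hμ m g).sum) =
      (l.length : ℝ) * inner ℝ (one2 μ) g := by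
    intro l
    induction l with
    | nil => simp
    | cons m l ih =>
      rw [List.map_cons, List.sum_cons, inner_add_right, ih, inner_koop, List.length_cons]
      push_cast
      ring
  rw [hav_apply, inner_smul_right, h, ← mul_assoc, inv_mul_cancel₀ (len_pos hl).ne', one_mul]

private lemma fixed_const (a : V r → G) (μ : Measure X) [IsProbabilityMeasure μ]
    (hμ : ∀ m, μ.map (fun x => a m • x) = μ)
    (herg : ∀ t : Set X, MeasurableSet t → (∀ m, (fun z => a m • z) ⁻¹' t =ᵐ[μ] t) →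
      μ t = 0 ∨ μ tᶜ = 0) (u : Lp ℝ 2 μ) (hu : ∀ m, koop a μ hμ m u = u) :
    u = (∫ x, u x ∂μ) • one2 μ := by
  obtain ⟨c, hc⟩ : ∃ c : ℝ, (u : X → ℝ) =ᵐ[μ] Function.const X c := by
    refine exists_eventuallyEq_const_of_forall_separating MeasurableSet fun s hs => ?_
    have hm : MeasurableSet ((u : X → ℝ) ⁻¹' s) := (Lp.stronglyMeasurable u).measurable hs
    rcases herg ((u : X → ℝ) ⁻¹' s) hm fun m => by
      have h1 : (fun x => (u : X → ℝ) (a m • x)) =ᵐ[μ] u := by
        have h2 := koop_coe a μ hμ m u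
        rw [hu m] at h2
        exact h2.symm
      refine (h1.mono fun x hx => ?_).set_eq
      rw [Set.mem_preimage, Set.mem_preimage, Set.mem_preimage]
      exact iff_of_eq (congrArg (fun y => y ∈ s) hx) with h | h
    · exact Or.inr (measure_eq_zero_iff_ae_notMem.1 h)
    · refine Or.inl ?_
      have := measure_eq_zero_iff_ae_notMem.1 h
      filter_upwards [this] with x hx
      exact not_not.1 hx
  have h1 : ∫ x, u x ∂μ = c := by
    rw [integral_congr_ae hc]
    simp
  rw [h1]
  refine Lp.ext (hc.trans ?_)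
  filter_upwards [Lp.coeFn_smul c (one2 μ), one2_coe μ] with x h2 h3
  rw [h2, Pi.smul_apply, h3]
  simp

private lemma one_list (a : V r → G) (ha : ∀ m m', a (m + m') = a m * a m') (μ : Measure X)
    [IsProbabilityMeasure μ] (hμ : ∀ m, μ.map (fun x => a m • x) = μ)
    (herg : ∀ t : Set X, MeasurableSet t → (∀ m, (fun z => a m • z) ⁻¹' t =ᵐ[μ] t) →
      μ t = 0 ∨ μ tᶜ = 0) (g : Lp ℝ 2 μ) {ε : ℝ} (hε : 0 < ε) :
    ∃ l : List (V r), l ≠ [] ∧ ‖hav (koop a μ hμ) l g - (∫ x, g x ∂μ) • one2 μ‖ ≤ ε := by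
  obtain ⟨u, hu, hul⟩ := alaoglu_birkhoff (koop_zero a ha μ hμ) (koop_add a ha μ hμ)
    (koop_norm a μ hμ) g
  have h1 : ∫ x, u x ∂μ = ∫ x, g x ∂μ := by
    rw [← inner_one2, ← inner_one2]
    refine eq_of_forall_dist_le fun δ hδ => ?_
    obtain ⟨l, hl, h⟩ := hul δ hδ
    rw [← inner_hav a μ hμ hl g, dist_comm, Real.dist_eq, ← inner_sub_right]
    refine (abs_real_inner_le_norm _ _).trans ?_
    rw [norm_one2, one_mul]
    exact h
  obtain ⟨l, hl, h⟩ := hul ε hε
  refine ⟨l, hl, ?_⟩
  rw [← h1, ← fixed_const a μ hμ herg u hu]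
  exact h

private lemma many_list (a : V r → G) (ha : ∀ m m', a (m + m') = a m * a m') (μ : Measure X)
    [IsProbabilityMeasure μ] (hμ : ∀ m, μ.map (fun x => a m • x) = μ)
    (herg : ∀ t : Set X, MeasurableSet t → (∀ m, (fun z => a m • z) ⁻¹' t =ᵐ[μ] t) →
      μ t = 0 ∨ μ tᶜ = 0) (D : ℕ → Lp ℝ 2 μ) {ε : ℝ} (hε : 0 < ε) (j : ℕ) :
    ∃ l : List (V r), l ≠ [] ∧ ∀ k < j,
      ‖hav (koop a μ hμ) l (D k) - (∫ x, D k x ∂μ) • one2 μ‖ ≤ ε := by
  have hc : ∀ m m', Commute (koop a μ hμ m) (koop a μ hμ m') := fun m m' => by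
    rw [commute_iff_eq, ← koop_add a ha, ← koop_add a ha, add_comm]
  have step : ∀ (l l' : List (V r)) (g : Lp ℝ 2 μ) (c : ℝ), l' ≠ [] →
      ‖hav (koop a μ hμ) l g - c • one2 μ‖ ≤ ε →
      ‖hav (koop a μ hμ) l' (hav (koop a μ hμ) l g) - c • one2 μ‖ ≤ ε := by
    intro l l' g c hl' h
    have e : hav (koop a μ hμ) l' (hav (koop a μ hμ) l g) - c • one2 μ =
        hav (koop a μ hμ) l' (hav (koop a μ hμ) l g - c • one2 μ) := by
      rw [map_sub, map_smul, hav_one2 a μ hμ hl']
    rw [e]
    exact (norm_hav_le (koop_norm a μ hμ) _ _).trans h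
  induction j with
  | zero => exact ⟨[0], by simp, fun k hk => absurd hk (Nat.not_lt_zero k)⟩
  | succ j ih =>
    obtain ⟨l, hl, h⟩ := ih
    obtain ⟨l', hl', h'⟩ := one_list a ha μ hμ herg (D j) hε
    refine ⟨psum l' l, psum_ne hl' hl, fun k hk => ?_⟩
    rw [hav_psum (koop_add a ha μ hμ)]
    rcases Nat.lt_succ_iff_lt_or_eq.1 hk with hk | rfl
    · rw [Module.End.mul_apply]
      exact step l l' _ _ hl' (h k hk)
    · rw [(hav_comm hc l' l).eq, Module.End.mul_apply]
      exact step l' l _ _ hl h'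

private lemma hav_coe (a : V r → G) (μ : Measure X) (hμ : ∀ m, μ.map (fun x => a m • x) = μ)
    (l : List (V r)) (g : Lp ℝ 2 μ) (f : X → ℝ) (h : g =ᵐ[μ] f) :
    hav (koop a μ hμ) l g =ᵐ[μ] lavg a l f := by
  have h1 : ∀ l : List (V r), ((l.map fun m => koop a μ hμ m g).sum : Lp ℝ 2 μ) =ᵐ[μ]
      fun x => (l.map fun m => f (a m • x)).sum := by
    intro l
    induction l with
    | nil =>
      simp only [List.map_nil, List.sum_nil]
      exact Lp.coeFn_zero _ _ _
    | cons m l ih =>
      simp only [List.map_cons, List.sum_cons]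
      filter_upwards [Lp.coeFn_add (koop a μ hμ m g) (l.map fun m => koop a μ hμ m g).sum, ih,
        koop_congr a μ hμ m g f h] with x h2 h3 h4
      rw [h2, Pi.add_apply, h3, h4]
  rw [hav_apply]
  filter_upwards [Lp.coeFn_smul (l.length : ℝ)⁻¹ (l.map fun m => koop a μ hμ m g).sum, h1 l]
    with x h2 h3
  rw [h2, Pi.smul_apply, h3, lavg, smul_eq_mul, div_eq_inv_mul]

private lemma lavg_sub_le (a : V r → G) (l : List (V r)) (f g : X → ℝ) {ε : ℝ} (hε : 0 ≤ ε)
    (h : ∀ x, |f x - g x| ≤ ε) (x : X) : |lavg a l f x - lavg a l g x| ≤ ε := by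
  by_cases hl : l = []
  · subst hl
    simpa [lavg] using hε
  have h1 : ∀ l : List (V r), |(l.map fun m => f (a m • x)).sum -
      (l.map fun m => g (a m • x)).sum| ≤ (l.length : ℝ) * ε := by
    intro l
    induction l with
    | nil => simp
    | cons m l ih =>
      rw [List.map_cons, List.sum_cons, List.map_cons, List.sum_cons, List.length_cons]
      have e : f (a m • x) + (l.map fun m => f (a m • x)).sum -
          (g (a m • x) + (l.map fun m => g (a m • x)).sum) = (f (a m • x) - g (a m • x)) +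
          ((l.map fun m => f (a m • x)).sum - (l.map fun m => g (a m • x)).sum) := by ring
      rw [e]
      refine (abs_add_le _ _).trans ?_
      have := h (a m • x)
      push_cast
      linarith
  unfold lavg
  rw [← sub_div, abs_div, abs_of_pos (len_pos hl), div_le_iff₀ (len_pos hl), mul_comm]
  exact h1 l

end main

theorem exists_erg_samples {G X : Type*} [Group G] [TopologicalSpace G] [TopologicalSpace X]
    [LocallyCompactSpace X] [T2Space X] [SecondCountableTopology X] [MeasurableSpace X]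
    [BorelSpace X] [MulAction G X] [ContinuousSMul G X] {r : ℕ} (a : V r → G)
    (ha : ∀ m m', a (m + m') = a m * a m') (μ : Measure X) [IsProbabilityMeasure μ]
    (hμ : ∀ m, μ.map (fun x => a m • x) = μ)
    (herg : ∀ t : Set X, MeasurableSet t → (∀ m, (fun z => a m • z) ⁻¹' t =ᵐ[μ] t) →
      μ t = 0 ∨ μ tᶜ = 0) :
    ∃ F : ℕ → List (V r), ∀ᵐ x ∂μ, ∀ θ : C(X, ℝ), HasCompactSupport θ →
      Tendsto (fun n => lavg a (F n) θ x) atTop (𝓝 (∫ y, θ y ∂μ)) := by
  obtain ⟨D, hD, hdense⟩ := exists_dense_cc X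
  have hbd : ∀ θ : C(X, ℝ), HasCompactSupport θ → ∃ B : ℝ, ∀ x, ‖θ x‖ ≤ B := fun θ hθ =>
    hθ.exists_bound_of_continuous θ.continuous
  have hLp : ∀ θ : C(X, ℝ), HasCompactSupport θ → MemLp (fun x => θ x) 2 μ := by
    intro θ hθ
    obtain ⟨B, hB⟩ := hbd θ hθ
    exact MemLp.of_bound θ.continuous.measurable.aestronglyMeasurable B (Eventually.of_forall hB)
  have hint : ∀ θ : C(X, ℝ), HasCompactSupport θ → Integrable (fun x => θ x) μ := fun θ hθ =>
    (hLp θ hθ).integrable (by norm_num)
  set d : ℕ → Lp ℝ 2 μ := fun k => (hLp (D k) (hD k)).toLp with hd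
  have hdc : ∀ k, (d k : X → ℝ) =ᵐ[μ] fun x => D k x := fun k => (hLp (D k) (hD k)).coeFn_toLp
  have hdi : ∀ k, ∫ x, d k x ∂μ = ∫ x, D k x ∂μ := fun k => integral_congr_ae (hdc k)
  have hex : ∀ n : ℕ, ∃ l : List (V r), l ≠ [] ∧ ∀ k < n,
      ‖hav (koop a μ hμ) l (d k) - (∫ x, d k x ∂μ) • one2 μ‖ ≤ (1 / 2 : ℝ) ^ n := fun n =>
    many_list a ha μ hμ herg d (by positivity) n
  choose F hF hFk using hex
  refine ⟨F, ?_⟩
  have h1 : ∀ k, ∀ᵐ x ∂μ, Tendsto (fun n =>
      (hav (koop a μ hμ) (F n) (d k) - (∫ x, d k x ∂μ) • one2 μ : Lp ℝ 2 μ) x) atTop (𝓝 0) := by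
    intro k
    refine ae_tendsto_zero (C := 1) _ ?_
    filter_upwards [eventually_gt_atTop k] with n hn
    rw [one_mul]
    exact hFk n k hn
  have h2 : ∀ k n, ((hav (koop a μ hμ) (F n) (d k) - (∫ x, d k x ∂μ) • one2 μ : Lp ℝ 2 μ) :
      X → ℝ) =ᵐ[μ] fun x => lavg a (F n) (D k) x - ∫ y, D k y ∂μ := by
    intro k n
    filter_upwards [Lp.coeFn_sub (hav (koop a μ hμ) (F n) (d k)) ((∫ x, d k x ∂μ) • one2 μ),
      Lp.coeFn_smul (∫ x, d k x ∂μ) (one2 μ), one2_coe μ,
      hav_coe a μ hμ (F n) (d k) (fun x => D k x) (hdc k)] with x h3 h4 h5 h6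
    rw [h3, Pi.sub_apply, h4, Pi.smul_apply, h5, h6, hdi, smul_eq_mul, mul_one]
  have h3 : ∀ᵐ x ∂μ, ∀ k, Tendsto (fun n => lavg a (F n) (D k) x - ∫ y, D k y ∂μ) atTop
      (𝓝 0) := by
    have h4 := ae_all_iff.2 h1
    have h5 := ae_all_iff.2 fun k => ae_all_iff.2 (h2 k)
    filter_upwards [h4, h5] with x h6 h7 k
    exact (h6 k).congr fun n => h7 k n
  filter_upwards [h3] with x hx θ hθ
  rw [Metric.tendsto_atTop]
  intro ε hε
  obtain ⟨k, hk⟩ := hdense θ hθ (ε / 4) (by positivity)
  have h4 := hx k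
  rw [Metric.tendsto_atTop] at h4
  obtain ⟨N, hN⟩ := h4 (ε / 4) (by positivity)
  refine ⟨N, fun n hn => ?_⟩
  have h5 := hN n hn
  rw [Real.dist_eq, sub_zero] at h5
  have h6 := lavg_sub_le a (F n) (fun x => θ x) (fun x => D k x) (by positivity) hk x
  have h7 : |∫ y, θ y ∂μ - ∫ y, D k y ∂μ| ≤ ε / 4 := by
    rw [← integral_sub (hint θ hθ) (hint _ (hD k))]
    have h8 := norm_integral_le_of_norm_le_const (μ := μ) (f := fun y => θ y - D k y) (C := ε / 4)
      (Eventually.of_forall hk)
    simpa using h8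
  rw [Real.dist_eq]
  have e : lavg a (F n) θ x - ∫ y, θ y ∂μ = (lavg a (F n) (fun x => θ x) x -
      lavg a (F n) (fun x => D k x) x) + (lavg a (F n) (D k) x - ∫ y, D k y ∂μ) -
      (∫ y, θ y ∂μ - ∫ y, D k y ∂μ) := by ring
  rw [e]
  calc _ ≤ |(lavg a (F n) (fun x => θ x) x - lavg a (F n) (fun x => D k x) x) +
        (lavg a (F n) (D k) x - ∫ y, D k y ∂μ)| + |∫ y, θ y ∂μ - ∫ y, D k y ∂μ| := abs_sub _ _
    _ ≤ |lavg a (F n) (fun x => θ x) x - lavg a (F n) (fun x => D k x) x| +
        |lavg a (F n) (D k) x - ∫ y, D k y ∂μ| + |∫ y, θ y ∂μ - ∫ y, D k y ∂μ| := by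
      gcongr
      exact abs_add_le _ _
    _ < ε := by linarith

end PoolMX
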