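import Pool.Agent.Work.MP_67388f_an.MX.Defs

/-!
MODULE Dir (size M). If `μ` is carried by one orbit of a group `Z` commuting with the `a m` and is mixing of
order 2, then `μ` is a point mass.

Let `T = a e`, `e = Pi.single i 1` for some coordinate `i` (`1 ≤ r`), `T^n = a (n • e)`. `T` preserves the probability measure
`μ` on the second countable space `X`, so for `μ`-almost all `y` the point `T^n y` returns to every neighbourhood of `y`
infinitely often (`Conservative.ae_frequently_mem_of_mem_nhds` for `MeasurePreserving.conservative`). Take such a `y` in the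
orbit `Z x₀` (full measure). Since `X` is first countable there is a sequence `n_j → ∞` with `T^(n_j) y → y`. Every `z` in
the orbit is `z = c • y`, `c ∈ Z`, so `T^(n_j) z = c • T^(n_j) y → z`: `T^(n_j) z → z` for `μ`-almost all `z`. Let `f` be
continuous with compact support and `MixRate a μ 2 κ f` (`κ > 0`). Dominated convergence:
`∫ f (T^(n_j) z) f z → ∫ f²`. `MixRate` with `s = [n_j • e]`, `t = [0]`, `g = n_j` (`‖n_j • e - 0‖ = n_j`):
`|∫ f (T^(n_j) z) f z - (∫ f)²| ≤ C n_j^(-κ) → 0` (`∫ f (T^n z) = ∫ f` by invariance). So `∫ f² = (∫ f)²`, i.e. `f` is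
`μ`-almost everywhere equal to `∫ f`. By density every continuous `θ` with compact support is `μ`-a.e. constant. If `x ≠ y`
were both in the support of `μ` (every neighbourhood has positive measure), a `θ` with `θ = 1` near `x`, `θ = 0` near `y` would
contradict this. The support is not empty (`X` second countable, `μ ≠ 0`), so it is `{x}`, `μ {x}ᶜ = 0` and `μ = dirac x`.
(Alternative for the last step: choose by second countability; for `x` in the support and `y ≠ x` some neighbourhood of `y`
is null; cover `{x}ᶜ` by countably many null open sets.)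
-/

set_option autoImplicit false

namespace PoolMX

open MeasureTheory Filter Topology

section aux

variable {G X : Type*} [Group G] [TopologicalSpace G] [TopologicalSpace X]
    [LocallyCompactSpace X] [T2Space X] [SecondCountableTopology X] [MeasurableSpace X]
    [BorelSpace X] [MulAction G X] [ContinuousSMul G X] {r : ℕ}

private lemma bdd_cpt (f : C(X, ℝ)) (hf : HasCompactSupport f) : ∃ B : ℝ, 0 ≤ B ∧ ∀ x, |f x| ≤ B := by
  obtain ⟨B, hB⟩ := hf.exists_bound_of_continuous f.continuous
  exact ⟨max B 0, le_max_right _ _, fun x => (hB x).trans (le_max_left _ _)⟩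

private lemma int_cpt (μ : Measure X) [IsFiniteMeasure μ] (f : C(X, ℝ)) (hf : HasCompactSupport f) :
    Integrable (fun x => f x) μ := by
  obtain ⟨B, -, hB⟩ := bdd_cpt f hf
  exact Integrable.of_bound (C := B) f.continuous.measurable.aestronglyMeasurable
    (Eventually.of_forall hB)

/-- A probability measure for which all continuous functions with compact support are almost
everywhere constant is a point mass. -/
private lemma dirac_of_const (μ : Measure X) [IsProbabilityMeasure μ]
    (h : ∀ θ : C(X, ℝ), HasCompactSupport θ → ∃ c : ℝ, ∀ᵐ x ∂μ, θ x = c) :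
    ∃ x : X, μ = Measure.dirac x := by
  obtain ⟨x, -, hx⟩ := exists_mem_forall_mem_nhdsWithin_pos_measure (μ := μ) (s := Set.univ)
    (by rw [measure_univ]; exact one_ne_zero)
  rw [nhdsWithin_univ] at hx
  have hnull : μ {x}ᶜ = 0 := by
    by_contra hne
    obtain ⟨y, hy, hyp⟩ := exists_mem_forall_mem_nhdsWithin_pos_measure (μ := μ) hne
    have hyx : x ≠ y := fun h => hy (by rw [h]; rfl)
    obtain ⟨U, V, hU, hV, hxU, hyV, hUV⟩ := t2_separation hyx
    obtain ⟨K, hKx, hKU, hK⟩ := local_compact_nhds (hU.mem_nhds hxU)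
    obtain ⟨f, hf1, hf0, hfc, -⟩ := exists_continuous_one_zero_of_isCompact hK
      (isClosed_compl_iff.2 hU) (Set.disjoint_compl_right_iff_subset.2 hKU)
    obtain ⟨c, hc⟩ := h f hfc
    have h1 : c = 1 := by
      by_contra hc1
      have : μ K = 0 := by
        refine measure_mono_null (fun z hz => ?_) (ae_iff.1 hc)
        intro h2
        exact hc1 (h2.symm.trans (hf1 hz))
      exact (hx K hKx).ne' this
    have h0 : c = 0 := by
      by_contra hc1
      have : μ V = 0 := by
        refine measure_mono_null (fun z hz => ?_) (ae_iff.1 hc)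
        intro h2
        refine hc1 (h2.symm.trans (hf0 ?_))
        exact fun hzU => Set.disjoint_left.1 hUV hzU hz
      exact (hyp V (mem_nhdsWithin_of_mem_nhds (hV.mem_nhds hyV))).ne' this
    rw [h1] at h0
    exact one_ne_zero h0
  refine ⟨x, Measure.ext fun s hs => ?_⟩
  rw [Measure.dirac_apply' x hs]
  by_cases hxs : x ∈ s
  · rw [Set.indicator_of_mem hxs, Pi.one_apply, ← prob_compl_eq_zero_iff hs]
    exact measure_mono_null (fun z hz => fun hzx => hz (by rw [hzx]; exact hxs)) hnull
  · rw [Set.indicator_of_notMem hxs]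
    exact measure_mono_null (fun z hz => fun hzx => hxs (by rw [← hzx]; exact hz)) hnull

/-- the main step: a mixing function is almost everywhere constant -/
private lemma const_of_mix (hr : 1 ≤ r) (a : V r → G)
    (ha : ∀ m m', a (m + m') = a m * a m') (μ : Measure X)
    [IsProbabilityMeasure μ] (hμ : ∀ m, μ.map (fun x => a m • x) = μ)
    (Z : Subgroup G) (hZ : ∀ c ∈ Z, ∀ m, a m * c = c * a m) (x₀ : X)
    (h₀ : μ {y | ∃ c ∈ Z, y = c • x₀}ᶜ = 0) (f : C(X, ℝ)) (hf : HasCompactSupport f)
    (κ : ℝ) (hκ : 0 < κ) (hmix : MixRate a μ 2 κ f) :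
    ∀ᵐ x ∂μ, f x = ∫ y, f y ∂μ := by
  obtain ⟨B, hB0, hB⟩ := bdd_cpt f hf
  set c : ℝ := ∫ x, f x ∂μ with hcdef
  set e : V r := Pi.single ⟨0, hr⟩ 1 with he
  have ha0 : a 0 = 1 := by
    have := ha 0 0
    rw [add_zero] at this
    exact (mul_eq_left.1 this.symm)
  set T : X → X := fun x => a e • x with hTdef
  have hT : MeasurePreserving T μ μ := ⟨(continuous_const_smul (a e)).measurable, hμ e⟩
  have hiter : ∀ n : ℕ, ∀ x, T^[n] x = a (n • e) • x := by
    intro n
    induction n with
    | zero => intro x; simp [ha0]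
    | succ n ih =>
      intro x
      rw [Function.iterate_succ_apply, ih, hTdef, smul_smul, ← ha, succ_nsmul]
  have hrec := hT.conservative.ae_frequently_mem_of_mem_nhds
  have h0' : ∀ᵐ y ∂μ, ∃ c ∈ Z, y = c • x₀ := mem_ae_iff.2 h₀
  obtain ⟨y, ⟨c0, hc0, hy⟩, hyrec⟩ := (h0'.and hrec).exists
  obtain ⟨n, hn, hny⟩ := (mapClusterPt_iff_frequently.2 hyrec).tendsto_subseq
  have hnt : Tendsto (fun j => ((n j : ℕ) : ℝ)) atTop atTop :=
    tendsto_natCast_atTop_atTop.comp hn.tendsto_atTop
  -- all the points of the orbit return along the same sequence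
  have hz : ∀ᵐ z ∂μ, Tendsto (fun j => a (n j • e) • z) atTop (𝓝 z) := by
    filter_upwards [h0'] with z hzo
    obtain ⟨c1, hc1, hz⟩ := hzo
    have h1 : z = (c1 * c0⁻¹) • y := by rw [hy, hz, smul_smul, inv_mul_cancel_right]
    have hmem : c1 * c0⁻¹ ∈ Z := Z.mul_mem hc1 (Z.inv_mem hc0)
    have h2 : ∀ j, a (n j • e) • z = (c1 * c0⁻¹) • (a (n j • e) • y) := by
      intro j
      rw [h1, smul_smul, smul_smul, hZ _ hmem]
    have h3 : Tendsto (fun j => (c1 * c0⁻¹) • (a (n j • e) • y)) atTop (𝓝 ((c1 * c0⁻¹) • y)) := by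
      refine Tendsto.const_smul ?_ _
      refine hny.congr fun j => ?_
      simp only [Function.comp_apply]
      exact hiter (n j) y
    rw [← h1] at h3
    exact h3.congr fun j => (h2 j).symm
  have hmc : ∀ m, Continuous (fun x : X => f (a m • x)) := fun m =>
    f.continuous.comp (continuous_const_smul (a m))
  have hlim : Tendsto (fun j => ∫ x, f (a (n j • e) • x) * f x ∂μ) atTop
      (𝓝 (∫ x, f x * f x ∂μ)) := by
    refine tendsto_integral_of_dominated_convergence (fun _ => B * B)
      (fun j => ((hmc _).mul f.continuous).measurable.aestronglyMeasurable)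
      (integrable_const _) (fun j => Eventually.of_forall fun x => ?_) ?_
    · rw [norm_mul]
      exact mul_le_mul (hB _) (hB _) (norm_nonneg _) hB0
    · filter_upwards [hz] with z hz'
      exact ((f.continuous.tendsto z).comp hz').mul_const _
  have hinv : ∀ m, ∫ x, f (a m • x) ∂μ = c := by
    intro m
    exact Pool.Agent.Work.MP_67388f_an.integral_inv (hμ m) f
  obtain ⟨C, hC⟩ := hmix
  have hnorm : ∀ k : ℕ, ‖(k • e : V r)‖ = (k : ℝ) := by
    intro k
    rw [he, ← Pi.single_smul, Pi.norm_single]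
    simp
  have hest : ∀ᶠ j in atTop, |∫ x, f (a (n j • e) • x) * f x ∂μ - c * c| ≤
      C * ((n j : ℕ) : ℝ) ^ (-κ) := by
    filter_upwards [hnt.eventually_gt_atTop 0] with j hj
    have h1 := hC [n j • e] [0] (n j : ℝ) (by simp) hj (by
      intro m hm m' hm'
      rw [List.mem_singleton] at hm hm'
      rw [hm, hm', sub_zero, hnorm])
    simp only [List.map_cons, List.map_nil, List.prod_cons, List.prod_nil, mul_one, ha0,
      one_smul] at h1
    rw [hinv] at h1
    exact h1
  have h0 : Tendsto (fun j => C * ((n j : ℕ) : ℝ) ^ (-κ)) atTop (𝓝 0) := by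
    have := ((tendsto_rpow_neg_atTop hκ).comp hnt).const_mul C
    rw [mul_zero] at this
    exact this
  have hsq : |∫ x, f x * f x ∂μ - c * c| ≤ 0 :=
    le_of_tendsto_of_tendsto (hlim.sub_const (c * c)).abs h0 hest
  have hsq' : ∫ x, f x * f x ∂μ = c * c :=
    sub_eq_zero.1 (abs_eq_zero.1 (le_antisymm hsq (abs_nonneg _)))
  have hif := int_cpt μ f hf
  have hiff : Integrable (fun x => f x * f x) μ :=
    Integrable.of_bound (C := B * B) (f.continuous.mul f.continuous).measurable.aestronglyMeasurable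
      (Eventually.of_forall fun x => by
        rw [norm_mul]
        exact mul_le_mul (hB _) (hB _) (norm_nonneg _) hB0)
  have hi1 : Integrable (fun x => 2 * c * f x) μ := hif.const_mul _
  have hi2 : Integrable (fun x => f x * f x - 2 * c * f x) μ := hiff.sub hi1
  have hvar : ∫ x, (f x - c) ^ 2 ∂μ = 0 := by
    have h1 : ∀ x, (f x - c) ^ 2 = f x * f x - 2 * c * f x + c * c := fun x => by ring
    simp only [h1]
    rw [integral_add hi2 (integrable_const _),
      integral_sub hiff hi1, integral_const_mul, hsq', integral_const]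
    simp only [probReal_univ, one_smul, ← hcdef]
    ring
  have hint : Integrable (fun x => (f x - c) ^ 2) μ := by
    have h1 : ∀ x, (f x - c) ^ 2 = f x * f x - 2 * c * f x + c * c := fun x => by ring
    simp only [h1]
    exact hi2.add (integrable_const _)
  have h2 := (integral_eq_zero_iff_of_nonneg (fun x => sq_nonneg (f x - c)) hint).1 hvar
  filter_upwards [h2] with x hx
  have h3 : (f x - c) ^ 2 = 0 := hx
  exact sub_eq_zero.1 (pow_eq_zero_iff two_ne_zero |>.1 h3)

end aux

theorem dirac_of_orbit {G X : Type*} [Group G] [TopologicalSpace G] [TopologicalSpace X]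
    [LocallyCompactSpace X] [T2Space X] [SecondCountableTopology X] [MeasurableSpace X]
    [BorelSpace X] [MulAction G X] [ContinuousSMul G X] {r : ℕ} (hr : 1 ≤ r) (a : V r → G)
    (ha : ∀ m m', a (m + m') = a m * a m') (μ : Measure X)
    [IsProbabilityMeasure μ] (hμ : ∀ m, μ.map (fun x => a m • x) = μ)
    (Z : Subgroup G) (hZ : ∀ c ∈ Z, ∀ m, a m * c = c * a m) (x₀ : X)
    (h₀ : μ {y | ∃ c ∈ Z, y = c • x₀}ᶜ = 0) (hmix : PolyMix a μ 2) :
    ∃ x : X, μ = Measure.dirac x := by
  refine dirac_of_const μ fun θ hθ => ⟨∫ y, θ y ∂μ, ?_⟩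
  have hstep : ∀ n : ℕ, ∀ᵐ x ∂μ, |θ x - ∫ y, θ y ∂μ| ≤ 2 * (1 / ((n : ℝ) + 1)) := by
    intro n
    have hε : (0 : ℝ) < 1 / ((n : ℝ) + 1) := Nat.one_div_pos_of_nat
    obtain ⟨f, hf, hfθ, κ, hκ, hm⟩ := hmix θ hθ _ hε
    have h1 := const_of_mix hr a ha μ hμ Z hZ x₀ h₀ f hf κ (one_pos.trans hκ) hm
    have hiθ := int_cpt μ θ hθ
    have hif := int_cpt μ f hf
    have h3 : |∫ x, θ x ∂μ - ∫ x, f x ∂μ| ≤ 1 / ((n : ℝ) + 1) := by
      rw [← integral_sub hiθ hif]
      refine abs_integral_le_integral_abs.trans ?_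
      refine (integral_mono (hiθ.sub hif).abs (integrable_const _) hfθ).trans ?_
      simp
    filter_upwards [h1] with x hx
    have h4 : θ x - ∫ y, θ y ∂μ = (θ x - f x) - (∫ y, θ y ∂μ - ∫ y, f y ∂μ) := by
      rw [hx]
      ring
    rw [h4]
    refine (abs_sub _ _).trans ?_
    have h5 := hfθ x
    linarith
  filter_upwards [ae_all_iff.2 hstep] with x hx
  have h1 : Tendsto (fun n : ℕ => 2 * (1 / ((n : ℝ) + 1))) atTop (𝓝 (2 * 0)) :=
    tendsto_one_div_add_atTop_nhds_zero_nat.const_mul 2
  rw [mul_zero] at h1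
  have h2 : |θ x - ∫ y, θ y ∂μ| ≤ 0 := ge_of_tendsto' h1 hx
  exact sub_eq_zero.1 (abs_eq_zero.1 (le_antisymm h2 (abs_nonneg _)))

end PoolMX
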