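import Pool.Agent.Work.MP_67388f_an.MX.Cnt
import Pool.Agent.Work.MP_67388f_an.MX.EDefs

/-!
MODULE EVec (size S-M). Long vectors in thin strips. Uses `strip_card_le`, `le_strip_card` (Cnt).

`c (Q+1)^(r-1) ≤ #(strip w N η Q)` and `#(strip w 1 η ρ) ≤ C (ρ+1)^(r-1)`. If every `v ∈ strip w N η Q` had
`P ‖v‖ < Q`, then `|v i| ≤ Q / P` (natural division, since `|v i| ≤ ‖v‖` is an integer `< Q/P`), so
`strip w N η Q ⊆ strip w 1 η (Q / P)` and `c (Q+1)^(r-1) ≤ C (Q/P + 1)^(r-1) ≤ C (2 (Q+1) / P)^(r-1)` for `Q ≥ P`.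
Choose `P ≥ 2` with `C * (2/P) < c`; as `2/P ≤ 1` and `r - 1 ≥ 1`, `(2/P)^(r-1) ≤ 2/P`: contradiction.
-/

set_option autoImplicit false

namespace PoolMX

theorem exists_vec {r : ℕ} (hr : 2 ≤ r) (w : V r →+ ℝ) (hw : w ≠ 0) (N : ℕ) (hN : 0 < N) (η : ℝ)
    (hη : 0 < η) :
    ∃ P : ℕ, 0 < P ∧ ∀ Q : ℕ, P ≤ Q → ∃ v ∈ strip w N η Q, (Q : ℝ) ≤ P * ‖v‖ := by
  obtain ⟨C, hC, hC'⟩ := strip_card_le w hw η hη
  obtain ⟨c, hc, hc'⟩ := le_strip_card (by omega : 1 ≤ r) w N hN η hη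
  obtain ⟨P₀, hP₀⟩ := exists_nat_gt (2 * C / c)
  refine ⟨P₀ + 2, by omega, fun Q hQ => ?_⟩
  by_contra hcon
  push Not at hcon
  have hPR : (0 : ℝ) < ((P₀ + 2 : ℕ) : ℝ) := by positivity
  have h2C : 2 * C < c * ((P₀ + 2 : ℕ) : ℝ) := by
    rw [div_lt_iff₀ hc] at hP₀
    push_cast
    nlinarith
  have hsub : strip w N η Q ⊆ strip w 1 η (Q / (P₀ + 2)) := by
    intro v hv
    have h1 := hcon v hv
    rw [mem_strip] at hv ⊢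
    refine ⟨fun i => ?_, fun i => by simp, hv.2.2⟩
    have h2 : ‖v i‖ ≤ ‖v‖ := norm_le_pi_norm v i
    rw [Int.norm_eq_abs] at h2
    have h3 : ((P₀ + 2 : ℕ) : ℝ) * |(v i : ℝ)| < Q :=
      lt_of_le_of_lt (mul_le_mul_of_nonneg_left h2 hPR.le) h1
    have h4 : ((P₀ + 2 : ℕ) : ℤ) * |v i| < (Q : ℤ) := by exact_mod_cast h3
    rw [Int.natCast_div]
    refine Int.le_ediv_of_mul_le (by positivity) ?_
    rw [mul_comm]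
    exact h4.le
  have h5 : ((strip w N η Q).card : ℝ) ≤ ((strip w 1 η (Q / (P₀ + 2))).card : ℝ) := by
    exact_mod_cast Finset.card_le_card hsub
  have h6 := (hc' Q).trans (h5.trans (hC' (Q / (P₀ + 2))))
  have hQR : ((P₀ + 2 : ℕ) : ℝ) ≤ (Q : ℝ) := by exact_mod_cast hQ
  have h7 : ((Q / (P₀ + 2) : ℕ) : ℝ) + 1 ≤ 2 / ((P₀ + 2 : ℕ) : ℝ) * ((Q : ℝ) + 1) := by
    have h8 : ((Q / (P₀ + 2) : ℕ) : ℝ) ≤ (Q : ℝ) / ((P₀ + 2 : ℕ) : ℝ) := Nat.cast_div_le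
    have h9 : (1 : ℝ) ≤ (Q : ℝ) / ((P₀ + 2 : ℕ) : ℝ) := by
      rw [le_div_iff₀ hPR, one_mul]
      exact hQR
    have h10 : 2 / ((P₀ + 2 : ℕ) : ℝ) * ((Q : ℝ) + 1) =
        (Q : ℝ) / ((P₀ + 2 : ℕ) : ℝ) + (Q : ℝ) / ((P₀ + 2 : ℕ) : ℝ) +
          2 / ((P₀ + 2 : ℕ) : ℝ) := by
      ring
    have h11 : 0 < 2 / ((P₀ + 2 : ℕ) : ℝ) := by positivity
    rw [h10]
    linarith
  have h12 : (2 / ((P₀ + 2 : ℕ) : ℝ)) ^ (r - 1) ≤ 2 / ((P₀ + 2 : ℕ) : ℝ) := by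
    have h13 : 2 / ((P₀ + 2 : ℕ) : ℝ) ≤ 1 := by
      rw [div_le_one hPR]
      push_cast
      have : (0 : ℝ) ≤ (P₀ : ℝ) := Nat.cast_nonneg _
      linarith
    have h14 : 0 ≤ 2 / ((P₀ + 2 : ℕ) : ℝ) := by positivity
    calc (2 / ((P₀ + 2 : ℕ) : ℝ)) ^ (r - 1) ≤ (2 / ((P₀ + 2 : ℕ) : ℝ)) ^ 1 :=
          pow_le_pow_of_le_one h14 h13 (by omega)
      _ = _ := pow_one _
  have h15 : (((Q / (P₀ + 2) : ℕ) : ℝ) + 1) ^ (r - 1) ≤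
      2 / ((P₀ + 2 : ℕ) : ℝ) * ((Q : ℝ) + 1) ^ (r - 1) := by
    calc (((Q / (P₀ + 2) : ℕ) : ℝ) + 1) ^ (r - 1)
        ≤ (2 / ((P₀ + 2 : ℕ) : ℝ) * ((Q : ℝ) + 1)) ^ (r - 1) :=
          pow_le_pow_left₀ (by positivity) h7 _
      _ = (2 / ((P₀ + 2 : ℕ) : ℝ)) ^ (r - 1) * ((Q : ℝ) + 1) ^ (r - 1) := mul_pow _ _ _
      _ ≤ _ := mul_le_mul_of_nonneg_right h12 (by positivity)
  have h16 : 0 < ((Q : ℝ) + 1) ^ (r - 1) := by positivity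
  have h17 : c * ((Q : ℝ) + 1) ^ (r - 1) ≤
      C * (2 / ((P₀ + 2 : ℕ) : ℝ)) * ((Q : ℝ) + 1) ^ (r - 1) := by
    refine h6.trans ?_
    rw [mul_assoc]
    exact mul_le_mul_of_nonneg_left h15 hC.le
  have h18 : c ≤ C * (2 / ((P₀ + 2 : ℕ) : ℝ)) := le_of_mul_le_mul_right h17 h16
  rw [mul_div_assoc', le_div_iff₀ hPR] at h18
  linarith

end PoolMX
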