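import Pool.Agent.Work.MP_67388f_an.MX.EMom
import Pool.Agent.Work.MP_67388f_an.MX.EVec

/-!
MODULE ESum (size M-L). Exponential mixing of order two gives samples with complete convergence (`2 ≤ r`).
Uses `exists_vec`, `tree_*`, `tree_moment` (stubs).

Take the data of `ExpMix`. Given `N`, `η`: `exists_vec` gives `P`. For `q : ℕ` let `Λ = Λ(q)` be a natural number `≥ 2` with
`Λ ≥ 2 q P (1 + 2 |L|) / c`, e.g. `Λ = ⌈2 P (1 + 2|L|) / c⌉₊ * q + 2`, linear in `q`; choose `q ≥ 1` with `Λ(q)^2 ≤ 2^q`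
(exponential beats polynomial; `tendsto_pow_const_div_const_pow_of_one_lt` or an explicit estimate).
`v j ∈ strip w N η (P Λ^j)` with `P Λ^j ≤ P ‖v j‖`, i.e. `Λ^j ≤ ‖v j‖ ≤ P Λ^j` (`exists_vec` with `Q = P Λ^j ≥ P`).
Then `∑_{i<j} ‖v i‖ ≤ P ∑_{i<j} Λ^i ≤ P Λ^j` and more precisely `≤ 2 P Λ^j / Λ` for all `j` (`Λ ≥ 2`: `∑_{i<j} Λ^i ≤ 2 Λ^(j-1)` for `j ≥ 1`,
and `0` for `j = 0`), and `j ≤ Λ^j / Λ * ... `: for `j ≥ 1`, `j log 2 ≤ j ≤ 2^(j-1) ≤ Λ^(j-1)`. So the hypothesis `hv` of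
`tree_moment`: `2 q (j log 2 + |L| ∑) ≤ 2 q (1 + 2 P |L|) Λ^(j-1) ≤ c Λ^j ≤ c ‖v j‖` if `Λ ≥ 2 q (1 + 2 P |L|) / c` (`j ≥ 1`); `j = 0`: `0 ≤ c ‖v 0‖`.
(Use this value of the constant in the choice of `Λ`.)
`k R = Nat.log Λ (R / (2 P))`, `F R = tree w v (k R) 0`. Members `m`: `‖m‖ ≤ ∑_{i<k} ‖v i‖ ≤ P Λ^k ≤ R` if `k ≥ 1` (`Nat.pow_log_le_self`), `m = 0` if
`k = 0`; so `|m i| ≤ R`; `N ∣ m i` and `|w m| < η` by `tree_strip`. So `m ∈ strip w N η R`. `F R ≠ []` by `tree_length`.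
Complete convergence for `f ∈ T` with compact support: `lavg a (F R) f x - c₀ = S / 2^k`, `S` the sum in `tree_moment`
(`p = 0`). Markov: `μ.real {δ < |S / 2^k|} ≤ ∫ S^(2q) / (δ 2^k)^(2q) ≤ M 2^(qk) / (δ^(2q) 2^(2qk)) = M δ^(-2q) 2^(-qk)`, and
`2^(-q k) ≤ Λ^(-2k) ≤ (2 P Λ)^2 / R^2` for `R ≥ 1`, as `R < 2 P Λ^(k+1)` (`Nat.lt_pow_succ_log_self`). Summable.
-/

set_option autoImplicit false

namespace PoolMX

open MeasureTheory Filter Topology

section aux

private lemma geom_le (Λ : ℕ) (hΛ : 2 ≤ Λ) (j : ℕ) :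
    ∑ i ∈ Finset.range (j + 1), (Λ : ℝ) ^ i ≤ 2 * (Λ : ℝ) ^ j := by
  have hΛ' : (2 : ℝ) ≤ (Λ : ℝ) := by exact_mod_cast hΛ
  induction j with
  | zero => simp
  | succ j ih =>
    rw [Finset.sum_range_succ]
    have h1 : 0 ≤ (Λ : ℝ) ^ j := by positivity
    have h2 : 2 * (Λ : ℝ) ^ j ≤ (Λ : ℝ) ^ (j + 1) := by
      rw [pow_succ, mul_comm]
      exact mul_le_mul_of_nonneg_left hΛ' h1
    linarith

private lemma le_two_pow (j : ℕ) : ((j + 1 : ℕ) : ℝ) ≤ 2 ^ j := by
  induction j with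
  | zero => simp
  | succ j ih =>
    rw [pow_succ]
    push_cast at ih ⊢
    have : (0 : ℝ) ≤ j := Nat.cast_nonneg j
    linarith

private lemma exists_q (A : ℕ) : ∃ q : ℕ, 1 ≤ q ∧ (A * q) ^ 2 ≤ 2 ^ q := by
  have h1 := tendsto_pow_const_div_const_pow_of_one_lt 2 (one_lt_two (α := ℝ))
  have h2 : ∀ᶠ n : ℕ in atTop, (n : ℝ) ^ 2 / 2 ^ n < 1 / ((A : ℝ) + 1) ^ 2 :=
    h1.eventually (gt_mem_nhds (by positivity))
  obtain ⟨q, hq, hq1⟩ := (h2.and (eventually_ge_atTop 1)).exists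
  refine ⟨q, hq1, ?_⟩
  rw [div_lt_div_iff₀ (by positivity) (by positivity)] at hq
  have h3 : ((A : ℝ) * q) ^ 2 ≤ 2 ^ q := by
    have h4 : ((A : ℝ) * q) ^ 2 ≤ (((A : ℝ) + 1) * q) ^ 2 := by
      apply pow_le_pow_left₀ (by positivity)
      exact mul_le_mul_of_nonneg_right (by linarith) (Nat.cast_nonneg _)
    rw [mul_pow ((A : ℝ) + 1)] at h4
    linarith
  exact_mod_cast h3

private lemma exp_le (c : ℝ) (hc : 0 < c) (x : ℝ) (hx : 0 < x) :
    Real.exp (-c * x) ≤ 2 / c ^ 2 * x ^ (-(2 : ℝ)) := by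
  have h1 : (c * x) ^ 2 / 2 ≤ Real.exp (c * x) := by
    have := Real.quadratic_le_exp_of_nonneg (mul_pos hc hx).le
    nlinarith [mul_pos hc hx]
  have h2 : x ^ (-(2 : ℝ)) = (x ^ 2)⁻¹ := by
    rw [Real.rpow_neg hx.le]
    norm_num
  rw [neg_mul, Real.exp_neg, h2, ← div_eq_mul_inv, div_div, inv_eq_one_div,
    div_le_div_iff₀ (Real.exp_pos _) (by positivity)]
  rw [mul_pow] at h1
  linarith

private lemma int_bdd {X : Type*} [TopologicalSpace X] [MeasurableSpace X] [BorelSpace X]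
    (μ : Measure X) [IsFiniteMeasure μ] (f : X → ℝ) (hf : Continuous f) (B : ℝ)
    (hB : ∀ x, |f x| ≤ B) : Integrable f μ :=
  Integrable.of_bound (C := B) hf.measurable.aestronglyMeasurable (Eventually.of_forall hB)

end aux

theorem sampled_of_exp {G X : Type*} [Group G] [TopologicalSpace G] [TopologicalSpace X]
    [MeasurableSpace X] [BorelSpace X] [MulAction G X] [ContinuousSMul G X] {r : ℕ}
    (hr : 2 ≤ r) (a : V r → G) (ha : ∀ m m', a (m + m') = a m * a m') (μ : Measure X)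
    [IsProbabilityMeasure μ] (hμ : ∀ m, μ.map (fun x => a m • x) = μ) (h : ExpMix a μ)
    (w : V r →+ ℝ) (hw : w ≠ 0) : Sampled a μ w := by
  obtain ⟨T, nm, K, L, c, hc, hconst, halg, htr, hmix, hdense⟩ := h
  intro N η hN hη
  obtain ⟨P, hP, hvec⟩ := exists_vec hr w hw N hN η hη
  have hPr : (0 : ℝ) < (P : ℝ) := by exact_mod_cast hP
  obtain ⟨κ, hκ⟩ : ∃ κ : ℝ, κ = 2 * (1 + 2 * P * |L|) / c := ⟨_, rfl⟩
  obtain ⟨q, hq1, hq⟩ := exists_q (⌈κ⌉₊ + 2)
  obtain ⟨Λ, hΛ⟩ : ∃ Λ : ℕ, Λ = (⌈κ⌉₊ + 2) * q := ⟨_, rfl⟩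
  have hΛ2 : 2 ≤ Λ := by
    rw [hΛ]
    nlinarith [Nat.zero_le ⌈κ⌉₊]
  have hΛr : (2 : ℝ) ≤ (Λ : ℝ) := by exact_mod_cast hΛ2
  have hΛκ : 2 * q * (1 + 2 * P * |L|) ≤ c * Λ := by
    have h1 : κ * q ≤ (Λ : ℝ) := by
      rw [hΛ]
      push_cast
      exact mul_le_mul_of_nonneg_right ((Nat.le_ceil κ).trans (by linarith)) (Nat.cast_nonneg _)
    have h2 : c * κ = 2 * (1 + 2 * P * |L|) := by
      rw [hκ]
      field_simp
    have h3 : c * (κ * q) ≤ c * Λ := mul_le_mul_of_nonneg_left h1 hc.le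
    calc 2 * q * (1 + 2 * P * |L|) = c * κ * q := by rw [h2]; ring
      _ = c * (κ * q) := by ring
      _ ≤ c * Λ := h3
  have hΛq : Λ ^ 2 ≤ 2 ^ q := by rw [hΛ]; exact hq
  have hvj : ∀ j : ℕ, ∃ v ∈ strip w N η (P * Λ ^ j), ((P * Λ ^ j : ℕ) : ℝ) ≤ P * ‖v‖ := fun j =>
    hvec _ (Nat.le_mul_of_pos_right _ (pow_pos (by omega) j))
  choose v hvs hvn using hvj
  have hlow : ∀ j, (Λ : ℝ) ^ j ≤ ‖v j‖ := by
    intro j
    have := hvn j
    push_cast at this
    exact le_of_mul_le_mul_left this hPr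
  have hup : ∀ j, ‖v j‖ ≤ P * (Λ : ℝ) ^ j := by
    intro j
    rw [pi_norm_le_iff_of_nonneg (by positivity)]
    intro i
    have h1 := (mem_strip.1 (hvs j)).1 i
    rw [Int.norm_eq_abs]
    have h2 : ((|v j i| : ℤ) : ℝ) ≤ (((P * Λ ^ j : ℕ) : ℤ) : ℝ) := Int.cast_le.2 h1
    push_cast at h2
    exact h2
  have hsum : ∀ j, ∑ i ∈ Finset.range (j + 1), ‖v i‖ ≤ 2 * P * (Λ : ℝ) ^ j := by
    intro j
    calc ∑ i ∈ Finset.range (j + 1), ‖v i‖ ≤ ∑ i ∈ Finset.range (j + 1), P * (Λ : ℝ) ^ i :=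
          Finset.sum_le_sum fun i _ => hup i
      _ = P * ∑ i ∈ Finset.range (j + 1), (Λ : ℝ) ^ i := by rw [Finset.mul_sum]
      _ ≤ P * (2 * (Λ : ℝ) ^ j) := mul_le_mul_of_nonneg_left (geom_le Λ hΛ2 j) hPr.le
      _ = 2 * P * (Λ : ℝ) ^ j := by ring
  have hv : ∀ j : ℕ, 2 * q * (j * Real.log 2 + |L| * ∑ i ∈ Finset.range j, ‖v i‖) ≤
      c * ‖v j‖ := by
    intro j
    rcases j with _ | j
    · simp only [CharP.cast_eq_zero, zero_mul, Finset.range_zero, Finset.sum_empty, mul_zero,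
        add_zero]
      positivity
    · have h1 : ((j + 1 : ℕ) : ℝ) * Real.log 2 ≤ (Λ : ℝ) ^ j := by
        have e1 : Real.log 2 ≤ 1 := by
          have := Real.log_two_lt_d9
          linarith
        have e2 : ((j + 1 : ℕ) : ℝ) ≤ 2 ^ j := le_two_pow j
        have e3 : (2 : ℝ) ^ j ≤ (Λ : ℝ) ^ j := pow_le_pow_left₀ (by norm_num) hΛr j
        calc ((j + 1 : ℕ) : ℝ) * Real.log 2 ≤ ((j + 1 : ℕ) : ℝ) * 1 :=
              mul_le_mul_of_nonneg_left e1 (Nat.cast_nonneg _)
          _ ≤ (Λ : ℝ) ^ j := by linarith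
      have h2 : |L| * ∑ i ∈ Finset.range (j + 1), ‖v i‖ ≤ |L| * (2 * P * (Λ : ℝ) ^ j) :=
        mul_le_mul_of_nonneg_left (hsum j) (abs_nonneg _)
      have h3 : 2 * (q : ℝ) * (((j + 1 : ℕ) : ℝ) * Real.log 2 +
          |L| * ∑ i ∈ Finset.range (j + 1), ‖v i‖) ≤
          2 * q * ((Λ : ℝ) ^ j + |L| * (2 * P * (Λ : ℝ) ^ j)) :=
        mul_le_mul_of_nonneg_left (by linarith) (by positivity)
      refine h3.trans ?_
      have h4 : 2 * (q : ℝ) * ((Λ : ℝ) ^ j + |L| * (2 * P * (Λ : ℝ) ^ j)) =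
          2 * q * (1 + 2 * P * |L|) * (Λ : ℝ) ^ j := by ring
      have h5 : 2 * q * (1 + 2 * P * |L|) * (Λ : ℝ) ^ j ≤ c * Λ * (Λ : ℝ) ^ j :=
        mul_le_mul_of_nonneg_right hΛκ (by positivity)
      have h6 : c * Λ * (Λ : ℝ) ^ j = c * (Λ : ℝ) ^ (j + 1) := by rw [pow_succ]; ring
      rw [h4]
      refine h5.trans ?_
      rw [h6]
      exact mul_le_mul_of_nonneg_left (hlow _) hc.le
  obtain ⟨k, hk⟩ : ∃ k : ℕ → ℕ, k = fun R => Nat.log Λ (R / P) := ⟨_, rfl⟩
  refine ⟨fun R => tree w v (k R) 0, fun R => ⟨?_, fun m hm => ?_⟩, ?_⟩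
  · intro h0
    have := tree_length w v (k R) 0
    have h0' : tree w v (k R) 0 = [] := h0
    rw [h0'] at this
    simp only [List.length_nil] at this
    exact absurd this.symm (pow_ne_zero _ two_ne_zero)
  · have h1 := tree_near w v (k R) 0 m hm
    rw [sub_zero] at h1
    have h2 : ‖m‖ ≤ (R : ℝ) := by
      rcases Nat.eq_zero_or_pos (k R) with h0 | h0
      · rw [h0] at h1
        simp only [Finset.range_zero, Finset.sum_empty] at h1
        exact h1.trans (Nat.cast_nonneg _)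
      · obtain ⟨k', hk'⟩ : ∃ k', k R = k' + 1 := ⟨k R - 1, by omega⟩
        have h3 : R / P ≠ 0 := by
          intro h4
          rw [hk] at h0
          simp only [h4, Nat.log_zero_right] at h0
          omega
        have h4 : Λ ^ (k R) ≤ R / P := by
          rw [hk]
          exact Nat.pow_log_le_self Λ h3
        have h5 : P * Λ ^ (k R) ≤ R := by
          calc P * Λ ^ (k R) ≤ P * (R / P) := Nat.mul_le_mul_left _ h4
            _ ≤ R := Nat.mul_div_le R P
        have h6 : (P : ℝ) * (Λ : ℝ) ^ (k R) ≤ (R : ℝ) := by exact_mod_cast h5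
        rw [hk'] at h1 h6
        have h7 := hsum k'
        have h8 : 2 * P * (Λ : ℝ) ^ k' ≤ P * (Λ : ℝ) ^ (k' + 1) := by
          rw [pow_succ]
          have e1 : 2 * P * (Λ : ℝ) ^ k' = P * ((Λ : ℝ) ^ k' * 2) := by ring
          rw [e1]
          exact mul_le_mul_of_nonneg_left (mul_le_mul_of_nonneg_left hΛr (by positivity)) hPr.le
        linarith
    rw [mem_strip]
    have h3 := tree_strip w v N η (fun j => (mem_strip.1 (hvs j)).2) (k R) 0 m
      ⟨fun i => by simp, by simpa using hη⟩ hm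
    refine ⟨fun i => ?_, h3⟩
    have h4 : ‖m i‖ ≤ (R : ℝ) := (norm_le_pi_norm m i).trans h2
    rw [Int.norm_eq_abs] at h4
    have h5 : ((|m i| : ℤ) : ℝ) ≤ ((R : ℤ) : ℝ) := by push_cast; exact h4
    exact Int.cast_le.1 h5
  · intro θ hθ ε hε
    obtain ⟨f, hf, hfc, hfθ⟩ := hdense θ hθ ε hε
    refine ⟨f, hfc, hfθ, fun δ hδ => ?_⟩
    obtain ⟨M, hM0, hM⟩ := tree_moment a ha μ hμ T nm K L c hc hconst halg htr hmix w v q hv f hf
    obtain ⟨c₀, hc₀⟩ : ∃ c₀, c₀ = ∫ y, f y ∂μ := ⟨_, rfl⟩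
    rw [← hc₀]
    have hbound : ∀ R : ℕ, μ.real {x | δ < |lavg a (tree w v (k R) 0) f x - c₀|} ≤
        (M / δ ^ (2 * q) * (P * Λ) ^ 2) * (1 / ((R + 1 : ℕ) : ℝ) ^ 2) := by
      intro R
      obtain ⟨n, hn⟩ : ∃ n, n = k R := ⟨_, rfl⟩
      rw [← hn]
      obtain ⟨S, hS⟩ : ∃ S : X → ℝ, S = fun x =>
        ((tree w v n 0).map fun m => f (a m • x) - c₀).sum := ⟨_, rfl⟩
      have hlist : ∀ (l : List (V r)) (x : X), (l.map fun m => f (a m • x) - c₀).sum =
          (l.map fun m => f (a m • x)).sum - l.length * c₀ := by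
        intro l x
        induction l with
        | nil => simp
        | cons m l ih =>
          rw [List.map_cons, List.sum_cons, ih, List.map_cons, List.sum_cons, List.length_cons]
          push_cast
          ring
      have h2n : (0 : ℝ) < 2 ^ n := by positivity
      have hlavg : ∀ x, lavg a (tree w v n 0) f x - c₀ = S x / 2 ^ n := by
        intro x
        unfold lavg
        rw [hS]
        simp only
        rw [hlist, tree_length]
        push_cast
        field_simp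
      have hScont : Continuous S := by
        have : ∀ l : List (V r), Continuous fun x : X => (l.map fun m => f (a m • x) - c₀).sum := by
          intro l
          induction l with
          | nil => simpa using continuous_const
          | cons m l ih =>
            simp only [List.map_cons, List.sum_cons]
            exact ((f.continuous.comp (continuous_const_smul _)).sub continuous_const).add ih
        rw [hS]
        exact this _
      have hSbd : ∃ Bd : ℝ, ∀ x, |S x| ≤ Bd := by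
        have : ∀ l : List (V r), ∀ x, |(l.map fun m => f (a m • x) - c₀).sum| ≤
            l.length * (nm f + |c₀|) := by
          intro l x
          induction l with
          | nil => simp
          | cons m l ih =>
            rw [List.map_cons, List.sum_cons, List.length_cons]
            refine (abs_add_le _ _).trans ?_
            have e1 : |f (a m • x) - c₀| ≤ nm f + |c₀| := (abs_sub _ _).trans
              (by have := (htr f hf).1 (a m • x); linarith)
            push_cast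
            linarith
        exact ⟨_, fun x => by rw [hS]; exact this _ x⟩
      obtain ⟨Bd, hBd⟩ := hSbd
      have hint : Integrable (fun x => S x ^ (2 * q)) μ :=
        int_bdd μ _ (hScont.pow _) (Bd ^ (2 * q)) fun x => by
          rw [abs_pow]
          exact pow_le_pow_left₀ (abs_nonneg _) (hBd x) _
      have hmom : ∫ x, S x ^ (2 * q) ∂μ ≤ M * 2 ^ (q * n) := by
        have := hM n 0
        rw [← hc₀] at this
        rw [hS]
        exact (le_abs_self _).trans this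
      have hmark := mul_meas_ge_le_integral_of_nonneg (μ := μ) (f := fun x => S x ^ (2 * q))
        (Eventually.of_forall fun x => by
          simp only [Pi.zero_apply]
          rw [pow_mul]
          positivity) hint ((δ * 2 ^ n) ^ (2 * q))
      have hsub : {x | δ < |lavg a (tree w v n 0) f x - c₀|} ⊆
          {x | (δ * 2 ^ n) ^ (2 * q) ≤ S x ^ (2 * q)} := by
        intro x hx
        simp only [Set.mem_ofPred_eq] at hx ⊢
        rw [hlavg, abs_div, abs_of_pos h2n, lt_div_iff₀ h2n] at hx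
        have e1 : S x ^ (2 * q) = |S x| ^ (2 * q) := by
          rw [pow_mul, pow_mul, sq_abs]
        rw [e1]
        exact pow_le_pow_left₀ (by positivity) hx.le _
      have hpos : 0 < (δ * 2 ^ n) ^ (2 * q) := by positivity
      have h1 : μ.real {x | δ < |lavg a (tree w v n 0) f x - c₀|} ≤
          M * 2 ^ (q * n) / (δ * 2 ^ n) ^ (2 * q) := by
        rw [le_div_iff₀ hpos, mul_comm]
        refine le_trans ?_ hmom
        refine le_trans ?_ hmark
        exact mul_le_mul_of_nonneg_left (measureReal_mono hsub) hpos.le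
      refine h1.trans ?_
      have h3 : (R + 1 : ℕ) ≤ P * Λ * Λ ^ n := by
        have e1 : R / P < Λ ^ (n + 1) := by
          rw [hn, hk]
          exact Nat.lt_pow_succ_log_self (by omega) _
        rw [Nat.div_lt_iff_lt_mul hP] at e1
        have e2 : Λ ^ (n + 1) * P = P * Λ * Λ ^ n := by rw [pow_succ]; ring
        omega
      have h4 : (((R + 1 : ℕ) : ℝ)) ^ 2 ≤ (P * Λ) ^ 2 * 2 ^ (q * n) := by
        have e1 : (((R + 1 : ℕ) : ℝ)) ≤ P * Λ * (Λ : ℝ) ^ n := by exact_mod_cast h3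
        have e2 : ((Λ : ℝ) ^ 2) ^ n ≤ (2 ^ q) ^ n := by
          apply pow_le_pow_left₀ (by positivity)
          exact_mod_cast hΛq
        calc (((R + 1 : ℕ) : ℝ)) ^ 2 ≤ (P * Λ * (Λ : ℝ) ^ n) ^ 2 :=
              pow_le_pow_left₀ (Nat.cast_nonneg _) e1 2
          _ = (P * Λ) ^ 2 * ((Λ : ℝ) ^ 2) ^ n := by ring
          _ ≤ (P * Λ) ^ 2 * (2 ^ q) ^ n := mul_le_mul_of_nonneg_left e2 (by positivity)
          _ = (P * Λ) ^ 2 * 2 ^ (q * n) := by rw [pow_mul]
      have h5 : M * 2 ^ (q * n) / (δ * 2 ^ n) ^ (2 * q) = M / δ ^ (2 * q) / 2 ^ (q * n) := by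
        have e1 : (δ * 2 ^ n) ^ (2 * q) = δ ^ (2 * q) * (2 ^ (q * n) * 2 ^ (q * n)) := by
          rw [mul_pow, ← pow_mul, ← pow_add]
          congr 2
          ring
        rw [e1]
        field_simp
      have hR : (0 : ℝ) < ((R + 1 : ℕ) : ℝ) := by positivity
      rw [h5, mul_assoc, div_eq_mul_inv (M / δ ^ (2 * q))]
      refine mul_le_mul_of_nonneg_left ?_ (by positivity)
      rw [inv_eq_one_div, mul_one_div, div_le_div_iff₀ (by positivity) (by positivity)]
      linarith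
    refine Summable.of_nonneg_of_le (fun R => measureReal_nonneg) hbound ?_
    refine Summable.mul_left _ ?_
    exact (summable_nat_add_iff 1).2 (Real.summable_one_div_nat_pow.2 one_lt_two)

/-- Exponential mixing implies polynomial mixing of order two. -/
theorem ExpMix.poly {G X : Type*} [Group G] [TopologicalSpace G] [TopologicalSpace X]
    [MeasurableSpace X] [BorelSpace X] [MulAction G X] [ContinuousSMul G X] {r : ℕ}
    {a : V r → G} (ha : ∀ m m', a (m + m') = a m * a m') {μ : Measure X}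
    [IsProbabilityMeasure μ] (hμ : ∀ m, μ.map (fun x => a m • x) = μ) (h : ExpMix a μ) :
    PolyMix a μ 2 := by
  -- exponent `κ = 2`, constant `C = nm f ^ 2 * C₀`, where `exp (-c x) ≤ C₀ x ^ (-2)` for `x > 0`. Lists of total length at
  -- most 2: if one of them is empty the difference is zero (`C ≥ 0`); otherwise `[m]`, `[m']`, and
  -- `∫ f (a m • x) f (a m' • x) = ∫ f x f (a (m' - m) • x)` by invariance.
  obtain ⟨T, nm, K, L, c, hc, hconst, halg, htr, hmix, hdense⟩ := h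
  have hne : Nonempty X := by
    by_contra hX
    rw [not_nonempty_iff] at hX
    have h1 : μ Set.univ = 0 := by
      rw [Set.univ_eq_empty_iff.2 hX, measure_empty]
    rw [measure_univ] at h1
    exact one_ne_zero h1
  intro θ hθ ε hε
  obtain ⟨f, hf, hfc, hfθ⟩ := hdense θ hθ ε hε
  have hnf : 0 ≤ nm f := (abs_nonneg _).trans ((htr f hf).1 (Classical.arbitrary X))
  refine ⟨f, hfc, hfθ, 2, by norm_num, nm f * nm f * (2 / c ^ 2), ?_⟩
  have hmeas : ∀ p : V r, Measurable (fun x : X => a p • x) := fun p =>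
    (continuous_const_smul (a p)).measurable
  have hshift : ∀ (p : V r) (h : C(X, ℝ)), ∫ x, h (a p • x) ∂μ = ∫ x, h x ∂μ := by
    intro p h
    have h1 : ∫ x, h x ∂(μ.map (fun x => a p • x)) = ∫ x, h (a p • x) ∂μ :=
      integral_map (hmeas p).aemeasurable h.continuous.measurable.aestronglyMeasurable
    rw [← h1, hμ]
  intro s t g hlen hg hdist
  have hrhs : 0 ≤ nm f * nm f * (2 / c ^ 2) * g ^ (-(2 : ℝ)) := by
    have := Real.rpow_pos_of_pos hg (-(2 : ℝ))
    positivity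
  match s, t with
  | [], t => simpa using hrhs
  | m :: s, [] => simpa using hrhs
  | m :: s, m' :: t =>
    simp only [List.length_cons] at hlen
    have hs : s = [] := List.eq_nil_of_length_eq_zero (by omega)
    have ht : t = [] := List.eq_nil_of_length_eq_zero (by omega)
    subst hs ht
    have hd := hdist m List.mem_cons_self m' List.mem_cons_self
    simp only [List.map_cons, List.map_nil, List.prod_cons, List.prod_nil, mul_one]
    rw [hshift m f, hshift m' f]
    obtain ⟨W, hW⟩ : ∃ W : C(X, ℝ), ∀ x, W x = f x * f (a (m' - m) • x) :=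
      ⟨⟨fun x => f x * f (a (m' - m) • x), f.continuous.mul
        (f.continuous.comp (continuous_const_smul _))⟩, fun x => rfl⟩
    have h1 : ∀ x, f (a m • x) * f (a m' • x) = W (a m • x) := by
      intro x
      rw [hW, smul_smul, ← ha, sub_add_cancel]
    simp only [h1]
    rw [hshift m W]
    simp only [hW]
    refine (hmix f hf f hf (m' - m)).trans ?_
    have h2 : g ≤ ‖m' - m‖ := by rw [norm_sub_rev]; exact hd
    have h3 : Real.exp (-c * ‖m' - m‖) ≤ Real.exp (-c * g) := by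
      rw [Real.exp_le_exp]
      nlinarith
    have h4 := exp_le c hc g hg
    calc nm f * nm f * Real.exp (-c * ‖m' - m‖)
        ≤ nm f * nm f * (2 / c ^ 2 * g ^ (-(2 : ℝ))) :=
          mul_le_mul_of_nonneg_left (h3.trans h4) (by positivity)
      _ = nm f * nm f * (2 / c ^ 2) * g ^ (-(2 : ℝ)) := by ring

end PoolMX
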