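import Pool.Agent.Work.MP_67388f_an.MX.Defs

/-!
MODULE Facet (size L). The geometric heart: blow-up of a small displacement at the nearest facet of the polytope
`{m : |a m h (a m)⁻¹| ≤ 1}`. Only the fields `nonneg, cont, eq_one, cpt, conj` of MGauge are used.

Notation. `e_i = Pi.single i 1`, `⟨c,c'⟩ = ∑_i w c e_i * w c' e_i`, `|c| = sqrt ⟨c,c⟩` (`> 0` iff `w c ≠ 0`),
`A c = ∑_i |w c e_i|`. Note `w c m = ∑_i m i * w c e_i` (additivity), so `|w c m| ≤ A c * max|m i|`.
(F1) `|w c (ctr (w β) k) - k ⟨c,β⟩/⟨β,β⟩| ≤ A c` (rounding: `|round x - x| ≤ 1/2`).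
(F2) If `w β ≠ 0`, `w c ≠ 0` and not `Ray (w β) (w c)`, then `⟨c,β⟩ < |c||β|` (equality case of Cauchy-Schwarz: equality
     would make the vectors `(w c e_i)`, `(w β e_i)` positively proportional, `inner_eq_norm_mul_iff_real` on
     `EuclideanSpace ℝ (Fin r)`). Put `γ(c,β) = |c|/|β| - ⟨c,β⟩/⟨β,β⟩ > 0`.
(F3) If `Ray (w β) (w c)` with factor `l` then `⟨c,β⟩/⟨β,β⟩ = l = |c|/|β|`.
Choose `M > 0` with `A c / M ≤ γ(c,β)/2` for all the finitely many pairs of (F2).

Let `h j → 1` and for each `j` let `T j = {c : w c ≠ 0, s c (h j) ≠ 0}`, nonempty by hypothesis. `K c j = -log (s c (h j))`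
for `c ∈ T j`. Let `β j ∈ T j` minimize `K c j / |c|` over `T j`. Take an ultrafilter `U ≤ atTop` (`hyperfilter`, or
`Ultrafilter.of atTop`); since `C` is finite there is `β` with `β j = β` for `U`-almost all `j`
(`Ultrafilter.eventually_exists...`, `Ultrafilter.finite_...`). Put `k j = ⌊K β j⌋₊`. As `s c (h j) → s c 1 = 0` for all
`c`, `K β j → ∞` along `U`, so `k j → ∞` and `k j ≤ K β j < k j + 1` eventually.
Let `g j = a (ctr (w β) (k j)) * h j * (a ..)⁻¹`, `s c (g j) = exp (w c (ctr (w β) (k j))) * s c (h j)`.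
For `c ∈ T j` (U-eventually): `K c j ≥ |c| K β j / |β| ≥ |c| k j/|β|`, hence by (F1), for all `m` with `|m i| ≤ k j / M`:
`log (exp (w c m) s c (g j)) = w c m + w c (ctr) - K c j ≤ A c k j/M + k j ⟨c,β⟩/⟨β,β⟩ + A c - |c| k j/|β|`.
* `c` not on the ray of `β`: `≤ A c - (γ/2) k j → -∞`: both `s c (g j)` (take `m = 0`) and `exp (w c m) * s c (g j)` are
  eventually `≤ δ`, uniformly in `m`. (If `c ∉ T j` and `w c ≠ 0` then `s c (h j) = 0` and both are `0`.)
* `w c = 0` (then `c` is not on the ray since `w β ≠ 0`): `exp (w c m) = 1`, `s c (g j) = s c (h j) → 0`.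
* `c` on the ray, `m = 0`: by (F3) `log s c (g j) ≤ A c`, so `s c (g j) ≤ exp (A c)` (or `= 0`).
* `c = β`: `log s β (g j) ≥ k j - A β - K β j ≥ -A β - 1`, so `s β (g j) ≥ exp (-A β - 1)`.
So `g j` is eventually in the compact set `{h | ∀ c, s c h ≤ R}` (`cpt`), hence converges along `U` to some `u`
(`IsCompact.ultrafilter_le_nhds'`), and by continuity of `s c`: `s β u ≥ exp (-A β - 1) > 0`, `s c u = 0` for `c` off
the ray.
-/

set_option autoImplicit false

namespace PoolMX

open Filter Topology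

section aux

variable {r : ℕ}

/-- scalar product of two functionals -/
private noncomputable def dot (v w : V r →+ ℝ) : ℝ :=
  ∑ i, v (Pi.single i 1) * w (Pi.single i 1)

/-- length of a functional -/
private noncomputable def nrm (w : V r →+ ℝ) : ℝ := Real.sqrt (dot w w)

/-- sum norm of a functional -/
private noncomputable def lab (w : V r →+ ℝ) : ℝ := ∑ i, |w (Pi.single i 1)|

private lemma val_eq (w : V r →+ ℝ) (m : V r) :
    w m = ∑ i, (m i : ℝ) * w (Pi.single i 1) := by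
  have h : m = ∑ i, m i • (Pi.single i 1 : V r) := by
    ext j
    simp [Finset.sum_apply, Pi.single_apply]
  conv_lhs => rw [h]
  rw [map_sum]
  refine Finset.sum_congr rfl fun i _ => ?_
  rw [map_zsmul, zsmul_eq_mul]

private lemma abs_val_le (w : V r →+ ℝ) (m : V r) (B : ℝ) (hB : ∀ i, |(m i : ℝ)| ≤ B) :
    |w m| ≤ lab w * B := by
  rw [val_eq, lab, Finset.sum_mul]
  refine (Finset.abs_sum_le_sum_abs _ _).trans (Finset.sum_le_sum fun i _ => ?_)
  rw [abs_mul, mul_comm]
  exact mul_le_mul_of_nonneg_left (hB i) (abs_nonneg _)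

private lemma lab_nonneg (w : V r →+ ℝ) : 0 ≤ lab w :=
  Finset.sum_nonneg fun _ _ => abs_nonneg _

private lemma dot_self (w : V r →+ ℝ) : dot w w = ∑ j, w (Pi.single j 1) ^ 2 := by
  simp [dot, sq]

private lemma dot_pos (w : V r →+ ℝ) (hw : w ≠ 0) : 0 < dot w w := by
  rw [dot_self]
  by_contra hcon
  apply hw
  have h0 : ∑ j, w (Pi.single j 1) ^ 2 = 0 :=
    le_antisymm (not_lt.1 hcon) (Finset.sum_nonneg fun _ _ => sq_nonneg _)
  rw [Finset.sum_eq_zero_iff_of_nonneg (fun _ _ => sq_nonneg _)] at h0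
  refine DFunLike.ext _ _ fun m => ?_
  rw [val_eq]
  simp only [AddMonoidHom.zero_apply]
  refine Finset.sum_eq_zero fun i _ => ?_
  have := h0 i (Finset.mem_univ _)
  rw [pow_eq_zero_iff (two_ne_zero)] at this
  rw [this, mul_zero]

private lemma nrm_pos (w : V r →+ ℝ) (hw : w ≠ 0) : 0 < nrm w := Real.sqrt_pos.2 (dot_pos w hw)

private lemma nrm_sq (w : V r →+ ℝ) : nrm w * nrm w = dot w w :=
  Real.mul_self_sqrt (by rw [dot_self]; exact Finset.sum_nonneg fun _ _ => sq_nonneg _)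

private lemma ctr_val (c β : V r →+ ℝ) (k : ℕ) :
    |c (ctr β k) - (k : ℝ) * (dot c β / dot β β)| ≤ lab c := by
  have h1 : c (ctr β k) - (k : ℝ) * (dot c β / dot β β) =
      ∑ i, ((ctr β k i : ℝ) - (k : ℝ) * β (Pi.single i 1) / dot β β) * c (Pi.single i 1) := by
    rw [val_eq c]
    simp only [sub_mul, Finset.sum_sub_distrib]
    congr 1
    rw [dot, Finset.sum_div, Finset.mul_sum]
    refine Finset.sum_congr rfl fun i _ => ?_
    ring
  rw [h1, lab]
  refine (Finset.abs_sum_le_sum_abs _ _).trans (Finset.sum_le_sum fun i _ => ?_)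
  rw [abs_mul]
  refine mul_le_of_le_one_left (abs_nonneg _) ?_
  have h2 : (ctr β k i : ℝ) = (round ((k : ℝ) * β (Pi.single i 1) / dot β β) : ℤ) := by
    rw [dot_self]; rfl
  rw [h2, abs_sub_comm]
  exact (abs_sub_round _).trans (by norm_num)

private lemma ray_dot {β c : V r →+ ℝ} (hβ : β ≠ 0) {l : ℝ} (h : ∀ m, c m = l * β m) :
    dot c β / dot β β = l := by
  have h1 : dot c β = l * dot β β := by
    simp only [dot, Finset.mul_sum, h]
    exact Finset.sum_congr rfl fun i _ => by ring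
  rw [h1, mul_div_assoc, div_self (dot_pos β hβ).ne', mul_one]

private lemma ray_nrm {β c : V r →+ ℝ} (hβ : β ≠ 0) {l : ℝ} (hl : 0 < l)
    (h : ∀ m, c m = l * β m) : nrm c / nrm β = l := by
  have h1 : dot c c = l ^ 2 * dot β β := by
    simp only [dot, Finset.mul_sum, h]
    exact Finset.sum_congr rfl fun i _ => by ring
  have h2 : nrm c = l * nrm β := by
    rw [nrm, h1, Real.sqrt_mul (sq_nonneg _), Real.sqrt_sq hl.le]; rfl
  rw [h2, mul_div_assoc, div_self (nrm_pos β hβ).ne', mul_one]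

private lemma gap_pos {β c : V r →+ ℝ} (hβ : β ≠ 0) (hc : c ≠ 0) (hr : ¬ Ray β c) :
    0 < nrm c / nrm β - dot c β / dot β β := by
  have hnb := nrm_pos β hβ
  have hnc := nrm_pos c hc
  have hdb := dot_pos β hβ
  set l := nrm c / nrm β with hl
  have hlpos : 0 < l := div_pos hnc hnb
  have hlsq : l ^ 2 * dot β β = dot c c := by
    rw [← nrm_sq, ← nrm_sq, hl]
    field_simp
  have hsum : ∑ i, (c (Pi.single i 1) - l * β (Pi.single i 1)) ^ 2 =
      2 * l * (l * dot β β - dot c β) := by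
    have h1 : ∑ i, (c (Pi.single i 1) - l * β (Pi.single i 1)) ^ 2 =
        dot c c - 2 * l * dot c β + l ^ 2 * dot β β := by
      simp only [dot, Finset.mul_sum, ← Finset.sum_sub_distrib, ← Finset.sum_add_distrib]
      exact Finset.sum_congr rfl fun i _ => by ring
    rw [h1, ← hlsq]; ring
  have hpos : 0 < ∑ i, (c (Pi.single i 1) - l * β (Pi.single i 1)) ^ 2 := by
    refine lt_of_le_of_ne (Finset.sum_nonneg fun _ _ => sq_nonneg _) fun h0 => hr ⟨l, hlpos, ?_⟩
    rw [eq_comm, Finset.sum_eq_zero_iff_of_nonneg (fun _ _ => sq_nonneg _)] at h0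
    intro m
    rw [val_eq c, val_eq β, Finset.mul_sum]
    refine Finset.sum_congr rfl fun i _ => ?_
    have := h0 i (Finset.mem_univ _)
    rw [pow_eq_zero_iff two_ne_zero, sub_eq_zero] at this
    rw [this]; ring
  rw [hsum] at hpos
  have h2 : 0 < l * dot β β - dot c β := by
    by_contra hcon
    have : 2 * l * (l * dot β β - dot c β) ≤ 0 :=
      mul_nonpos_of_nonneg_of_nonpos (by positivity) (not_lt.1 hcon)
    linarith
  have h3 : l - dot c β / dot β β = (l * dot β β - dot c β) / dot β β := by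
    field_simp
  rw [h3]
  exact div_pos h2 hdb

private lemma zero_ok (n : ℕ) (i : Fin r) : |(0 : V r) i| ≤ ((n : ℕ) : ℤ) := by
  rw [Pi.zero_apply, abs_zero]
  exact Int.natCast_nonneg n

private lemma exists_M {C : Type*} [Finite C] (w : C → V r →+ ℝ) :
    ∃ M : ℕ, 0 < M ∧ ∀ β c, w β ≠ 0 → w c ≠ 0 → ¬ Ray (w β) (w c) →
      lab (w c) / M ≤ (nrm (w c) / nrm (w β) - dot (w c) (w β) / dot (w β) (w β)) / 2 := by
  have h : ∀ᶠ M : ℕ in atTop, ∀ β c, w β ≠ 0 → w c ≠ 0 → ¬ Ray (w β) (w c) →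
      lab (w c) / M ≤ (nrm (w c) / nrm (w β) - dot (w c) (w β) / dot (w β) (w β)) / 2 := by
    refine eventually_all.2 fun β => eventually_all.2 fun c => ?_
    by_cases hβ : w β = 0
    · exact Eventually.of_forall fun M h => absurd hβ h
    by_cases hc : w c = 0
    · exact Eventually.of_forall fun M _ h => absurd hc h
    by_cases hr : Ray (w β) (w c)
    · exact Eventually.of_forall fun M _ _ h => absurd hr h
    have h1 := gap_pos hβ hc hr
    have h2 : Tendsto (fun M : ℕ => lab (w c) / (M : ℝ)) atTop (𝓝 0) :=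
      tendsto_const_div_atTop_nhds_zero_nat _
    filter_upwards [h2.eventually_lt_const (half_pos h1)] with M hM _ _ _
    exact hM.le
  obtain ⟨M, h1, h2⟩ := (h.and (eventually_gt_atTop 0)).exists
  exact ⟨M, h2, h1⟩

end aux

theorem facet {G : Type*} [Group G] [TopologicalSpace G] [IsTopologicalGroup G] {r : ℕ}
    {C : Type*} [Finite C] {s : C → G → ℝ} {a : V r → G} {w : C → V r →+ ℝ}
    (H : MGauge s a w) :
    ∃ M : ℕ, 0 < M ∧ ∀ h : ℕ → G, Tendsto h atTop (𝓝 1) →
      (∀ j, ∃ c, w c ≠ 0 ∧ s c (h j) ≠ 0) →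
      ∃ (β : C) (U : Ultrafilter ℕ) (k : ℕ → ℕ) (u : G), w β ≠ 0 ∧ (U : Filter ℕ) ≤ atTop ∧
        Tendsto k U atTop ∧
        Tendsto (fun j => a (ctr (w β) (k j)) * h j * (a (ctr (w β) (k j)))⁻¹) U (𝓝 u) ∧
        s β u ≠ 0 ∧ (∀ c, ¬ Ray (w β) (w c) → s c u = 0) ∧
        ∀ δ : ℝ, 0 < δ → ∀ᶠ j in (U : Filter ℕ), ∀ m : V r,
          (∀ i, |m i| ≤ ((k j / M : ℕ) : ℤ)) → ∀ c, ¬ Ray (w β) (w c) →
          s c (a (ctr (w β) (k j)) * h j * (a (ctr (w β) (k j)))⁻¹) ≤ δ ∧
          Real.exp (w c m) * s c (a (ctr (w β) (k j)) * h j * (a (ctr (w β) (k j)))⁻¹) ≤ δ := by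
  classical
  have : Fintype C := Fintype.ofFinite C
  obtain ⟨M, hM, hMle⟩ := exists_M w
  refine ⟨M, hM, fun h hh hne => ?_⟩
  -- the minimizing index
  have hmin : ∀ j, ∃ b : C, (w b ≠ 0 ∧ s b (h j) ≠ 0) ∧ ∀ c, w c ≠ 0 → s c (h j) ≠ 0 →
      -Real.log (s b (h j)) / nrm (w b) ≤ -Real.log (s c (h j)) / nrm (w c) := by
    intro j
    obtain ⟨c₀, h1, h2⟩ := hne j
    obtain ⟨b, hb, hbm⟩ := Finset.exists_min_image
      (Finset.univ.filter fun c => w c ≠ 0 ∧ s c (h j) ≠ 0)
      (fun c => -Real.log (s c (h j)) / nrm (w c)) ⟨c₀, by simp [h1, h2]⟩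
    refine ⟨b, by simpa using hb, fun c hc1 hc2 => hbm c (by simp [hc1, hc2])⟩
  choose b hb hbm using hmin
  set U : Ultrafilter ℕ := hyperfilter ℕ with hU
  have hUle : (U : Filter ℕ) ≤ atTop := Nat.hyperfilter_le_atTop
  obtain ⟨β, hβ⟩ : ∃ β, ∀ᶠ j in (U : Filter ℕ), b j = β := by
    rw [← Ultrafilter.eventually_exists_iff]
    exact Eventually.of_forall fun j => ⟨b j, rfl⟩
  have hs0 : ∀ c, Tendsto (fun j => s c (h j)) U (𝓝 0) := by
    intro c
    have h1 := ((H.cont c).tendsto 1).comp (hh.mono_left hUle)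
    rwa [(H.eq_one 1).2 rfl c] at h1
  have hwβ : w β ≠ 0 := by
    obtain ⟨j, hj⟩ := hβ.exists
    rw [← hj]; exact (hb j).1
  have hdβ := dot_pos _ hwβ
  have hnβ := nrm_pos _ hwβ
  set K : ℕ → ℝ := fun j => -Real.log (s β (h j)) with hK
  have hpos : ∀ᶠ j in (U : Filter ℕ), 0 < s β (h j) := by
    filter_upwards [hβ] with j hj
    exact lt_of_le_of_ne (H.nonneg _ _) (by rw [← hj]; exact (hb j).2.symm)
  have hKt : Tendsto K U atTop := by
    have h1 : Tendsto (fun j => s β (h j)) U (𝓝[>] 0) :=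
      tendsto_nhdsWithin_iff.2 ⟨hs0 β, hpos⟩
    exact tendsto_neg_atBot_atTop.comp (Real.tendsto_log_nhdsGT_zero.comp h1)
  set k : ℕ → ℕ := fun j => ⌊K j⌋₊ with hk
  have hkt : Tendsto k U atTop := tendsto_nat_floor_atTop.comp hKt
  set g : ℕ → G := fun j => a (ctr (w β) (k j)) * h j * (a (ctr (w β) (k j)))⁻¹ with hg
  have hgs : ∀ c j, s c (g j) = Real.exp (w c (ctr (w β) (k j))) * s c (h j) :=
    fun c j => H.conj c _ _
  -- the basic estimate
  have hkey : ∀ᶠ j in (U : Filter ℕ), ∀ c, w c ≠ 0 → ∀ m : V r, ∀ B : ℝ,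
      (∀ i, |(m i : ℝ)| ≤ B) →
      Real.exp (w c m) * s c (g j) ≤ Real.exp (lab (w c) + (lab (w c) * B -
        (nrm (w c) / nrm (w β) - dot (w c) (w β) / dot (w β) (w β)) * (k j : ℝ))) := by
    filter_upwards [hβ, hpos, hKt.eventually_ge_atTop 0] with j hj hp hK0 c hc m B hB
    rcases eq_or_ne (s c (h j)) 0 with h0 | h0
    · rw [hgs, h0, mul_zero, mul_zero]
      exact (Real.exp_pos _).le
    have hsc : 0 < s c (h j) := lt_of_le_of_ne (H.nonneg _ _) h0.symm
    have hnc := nrm_pos _ hc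
    have h1 : s c (h j) = Real.exp (-(-Real.log (s c (h j)))) := by
      rw [neg_neg, Real.exp_log hsc]
    rw [hgs, h1, ← Real.exp_add, ← Real.exp_add]
    apply Real.exp_le_exp.2
    have h2 := abs_val_le (w c) m B hB
    have h3 := ctr_val (w c) (w β) (k j)
    have h4 := hbm j c hc h0
    rw [hj] at h4
    have h5 : nrm (w c) / nrm (w β) * K j ≤ -Real.log (s c (h j)) := by
      rw [le_div_iff₀ hnc] at h4
      calc nrm (w c) / nrm (w β) * K j = -Real.log (s β (h j)) / nrm (w β) * nrm (w c) := by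
            rw [hK]; ring
        _ ≤ _ := h4
    have h6 : (k j : ℝ) ≤ K j := Nat.floor_le hK0
    have h7 : nrm (w c) / nrm (w β) * (k j : ℝ) ≤ nrm (w c) / nrm (w β) * K j :=
      mul_le_mul_of_nonneg_left h6 (by positivity)
    have h8 := (abs_le.1 h2).2
    have h9 := (abs_le.1 h3).2
    nlinarith
  have hray : ∀ c, Ray (w β) (w c) → w c ≠ 0 := by
    rintro c ⟨l, hl, h1⟩ h0
    apply hwβ
    refine DFunLike.ext _ _ fun m => ?_
    have h2 := h1 m
    rw [h0] at h2
    simp only [AddMonoidHom.zero_apply] at h2 ⊢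
    rcases mul_eq_zero.1 h2.symm with h3 | h3
    · exact absurd h3 hl.ne'
    · exact h3
  -- entries off the ray
  have hsmall : ∀ δ : ℝ, 0 < δ → ∀ᶠ j in (U : Filter ℕ), ∀ m : V r,
      (∀ i, |m i| ≤ ((k j / M : ℕ) : ℤ)) → ∀ c, ¬ Ray (w β) (w c) →
      s c (g j) ≤ δ ∧ Real.exp (w c m) * s c (g j) ≤ δ := by
    intro δ hδ
    have h1 : ∀ᶠ j in (U : Filter ℕ), ∀ c, ¬ Ray (w β) (w c) → ∀ m : V r,
        (∀ i, |m i| ≤ ((k j / M : ℕ) : ℤ)) → Real.exp (w c m) * s c (g j) ≤ δ := by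
      refine eventually_all.2 fun c => ?_
      by_cases hcr : Ray (w β) (w c)
      · exact Eventually.of_forall fun j h => absurd hcr h
      rcases eq_or_ne (w c) 0 with hc | hc
      · filter_upwards [(hs0 c).eventually_lt_const hδ] with j hj _ m _
        rw [hgs, hc]
        simp only [AddMonoidHom.zero_apply, Real.exp_zero, one_mul]
        exact hj.le
      · set γ := nrm (w c) / nrm (w β) - dot (w c) (w β) / dot (w β) (w β) with hγ
        have hγpos : 0 < γ := gap_pos hwβ hc hcr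
        have hMc := hMle β c hwβ hc hcr
        have h2 : Tendsto (fun j => Real.exp (lab (w c) + -(γ / 2 * (k j : ℝ)))) U (𝓝 0) := by
          refine Real.tendsto_exp_atBot.comp (tendsto_atBot_add_const_left _ _ ?_)
          exact tendsto_neg_atTop_atBot.comp
            ((tendsto_natCast_atTop_atTop.comp hkt).const_mul_atTop (half_pos hγpos))
        filter_upwards [hkey, h2.eventually_lt_const hδ] with j hj1 hj2 _ m hm
        have h3 := hj1 c hc m ((k j : ℝ) / M) (fun i => by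
          have h4 := hm i
          have h5 : ((|m i| : ℤ) : ℝ) ≤ (((k j / M : ℕ) : ℤ) : ℝ) := by exact_mod_cast h4
          rw [Int.cast_abs] at h5
          refine h5.trans ?_
          rw [Int.cast_natCast]
          exact Nat.cast_div_le)
        refine h3.trans (le_trans ?_ hj2.le)
        apply Real.exp_le_exp.2
        have h6 : lab (w c) * ((k j : ℝ) / M) = lab (w c) / M * k j := by ring
        have h7 : lab (w c) / M * (k j : ℝ) ≤ γ / 2 * k j :=
          mul_le_mul_of_nonneg_right hMc (Nat.cast_nonneg _)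
        rw [h6]
        linarith
    filter_upwards [h1] with j hj m hm c hc
    refine ⟨?_, hj c hc m hm⟩
    have h2 := hj c hc 0 (zero_ok _)
    rwa [map_zero, Real.exp_zero, one_mul] at h2
  -- boundedness
  set R : ℝ := (∑ c, Real.exp (lab (w c))) + 1 with hR
  have hR0 : ∀ c, Real.exp (lab (w c)) ≤ R := by
    intro c
    have := Finset.single_le_sum (f := fun c => Real.exp (lab (w c)))
      (fun i _ => (Real.exp_pos _).le) (Finset.mem_univ c)
    linarith
  have hR1 : 1 ≤ R := by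
    have : 0 ≤ ∑ c, Real.exp (lab (w c)) := Finset.sum_nonneg fun i _ => (Real.exp_pos _).le
    linarith
  have hbdd : ∀ᶠ j in (U : Filter ℕ), ∀ c, s c (g j) ≤ R := by
    filter_upwards [hkey, hsmall 1 one_pos] with j hj1 hj2 c
    by_cases hcr : Ray (w β) (w c)
    · have h1 := hj1 c (hray c hcr) 0 0 (fun i => by simp)
      rw [map_zero, Real.exp_zero, one_mul] at h1
      obtain ⟨l, hl, hlm⟩ := hcr
      rw [ray_dot hwβ hlm, ray_nrm hwβ hl hlm] at h1
      simp only [mul_zero, sub_self, zero_mul, add_zero] at h1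
      exact h1.trans (hR0 c)
    · exact ((hj2 0 (zero_ok _) c hcr).1).trans hR1
  obtain ⟨u, -, hu⟩ := (H.cpt R).ultrafilter_le_nhds' (U.map g) (by
    rw [Ultrafilter.mem_map]
    exact hbdd)
  have hu' : Tendsto g U (𝓝 u) := hu
  refine ⟨β, U, k, u, hwβ, hUle, hkt, hu', ?_, ?_, hsmall⟩
  · -- lower bound
    have h1 : ∀ᶠ j in (U : Filter ℕ), Real.exp (-lab (w β) - 1) ≤ s β (g j) := by
      filter_upwards [hpos, hKt.eventually_ge_atTop 0] with j hp hK0
      have h2 : s β (h j) = Real.exp (-K j) := by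
        show s β (h j) = Real.exp (-(-Real.log (s β (h j))))
        rw [neg_neg, Real.exp_log hp]
      rw [hgs, h2, ← Real.exp_add]
      apply Real.exp_le_exp.2
      have h3 := ctr_val (w β) (w β) (k j)
      rw [div_self hdβ.ne', mul_one] at h3
      have h4 := (abs_le.1 h3).1
      have h5 : K j < k j + 1 := Nat.lt_floor_add_one _
      linarith
    have h2 := ge_of_tendsto (((H.cont β).tendsto u).comp hu') h1
    exact ((Real.exp_pos _).trans_le h2).ne'
  · intro c hc
    refine le_antisymm ?_ (H.nonneg _ _)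
    refine le_of_forall_pos_le_add fun δ hδ => ?_
    rw [zero_add]
    refine le_of_tendsto (((H.cont c).tendsto u).comp hu') ?_
    filter_upwards [hsmall δ hδ] with j hj
    exact (hj 0 (zero_ok _) c hc).1

/-- Conjugation by the inverses of the centers contracts the elements with entries on the ray. -/
theorem ctr_contract {G : Type*} [Group G] [TopologicalSpace G] [IsTopologicalGroup G] {r : ℕ}
    {C : Type*} [Finite C] {s : C → G → ℝ} {a : V r → G} {w : C → V r →+ ℝ}
    (ha : ∀ m m', a (m + m') = a m * a m') (H : MGauge s a w) (β : C) (hβ : w β ≠ 0) (u : G)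
    (hu : ∀ c, ¬ Ray (w β) (w c) → s c u = 0) :
    Tendsto (fun k : ℕ => a (-(ctr (w β) k)) * u * (a (-(ctr (w β) k)))⁻¹) atTop (𝓝 1) := by
  have hs : ∀ c, Tendsto
      (fun k : ℕ => s c (a (-(ctr (w β) k)) * u * (a (-(ctr (w β) k)))⁻¹)) atTop (𝓝 0) := by
    intro c
    simp_rw [H.conj]
    by_cases hc : Ray (w β) (w c)
    · obtain ⟨l, hl, hlm⟩ := hc
      have h1 : Tendsto (fun k : ℕ => Real.exp (lab (w c) + -(l * (k : ℝ)))) atTop (𝓝 0) := by
        refine Real.tendsto_exp_atBot.comp (tendsto_atBot_add_const_left _ _ ?_)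
        exact tendsto_neg_atTop_atBot.comp (tendsto_natCast_atTop_atTop.const_mul_atTop hl)
      have h2 := h1.mul_const (s c u)
      rw [zero_mul] at h2
      refine squeeze_zero (fun k => mul_nonneg (Real.exp_pos _).le (H.nonneg _ _))
        (fun k => mul_le_mul_of_nonneg_right (Real.exp_le_exp.2 ?_) (H.nonneg _ _)) h2
      rw [map_neg]
      have h3 := ctr_val (w c) (w β) k
      rw [ray_dot hβ hlm] at h3
      have h4 := (abs_le.1 h3).1
      linarith
    · rw [hu c hc]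
      simp only [mul_zero]
      exact tendsto_const_nhds
  rw [tendsto_iff_ultrafilter]
  intro U hU
  have hK : {h | ∀ c, s c h ≤ 1} ∈
      (U.map fun k : ℕ => a (-(ctr (w β) k)) * u * (a (-(ctr (w β) k)))⁻¹) := by
    rw [Ultrafilter.mem_map]
    have h2 : ∀ᶠ k : ℕ in atTop, ∀ c, s c (a (-(ctr (w β) k)) * u * (a (-(ctr (w β) k)))⁻¹) ≤ 1 := by
      refine eventually_all.2 fun c => ?_
      filter_upwards [(hs c).eventually_lt_const one_pos] with k hk using hk.le
    exact hU h2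
  obtain ⟨v, -, hv⟩ := (H.cpt 1).ultrafilter_le_nhds' _ hK
  have hv' : Tendsto (fun k : ℕ => a (-(ctr (w β) k)) * u * (a (-(ctr (w β) k)))⁻¹) U (𝓝 v) := hv
  have h3 : v = 1 := by
    rw [← H.eq_one]
    intro c
    exact tendsto_nhds_unique (((H.cont c).tendsto v).comp hv') ((hs c).mono_left hU)
  rw [← h3]
  exact hv'

end PoolMX
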