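import Pool.Agent.Work.MP_67388f_an.MX.Slow

/-!
MODULE Inst (size M-L). The multi-gauge of a closed subgroup `G` of `SL(n₀, ℝ) × ∏ SL(n v, ℚ_[q v])` and a
homomorphism `a : V r → G` into diagonal elements of class `𝒜`.

Everything is in TS/Nd.lean (`gwt`, `scoord_conj`, `gwt_mul`, `scoord_cpt`, `scoord_nonneg`, `scoord_cont`, `scoord_one`),
except the fields `cen` and `slow`. `w c` is the additive map `m ↦ gwt κ (a m) c` (additivity: `gwt_mul`; `a 0 = 1`).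
* `cen`: if `s c h = 0` whenever `w c ≠ 0`, then `a m * h = h * a m`: by injectivity of `κ` compare the matrix entries
  `D i i * h i k = h i k * D k k` at each place. If `h i k = 0` or `i = k` fine. Otherwise (`i ≠ k`, `h i k ≠ 0`) `s c h ≠ 0` for
  `c = (i,k)`, so `w c = 0`, i.e. `‖D i i‖ = ‖D k k‖` for all elements of `A` (all are `a m`), so `D i i = D k k` by class `𝒜`
  (`ClsS.clsR i k k k`: `‖D i i * D k k‖ = ‖D k k * D k k‖ → D i i * D k k = D k k * D k k`, cancel `D k k ≠ 0`).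
* `slow`: let `β, W, R` be given. (i) There is `ε > 0` such that every `y : G` with `s c y ≤ ε` for all `c` is in `W`
  (otherwise take `y_n ∉ W` with `s c y_n ≤ 1/(n+1)`: then `y_n → 1`, cf. `IsGauge.tend_one` in TS/Gauge.lean for the
  compactness argument). (ii) The set `K_R = {g | ∀ c, s c g ≤ R}` is compact, so the entries of `κ (g⁻¹)`, `g ∈ K_R`, are bounded by some `B`.
  (iii) `κ (a m g (a m)⁻¹ g⁻¹) - 1 = (κ (a m g (a m)⁻¹) - κ g) κ(g)⁻¹` at each place, so the entries of the left side are at most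
  `n B max |entries of κ (a m g (a m)⁻¹) - κ g|`. (iv) The entry `(i,k)` of `a m g (a m)⁻¹` is `χ m * (entry of g)`, `χ m = D i i / D k k`
  (`sl_conj_entry`), `log ‖χ m‖ = w c m`. Diagonal entries do not change. If `c = (i,k)`, `i ≠ k`, is on the ray of `β` with factor `l`:
  `|χ m * g_ik - g_ik| ≤ ‖χ m - 1‖ R` and `slow_real` / `slow_padic` make `‖χ m - 1‖` small for `m ∈ N Z^r`, `|w β m| < η` (take a
  common `N` = product of the `N₀`, a common `η` = minimum over the finitely many `c`). If `c` is not on the ray, then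
  `|χ m g_ik - g_ik| ≤ exp (w c m) * s c g + s c g ≤ 2 δ`. Choose `δ` and the precision in terms of `ε, B, R`, the sizes of the matrices.
-/

set_option autoImplicit false

namespace PoolMX

open MeasureTheory Filter Topology Matrix Pool.Agent.Work.MP_67388f_an

section field

variable {r n : ℕ} {K : Type*} [NormedField K]

private lemma diag_comm {D h : SpecialLinearGroup (Fin n) K} (hD : ∀ i j, i ≠ j → D i j = 0)
    (H : ∀ i j, i ≠ j → h i j ≠ 0 → D i i = D j j) : D * h = h * D := by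
  apply Subtype.ext
  show D.1 * h.1 = h.1 * D.1
  rw [sl_diag hD]
  ext i j
  rw [diagonal_mul, mul_diagonal]
  by_cases hij : i = j
  · subst hij
    exact mul_comm _ _
  by_cases h0 : h i j = 0
  · have h1 : h.1 i j = 0 := h0
    rw [h1, mul_zero, zero_mul]
  · rw [H i j hij h0, mul_comm]

private lemma mul_ii {D E : SpecialLinearGroup (Fin n) K} (hD : ∀ i j, i ≠ j → D i j = 0)
    (hE : ∀ i j, i ≠ j → E i j = 0) (i : Fin n) : (D * E) i i = D i i * E i i := by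
  show (D.1 * E.1) i i = D i i * E i i
  conv_lhs => rw [sl_diag hD, sl_diag hE]
  rw [diagonal_mul_diagonal, diagonal_apply_eq]

private lemma one_norm_le (i k : Fin n) : ‖(1 : Matrix (Fin n) (Fin n) K) i k‖ ≤ 1 := by
  rw [Matrix.one_apply]
  split_ifs
  · rw [norm_one]
  · rw [norm_zero]; exact zero_le_one

private lemma ray_case (D : V r → SpecialLinearGroup (Fin n) K)
    (hD : ∀ m i j, i ≠ j → D m i j = 0) (hmul : ∀ m m', D (m + m') = D m * D m')
    (w : V r →+ ℝ) (l : ℝ) (i k : Fin n)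
    (hl : ∀ m, Real.log ‖D m i i‖ - Real.log ‖D m k k‖ = l * w m)
    (hslow : ∀ ε : ℝ, 0 < ε → ∃ N₀ : ℕ, 0 < N₀ ∧ ∃ η : ℝ, 0 < η ∧ ∀ χ : V r → K,
      (∀ m m', χ (m + m') = χ m * χ m') → (∀ m, χ m ≠ 0) → (∀ m, Real.log ‖χ m‖ = l * w m) →
      ∀ N : ℕ, N₀ ∣ N → ∀ m : V r, (∀ i, (N : ℤ) ∣ m i) → |w m| < η → ‖χ m - 1‖ ≤ ε)
    (R : ℝ) (hR : 0 ≤ R) (ε : ℝ) (hε : 0 < ε) :
    ∃ N₀ : ℕ, 0 < N₀ ∧ ∃ η : ℝ, 0 < η ∧ ∀ N : ℕ, N₀ ∣ N → ∀ m : V r,
      (∀ i, (N : ℤ) ∣ m i) → |w m| < η → ∀ h : SpecialLinearGroup (Fin n) K,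
      ‖h.1 i k - (1 : Matrix (Fin n) (Fin n) K) i k‖ ≤ R →
      ‖(D m * h * (D m)⁻¹).1 i k - h.1 i k‖ ≤ ε := by
  obtain ⟨N₀, hN₀, η, hη, H⟩ := hslow (ε / (R + 1)) (by positivity)
  refine ⟨N₀, hN₀, η, hη, fun N hN m hm hw h hh => ?_⟩
  have hne := fun m i => sl_dne (hD m) i
  have h1 := H (fun m => D m i i * (D m k k)⁻¹) (fun m m' => by
      simp only [hmul, mul_ii (hD m) (hD m'), mul_inv]
      ring) (fun m => mul_ne_zero (hne m i) (inv_ne_zero (hne m k))) (fun m => by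
      rw [norm_mul, norm_inv, Real.log_mul (norm_ne_zero_iff.2 (hne m i))
        (inv_ne_zero (norm_ne_zero_iff.2 (hne m k))), Real.log_inv, ← sub_eq_add_neg, hl]) N hN
      m hm hw
  have h2 : (D m * h * (D m)⁻¹).1 i k = D m i i * (D m k k)⁻¹ * h.1 i k := sl_conj_e (hD m) h i k
  have h3 : ‖h.1 i k‖ ≤ R + 1 := by
    calc ‖h.1 i k‖ = ‖(h.1 i k - (1 : Matrix (Fin n) (Fin n) K) i k) +
          (1 : Matrix (Fin n) (Fin n) K) i k‖ := by rw [sub_add_cancel]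
      _ ≤ _ := norm_add_le _ _
      _ ≤ R + 1 := add_le_add hh (one_norm_le i k)
  have h4 : D m i i * (D m k k)⁻¹ * h.1 i k - h.1 i k =
      (D m i i * (D m k k)⁻¹ - 1) * h.1 i k := by ring
  rw [h2, h4, norm_mul]
  calc ‖D m i i * (D m k k)⁻¹ - 1‖ * ‖h.1 i k‖ ≤ ε / (R + 1) * (R + 1) :=
        mul_le_mul h1 h3 (norm_nonneg _) (by positivity)
    _ = ε := by field_simp

private lemma quot_le (x y : SpecialLinearGroup (Fin n) K) (E B : ℝ)
    (hE : ∀ i k, ‖x.1 i k - y.1 i k‖ ≤ E)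
    (hB : ∀ i k, ‖(y⁻¹).1 i k - (1 : Matrix (Fin n) (Fin n) K) i k‖ ≤ B) (i k : Fin n) :
    ‖(x * y⁻¹).1 i k - (1 : Matrix (Fin n) (Fin n) K) i k‖ ≤ n * (E * (B + 1)) := by
  have h1 : (1 : Matrix (Fin n) (Fin n) K) = y.1 * (y⁻¹).1 :=
    (congrArg Subtype.val (mul_inv_cancel y)).symm
  have h2 : (x * y⁻¹).1 i k - (1 : Matrix (Fin n) (Fin n) K) i k =
      ∑ j, (x.1 i j - y.1 i j) * (y⁻¹).1 j k := by
    rw [h1]
    show (x.1 * (y⁻¹).1) i k - (y.1 * (y⁻¹).1) i k = _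
    rw [← Matrix.sub_apply, ← Matrix.sub_mul, Matrix.mul_apply]
    rfl
  rw [h2]
  refine (norm_sum_le _ _).trans ?_
  have h3 : ∀ j ∈ (Finset.univ : Finset (Fin n)), ‖(x.1 i j - y.1 i j) * (y⁻¹).1 j k‖ ≤
      E * (B + 1) := by
    intro j _
    have h4 : ‖(y⁻¹).1 j k‖ ≤ B + 1 := by
      calc ‖(y⁻¹).1 j k‖ = ‖((y⁻¹).1 j k - (1 : Matrix (Fin n) (Fin n) K) j k) +
            (1 : Matrix (Fin n) (Fin n) K) j k‖ := by rw [sub_add_cancel]
        _ ≤ _ := norm_add_le _ _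
        _ ≤ B + 1 := add_le_add (hB j k) (one_norm_le j k)
    rw [norm_mul]
    exact mul_le_mul (hE i j) h4 (norm_nonneg _) ((norm_nonneg _).trans (hE i j))
  refine (Finset.sum_le_sum h3).trans ?_
  rw [Finset.sum_const, Finset.card_univ, Fintype.card_fin, nsmul_eq_mul]

end field

section coord

variable {ι : Type*} [Fintype ι] {n₀ : ℕ} {n : ι → ℕ} {q : ι → ℕ}
  [hqp : ∀ v, Fact (q v).Prime] {G : Type*} [Group G] [TopologicalSpace G]
  [IsTopologicalGroup G]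

/-- distance of the entries -/
private noncomputable def dco (κ : G →* SLS n₀ n q) :
    ((Fin n₀ × Fin n₀) ⊕ (Σ v : ι, Fin (n v) × Fin (n v))) → G → G → ℝ
  | Sum.inl c, x, y => ‖(κ x).1.1 c.1 c.2 - (κ y).1.1 c.1 c.2‖
  | Sum.inr c, x, y => ‖((κ x).2 c.1).1 c.2.1 c.2.2 - ((κ y).2 c.1).1 c.2.1 c.2.2‖

omit [Fintype ι] [TopologicalSpace G] [IsTopologicalGroup G] in
private lemma dco_le (κ : G →* SLS n₀ n q)
    (c : (Fin n₀ × Fin n₀) ⊕ (Σ v : ι, Fin (n v) × Fin (n v))) (x y : G) :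
    dco κ c x y ≤ scoord κ c x + scoord κ c y := by
  rcases c with c | c
  · show ‖(κ x).1.1 c.1 c.2 - (κ y).1.1 c.1 c.2‖ ≤
      ‖(κ x).1.1 c.1 c.2 - (1 : Matrix (Fin n₀) (Fin n₀) ℝ) c.1 c.2‖ +
        ‖(κ y).1.1 c.1 c.2 - (1 : Matrix (Fin n₀) (Fin n₀) ℝ) c.1 c.2‖
    rw [norm_sub_rev ((κ y).1.1 c.1 c.2)]
    exact norm_sub_le_norm_sub_add_norm_sub _ _ _
  · show ‖((κ x).2 c.1).1 c.2.1 c.2.2 - ((κ y).2 c.1).1 c.2.1 c.2.2‖ ≤
      ‖((κ x).2 c.1).1 c.2.1 c.2.2 -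
        (1 : Matrix (Fin (n c.1)) (Fin (n c.1)) ℚ_[q c.1]) c.2.1 c.2.2‖ +
      ‖((κ y).2 c.1).1 c.2.1 c.2.2 -
        (1 : Matrix (Fin (n c.1)) (Fin (n c.1)) ℚ_[q c.1]) c.2.1 c.2.2‖
    rw [norm_sub_rev (((κ y).2 c.1).1 c.2.1 c.2.2)]
    exact norm_sub_le_norm_sub_add_norm_sub _ _ _

omit [TopologicalSpace G] [IsTopologicalGroup G] in
private lemma dco_quot (κ : G →* SLS n₀ n q) (x y : G) (E B : ℝ) (hE0 : 0 ≤ E) (hB0 : 0 ≤ B)
    (hE : ∀ c, dco κ c x y ≤ E) (hB : ∀ c, scoord κ c y⁻¹ ≤ B)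
    (c : (Fin n₀ × Fin n₀) ⊕ (Σ v : ι, Fin (n v) × Fin (n v))) :
    scoord κ c (x * y⁻¹) ≤ ((n₀ : ℝ) + ∑ v, (n v : ℝ)) * (E * (B + 1)) := by
  rcases c with c | c
  · have h1 := quot_le (κ x).1 (κ y).1 E B (fun i k => hE (Sum.inl (i, k)))
      (fun i k => by
        have := hB (Sum.inl (i, k))
        have h2 : scoord κ (Sum.inl (i, k)) y⁻¹ =
            ‖(κ y⁻¹).1.1 i k - (1 : Matrix (Fin n₀) (Fin n₀) ℝ) i k‖ := rfl
        rw [h2, map_inv] at this
        exact this) c.1 c.2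
    have h2 : scoord κ (Sum.inl c) (x * y⁻¹) =
        ‖(κ (x * y⁻¹)).1.1 c.1 c.2 - (1 : Matrix (Fin n₀) (Fin n₀) ℝ) c.1 c.2‖ := rfl
    rw [h2, map_mul, map_inv]
    refine (h1 : _ ≤ (n₀ : ℝ) * (E * (B + 1))).trans ?_
    refine mul_le_mul_of_nonneg_right ?_ (by positivity)
    have : 0 ≤ ∑ v, (n v : ℝ) := Finset.sum_nonneg fun _ _ => Nat.cast_nonneg _
    linarith
  · have h1 := quot_le ((κ x).2 c.1) ((κ y).2 c.1) E B (fun i k => hE (Sum.inr ⟨c.1, (i, k)⟩))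
      (fun i k => by
        have := hB (Sum.inr ⟨c.1, (i, k)⟩)
        have h2 : scoord κ (Sum.inr ⟨c.1, (i, k)⟩) y⁻¹ =
            ‖((κ y⁻¹).2 c.1).1 i k - (1 : Matrix (Fin (n c.1)) (Fin (n c.1)) ℚ_[q c.1]) i k‖ :=
          rfl
        rw [h2, map_inv] at this
        exact this) c.2.1 c.2.2
    have h2 : scoord κ (Sum.inr c) (x * y⁻¹) = ‖((κ (x * y⁻¹)).2 c.1).1 c.2.1 c.2.2 -
        (1 : Matrix (Fin (n c.1)) (Fin (n c.1)) ℚ_[q c.1]) c.2.1 c.2.2‖ := rfl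
    rw [h2, map_mul, map_inv]
    refine (h1 : _ ≤ (n c.1 : ℝ) * (E * (B + 1))).trans ?_
    refine mul_le_mul_of_nonneg_right ?_ (by positivity)
    have : (n c.1 : ℝ) ≤ ∑ v, (n v : ℝ) :=
      Finset.single_le_sum (f := fun v => (n v : ℝ)) (fun _ _ => Nat.cast_nonneg _)
        (Finset.mem_univ c.1)
    have h0 : (0 : ℝ) ≤ n₀ := Nat.cast_nonneg _
    linarith

private lemma exists_small {κ : G →* SLS n₀ n q} (hκ : IsClosedEmbedding κ) (b : G)
    (hb : IsDiagS κ b) (W : Set G) (hW : W ∈ 𝓝 (1 : G)) :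
    ∃ ε : ℝ, 0 < ε ∧ ∀ y : G, (∀ c, scoord κ c y ≤ ε) → y ∈ W := by
  have hg : IsGauge (scoord κ) b (gwt κ b) :=
    { nonneg := fun c h => scoord_nonneg κ c h
      cont := fun c => scoord_cont hκ c
      eq_one := fun h => scoord_one hκ h
      cpt := fun R => scoord_cpt hκ R
      conj := fun c h => scoord_conj κ _ hb c h }
  by_contra hcon
  push Not at hcon
  choose y hy hyW using fun n : ℕ => hcon (1 / ((n : ℝ) + 1)) (by positivity)
  have h1 : Tendsto y atTop (𝓝 1) := by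
    rw [hg.tend_one]
    intro c
    exact squeeze_zero (fun k => scoord_nonneg κ c _) (fun k => hy k c)
      tendsto_one_div_add_atTop_nhds_zero_nat
  obtain ⟨k, hk⟩ := (h1.eventually hW).exists
  exact hyW k hk

private lemma exists_inv_bound {κ : G →* SLS n₀ n q} (hκ : IsClosedEmbedding κ) (R : ℝ) :
    ∃ B : ℝ, 0 ≤ B ∧ ∀ y : G, (∀ c, scoord κ c y ≤ R) → ∀ c, scoord κ c y⁻¹ ≤ B := by
  have h1 : ∀ c, ∃ B : ℝ, ∀ y ∈ {y : G | ∀ c, scoord κ c y ≤ R}, ‖scoord κ c y⁻¹‖ ≤ B :=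
    fun c => (scoord_cpt hκ R).exists_bound_of_continuousOn
      ((scoord_cont hκ c).comp continuous_inv).continuousOn
  choose B hB using h1
  refine ⟨∑ c, |B c|, Finset.sum_nonneg fun _ _ => abs_nonneg _, fun y hy c => ?_⟩
  have h2 := hB c y hy
  have h3 := Finset.single_le_sum (f := fun c => |B c|) (fun _ _ => abs_nonneg _)
    (Finset.mem_univ c)
  exact (le_abs_self _).trans (h2.trans ((le_abs_self _).trans h3))

end coord

theorem exists_mgauge {ι : Type*} [Fintype ι] {n₀ : ℕ} {n : ι → ℕ} {q : ι → ℕ}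
    [∀ v, Fact (q v).Prime] {G : Type*} [Group G] [TopologicalSpace G] [IsTopologicalGroup G]
    (κ : G →* SLS n₀ n q) (hκ : IsClosedEmbedding κ) {r : ℕ} (a : V r → G)
    (ha : ∀ m m', a (m + m') = a m * a m') (A : Subgroup G) (hA : ∀ g, g ∈ A ↔ ∃ m, a m = g)
    (hcls : ClsS κ (MonoidHom.id G) A) :
    ∃ w : ((Fin n₀ × Fin n₀) ⊕ (Σ v : ι, Fin (n v) × Fin (n v))) → V r →+ ℝ,
      (∀ c m, w c m = gwt κ (a m) c) ∧ MGauge (scoord κ) a w := by
  classical
  have hmA : ∀ m, a m ∈ A := fun m => (hA _).2 ⟨m, rfl⟩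
  have hd : ∀ m, IsDiagS κ (a m) := fun m => hcls.diag (a m) (hmA m)
  set w : ((Fin n₀ × Fin n₀) ⊕ (Σ v : ι, Fin (n v) × Fin (n v))) → V r →+ ℝ := fun c =>
    AddMonoidHom.mk' (fun m => gwt κ (a m) c) (fun m m' => by
      rw [ha, gwt_mul κ _ _ (hd m) (hd m')]) with hw
  have hwc : ∀ c m, w c m = gwt κ (a m) c := fun c m => rfl
  have hκm1 : ∀ m m', (κ (a (m + m'))).1 = (κ (a m)).1 * (κ (a m')).1 := by
    intro m m'; rw [ha, map_mul]; rfl
  have hκm2 : ∀ v m m', (κ (a (m + m'))).2 v = (κ (a m)).2 v * (κ (a m')).2 v := by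
    intro v m m'; rw [ha, map_mul]; rfl
  refine ⟨w, hwc, ?_⟩
  refine
    { nonneg := fun c h => scoord_nonneg κ c h
      cont := fun c => scoord_cont hκ c
      eq_one := fun h => scoord_one hκ h
      cpt := fun R => scoord_cpt hκ R
      conj := fun c m h => scoord_conj κ _ (hd m) c h
      cen := ?_
      slow := ?_ }
  · -- class A
    intro h hh m
    apply hκ.injective
    rw [map_mul, map_mul]
    refine Prod.ext ?_ (funext fun v => ?_)
    · refine diag_comm (hd m).1 fun i k hik hne => ?_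
      have h0 : w (Sum.inl (i, k)) = 0 := by
        by_contra hcon
        have h1 := hh _ hcon
        have h2 : ‖(κ h).1.1 i k - (1 : Matrix (Fin n₀) (Fin n₀) ℝ) i k‖ = 0 := h1
        rw [Matrix.one_apply_ne hik, sub_zero, norm_eq_zero] at h2
        exact hne h2
      have h1 := hcls.clsR i k k k (by
        intro b hb
        obtain ⟨m', rfl⟩ := (hA b).1 hb
        have h2 : Real.log ‖(κ (a m')).1 i i‖ - Real.log ‖(κ (a m')).1 k k‖ = 0 := by
          have := DFunLike.congr_fun h0 m'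
          exact this
        have h3 : ‖(κ (a m')).1 i i‖ = ‖(κ (a m')).1 k k‖ :=
          Real.log_injOn_pos (norm_pos_iff.2 (sl_dne (hd m').1 i))
            (norm_pos_iff.2 (sl_dne (hd m').1 k)) (sub_eq_zero.1 h2)
        show ‖(κ (a m')).1 i i * (κ (a m')).1 k k‖ = ‖(κ (a m')).1 k k * (κ (a m')).1 k k‖
        rw [norm_mul, norm_mul, h3]) (a m) (hmA m)
      exact mul_right_cancel₀ (sl_dne (hd m).1 k) h1
    · refine diag_comm ((hd m).2 v) fun i k hik hne => ?_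
      have h0 : w (Sum.inr ⟨v, (i, k)⟩) = 0 := by
        by_contra hcon
        have h1 := hh _ hcon
        have h2 : ‖((κ h).2 v).1 i k -
            (1 : Matrix (Fin (n v)) (Fin (n v)) ℚ_[q v]) i k‖ = 0 := h1
        rw [Matrix.one_apply_ne hik, sub_zero, norm_eq_zero] at h2
        exact hne h2
      have h1 := hcls.clsP v i k k k (by
        intro b hb
        obtain ⟨m', rfl⟩ := (hA b).1 hb
        have h2 : Real.log ‖(κ (a m')).2 v i i‖ - Real.log ‖(κ (a m')).2 v k k‖ = 0 := by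
          have := DFunLike.congr_fun h0 m'
          exact this
        have h3 : ‖(κ (a m')).2 v i i‖ = ‖(κ (a m')).2 v k k‖ :=
          Real.log_injOn_pos (norm_pos_iff.2 (sl_dne ((hd m').2 v) i))
            (norm_pos_iff.2 (sl_dne ((hd m').2 v) k)) (sub_eq_zero.1 h2)
        show ‖(κ (a m')).2 v i i * (κ (a m')).2 v k k‖ =
          ‖(κ (a m')).2 v k k * (κ (a m')).2 v k k‖
        rw [norm_mul, norm_mul, h3]) (a m) (hmA m)
      exact mul_right_cancel₀ (sl_dne ((hd m).2 v) k) h1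
  · -- slow motion
    intro β hβ W hW R
    obtain ⟨ε, hε, hεW⟩ := exists_small hκ (a 0) (hd 0) W hW
    obtain ⟨B, hB0, hB⟩ := exists_inv_bound hκ R
    set T : ℝ := (n₀ : ℝ) + ∑ v, (n v : ℝ) with hT
    have hT0 : 0 ≤ T := by
      have : 0 ≤ ∑ v, (n v : ℝ) := Finset.sum_nonneg fun _ _ => Nat.cast_nonneg _
      positivity
    set E : ℝ := ε / ((T + 1) * (B + 1)) with hE
    have hEpos : 0 < E := by positivity
    have hray : ∀ c, ∃ N₀ : ℕ, 0 < N₀ ∧ ∃ η : ℝ, 0 < η ∧ (Ray (w β) (w c) → ∀ N : ℕ, N₀ ∣ N →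
        ∀ m : V r, (∀ i, (N : ℤ) ∣ m i) → |w β m| < η → ∀ g : G, scoord κ c g ≤ R →
          dco κ c (a m * g * (a m)⁻¹) g ≤ E) := by
      intro c
      by_cases hc : Ray (w β) (w c)
      swap
      · exact ⟨1, one_pos, 1, one_pos, fun h => absurd h hc⟩
      obtain ⟨l, hl, hlm⟩ := hc
      rcases c with ⟨i, k⟩ | ⟨v, i, k⟩
      · obtain ⟨N₀, hN₀, η, hη, H⟩ := ray_case (fun m => (κ (a m)).1) (fun m => (hd m).1) hκm1
          (w β) l i k (fun m => hlm m) (fun ε hε => slow_real (w β) l hl ε hε) |R|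
          (abs_nonneg _) E hEpos
        refine ⟨N₀, hN₀, η, hη, fun _ N hN m hm hwm g hg => ?_⟩
        have h1 := H N hN m hm hwm (κ g).1 ((hg : _ ≤ R).trans (le_abs_self R))
        show ‖(κ (a m * g * (a m)⁻¹)).1.1 i k - (κ g).1.1 i k‖ ≤ E
        rw [map_mul, map_mul, map_inv]
        exact h1
      · obtain ⟨N₀, hN₀, η, hη, H⟩ := ray_case (fun m => (κ (a m)).2 v) (fun m => (hd m).2 v)
          (hκm2 v) (w β) l i k (fun m => hlm m) (fun ε hε => slow_padic (w β) l hl ε hε) |R|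
          (abs_nonneg _) E hEpos
        refine ⟨N₀, hN₀, η, hη, fun _ N hN m hm hwm g hg => ?_⟩
        have h1 := H N hN m hm hwm ((κ g).2 v) ((hg : _ ≤ R).trans (le_abs_self R))
        show ‖((κ (a m * g * (a m)⁻¹)).2 v).1 i k - ((κ g).2 v).1 i k‖ ≤ E
        rw [map_mul, map_mul, map_inv]
        exact h1
    choose Nc hNc ηc hηc Hc using hray
    obtain ⟨c₀, -, hc₀⟩ := Finset.exists_min_image Finset.univ ηc ⟨β, Finset.mem_univ _⟩
    refine ⟨∏ c, Nc c, Finset.prod_pos fun c _ => hNc c, ηc c₀, hηc c₀, E / 2, half_pos hEpos,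
      fun m hm hwm g hg hgd => ?_⟩
    apply hεW
    have hD : ∀ c, dco κ c (a m * g * (a m)⁻¹) g ≤ E := by
      intro c
      by_cases hc : Ray (w β) (w c)
      · exact Hc c hc (∏ c, Nc c) (Finset.dvd_prod_of_mem _ (Finset.mem_univ c)) m hm
          (hwm.trans_le (hc₀ c (Finset.mem_univ _))) g (hg c)
      · refine (dco_le κ c _ _).trans ?_
        rw [scoord_conj κ _ (hd m)]
        obtain ⟨h1, h2⟩ := hgd c hc
        rw [hwc] at h2
        linarith
    intro c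
    refine (dco_quot κ _ _ E B hEpos.le hB0 hD (hB g hg) c).trans ?_
    rw [← hT, hE]
    have h1 : T * (ε / ((T + 1) * (B + 1)) * (B + 1)) = ε * (T / (T + 1)) := by
      field_simp
    rw [h1]
    refine mul_le_of_le_one_right hε.le ?_
    rw [div_le_one (by positivity)]
    linarith

end PoolMX
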