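import Pool.Agent.Work.MP_67388f_an.MX.Defs

/-!
MODULE Orb (size M). If there are no displaced pairs in `E`, then `μ` is carried by one orbit of the subgroup `Z`.

For `x ∈ E` the set `V₀ • x = {v • x | v ∈ interior V₀}` is a neighbourhood of `x` (open orbit maps). The sets
`(fun g => g • x) '' interior V₀`, `x ∈ E`, are open and cover `E`, so countably many `x_i ∈ E` suffice
(`TopologicalSpace.isOpen_biUnion_countable`, or `countable_cover_nhdsWithin`, Lindelöf). A point `y ∈ E` in the `i`-th set is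
`y = v • x_i` with `v ∈ V₀`, so `v ∈ Z` by hypothesis and `y ∈ Z x_i`. Hence `E ⊆ ⋃ i, Z x_i` and
`0 < μ E ≤ ∑ μ (Z x_i)`, so `μ (Z x_i) > 0` for some `i`. The orbit `Z x_i = {c • x_i | c ∈ Z}` is measurable: `Z` is a closed
subgroup of the second countable locally compact `G`, so it is sigma-compact, and its image under the continuous map
`c ↦ c • x_i` is a countable union of compact (closed) sets. It is invariant under `a m ∈ Z` (`hZ`). So by ergodicity its
measure is one.
-/

set_option autoImplicit false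

namespace PoolMX

open MeasureTheory Filter Topology

theorem orbit_of_no_pairs {G X : Type*} [Group G] [TopologicalSpace G] [IsTopologicalGroup G]
    [T2Space G] [LocallyCompactSpace G] [SecondCountableTopology G]
    [TopologicalSpace X] [LocallyCompactSpace X] [T2Space X] [SecondCountableTopology X]
    [MeasurableSpace X] [BorelSpace X] [MulAction G X] [ContinuousSMul G X]
    (hopen : ∀ x : X, IsOpenMap fun g : G => g • x) {r : ℕ}
    (a : V r → G) (μ : Measure X) [IsProbabilityMeasure μ]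
    (herg : ∀ t : Set X, MeasurableSet t → (∀ m, (fun z => a m • z) ⁻¹' t =ᵐ[μ] t) →
      μ t = 0 ∨ μ tᶜ = 0)
    (Z : Subgroup G) (hZc : IsClosed (Z : Set G)) (hZ : ∀ m, a m ∈ Z) (E : Set X)
    (hE : 0 < μ E) (V₀ : Set G) (hV : V₀ ∈ 𝓝 (1 : G))
    (hno : ∀ x ∈ E, ∀ h ∈ V₀, h • x ∈ E → h ∈ Z) :
    ∃ x : X, μ {y | ∃ c ∈ Z, y = c • x}ᶜ = 0 := by
  -- cover by countably many pieces of orbits
  have hcov : ∃ t ⊆ E, t.Countable ∧ E ⊆ ⋃ x ∈ t, (fun g : G => g • x) '' interior V₀ := by
    refine TopologicalSpace.countable_cover_nhdsWithin fun x _ => ?_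
    refine mem_nhdsWithin_of_mem_nhds ((hopen x _ isOpen_interior).mem_nhds ?_)
    exact ⟨1, mem_interior_iff_mem_nhds.2 hV, one_smul G x⟩
  obtain ⟨t, htE, htc, hEt⟩ := hcov
  have hsub : E ⊆ ⋃ x ∈ t, {y | ∃ c ∈ Z, y = c • x} := by
    intro y hy
    obtain ⟨x, hx, hyx⟩ := Set.mem_iUnion₂.1 (hEt hy)
    obtain ⟨v, hv, rfl⟩ := hyx
    exact Set.mem_iUnion₂.2 ⟨x, hx, v, hno x (htE hx) v (interior_subset hv) hy, rfl⟩
  have hex : ∃ x ∈ t, μ {y | ∃ c ∈ Z, y = c • x} ≠ 0 := by
    by_contra hcon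
    push Not at hcon
    have h1 : μ (⋃ x ∈ t, {y | ∃ c ∈ Z, y = c • x}) = 0 :=
      (measure_biUnion_null_iff htc).2 hcon
    have h2 := measure_mono_null hsub h1
    exact hE.ne' h2
  obtain ⟨x, _, hx⟩ := hex
  refine ⟨x, ?_⟩
  -- the orbit is measurable
  have hmeas : MeasurableSet {y | ∃ c ∈ Z, y = c • x} := by
    have h1 : IsSigmaCompact (Z : Set G) :=
      isSigmaCompact_univ.of_isClosed_subset hZc (Set.subset_univ _)
    have hcont : Continuous fun g : G => g • x := continuous_id.smul continuous_const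
    have h2 : IsSigmaCompact ((fun g : G => g • x) '' (Z : Set G)) := h1.image hcont
    have h3 : (fun g : G => g • x) '' (Z : Set G) = {y | ∃ c ∈ Z, y = c • x} := by
      ext y
      constructor
      · rintro ⟨c, hc, rfl⟩
        exact ⟨c, hc, rfl⟩
      · rintro ⟨c, hc, rfl⟩
        exact ⟨c, hc, rfl⟩
    rw [h3] at h2
    obtain ⟨K, hK, hKu⟩ := h2
    rw [← hKu]
    exact MeasurableSet.iUnion fun n => (hK n).isClosed.measurableSet
  have hinv : ∀ m, (fun z => a m • z) ⁻¹' {y | ∃ c ∈ Z, y = c • x} = {y | ∃ c ∈ Z, y = c • x} := by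
    intro m
    ext z
    constructor
    · rintro ⟨c, hc, hz⟩
      refine ⟨(a m)⁻¹ * c, Z.mul_mem (Z.inv_mem (hZ m)) hc, ?_⟩
      rw [mul_smul, ← hz, inv_smul_smul]
    · rintro ⟨c, hc, rfl⟩
      exact ⟨a m * c, Z.mul_mem (hZ m) hc, (mul_smul _ _ _).symm⟩
  rcases herg _ hmeas fun m => (Filter.EventuallyEq.of_eq (hinv m)) with h | h
  · exact absurd h hx
  · exact h

end PoolMX
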