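import Pool.Agent.Work.MP_67388f_an.MX.Samp
import Pool.Agent.Work.MP_67388f_an.MX.Facet
import Pool.Agent.Work.MP_67388f_an.MX.Orb
import Pool.Agent.Work.MP_67388f_an.MX.Dir
import Pool.Agent.Work.MP_67388f_an.MX.ESum
import Pool.Agent.Work.MP_67388f_an.MX.Inst

set_option autoImplicit false

namespace PoolMX

open MeasureTheory Filter Topology Pool.Agent.Work.MP_67388f_an

section main

variable {ι : Type*} [Fintype ι] {n₀ : ℕ} {n : ι → ℕ} {q : ι → ℕ} [∀ v, Fact (q v).Prime]
  {G : Type*} [Group G] [TopologicalSpace G] [IsTopologicalGroup G]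
  {X : Type*} [TopologicalSpace X] [LocallyCompactSpace X] [T2Space X]
  [SecondCountableTopology X] [MeasurableSpace X] [BorelSpace X] [MulAction G X]
  [ContinuousSMul G X]

/-- Complete convergence along samples in the strips of all weights implies unipotent invariance or
a single orbit of the centralizer. -/
theorem unip_or_orbit_samp (hq : Function.Injective q) (κ : G →* SLS n₀ n q)
    (hκ : IsClosedEmbedding κ) (hopen : ∀ x : X, IsOpenMap fun g : G => g • x) {r : ℕ}
    (a : V r → G) (ha : ∀ m m', a (m + m') = a m * a m') (A : Subgroup G)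
    (hA : ∀ g, g ∈ A ↔ ∃ m, a m = g) (hcls : ClsS κ (MonoidHom.id G) A) (μ : Measure X)
    [IsProbabilityMeasure μ] (hμ : ∀ g ∈ A, μ.map (fun z => g • z) = μ)
    (herg : ∀ s : Set X, MeasurableSet s → (∀ g ∈ A, (fun z => g • z) ⁻¹' s =ᵐ[μ] s) →
      μ s = 0 ∨ μ sᶜ = 0)
    (hconv : ∀ w : V r →+ ℝ, w ≠ 0 → (∃ c, ∀ m, w m = gwt κ (a m) c) → Sampled a μ w) :
    UnipInv κ (MonoidHom.id G) (MonoidHom.id G) A μ ∨
      ∃ x : X, μ {y | ∃ c ∈ cenL (MonoidHom.id G) A, y = c • x}ᶜ = 0 := by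
  by_contra hcon
  rw [not_or] at hcon
  obtain ⟨hU, hO⟩ := hcon
  have hT2 : T2Space G := hκ.isEmbedding.t2Space
  have hsc : SecondCountableTopology G := by
    have := sls_second (n₀ := n₀) (n := n) (q := q)
    exact hκ.isEmbedding.secondCountableTopology
  have hlc : LocallyCompactSpace G := by
    have := sls_loc (n₀ := n₀) (n := n) (q := q)
    exact hκ.locallyCompactSpace
  have hmA : ∀ m, a m ∈ A := fun m => (hA _).2 ⟨m, rfl⟩
  obtain ⟨w, hw, H⟩ := exists_mgauge κ hκ a ha A hA hcls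
  obtain ⟨M, hM, hfac⟩ := facet H
  obtain ⟨F, hF, E, hE, hUG⟩ := sgood_exists a μ (fun m => hμ _ (hmA m)) w M hM
    (fun c hc => hconv (w c) hc ⟨c, hw c⟩)
  have hsm := small_cen hq (MonoidHom.id G) (MonoidHom.id G) hκ continuous_id
    (fun g u => rfl) (fun u => rfl) hcls μ hμ herg hU
  -- either there are displaced pairs or not
  by_cases hp : ∃ V₀ ∈ 𝓝 (1 : G), ∀ x ∈ E, ∀ h ∈ V₀, h • x ∈ E → h ∈ cenL (MonoidHom.id G) A
  · obtain ⟨V₀, hV, hno⟩ := hp
    apply hO
    refine orbit_of_no_pairs hopen a μ (fun t ht hinv => herg t ht fun g hg => ?_)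
      (cenL (MonoidHom.id G) A) (cenL_closed _ _) (fun m => ?_) E hE V₀ hV hno
    · obtain ⟨m, rfl⟩ := (hA g).1 hg
      exact hinv m
    · intro b hb
      obtain ⟨m', rfl⟩ := (hA b).1 hb
      show a m' * a m = a m * a m'
      rw [← ha, ← ha, add_comm]
  · push Not at hp
    obtain ⟨B, hB⟩ := (𝓝 (1 : G)).exists_antitone_basis
    choose x hx h hh hhx hhZ using fun j : ℕ => hp (B j) (hB.mem j)
    have hh1 : Tendsto h atTop (𝓝 1) := hB.tendsto hh
    have hne : ∀ j, ∃ c, w c ≠ 0 ∧ scoord κ c (h j) ≠ 0 := by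
      intro j
      by_contra hcon
      push Not at hcon
      apply hhZ j
      intro b hb
      obtain ⟨m, rfl⟩ := (hA b).1 hb
      exact H.cen (h j) hcon m
    obtain ⟨β, U, k, u, hβ, hUle, hk, hu, hub, huz, hsmall⟩ := hfac h hh1 hne
    have hinv := sdyn a μ H M F hF E hUG β hβ U k hk x h u hx hhx hu hsmall
    have hcont := ctr_contract ha H β hβ u huz
    obtain ⟨k', hk'⟩ := (hcont.eventually hsm).exists
    set b : G := a (-(ctr (w β) k')) with hb
    have hbA : b ∈ A := hmA _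
    have hstb : b * u * b⁻¹ ∈ (stb (G := G) μ).comap (MonoidHom.id G) := by
      show b * u * b⁻¹ ∈ stb (G := G) μ
      have h1 : b ∈ stb (G := G) μ := hμ b hbA
      have h2 : u ∈ stb (G := G) μ := hinv
      exact mul_mem (mul_mem h1 h2) (inv_mem h1)
    have hc := hk' hstb
    -- a conjugate of `u` commutes with `A`, so `u` does, contradiction
    have hcu : ∀ m, a m * u * (a m)⁻¹ = u := by
      intro m
      have h1 : a m * (b * u * b⁻¹) = b * u * b⁻¹ * a m := hc (a m) (hmA m)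
      have h2 : a m * b = b * a m := by
        rw [hb, ← ha, ← ha, add_comm]
      have h3 : a m * u = u * a m := by
        have h4 : b * (a m * u) * b⁻¹ = b * (u * a m) * b⁻¹ := by
          have h5 : b⁻¹ * a m = a m * b⁻¹ := by
            rw [inv_mul_eq_iff_eq_mul, ← mul_assoc, ← h2, mul_assoc, mul_inv_cancel, mul_one]
          calc b * (a m * u) * b⁻¹ = a m * (b * u * b⁻¹) := by
                rw [← mul_assoc, ← h2]; group
            _ = b * u * b⁻¹ * a m := h1
            _ = b * u * (b⁻¹ * a m) := by group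
            _ = b * u * (a m * b⁻¹) := by rw [h5]
            _ = b * (u * a m) * b⁻¹ := by group
        exact mul_left_cancel (mul_right_cancel h4)
      rw [h3, mul_assoc, mul_inv_cancel, mul_one]
    apply hβ
    refine DFunLike.ext _ _ fun m => ?_
    have h1 := H.conj β m u
    rw [hcu m] at h1
    have h2 : Real.exp (w β m) = 1 := by
      have h3 : (Real.exp (w β m) - 1) * scoord κ β u = 0 := by linarith
      rcases mul_eq_zero.1 h3 with h | h
      · linarith
      · exact absurd h hub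
    rw [Real.exp_eq_one_iff] at h2
    exact h2

/-- Polynomial or exponential mixing implies unipotent invariance or a point mass. -/
theorem unip_or_dirac_samp (hq : Function.Injective q) (κ : G →* SLS n₀ n q)
    (hκ : IsClosedEmbedding κ) (hopen : ∀ x : X, IsOpenMap fun g : G => g • x) {r : ℕ}
    (a : V r → G) (ha : ∀ m m', a (m + m') = a m * a m') (A : Subgroup G)
    (hA : ∀ g, g ∈ A ↔ ∃ m, a m = g) (hcls : ClsS κ (MonoidHom.id G) A) (μ : Measure X)
    [IsProbabilityMeasure μ] (hμ : ∀ g ∈ A, μ.map (fun z => g • z) = μ)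
    (hmix : (3 ≤ r ∧ PolyMix a μ 2) ∨ (2 ≤ r ∧ PolyMix a μ 4) ∨ (2 ≤ r ∧ ExpMix a μ)) :
    UnipInv κ (MonoidHom.id G) (MonoidHom.id G) A μ ∨ ∃ x : X, μ = Measure.dirac x := by
  have hmA : ∀ m, a m ∈ A := fun m => (hA _).2 ⟨m, rfl⟩
  have hμm : ∀ m, μ.map (fun x => a m • x) = μ := fun m => hμ _ (hmA m)
  have hr : 1 ≤ r := by rcases hmix with h | h | h <;> omega
  have hsamp : ∀ w : V r →+ ℝ, w ≠ 0 → Sampled a μ w := by
    intro w hw
    have hcc : ((3 ≤ r ∧ PolyMix a μ 2) ∨ (2 ≤ r ∧ PolyMix a μ 4)) → Sampled a μ w := by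
      intro h
      refine sampled_of_cconv a μ w fun θ hθ ε hε => ?_
      obtain ⟨f, h1, h2, h3⟩ := cconv_of_mix a μ hμm h θ hθ ε hε
      exact ⟨f, h1, h2, h3 w hw⟩
    rcases hmix with h | h | h
    · exact hcc (Or.inl h)
    · exact hcc (Or.inr h)
    · exact sampled_of_exp h.1 a ha μ hμm h.2 w hw
  have hmix2 : PolyMix a μ 2 := by
    rcases hmix with h | h | h
    · exact h.2
    · exact h.2.two
    · exact h.2.poly ha hμm
  -- a nonzero functional
  set w₀ : V r →+ ℝ :=
    { toFun := fun m => ((m ⟨0, hr⟩ : ℤ) : ℝ)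
      map_zero' := by simp
      map_add' := fun m m' => by simp } with hw₀
  have hw₀ne : w₀ ≠ 0 := by
    intro h
    have h1 := DFunLike.congr_fun h (Pi.single ⟨0, hr⟩ 1)
    have h2 : w₀ (Pi.single ⟨0, hr⟩ 1) = 1 := by
      show (((Pi.single ⟨0, hr⟩ 1 : V r) ⟨0, hr⟩ : ℤ) : ℝ) = 1
      rw [Pi.single_eq_same]; norm_num
    rw [h2] at h1
    exact one_ne_zero h1
  have herg : ∀ s : Set X, MeasurableSet s → (∀ g ∈ A, (fun z => g • z) ⁻¹' s =ᵐ[μ] s) →
      μ s = 0 ∨ μ sᶜ = 0 := by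
    intro s hs hinv
    exact serg a μ hμm w₀ (hsamp w₀ hw₀ne) s hs (fun m => hinv _ (hmA m))
  rcases unip_or_orbit_samp hq κ hκ hopen a ha A hA hcls μ hμ herg
    (fun w hw _ => hsamp w hw) with h | ⟨x, hx⟩
  · exact Or.inl h
  · refine Or.inr (dirac_of_orbit hr a ha μ hμm
      (cenL (MonoidHom.id G) A) (fun c hc m => hc _ (hmA m)) x hx hmix2)

end main

end PoolMX
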