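import Pool.Agent.Work.MP_67388f_an.MX.Cnt

/-!
# Spectral conditions give complete convergence along strips

`rho m` is the correlation `∫ φ 0 φ m - c²`. (1) summable `p`-th powers; (2) a spectral density in `L^q`.
-/

set_option autoImplicit false

namespace PoolMX

open MeasureTheory Filter Topology

section variance

variable {Ω : Type*} [MeasurableSpace Ω] {μ : Measure Ω} [IsProbabilityMeasure μ]

private lemma sp_markov {Y : Ω → ℝ} (hY : Measurable Y) {B : ℝ} (hB : ∀ x, |Y x| ≤ B)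
    {δ K : ℝ} (hδ : 0 < δ) (hK : ∫ x, Y x ^ 2 ∂μ ≤ K) :
    μ.real {x | δ < |Y x|} ≤ K / δ ^ 2 := by
  have hint : Integrable (fun x => Y x ^ 2) μ :=
    Integrable.of_bound (hY.pow_const 2).aestronglyMeasurable (B ^ 2)
      (ae_of_all _ fun x => by
        rw [Real.norm_eq_abs, abs_pow]
        exact pow_le_pow_left₀ (abs_nonneg _) (hB x) 2)
  have h := mul_meas_ge_le_integral_of_nonneg (μ := μ) (f := fun x => Y x ^ 2)
    (ae_of_all _ fun x => sq_nonneg _) hint (δ ^ 2)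
  have hsub : {x | δ < |Y x|} ⊆ {x | δ ^ 2 ≤ Y x ^ 2} := by
    intro x hx
    have h1 : δ ^ 2 ≤ |Y x| ^ 2 := pow_le_pow_left₀ hδ.le (le_of_lt hx) 2
    rwa [sq_abs] at h1
  have h2 : μ.real {x | δ < |Y x|} ≤ μ.real {x | δ ^ 2 ≤ Y x ^ 2} := measureReal_mono hsub
  rw [le_div_iff₀ (pow_pos hδ 2), mul_comm]
  exact (mul_le_mul_of_nonneg_left h2 (pow_pos hδ 2).le).trans (h.trans hK)

private lemma sp_moment {ι : Type*} (F : Finset ι) {ψ : ι → Ω → ℝ} (hm : ∀ m, Measurable (ψ m))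
    {b : ℝ} (hb : ∀ m x, |ψ m x| ≤ b) :
    ∫ x, (∑ m ∈ F, ψ m x) ^ 2 ∂μ = ∑ m ∈ F, ∑ m' ∈ F, ∫ x, ψ m x * ψ m' x ∂μ := by
  have hint : ∀ m m', Integrable (fun x => ψ m x * ψ m' x) μ := fun m m' =>
    Integrable.of_bound ((hm m).mul (hm m')).aestronglyMeasurable (b * b)
      (ae_of_all _ fun x => by
        rw [Real.norm_eq_abs, abs_mul]
        exact mul_le_mul (hb m x) (hb m' x) (abs_nonneg _) ((abs_nonneg _).trans (hb m x)))
  have e : (fun x => (∑ m ∈ F, ψ m x) ^ 2) = fun x => ∑ m ∈ F, ∑ m' ∈ F, ψ m x * ψ m' x := by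
    funext x
    rw [sq, Finset.sum_mul_sum]
  rw [e, integral_finsetSum F fun m _ => integrable_finsetSum F fun m' _ => hint m m']
  exact Finset.sum_congr rfl fun m _ => integral_finsetSum F fun m' _ => hint m m'

/-- A bound for the quadratic form of the correlations over the strips gives complete
convergence along strips. -/
theorem summable_of_form {r : ℕ} (hr : 1 ≤ r) (w : V r →+ ℝ) (N : ℕ) (hN : 0 < N)
    (η : ℝ) (hη : 0 < η) (φ : V r → Ω → ℝ) (hm : ∀ m, Measurable (φ m)) (B : ℝ)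
    (hB : ∀ m x, |φ m x| ≤ B) (c : ℝ) (hc : ∀ m, ∫ x, φ m x ∂μ = c) (ρ : V r → ℝ)
    (hcor : ∀ m m', ∫ x, φ m x * φ m' x ∂μ - c ^ 2 = ρ (m' - m)) (K s : ℝ)
    (hs : 1 < ((r : ℝ) - 1) * s)
    (hform : ∀ R : ℕ, ∑ m ∈ strip w N η R, ∑ m' ∈ strip w N η R, ρ (m' - m) ≤
      K * ((strip w N η R).card : ℝ) ^ (2 - s))
    (δ : ℝ) (hδ : 0 < δ) :
    Summable fun R : ℕ => μ.real {x | δ <
      |(∑ m ∈ strip w N η R, φ m x) / ((strip w N η R).card : ℝ) - c|} := by
  set b : ℝ := |B| + |c| with hb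
  have hb0 : 0 ≤ b := by positivity
  have hψ : ∀ m x, |φ m x - c| ≤ b := fun m x =>
    (abs_sub _ _).trans (add_le_add ((hB m x).trans (le_abs_self B)) le_rfl)
  have hψm : ∀ m, Measurable fun x => φ m x - c := fun m => (hm m).sub_const c
  have hint : ∀ m, Integrable (φ m) μ := fun m =>
    Integrable.of_bound (hm m).aestronglyMeasurable B
      (ae_of_all _ fun x => by rw [Real.norm_eq_abs]; exact hB m x)
  have hint2 : ∀ m m', Integrable (fun x => φ m x * φ m' x) μ := fun m m' =>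
    Integrable.of_bound ((hm m).mul (hm m')).aestronglyMeasurable (B * B)
      (ae_of_all _ fun x => by
        rw [Real.norm_eq_abs, abs_mul]
        exact mul_le_mul (hB m x) (hB m' x) (abs_nonneg _) ((abs_nonneg _).trans (hB m x)))
  have hpm : ∀ m m', ∫ x, (φ m x - c) * (φ m' x - c) ∂μ = ρ (m' - m) := by
    intro m m'
    rw [← hcor m m']
    have i1 : Integrable (fun x => c * φ m x + c * φ m' x) μ :=
      ((hint m).const_mul c).add ((hint m').const_mul c)
    have i2 : Integrable (fun x => φ m x * φ m' x - (c * φ m x + c * φ m' x)) μ :=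
      (hint2 m m').sub i1
    have e : (fun x => (φ m x - c) * (φ m' x - c)) =
        fun x => (φ m x * φ m' x - (c * φ m x + c * φ m' x)) + c ^ 2 := by
      funext x; ring
    rw [e, integral_add i2 (integrable_const _), integral_sub (hint2 m m') i1,
      integral_add ((hint m).const_mul c) ((hint m').const_mul c), integral_const_mul,
      integral_const_mul, hc, hc, integral_const]
    simp
    ring
  obtain ⟨c₁, hc₁, hcard⟩ := le_strip_card hr w N hN η hη
  have hs0 : 0 < s := by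
    by_contra h
    push Not at h
    have h1 : 0 ≤ (r : ℝ) - 1 := by
      have : (1 : ℝ) ≤ r := by exact_mod_cast hr
      linarith
    nlinarith [mul_nonneg h1 (neg_nonneg.2 h)]
  set M : ℝ := |K| * c₁ ^ (-s) / δ ^ 2 with hM
  have hM0 : 0 ≤ M := by
    have := Real.rpow_nonneg hc₁.le (-s)
    positivity
  set e : ℝ := ((r : ℝ) - 1) * s with he
  have hbound : ∀ R : ℕ, μ.real {x | δ <
      |(∑ m ∈ strip w N η R, φ m x) / ((strip w N η R).card : ℝ) - c|} ≤
      M * ((R : ℝ) + 1) ^ (-e) := by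
    intro R
    set F := strip w N η R with hF
    set n : ℝ := (F.card : ℝ) with hn
    have hR1 : (0 : ℝ) < (R : ℝ) + 1 := by positivity
    have hn1 : c₁ * ((R : ℝ) + 1) ^ (r - 1) ≤ n := hcard R
    have hn0 : 0 < n := (mul_pos hc₁ (pow_pos hR1 _)).trans_le hn1
    have hS : ∀ x, (∑ m ∈ F, φ m x) / n - c = (∑ m ∈ F, (φ m x - c)) / n := by
      intro x
      rw [Finset.sum_sub_distrib, Finset.sum_const, nsmul_eq_mul]
      field_simp
      rw [hn]
      ring
    have hYm : Measurable fun x => (∑ m ∈ F, (φ m x - c)) / n :=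
      (Finset.measurable_fun_sum F fun m _ => hψm m).div_const n
    have hYb : ∀ x, |(∑ m ∈ F, (φ m x - c)) / n| ≤ n * b / n := by
      intro x
      rw [abs_div, abs_of_pos hn0]
      refine div_le_div_of_nonneg_right ?_ hn0.le
      refine (Finset.abs_sum_le_sum_abs _ _).trans ?_
      refine (Finset.sum_le_sum fun m _ => hψ m x).trans ?_
      rw [Finset.sum_const, nsmul_eq_mul]
    have h1 : ∫ x, ((∑ m ∈ F, (φ m x - c)) / n) ^ 2 ∂μ ≤
        |K| * c₁ ^ (-s) * ((R : ℝ) + 1) ^ (-e) := by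
      have e1 : (fun x => ((∑ m ∈ F, (φ m x - c)) / n) ^ 2) =
          fun x => (∑ m ∈ F, (φ m x - c)) ^ 2 / n ^ 2 := by
        funext x
        rw [div_pow]
      rw [e1, integral_div, sp_moment F hψm hψ]
      have h2 : ∑ m ∈ F, ∑ m' ∈ F, ∫ x, (φ m x - c) * (φ m' x - c) ∂μ ≤
          |K| * n ^ (2 - s) := by
        have h3 : ∑ m ∈ F, ∑ m' ∈ F, ∫ x, (φ m x - c) * (φ m' x - c) ∂μ =
            ∑ m ∈ F, ∑ m' ∈ F, ρ (m' - m) :=
          Finset.sum_congr rfl fun m _ => Finset.sum_congr rfl fun m' _ => hpm m m'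
        rw [h3]
        exact (hform R).trans (mul_le_mul_of_nonneg_right (le_abs_self K)
          (Real.rpow_nonneg hn0.le _))
      have h4 : (∑ m ∈ F, ∑ m' ∈ F, ∫ x, (φ m x - c) * (φ m' x - c) ∂μ) / n ^ 2 ≤
          |K| * n ^ (-s) := by
        rw [div_le_iff₀ (by positivity)]
        refine h2.trans (le_of_eq ?_)
        rw [mul_assoc, ← Real.rpow_natCast n 2, ← Real.rpow_add hn0]
        congr 2
        push_cast
        ring
      refine h4.trans ?_
      have h5 : n ^ (-s) ≤ (c₁ * ((R : ℝ) + 1) ^ (r - 1)) ^ (-s) :=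
        Real.rpow_le_rpow_of_nonpos (mul_pos hc₁ (pow_pos hR1 _)) hn1 (by linarith)
      have h6 : (c₁ * ((R : ℝ) + 1) ^ (r - 1)) ^ (-s) = c₁ ^ (-s) * ((R : ℝ) + 1) ^ (-e) := by
        rw [Real.mul_rpow hc₁.le (pow_pos hR1 _).le, ← Real.rpow_natCast ((R : ℝ) + 1) (r - 1),
          ← Real.rpow_mul hR1.le, Nat.cast_sub hr, Nat.cast_one]
        congr 2
        rw [he]
        ring
      rw [h6] at h5
      calc |K| * n ^ (-s) ≤ |K| * (c₁ ^ (-s) * ((R : ℝ) + 1) ^ (-e)) :=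
            mul_le_mul_of_nonneg_left h5 (abs_nonneg K)
        _ = _ := by ring
    have h2 := sp_markov (μ := μ) hYm hYb hδ h1
    have e3 : {x | δ < |(∑ m ∈ F, φ m x) / n - c|} = {x | δ < |(∑ m ∈ F, (φ m x - c)) / n|} := by
      ext x
      rw [Set.mem_ofPred_eq, Set.mem_ofPred_eq, hS x]
    rw [e3]
    refine h2.trans (le_of_eq ?_)
    rw [hM]
    ring
  have hsum : Summable fun R : ℕ => M * ((R : ℝ) + 1) ^ (-e) := by
    refine Summable.mul_left M ?_
    have h1 : Summable fun n : ℕ => (n : ℝ) ^ (-e) := Real.summable_nat_rpow.2 (by linarith)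
    have h2 := (summable_nat_add_iff 1).2 h1
    refine h2.congr fun n => ?_
    push_cast
    rfl
  exact Summable.of_nonneg_of_le (fun R => measureReal_nonneg) hbound hsum

end variance

/-! ### Summable powers of the correlations -/

/-- If the `p`-th powers of `ρ` are summable over `|w m| < 2 η`, then the quadratic form is bounded
on the finite subsets of `|w m| < η`. -/
theorem form_of_summable {r : ℕ} (w : V r →+ ℝ) (η : ℝ) (ρ : V r → ℝ) (p : ℝ) (hp : 1 ≤ p)
    (hρ : Summable fun m : {m : V r // |w m| < 2 * η} => |ρ m.1| ^ p) :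
    ∃ K : ℝ, ∀ F : Finset (V r), (∀ m ∈ F, |w m| < η) →
      ∑ m ∈ F, ∑ m' ∈ F, ρ (m' - m) ≤ K * (F.card : ℝ) ^ (2 - 1 / p) := by
  classical
  set T : ℝ := ∑' m : {m : V r // |w m| < 2 * η}, |ρ m.1| ^ p with hT
  have hp0 : 0 < p := by linarith
  have hT0 : 0 ≤ T := tsum_nonneg fun m => Real.rpow_nonneg (abs_nonneg _) _
  refine ⟨T ^ (1 / p), fun F hF => ?_⟩
  rcases Nat.eq_zero_or_pos F.card with h0 | h0
  · rw [Finset.card_eq_zero] at h0
    subst h0
    simp only [Finset.sum_empty]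
    exact mul_nonneg (Real.rpow_nonneg hT0 _) (Real.rpow_nonneg (by positivity) _)
  set n : ℝ := (F.card : ℝ) with hn
  have hn0 : 0 < n := by rw [hn]; exact_mod_cast h0
  have h1 : ∀ m ∈ F, ∑ m' ∈ F, ρ (m' - m) ≤ T ^ (1 / p) * n ^ (1 - 1 / p) := by
    intro m hm
    have h2 : ∑ m' ∈ F, ρ (m' - m) ≤ ∑ m' ∈ F, |ρ (m' - m)| :=
      Finset.sum_le_sum fun m' _ => le_abs_self _
    have h3 := Real.rpow_sum_le_const_mul_sum_rpow F (fun m' => ρ (m' - m)) hp
    have h4 : ∑ m' ∈ F, |ρ (m' - m)| ^ p ≤ T := by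
      set S : Finset {m : V r // |w m| < 2 * η} :=
        (F.image fun m' => m' - m).subtype fun v => |w v| < 2 * η with hS
      have h5 : ∑ m' ∈ F, |ρ (m' - m)| ^ p = ∑ v ∈ S, |ρ v.1| ^ p := by
        have h6 : ∑ m' ∈ F, |ρ (m' - m)| ^ p = ∑ v ∈ F.image fun m' => m' - m, |ρ v| ^ p := by
          rw [Finset.sum_image fun x _ y _ hxy => sub_left_injective hxy]
        rw [h6, hS, Finset.sum_subtype_of_mem (fun v : V r => |ρ v| ^ p)]
        intro v hv
        rw [Finset.mem_image] at hv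
        obtain ⟨m', hm', rfl⟩ := hv
        rw [map_sub]
        have h7 := hF m hm
        have h8 := hF m' hm'
        refine (abs_sub _ _).trans_lt ?_
        linarith
      rw [h5]
      exact hρ.sum_le_tsum S fun v _ => Real.rpow_nonneg (abs_nonneg _) _
    have h7 : (∑ m' ∈ F, |ρ (m' - m)|) ^ p ≤ n ^ (p - 1) * T :=
      h3.trans (mul_le_mul_of_nonneg_left h4 (Real.rpow_nonneg hn0.le _))
    have h8 : 0 ≤ ∑ m' ∈ F, |ρ (m' - m)| := Finset.sum_nonneg fun m' _ => abs_nonneg _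
    have h9 : ∑ m' ∈ F, |ρ (m' - m)| ≤ (n ^ (p - 1) * T) ^ (1 / p) := by
      have h10 := Real.rpow_le_rpow (Real.rpow_nonneg h8 p) h7 (by positivity : 0 ≤ 1 / p)
      rwa [← Real.rpow_mul h8, mul_one_div_cancel hp0.ne', Real.rpow_one] at h10
    refine h2.trans (h9.trans (le_of_eq ?_))
    rw [Real.mul_rpow (Real.rpow_nonneg hn0.le _) hT0, ← Real.rpow_mul hn0.le, mul_comm]
    congr 2
    field_simp
  refine (Finset.sum_le_sum h1).trans (le_of_eq ?_)
  rw [Finset.sum_const, nsmul_eq_mul, ← hn]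
  have h11 : n ^ (2 - 1 / p) = n * n ^ (1 - 1 / p) := by
    have h12 : n ^ (2 - 1 / p) = n ^ ((1 : ℝ) + (1 - 1 / p)) := by congr 1; ring
    rw [h12, Real.rpow_add hn0, Real.rpow_one]
  rw [h11]
  ring

end PoolMX
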