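import Pool.Agent.Work.MP_67388f_an.MX.Cnt

/-!
# Spectral densities in `L^q`: bound for the quadratic form of the correlations over finite sets
-/

set_option autoImplicit false

namespace PoolMX

open MeasureTheory Filter Topology

/-- Lebesgue measure on the unit cube of dimension `r` -/
noncomputable abbrev cube (r : ℕ) : Measure (Fin r → ℝ) :=
  Measure.pi fun _ => volume.restrict (Set.Ioc (0 : ℝ) 1)

instance (r : ℕ) : IsProbabilityMeasure (cube r) := by
  have : IsProbabilityMeasure (volume.restrict (Set.Ioc (0 : ℝ) 1)) :=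
    ⟨by rw [Measure.restrict_apply_univ, Real.volume_Ioc]; simp⟩
  infer_instance

/-- the phase of a character -/
noncomputable def phase {r : ℕ} (m : V r) (θ : Fin r → ℝ) : ℝ := 2 * Real.pi * ∑ i, (m i : ℝ) * θ i

lemma phase_sub {r : ℕ} (m m' : V r) (θ : Fin r → ℝ) :
    phase (m' - m) θ = phase m' θ - phase m θ := by
  unfold phase
  rw [← mul_sub, ← Finset.sum_sub_distrib]
  congr 1
  refine Finset.sum_congr rfl fun i _ => ?_
  rw [Pi.sub_apply]
  push_cast
  ring

lemma continuous_phase {r : ℕ} (m : V r) : Continuous (phase m) := by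
  unfold phase
  fun_prop

private lemma int_one (k : ℤ) :
    ∫ t in Set.Ioc (0 : ℝ) 1, Complex.exp (2 * Real.pi * Complex.I * k * t) =
      if k = 0 then 1 else 0 := by
  rw [← intervalIntegral.integral_of_le zero_le_one]
  split_ifs with hk
  · subst hk
    simp
  · have hc : (2 * Real.pi * Complex.I * k : ℂ) ≠ 0 := by
      have h1 : (k : ℂ) ≠ 0 := by exact_mod_cast hk
      have h2 : (Real.pi : ℂ) ≠ 0 := by exact_mod_cast Real.pi_ne_zero
      simp [h1, h2]
    rw [integral_exp_mul_complex hc]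
    have h3 : Complex.exp (2 * Real.pi * Complex.I * k * (1 : ℝ)) = 1 := by
      rw [Complex.exp_eq_one_iff]
      exact ⟨k, by push_cast; ring⟩
    rw [h3]
    simp

private lemma int_char {r : ℕ} (k : V r) :
    ∫ θ, Real.cos (phase k θ) ∂cube r = if k = 0 then 1 else 0 := by
  have h1 : ∀ θ : Fin r → ℝ, Real.cos (phase k θ) =
      RCLike.re (∏ i, Complex.exp (2 * Real.pi * Complex.I * (k i) * (θ i))) := by
    intro θ
    rw [← Complex.exp_sum]
    have h2 : (∑ i, 2 * (Real.pi : ℂ) * Complex.I * (k i) * (θ i)) =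
        ((phase k θ : ℝ) : ℂ) * Complex.I := by
      unfold phase
      push_cast
      rw [Finset.mul_sum, Finset.sum_mul]
      refine Finset.sum_congr rfl fun i _ => ?_
      ring
    rw [h2]
    exact (Complex.exp_ofReal_mul_I_re _).symm
  simp_rw [h1]
  have hint : Integrable (fun θ : Fin r → ℝ =>
      ∏ i, Complex.exp (2 * Real.pi * Complex.I * (k i) * (θ i))) (cube r) := by
    refine Integrable.of_bound (C := 1) ?_ (ae_of_all _ fun θ => ?_)
    · refine Continuous.aestronglyMeasurable ?_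
      fun_prop
    · rw [norm_prod]
      refine (Finset.prod_le_one (fun i _ => norm_nonneg _) fun i _ => ?_)
      have h3 : (2 * (Real.pi : ℂ) * Complex.I * (k i) * (θ i)) =
          ((2 * Real.pi * k i * θ i : ℝ) : ℂ) * Complex.I := by
        push_cast
        ring
      rw [h3, Complex.norm_exp_ofReal_mul_I]
  rw [integral_re hint, integral_fintype_prod_eq_prod (𝕜 := ℂ)
    (fun (i : Fin r) (t : ℝ) => Complex.exp (2 * Real.pi * Complex.I * (k i) * t))]
  simp_rw [int_one]
  split_ifs with hk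
  · subst hk
    simp
  · obtain ⟨i, hi⟩ : ∃ i, k i ≠ 0 := by
      by_contra hcon
      push Not at hcon
      exact hk (funext hcon)
    rw [Finset.prod_eq_zero (Finset.mem_univ i) (by rw [if_neg hi])]
    simp

/-- the squared modulus of the exponential sum of `F` -/
private noncomputable def wgt {r : ℕ} (F : Finset (V r)) (θ : Fin r → ℝ) : ℝ :=
  ∑ m ∈ F, ∑ m' ∈ F, Real.cos (phase (m' - m) θ)

private lemma wgt_eq {r : ℕ} (F : Finset (V r)) (θ : Fin r → ℝ) :
    wgt F θ = (∑ m ∈ F, Real.cos (phase m θ)) ^ 2 + (∑ m ∈ F, Real.sin (phase m θ)) ^ 2 := by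
  unfold wgt
  rw [sq, sq, Finset.sum_mul_sum, Finset.sum_mul_sum, ← Finset.sum_add_distrib]
  refine Finset.sum_congr rfl fun m _ => ?_
  rw [← Finset.sum_add_distrib]
  refine Finset.sum_congr rfl fun m' _ => ?_
  rw [phase_sub, Real.cos_sub]
  ring

private lemma wgt_nonneg {r : ℕ} (F : Finset (V r)) (θ : Fin r → ℝ) : 0 ≤ wgt F θ := by
  rw [wgt_eq]
  positivity

private lemma wgt_le {r : ℕ} (F : Finset (V r)) (θ : Fin r → ℝ) :
    wgt F θ ≤ (F.card : ℝ) ^ 2 := by
  unfold wgt
  calc ∑ m ∈ F, ∑ m' ∈ F, Real.cos (phase (m' - m) θ) ≤ ∑ m ∈ F, ∑ m' ∈ F, (1 : ℝ) :=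
        Finset.sum_le_sum fun m _ => Finset.sum_le_sum fun m' _ => Real.cos_le_one _
    _ = (F.card : ℝ) ^ 2 := by
        simp
        ring

private lemma continuous_wgt {r : ℕ} (F : Finset (V r)) : Continuous (wgt F) := by
  unfold wgt
  exact continuous_finsetSum _ fun m _ => continuous_finsetSum _ fun m' _ =>
    Real.continuous_cos.comp (continuous_phase _)

private lemma int_wgt {r : ℕ} (F : Finset (V r)) : ∫ θ, wgt F θ ∂cube r = F.card := by
  have hint : ∀ k : V r, Integrable (fun θ => Real.cos (phase k θ)) (cube r) := fun k =>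
    Integrable.of_bound (C := 1)
      (Real.continuous_cos.comp (continuous_phase k)).aestronglyMeasurable
      (ae_of_all _ fun θ => by rw [Real.norm_eq_abs]; exact Real.abs_cos_le_one _)
  unfold wgt
  rw [integral_finsetSum F fun m _ => integrable_finsetSum F fun m' _ => hint _]
  have h1 : ∀ m ∈ F, ∫ θ, ∑ m' ∈ F, Real.cos (phase (m' - m) θ) ∂cube r = 1 := by
    intro m hm
    rw [integral_finsetSum F fun m' _ => hint _]
    simp_rw [int_char, sub_eq_zero]
    rw [Finset.sum_ite_eq' F m]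
    rw [if_pos hm]
  rw [Finset.sum_congr rfl h1]
  simp

theorem form_of_density {r : ℕ} (ρ : V r → ℝ) (q : ℝ) (hq : 1 < q) (h : (Fin r → ℝ) → ℝ)
    (hh : MemLp h (ENNReal.ofReal q) (cube r))
    (hρ : ∀ m, ρ m = ∫ θ, h θ * Real.cos (phase m θ) ∂cube r) :
    ∃ K : ℝ, ∀ F : Finset (V r),
      ∑ m ∈ F, ∑ m' ∈ F, ρ (m' - m) ≤ K * (F.card : ℝ) ^ (2 - (1 - 1 / q)) := by
  set p : ℝ := Real.conjExponent q with hp
  have hqp : q.HolderConjugate p := Real.HolderConjugate.conjExponent hq
  have hp1 : 1 < p := hqp.symm.lt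
  have hpq : 1 / p = 1 - 1 / q := by
    have h1 := hqp.inv_add_inv_eq_one
    rw [one_div, one_div]
    linarith
  have hh1 : Integrable h (cube r) := hh.integrable (by
    rw [← ENNReal.ofReal_one]
    exact ENNReal.ofReal_le_ofReal hq.le)
  refine ⟨(∫ θ, |h θ| ^ q ∂cube r) ^ (1 / q), fun F => ?_⟩
  have hQ : 0 ≤ (∫ θ, |h θ| ^ q ∂cube r) ^ (1 / q) :=
    Real.rpow_nonneg (integral_nonneg fun θ => Real.rpow_nonneg (abs_nonneg _) _) _
  rcases Nat.eq_zero_or_pos F.card with h0 | h0
  · rw [Finset.card_eq_zero] at h0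
    subst h0
    simp only [Finset.sum_empty]
    exact mul_nonneg hQ (Real.rpow_nonneg (by positivity) _)
  set n : ℝ := (F.card : ℝ) with hn
  have hn0 : 0 < n := by rw [hn]; exact_mod_cast h0
  -- the form as an integral
  have hcb : ∀ k : V r, Integrable (fun θ => h θ * Real.cos (phase k θ)) (cube r) := fun k =>
    hh1.mul_bdd (c := 1) (Real.continuous_cos.comp (continuous_phase k)).aestronglyMeasurable
      (ae_of_all _ fun θ => by rw [Real.norm_eq_abs]; exact Real.abs_cos_le_one _)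
  have h1 : ∑ m ∈ F, ∑ m' ∈ F, ρ (m' - m) = ∫ θ, h θ * wgt F θ ∂cube r := by
    have h2 : (fun θ => h θ * wgt F θ) = fun θ => ∑ m ∈ F, ∑ m' ∈ F,
        h θ * Real.cos (phase (m' - m) θ) := by
      funext θ
      unfold wgt
      rw [Finset.mul_sum]
      exact Finset.sum_congr rfl fun m _ => Finset.mul_sum _ _ _
    rw [h2, integral_finsetSum F fun m _ => integrable_finsetSum F fun m' _ => hcb _]
    refine Finset.sum_congr rfl fun m _ => ?_
    rw [integral_finsetSum F fun m' _ => hcb _]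
    exact Finset.sum_congr rfl fun m' _ => hρ _
  have hwm : AEStronglyMeasurable (wgt F) (cube r) := (continuous_wgt F).aestronglyMeasurable
  have hwb : ∀ θ, ‖wgt F θ‖ ≤ n ^ 2 := fun θ => by
    rw [Real.norm_eq_abs, abs_of_nonneg (wgt_nonneg F θ)]
    exact wgt_le F θ
  have hwLp : MemLp (wgt F) (ENNReal.ofReal p) (cube r) :=
    MemLp.of_bound hwm (n ^ 2) (ae_of_all _ hwb)
  have hwi : Integrable (wgt F) (cube r) := Integrable.of_bound hwm (n ^ 2) (ae_of_all _ hwb)
  have h2 : ∫ θ, h θ * wgt F θ ∂cube r ≤ ∫ θ, |h θ| * wgt F θ ∂cube r := by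
    refine integral_mono ?_ ?_ fun θ => mul_le_mul_of_nonneg_right (le_abs_self _) (wgt_nonneg F θ)
    · exact hh1.mul_bdd (c := n ^ 2) hwm (ae_of_all _ hwb)
    · exact hh1.abs.mul_bdd (c := n ^ 2) hwm (ae_of_all _ hwb)
  have h3 := integral_mul_le_Lp_mul_Lq_of_nonneg hqp (μ := cube r) (f := fun θ => |h θ|)
    (g := wgt F) (ae_of_all _ fun θ => abs_nonneg _) (ae_of_all _ fun θ => wgt_nonneg F θ)
    hh.abs hwLp
  have h4 : ∫ θ, wgt F θ ^ p ∂cube r ≤ n ^ (2 * p - 1) := by
    have h5 : ∀ θ, wgt F θ ^ p ≤ n ^ (2 * (p - 1)) * wgt F θ := by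
      intro θ
      have h6 := wgt_nonneg F θ
      rcases h6.eq_or_lt with h7 | h7
      · rw [← h7, Real.zero_rpow (by linarith), mul_zero]
      · have h8 : wgt F θ ^ p = wgt F θ ^ (p - 1) * wgt F θ := by
          rw [Real.rpow_sub_one h7.ne', div_mul_cancel₀ _ h7.ne']
        rw [h8]
        refine mul_le_mul_of_nonneg_right ?_ h6
        have h9 := Real.rpow_le_rpow h6 (wgt_le F θ) (by linarith : 0 ≤ p - 1)
        refine h9.trans (le_of_eq ?_)
        rw [← hn, ← Real.rpow_natCast n 2, ← Real.rpow_mul hn0.le]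
        push_cast
        rfl
    calc ∫ θ, wgt F θ ^ p ∂cube r ≤ ∫ θ, n ^ (2 * (p - 1)) * wgt F θ ∂cube r := by
          refine integral_mono ?_ (hwi.const_mul _) h5
          refine Integrable.of_bound (C := (n ^ 2) ^ p) ?_ (ae_of_all _ fun θ => ?_)
          · exact ((continuous_wgt F).rpow_const fun θ =>
              Or.inr (by linarith)).aestronglyMeasurable
          · rw [Real.norm_eq_abs, abs_of_nonneg (Real.rpow_nonneg (wgt_nonneg F θ) _)]
            exact Real.rpow_le_rpow (wgt_nonneg F θ) (wgt_le F θ) (by linarith)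
      _ = n ^ (2 * (p - 1)) * n := by rw [integral_const_mul, int_wgt]
      _ = n ^ (2 * p - 1) := by
          have h10 : n ^ (2 * p - 1) = n ^ (2 * (p - 1) + 1) := by congr 1; ring
          rw [h10, Real.rpow_add hn0, Real.rpow_one]
  have h5 : (∫ θ, wgt F θ ^ p ∂cube r) ^ (1 / p) ≤ n ^ (2 - (1 - 1 / q)) := by
    have h6 := Real.rpow_le_rpow (integral_nonneg fun θ =>
      Real.rpow_nonneg (wgt_nonneg F θ) _) h4 (by positivity : 0 ≤ 1 / p)
    refine h6.trans (le_of_eq ?_)
    rw [← Real.rpow_mul hn0.le, ← hpq]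
    congr 1
    field_simp
  rw [h1]
  exact h2.trans (h3.trans (mul_le_mul_of_nonneg_left h5 hQ))

end PoolMX
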