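import Pool.Agent.Work.MP_67388f_an.MX.SpecE
import Pool.Agent.Work.MP_67388f_an.MX.EDefs

/-!
# Spectral measures with a ball condition give samples with complete convergence
-/

set_option autoImplicit false

namespace PoolMX

open MeasureTheory Filter Topology

/-! ### second moments -/

/-- The second moment of a weighted average in terms of the spectral measure. -/
theorem second_moment {Ω ι : Type*} [MeasurableSpace Ω] {μ : Measure Ω} [IsProbabilityMeasure μ]
    [Fintype ι] {r : ℕ} (φ : V r → Ω → ℝ) (hm : ∀ m, Measurable (φ m)) (B : ℝ)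
    (hB : ∀ m x, |φ m x| ≤ B) (c : ℝ) (hc : ∀ m, ∫ x, φ m x ∂μ = c)
    (σ : Measure (Fin r → ℝ)) [IsFiniteMeasure σ]
    (hcor : ∀ m m', ∫ x, φ m x * φ m' x ∂μ - c ^ 2 =
      ∫ θ, Real.cos (2 * Real.pi * ∑ i, ((m' - m) i : ℝ) * θ i) ∂σ)
    (p : ι → ℝ) (hp : ∀ i, 0 ≤ p i) (hZ : 0 < ∑ i, p i) (e : ι → V r) :
    ∫ x, ((∑ i, p i * φ (e i) x) / (∑ i, p i) - c) ^ 2 ∂μ ≤
      (∫ θ, ‖∑ i, (p i : ℂ) * chr (e i) θ‖ ∂σ) / ∑ i, p i := by
  set Z : ℝ := ∑ i, p i with hZd
  have hint : ∀ m, Integrable (φ m) μ := fun m =>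
    Integrable.of_bound (hm m).aestronglyMeasurable B
      (ae_of_all _ fun x => by rw [Real.norm_eq_abs]; exact hB m x)
  have hint2 : ∀ m m', Integrable (fun x => φ m x * φ m' x) μ := fun m m' =>
    Integrable.of_bound ((hm m).mul (hm m')).aestronglyMeasurable (B * B)
      (ae_of_all _ fun x => by
        rw [Real.norm_eq_abs, abs_mul]
        exact mul_le_mul (hB m x) (hB m' x) (abs_nonneg _) ((abs_nonneg _).trans (hB m x)))
  have i1 : ∀ m m', Integrable (fun x => c * φ m x + c * φ m' x) μ := fun m m' =>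
    ((hint m).const_mul c).add ((hint m').const_mul c)
  have i2 : ∀ m m', Integrable (fun x => φ m x * φ m' x - (c * φ m x + c * φ m' x)) μ :=
    fun m m' => (hint2 m m').sub (i1 m m')
  have e0 : ∀ m m', (fun x => (φ m x - c) * (φ m' x - c)) =
      fun x => (φ m x * φ m' x - (c * φ m x + c * φ m' x)) + c ^ 2 := by
    intro m m'
    funext x; ring
  have hint3 : ∀ m m', Integrable (fun x => (φ m x - c) * (φ m' x - c)) μ := by
    intro m m'
    rw [e0]
    exact (i2 m m').add (integrable_const _)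
  have hpm : ∀ m m', ∫ x, (φ m x - c) * (φ m' x - c) ∂μ =
      ∫ θ, Real.cos (2 * Real.pi * ∑ i, ((m' - m) i : ℝ) * θ i) ∂σ := by
    intro m m'
    rw [← hcor m m', e0, integral_add (i2 m m') (integrable_const _),
      integral_sub (hint2 m m') (i1 m m'),
      integral_add ((hint m).const_mul c) ((hint m').const_mul c), integral_const_mul,
      integral_const_mul, hc, hc, integral_const]
    simp
    ring
  -- the left side
  have e1 : ∀ x, ((∑ i, p i * φ (e i) x) / Z - c) ^ 2 =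
      (∑ i, ∑ j, p i * p j * ((φ (e i) x - c) * (φ (e j) x - c))) / Z ^ 2 := by
    intro x
    have h1 : (∑ i, p i * φ (e i) x) / Z - c = (∑ i, p i * (φ (e i) x - c)) / Z := by
      have h2 : ∑ i, p i * (φ (e i) x - c) = ∑ i, p i * φ (e i) x - Z * c := by
        rw [hZd, Finset.sum_mul, ← Finset.sum_sub_distrib]
        exact Finset.sum_congr rfl fun i _ => by ring
      rw [h2, sub_div, mul_div_cancel_left₀ _ hZ.ne']
    rw [h1, div_pow]
    congr 1
    rw [sq, Finset.sum_mul_sum]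
    exact Finset.sum_congr rfl fun i _ => Finset.sum_congr rfl fun j _ => by ring
  have e2 : ∫ x, ((∑ i, p i * φ (e i) x) / Z - c) ^ 2 ∂μ =
      (∑ i, ∑ j, p i * p j *
        ∫ θ, Real.cos (2 * Real.pi * ∑ k, ((e j - e i) k : ℝ) * θ k) ∂σ) / Z ^ 2 := by
    simp_rw [e1]
    rw [integral_div]
    congr 1
    rw [integral_finsetSum _ fun i _ => integrable_finsetSum _ fun j _ =>
      (hint3 (e i) (e j)).const_mul _]
    refine Finset.sum_congr rfl fun i _ => ?_
    rw [integral_finsetSum _ fun j _ => (hint3 (e i) (e j)).const_mul _]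
    refine Finset.sum_congr rfl fun j _ => ?_
    rw [integral_const_mul, hpm]
  have hcosi : ∀ m : V r, Integrable
      (fun θ : Fin r → ℝ => Real.cos (2 * Real.pi * ∑ k, (m k : ℝ) * θ k)) σ := fun m =>
    Integrable.of_bound (C := 1) (Continuous.aestronglyMeasurable (by fun_prop))
      (ae_of_all _ fun θ => by rw [Real.norm_eq_abs]; exact Real.abs_cos_le_one _)
  have e3 : ∑ i, ∑ j, p i * p j *
        ∫ θ, Real.cos (2 * Real.pi * ∑ k, ((e j - e i) k : ℝ) * θ k) ∂σ =
      ∫ θ, ‖∑ i, (p i : ℂ) * chr (e i) θ‖ ^ 2 ∂σ := by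
    have h1 : ∀ θ : Fin r → ℝ, ‖∑ i, (p i : ℂ) * chr (e i) θ‖ ^ 2 =
        ∑ i, ∑ j, p i * p j * Real.cos (2 * Real.pi * ∑ k, ((e j - e i) k : ℝ) * θ k) := by
      intro θ
      have h2 : ((‖∑ i, (p i : ℂ) * chr (e i) θ‖ ^ 2 : ℝ) : ℂ) =
          ∑ i, ∑ j, ((p i * p j : ℝ) : ℂ) * chr (e j - e i) θ := by
        rw [← Complex.normSq_eq_norm_sq, ← Complex.mul_conj, mul_comm, map_sum,
          Finset.sum_mul_sum]
        refine Finset.sum_congr rfl fun i _ => Finset.sum_congr rfl fun j _ => ?_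
        rw [map_mul, Complex.conj_ofReal, chr_sub]
        push_cast
        ring
      have h3 := congrArg Complex.re h2
      rw [Complex.ofReal_re, Complex.re_sum] at h3
      rw [h3]
      refine Finset.sum_congr rfl fun i _ => ?_
      rw [Complex.re_sum]
      refine Finset.sum_congr rfl fun j _ => ?_
      rw [Complex.re_ofReal_mul, chr_re]
    simp_rw [h1]
    rw [integral_finsetSum _ fun i _ => integrable_finsetSum _ fun j _ =>
      (hcosi _).const_mul _]
    refine Finset.sum_congr rfl fun i _ => ?_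
    rw [integral_finsetSum _ fun j _ => (hcosi _).const_mul _]
    exact Finset.sum_congr rfl fun j _ => (integral_const_mul _ _).symm
  rw [e2, e3, div_le_div_iff₀ (by positivity) hZ]
  have hDc : Continuous fun θ : Fin r → ℝ => ∑ i, (p i : ℂ) * chr (e i) θ :=
    continuous_finsetSum _ fun i _ => continuous_const.mul (continuous_chr _)
  have hDb : ∀ θ : Fin r → ℝ, ‖∑ i, (p i : ℂ) * chr (e i) θ‖ ≤ Z := by
    intro θ
    refine (norm_sum_le _ _).trans ?_
    rw [hZd]
    refine Finset.sum_le_sum fun i _ => ?_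
    rw [norm_mul, norm_chr, mul_one, Complex.norm_real, Real.norm_eq_abs, abs_of_nonneg (hp i)]
  have hDi : Integrable (fun θ : Fin r → ℝ => ‖∑ i, (p i : ℂ) * chr (e i) θ‖) σ :=
    Integrable.of_bound (C := Z) hDc.norm.aestronglyMeasurable
      (ae_of_all _ fun θ => by rw [norm_norm]; exact hDb θ)
  have h4 : ∫ θ, ‖∑ i, (p i : ℂ) * chr (e i) θ‖ ^ 2 ∂σ ≤
      Z * ∫ θ, ‖∑ i, (p i : ℂ) * chr (e i) θ‖ ∂σ := by
    rw [← integral_const_mul]
    refine integral_mono_of_nonneg (ae_of_all _ fun θ => by positivity) (hDi.const_mul Z)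
      (ae_of_all _ fun θ => ?_)
    simp only
    rw [sq]
    exact mul_le_mul_of_nonneg_right (hDb θ) (norm_nonneg _)
  nlinarith

/-! ### the weights -/

lemma chr_split {r N : ℕ} (m : V r) (ω θ : Fin r → ℝ) (s : ℝ) :
    chr m (fun i => s * ω i + N * θ i) =
      Complex.exp (2 * Real.pi * Complex.I * (s * ((∑ i, ω i * (m i : ℝ) : ℝ) : ℂ))) *
        chr ((N : ℤ) • m) θ := by
  unfold chr
  rw [← Complex.exp_add, ← mul_add]
  congr 2
  have h : ∑ i, (m i : ℝ) * (s * ω i + N * θ i) =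
      s * (∑ i, ω i * (m i : ℝ)) + ∑ i, ((((N : ℤ) • m) i : ℤ) : ℝ) * θ i := by
    rw [Finset.mul_sum, ← Finset.sum_add_distrib]
    refine Finset.sum_congr rfl fun i _ => ?_
    rw [Pi.smul_apply, smul_eq_mul]
    push_cast
    ring
  rw [h]
  push_cast
  ring

lemma continuous_bsum {r : ℕ} (L : ℕ) : Continuous (bsum (r := r) L) := by
  unfold bsum
  exact continuous_finsetSum _ fun b _ => continuous_chr _

/-- The exponential sum with the weights `χ` is small in the mean. -/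
theorem weight_sum_le {r : ℕ} (hr : 0 < r) (χ g : ℝ → ℝ) (hg0 : ∀ s, 0 ≤ g s)
    (hgc : Continuous g) (hgi : Integrable g)
    (hχg : ∀ t, ((χ t : ℝ) : ℂ) =
      ∫ s, (g s : ℂ) * Complex.exp (2 * Real.pi * Complex.I * (s * t)))
    (σ : Measure (Fin r → ℝ)) [IsFiniteMeasure σ] (C s₀ : ℝ) (hs0 : 0 < s₀) (hs4 : s₀ ≤ 3)
    (hσ : ∀ (x : Fin r → ℝ) (δ : ℝ), 0 < δ → σ.real (nbd x δ) ≤ C * δ ^ s₀)
    (N : ℕ) (hN : 0 < N) (ω : Fin r → ℝ) :
    ∃ C' : ℝ, 0 ≤ C' ∧ ∀ (L : ℕ), 1 ≤ L →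
      ∫ θ, ‖∑ Q : Quad r L, ((χ (∑ i, ω i * (qv Q i : ℝ)) : ℝ) : ℂ) *
        chr ((N : ℤ) • qv Q) θ‖ ∂σ ≤ C' * (L : ℝ) ^ (4 * r) * (L : ℝ) ^ (-s₀) := by
  obtain ⟨C₁, hC₁, h1⟩ := lint_bsum hr σ C s₀ hs0 hs4 hσ N hN
  have hgI : 0 ≤ ∫ s, g s := integral_nonneg hg0
  refine ⟨(∫ s, g s) * C₁, mul_nonneg hgI hC₁, fun L hL => ?_⟩
  have hbc : Continuous fun z : (Fin r → ℝ) × ℝ =>
      ‖bsum L (fun i => z.2 * ω i + N * z.1 i)‖ ^ 4 :=
    ((continuous_bsum L).comp (by fun_prop)).norm.pow 4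
  -- the exponential sum is an integral
  have hD : ∀ θ : Fin r → ℝ, ∑ Q : Quad r L, ((χ (∑ i, ω i * (qv Q i : ℝ)) : ℝ) : ℂ) *
      chr ((N : ℤ) • qv Q) θ =
      ∫ s, (((g s) * ‖bsum L (fun i => s * ω i + N * θ i)‖ ^ 4 : ℝ) : ℂ) := by
    intro θ
    have h2 : ∀ Q : Quad r L, ((χ (∑ i, ω i * (qv Q i : ℝ)) : ℝ) : ℂ) *
        chr ((N : ℤ) • qv Q) θ = ∫ s, (g s : ℂ) * chr (qv Q) (fun i => s * ω i + N * θ i) := by
      intro Q
      rw [hχg, ← integral_mul_const]
      refine integral_congr_ae (ae_of_all _ fun s => ?_)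
      simp only
      rw [chr_split, mul_assoc]
    have h3 : ∀ Q : Quad r L, Integrable fun s : ℝ =>
        (g s : ℂ) * chr (qv Q) (fun i => s * ω i + N * θ i) := by
      intro Q
      refine (hgi.ofReal (𝕜 := ℂ)).mul_bdd (c := 1) ?_ (ae_of_all _ fun s => (norm_chr _ _).le)
      exact ((continuous_chr _).comp (by fun_prop)).aestronglyMeasurable
    rw [Finset.sum_congr rfl fun Q _ => h2 Q, ← integral_finsetSum _ fun Q _ => h3 Q]
    refine integral_congr_ae (ae_of_all _ fun s => ?_)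
    simp only
    rw [← Finset.mul_sum, sum_chr_qv]
    push_cast
    rfl
  have hle : ∀ θ : Fin r → ℝ, ENNReal.ofReal ‖∑ Q : Quad r L,
      ((χ (∑ i, ω i * (qv Q i : ℝ)) : ℝ) : ℂ) * chr ((N : ℤ) • qv Q) θ‖ ≤
      ∫⁻ s, ENNReal.ofReal (g s) *
        ENNReal.ofReal (‖bsum L (fun i => s * ω i + N * θ i)‖ ^ 4) := by
    intro θ
    rw [hD, ofReal_norm]
    refine (enorm_integral_le_lintegral_enorm _).trans (le_of_eq ?_)
    refine lintegral_congr fun s => ?_
    rw [← ofReal_norm, Complex.norm_real, Real.norm_eq_abs,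
      abs_of_nonneg (mul_nonneg (hg0 s) (by positivity)), ENNReal.ofReal_mul (hg0 s)]
  have hDc : Continuous fun θ : Fin r → ℝ => ∑ Q : Quad r L,
      ((χ (∑ i, ω i * (qv Q i : ℝ)) : ℝ) : ℂ) * chr ((N : ℤ) • qv Q) θ :=
    continuous_finsetSum _ fun i _ => continuous_const.mul (continuous_chr _)
  have hmain : ∫⁻ θ, ENNReal.ofReal ‖∑ Q : Quad r L,
      ((χ (∑ i, ω i * (qv Q i : ℝ)) : ℝ) : ℂ) * chr ((N : ℤ) • qv Q) θ‖ ∂σ ≤
      ENNReal.ofReal ((∫ s, g s) * C₁ * (L : ℝ) ^ (4 * r) * (L : ℝ) ^ (-s₀)) := by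
    refine (lintegral_mono hle).trans ?_
    rw [lintegral_lintegral_swap]
    · have h5 : ∀ s : ℝ, ∫⁻ θ, ENNReal.ofReal (g s) *
          ENNReal.ofReal (‖bsum L (fun i => s * ω i + N * θ i)‖ ^ 4) ∂σ ≤
          ENNReal.ofReal (g s) * ENNReal.ofReal (C₁ * (L : ℝ) ^ (4 * r) * (L : ℝ) ^ (-s₀)) := by
        intro s
        rw [lintegral_const_mul]
        · exact mul_le_mul_right (h1 L hL fun i => s * ω i) _
        · have hc : Continuous fun θ : Fin r → ℝ =>
              ‖bsum L (fun i => s * ω i + N * θ i)‖ ^ 4 :=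
            ((continuous_bsum L).comp (by fun_prop)).norm.pow 4
          exact hc.measurable.ennreal_ofReal
      refine (lintegral_mono h5).trans ?_
      obtain ⟨K, hK⟩ : ∃ K : ℝ, K = C₁ * (L : ℝ) ^ (4 * r) * (L : ℝ) ^ (-s₀) := ⟨_, rfl⟩
      have hgm : Measurable fun s => ENNReal.ofReal (g s) := hgc.measurable.ennreal_ofReal
      have e1 : ∫⁻ s, ENNReal.ofReal (g s) = ENNReal.ofReal (∫ s, g s) :=
        (ofReal_integral_eq_lintegral_ofReal hgi (ae_of_all _ hg0)).symm
      have e2 : (∫ s, g s) * C₁ * (L : ℝ) ^ (4 * r) * (L : ℝ) ^ (-s₀) = (∫ s, g s) * K := by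
        rw [hK]
        ring
      rw [← hK, e2, ENNReal.ofReal_mul hgI, ← e1]
      exact (lintegral_mul_const (ENNReal.ofReal K) hgm).le
    · have m1 : Measurable fun z : (Fin r → ℝ) × ℝ => ENNReal.ofReal (g z.2) :=
        (hgc.measurable.comp measurable_snd).ennreal_ofReal
      have m2 : Measurable fun z : (Fin r → ℝ) × ℝ =>
          ENNReal.ofReal (‖bsum L (fun i => z.2 * ω i + N * z.1 i)‖ ^ 4) :=
        hbc.measurable.ennreal_ofReal
      exact (m1.mul m2).aemeasurable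
  have hDi : Integrable (fun θ : Fin r → ℝ => ‖∑ Q : Quad r L,
      ((χ (∑ i, ω i * (qv Q i : ℝ)) : ℝ) : ℂ) * chr ((N : ℤ) • qv Q) θ‖) σ := by
    refine ⟨hDc.norm.aestronglyMeasurable, ?_⟩
    rw [hasFiniteIntegral_iff_ofReal (ae_of_all _ fun θ => norm_nonneg _)]
    exact hmain.trans_lt ENNReal.ofReal_lt_top
  rw [← ofReal_integral_eq_lintegral_ofReal hDi (ae_of_all _ fun θ => norm_nonneg _)] at hmain
  exact (ENNReal.ofReal_le_ofReal_iff (by positivity)).1 hmain

/-! ### samples -/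

private theorem sp_bdd {X : Type*} [TopologicalSpace X] (θ : C(X, ℝ))
    (hθ : HasCompactSupport θ) : ∃ B : ℝ, ∀ x, |θ x| ≤ B := by
  obtain ⟨B, hB⟩ := θ.continuous.bounded_above_of_compact_support hθ
  exact ⟨B, fun x => by rw [← Real.norm_eq_abs]; exact hB x⟩

/-- The spectral measure of `f` exists and balls of radius `δ` have measure `O(δ ^ s)`, `s > 2`. -/
def BallSpec {G X : Type*} [SMul G X] [MeasurableSpace X] {r : ℕ} (a : V r → G) (μ : Measure X)
    (f : X → ℝ) : Prop :=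
  ∃ σ : Measure (Fin r → ℝ), IsFiniteMeasure σ ∧
    (∀ m : V r, ∫ x, f x * f (a m • x) ∂μ - (∫ x, f x ∂μ) ^ 2 =
      ∫ θ, Real.cos (2 * Real.pi * ∑ i, (m i : ℝ) * θ i) ∂σ) ∧
    ∃ C s : ℝ, 2 < s ∧ ∀ (x : Fin r → ℝ) (δ : ℝ), 0 < δ → σ.real (nbd x δ) ≤ C * δ ^ s

theorem sampled_of_ball {G X : Type*} [Group G] [TopologicalSpace G] [TopologicalSpace X]
    [MeasurableSpace X] [BorelSpace X] [MulAction G X] [ContinuousSMul G X] {r : ℕ} (hr : 0 < r)
    (a : V r → G) (ha : ∀ m m', a (m + m') = a m * a m') (μ : Measure X)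
    [IsProbabilityMeasure μ] (hμ : ∀ m, μ.map (fun x => a m • x) = μ) (w : V r →+ ℝ)
    (hspec : ∀ θ : C(X, ℝ), HasCompactSupport θ → ∀ ε : ℝ, 0 < ε →
      ∃ f : C(X, ℝ), HasCompactSupport f ∧ (∀ x, |θ x - f x| ≤ ε) ∧ BallSpec a μ f) :
    Sampled a μ w := by
  classical
  intro N η hN hη
  obtain ⟨χ, g, hχ0, hχs, hχc, hχ1, hg0, hgc, hgi, hχg⟩ := exists_bump
  set ω : Fin r → ℝ := fun i => N * w (Pi.single i 1) / η with hω
  have hωq : ∀ m : V r, ∑ i, ω i * (m i : ℝ) = w ((N : ℤ) • m) / η := by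
    intro m
    have h1 : w ((N : ℤ) • m) = N * ∑ i, (m i : ℝ) * w (Pi.single i 1) := by
      have h2 : m = ∑ i, m i • (Pi.single i 1 : V r) := by
        funext j
        rw [Finset.sum_apply]
        simp [Pi.single_apply]
      rw [map_zsmul, zsmul_eq_mul]
      conv_lhs => rw [h2, map_sum]
      push_cast
      congr 1
      refine Finset.sum_congr rfl fun i _ => ?_
      rw [map_zsmul, zsmul_eq_mul]
    rw [h1, Finset.mul_sum, Finset.sum_div]
    refine Finset.sum_congr rfl fun i _ => ?_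
    rw [hω]
    ring
  obtain ⟨c₀, hc₀, hcount⟩ := quad_weight ω χ hχ0 hχc hχ1
  -- the size of the box
  set Lf : ℕ → ℕ := fun R => R / (2 * N) + 1 with hLf
  have hLf1 : ∀ R, 1 ≤ Lf R := fun R => by rw [hLf]; simp
  have hZ : ∀ R, 0 < ∑ Q : Quad r (Lf R), χ (∑ i, ω i * (qv Q i : ℝ)) := by
    intro R
    have h1 := hcount (Lf R) (hLf1 R)
    have h2 : (0 : ℝ) < Lf R := by exact_mod_cast hLf1 R
    have h3 : 0 < c₀ * (Lf R : ℝ) ^ (4 * r) := by positivity
    exact pos_of_mul_pos_right (h3.trans_le h1) h2.le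
  have hex : ∀ R : ℕ, ∃ l : List (V r), l ≠ [] ∧ (∀ m ∈ l, ∃ Q : Quad r (Lf R),
      0 < χ (∑ i, ω i * (qv Q i : ℝ)) ∧ (N : ℤ) • qv Q = m) ∧
      ∀ (F : V r → ℝ) (B : ℝ), (∀ m, |F m| ≤ B) →
        |(l.map F).sum / (l.length : ℝ) -
          (∑ Q : Quad r (Lf R), χ (∑ i, ω i * (qv Q i : ℝ)) * F ((N : ℤ) • qv Q)) /
            ∑ Q : Quad r (Lf R), χ (∑ i, ω i * (qv Q i : ℝ))| ≤ 1 / ((R : ℝ) + 1) * B := fun R =>
    exists_list (fun Q : Quad r (Lf R) => χ (∑ i, ω i * (qv Q i : ℝ))) (fun Q => hχ0 _) (hZ R)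
      (fun Q => (N : ℤ) • qv Q) (1 / ((R : ℝ) + 1)) (by positivity)
  choose F hF0 hFm hFa using hex
  refine ⟨F, fun R => ⟨hF0 R, fun m hm => ?_⟩, ?_⟩
  · obtain ⟨Q, hQ, rfl⟩ := hFm R m hm
    rw [mem_strip]
    refine ⟨fun i => ?_, fun i => ?_, ?_⟩
    · rw [Pi.smul_apply, smul_eq_mul, abs_mul, abs_of_nonneg (Int.natCast_nonneg N)]
      have h1 := abs_qv_le Q i
      have h2 : ((Lf R : ℕ) : ℤ) - 1 = (R : ℤ) / (2 * N) := by
        rw [hLf]
        push_cast
        ring
      rw [h2] at h1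
      have h3 : (R : ℤ) / (2 * N) * (2 * N) ≤ R := Int.ediv_mul_le _ (by positivity)
      have h4 : (0 : ℤ) ≤ N := Int.natCast_nonneg N
      nlinarith
    · rw [Pi.smul_apply, smul_eq_mul]
      exact dvd_mul_right _ _
    · rw [hωq] at hQ
      by_contra h
      push Not at h
      have h1 : χ (w ((N : ℤ) • qv Q) / η) = 0 := by
        refine hχs _ ?_
        rw [abs_div, abs_of_pos hη, le_div_iff₀ hη, one_mul]
        exact h
      rw [h1] at hQ
      exact lt_irrefl _ hQ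
  · intro θ hθ ε hε
    obtain ⟨f, hf, hθf, σ, hσfin, hcor, C, s, hs, hball⟩ := hspec θ hθ ε hε
    refine ⟨f, hf, hθf, fun δ hδ => ?_⟩
    obtain ⟨B, hB⟩ := sp_bdd f hf
    have hcont : ∀ m, Continuous fun x : X => a m • x := fun m => continuous_const_smul (a m)
    -- an exponent at most three
    set s₀ : ℝ := min s 3 with hs₀
    have hs₀2 : 2 < s₀ := lt_min hs (by norm_num)
    have hs₀3 : s₀ ≤ 3 := min_le_right _ _
    have hball' : ∀ (x : Fin r → ℝ) (δ : ℝ), 0 < δ →
        σ.real (nbd x δ) ≤ (|C| + σ.real Set.univ) * δ ^ s₀ := by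
      intro x δ hδ
      have h0 : 0 ≤ σ.real Set.univ := measureReal_nonneg
      rcases le_total δ 1 with h1 | h1
      · refine (hball x δ hδ).trans ?_
        have h2 : δ ^ s ≤ δ ^ s₀ := Real.rpow_le_rpow_of_exponent_ge hδ h1 (min_le_left _ _)
        calc C * δ ^ s ≤ |C| * δ ^ s₀ :=
              mul_le_mul (le_abs_self C) h2 (by positivity) (abs_nonneg C)
          _ ≤ (|C| + σ.real Set.univ) * δ ^ s₀ := by
              refine mul_le_mul_of_nonneg_right ?_ (by positivity)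
              linarith
      · have h2 : σ.real (nbd x δ) ≤ σ.real Set.univ := measureReal_mono (Set.subset_univ _)
        have h3 : (1 : ℝ) ≤ δ ^ s₀ := Real.one_le_rpow h1 (by linarith)
        refine h2.trans ?_
        calc σ.real Set.univ ≤ (|C| + σ.real Set.univ) * 1 := by
              rw [mul_one]
              linarith [abs_nonneg C]
          _ ≤ (|C| + σ.real Set.univ) * δ ^ s₀ :=
              mul_le_mul_of_nonneg_left h3 (by positivity)
    obtain ⟨C', hC', hw⟩ := weight_sum_le hr χ g hg0 hgc hgi hχg σ (|C| + σ.real Set.univ) s₀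
      (by linarith) hs₀3 hball' N hN ω
    set c : ℝ := ∫ x, f x ∂μ with hc
    have hint : ∀ m, ∫ x, f (a m • x) ∂μ = c := by
      intro m
      have h1 := integral_map (μ := μ) (φ := fun x : X => a m • x) (f := fun x => f x)
        (hcont m).measurable.aemeasurable f.continuous.aestronglyMeasurable
      rw [hμ m] at h1
      exact h1.symm
    have hcor2 : ∀ m m' : V r, ∫ x, f (a m • x) * f (a m' • x) ∂μ - c ^ 2 =
        ∫ θ, Real.cos (2 * Real.pi * ∑ i, ((m' - m) i : ℝ) * θ i) ∂σ := by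
      intro m m'
      rw [← hcor (m' - m)]
      congr 1
      have h1 := integral_map (μ := μ) (φ := fun x : X => a m • x)
        (f := fun x => f x * f (a (m' - m) • x)) (hcont m).measurable.aemeasurable
        ((f.continuous.mul (f.continuous.comp (hcont _))).aestronglyMeasurable)
      rw [hμ m] at h1
      rw [h1]
      refine integral_congr_ae (ae_of_all _ fun x => ?_)
      simp only
      rw [smul_smul, ← ha, sub_add_cancel]
    have hmom : ∀ R : ℕ, ∫ x, ((∑ Q : Quad r (Lf R), χ (∑ i, ω i * (qv Q i : ℝ)) *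
        f (a ((N : ℤ) • qv Q) • x)) / (∑ Q : Quad r (Lf R), χ (∑ i, ω i * (qv Q i : ℝ))) - c) ^ 2
          ∂μ ≤ C' / c₀ * (Lf R : ℝ) ^ (1 - s₀) := by
      intro R
      have h1 := second_moment (fun m x => f (a m • x))
        (fun m => (f.continuous.comp (hcont m)).measurable) B (fun m x => hB _) c hint σ hcor2
        (fun Q : Quad r (Lf R) => χ (∑ i, ω i * (qv Q i : ℝ))) (fun Q => hχ0 _) (hZ R)
        (fun Q => (N : ℤ) • qv Q)
      refine h1.trans ?_
      have h2 := hw (Lf R) (hLf1 R)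
      have h3 := hcount (Lf R) (hLf1 R)
      have hL0 : (0 : ℝ) < Lf R := by exact_mod_cast hLf1 R
      rw [div_le_iff₀ (hZ R)]
      refine h2.trans ?_
      have h4 : (Lf R : ℝ) ^ (1 - s₀) = (Lf R : ℝ) * (Lf R : ℝ) ^ (-s₀) := by
        rw [sub_eq_add_neg, Real.rpow_add hL0, Real.rpow_one]
      rw [h4]
      calc C' * (Lf R : ℝ) ^ (4 * r) * (Lf R : ℝ) ^ (-s₀) =
            C' / c₀ * (Lf R : ℝ) ^ (-s₀) * (c₀ * (Lf R : ℝ) ^ (4 * r)) := by
              field_simp
        _ ≤ C' / c₀ * (Lf R : ℝ) ^ (-s₀) *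
            (Lf R * ∑ Q : Quad r (Lf R), χ (∑ i, ω i * (qv Q i : ℝ))) :=
              mul_le_mul_of_nonneg_left h3 (by positivity)
        _ = _ := by ring
    -- the measures of the exceptional sets
    have hB0 : 0 ≤ |B| := abs_nonneg B
    obtain ⟨R₀, hR₀⟩ := exists_nat_gt (2 * |B| / δ)
    have hev : ∀ R : ℕ, R₀ ≤ R → μ.real {x | δ < |lavg a (F R) f x - c|} ≤
        4 / δ ^ 2 * (C' / c₀) * (2 * N) ^ (s₀ - 1) * ((R : ℝ) ^ (1 - s₀)) := by
      intro R hR
      set Y : X → ℝ := fun x => (∑ Q : Quad r (Lf R), χ (∑ i, ω i * (qv Q i : ℝ)) *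
        f (a ((N : ℤ) • qv Q) • x)) / (∑ Q : Quad r (Lf R), χ (∑ i, ω i * (qv Q i : ℝ))) - c
        with hY
      have hYc : Continuous Y := by
        rw [hY]
        refine ((continuous_finsetSum _ fun Q _ => ?_).div_const _).sub continuous_const
        exact continuous_const.mul (f.continuous.comp (hcont _))
      have hRr : (R₀ : ℝ) ≤ R := by exact_mod_cast hR
      have hR0 : (0 : ℝ) < R := by
        have h1 : (0 : ℝ) ≤ 2 * |B| / δ := by positivity
        linarith
      have hsub : {x | δ < |lavg a (F R) f x - c|} ⊆ {x | (δ / 2) ^ 2 ≤ Y x ^ 2} := by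
        intro x hx
        have h1 := hFa R (fun m => f (a m • x)) |B| (fun m => (hB _).trans (le_abs_self B))
        have h2 : 1 / ((R : ℝ) + 1) * |B| ≤ δ / 2 := by
          rw [one_div_mul_eq_div, div_le_iff₀ (by positivity)]
          have h3 : 2 * |B| / δ < (R : ℝ) + 1 := by linarith
          rw [div_lt_iff₀ hδ] at h3
          linarith
        have h4 : δ < |lavg a (F R) f x - c| := hx
        have h5 : |lavg a (F R) f x - c| ≤ δ / 2 + |Y x| := by
          have h6 : lavg a (F R) f x - c = (lavg a (F R) f x - (Y x + c)) + Y x := by ring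
          rw [h6]
          refine (abs_add_le _ _).trans ?_
          refine add_le_add_left ?_ _
          have h7 : Y x + c = (∑ Q : Quad r (Lf R), χ (∑ i, ω i * (qv Q i : ℝ)) *
              f (a ((N : ℤ) • qv Q) • x)) /
                (∑ Q : Quad r (Lf R), χ (∑ i, ω i * (qv Q i : ℝ))) := by
            rw [hY]
            ring
          rw [h7]
          exact h1.trans h2
        have h8 : δ / 2 ≤ |Y x| := by linarith
        have h9 : (δ / 2) ^ 2 ≤ |Y x| ^ 2 := pow_le_pow_left₀ (by positivity) h8 2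
        rwa [sq_abs] at h9
      have hYb : Integrable (fun x => Y x ^ 2) μ := by
        refine Integrable.of_bound (C := (|B| + |c|) ^ 2) (hYc.pow 2).aestronglyMeasurable
          (ae_of_all _ fun x => ?_)
        rw [Real.norm_eq_abs, abs_pow]
        refine pow_le_pow_left₀ (abs_nonneg _) ?_ 2
        refine (abs_sub _ _).trans (add_le_add ?_ le_rfl)
        rw [abs_div, abs_of_pos (hZ R), div_le_iff₀ (hZ R), Finset.mul_sum]
        refine (Finset.abs_sum_le_sum_abs _ _).trans (Finset.sum_le_sum fun Q _ => ?_)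
        rw [abs_mul, abs_of_nonneg (hχ0 _), mul_comm]
        exact mul_le_mul_of_nonneg_right ((hB _).trans (le_abs_self B)) (hχ0 _)
      have h10 := mul_meas_ge_le_integral_of_nonneg (μ := μ) (f := fun x => Y x ^ 2)
        (ae_of_all _ fun x => sq_nonneg _) hYb ((δ / 2) ^ 2)
      have h11 : μ.real {x | δ < |lavg a (F R) f x - c|} ≤
          μ.real {x | (δ / 2) ^ 2 ≤ Y x ^ 2} := measureReal_mono hsub
      have h12 := hmom R
      have h13 : μ.real {x | δ < |lavg a (F R) f x - c|} ≤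
          4 / δ ^ 2 * (C' / c₀ * (Lf R : ℝ) ^ (1 - s₀)) := by
        have h14 : (δ / 2) ^ 2 * μ.real {x | δ < |lavg a (F R) f x - c|} ≤
            C' / c₀ * (Lf R : ℝ) ^ (1 - s₀) :=
          (mul_le_mul_of_nonneg_left h11 (by positivity)).trans (h10.trans h12)
        have h15 : 4 / δ ^ 2 * ((δ / 2) ^ 2 * μ.real {x | δ < |lavg a (F R) f x - c|}) =
            μ.real {x | δ < |lavg a (F R) f x - c|} := by
          field_simp
          ring
        rw [← h15]
        exact mul_le_mul_of_nonneg_left h14 (by positivity)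
      refine h13.trans ?_
      have hN0 : (0 : ℝ) < N := by exact_mod_cast hN
      have h16 : (R : ℝ) / (2 * N) ≤ Lf R := by
        rw [div_le_iff₀ (by positivity)]
        have h17 : R < 2 * N * (R / (2 * N) + 1) := Nat.lt_mul_div_succ R (by omega)
        have h17' : R ≤ Lf R * (2 * N) := by
          rw [hLf]
          simp only
          rw [mul_comm]
          exact h17.le
        exact_mod_cast h17'
      have h18 : (Lf R : ℝ) ^ (1 - s₀) ≤ ((R : ℝ) / (2 * N)) ^ (1 - s₀) :=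
        Real.rpow_le_rpow_of_nonpos (by positivity) h16 (by linarith)
      have h19 : ((R : ℝ) / (2 * N)) ^ (1 - s₀) = (2 * N) ^ (s₀ - 1) * (R : ℝ) ^ (1 - s₀) := by
        rw [Real.div_rpow hR0.le (by positivity), div_eq_mul_inv, ← Real.rpow_neg (by positivity),
          neg_sub, mul_comm]
      rw [h19] at h18
      calc 4 / δ ^ 2 * (C' / c₀ * (Lf R : ℝ) ^ (1 - s₀)) ≤
            4 / δ ^ 2 * (C' / c₀ * ((2 * N) ^ (s₀ - 1) * (R : ℝ) ^ (1 - s₀))) := by
              gcongr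
        _ = _ := by ring
    have hsum : Summable fun R : ℕ =>
        4 / δ ^ 2 * (C' / c₀) * (2 * N) ^ (s₀ - 1) * ((R : ℝ) ^ (1 - s₀)) :=
      Summable.mul_left _ (Real.summable_nat_rpow.2 (by linarith))
    refine Summable.of_norm_bounded_eventually_nat hsum ?_
    filter_upwards [eventually_ge_atTop R₀] with R hR
    rw [Real.norm_eq_abs, abs_of_nonneg measureReal_nonneg]
    exact hev R hR

end PoolMX
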