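import Pool.Agent.Work.MP_67388f_an.MX.Defs

/-!
MODULE Cnt (size M). Counting lattice points in strips. `mem_strip` is in Defs.

`strip_card_le`. Choose `i₀` with `w e ≠ 0`, `e = Pi.single i₀ 1` (exists since `w ≠ 0`: `w m = ∑ m i * w e_i`).
Put `B = |w e| > 0`. Map `m ∈ strip w 1 η R` to its restriction to the coordinates `i ≠ i₀` (e.g. to
`Function.update m i₀ 0`, an element of the box with `i₀`-th coordinate `0`): the image has at most
`(2R+1)^(r-1)` elements. A fibre consists of `m = m' + t e`, `t` an integer with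
`|w m' + t * w e| < η`, so any two such `t` differ by less than `2η/B`: at most `2η/B + 1` values. So
`C = 2^(r-1) * (2η/B + 1)` works (`2R+1 ≤ 2(R+1)`). (`Finset.card_le_mul_card_image` or
`Finset.card_le_mul_card_image_of_maps_to`.)

`le_strip_card`. Put `S = ∑ |w e_i|`, `P = R / N` (natural division), so `P + 1 ≥ (R+1)/N`. Consider
the `(P+1)^r` vectors `N m'`, `0 ≤ m' i ≤ P`. Their values under `w` lie in `[-R S, R S]`. Put them into
the boxes `⌊w(N m')/η⌋`, at most `2 R S/η + 2` of them; by the pigeonhole principle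
(`Finset.exists_le_card_fiber_of_mul_le_card_of_maps_to` or `exists_lt_card_fiber...`) one box contains at
least `(P+1)^r / (2 R S/η + 2)` of them. Subtract a fixed member of this box: the differences are distinct
elements of `strip w N η R` (coordinates of size at most `N P ≤ R`, divisible by `N`, `w`-values `< η` in
absolute value because both lie in a half open interval of length `η`). Finally
`(P+1)^r / (2RS/η+2) ≥ ((R+1)/N)^r / ((2S/η+2)(R+1)) = c (R+1)^(r-1)`, `c = N^(-r)/(2S/η+2)`.
-/

set_option autoImplicit false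

namespace PoolMX

private lemma exists_single_ne {r : ℕ} (w : V r →+ ℝ) (hw : w ≠ 0) :
    ∃ i₀ : Fin r, w (Pi.single i₀ 1) ≠ 0 := by
  by_contra h
  push Not at h
  apply hw
  apply AddMonoidHom.functions_ext'
  intro i
  apply AddMonoidHom.ext_int
  simpa using h i

private lemma toNat_cast_le {n : ℤ} {x : ℝ} (h : (n : ℝ) ≤ x) (hx : 0 ≤ x) : (n.toNat : ℝ) ≤ x := by
  rcases le_total 0 n with h0 | h0
  · have : ((n.toNat : ℤ) : ℝ) = (n : ℝ) := by rw [Int.toNat_of_nonneg h0]
    have h2 : (n.toNat : ℝ) = (n : ℝ) := by exact_mod_cast this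
    rw [h2]; exact h
  · rw [Int.toNat_of_nonpos h0]; simpa using hx

theorem strip_card_le {r : ℕ} (w : V r →+ ℝ) (hw : w ≠ 0) (η : ℝ) (hη : 0 < η) :
    ∃ C : ℝ, 0 < C ∧ ∀ R : ℕ, ((strip w 1 η R).card : ℝ) ≤ C * ((R : ℝ) + 1) ^ (r - 1) := by
  classical
  obtain ⟨i₀, hi₀⟩ := exists_single_ne w hw
  set β : ℝ := w (Pi.single i₀ 1) with hβ
  have hB : 0 < |β| := abs_pos.mpr hi₀
  have hr : 1 ≤ r := by
    have := i₀.2
    omega
  refine ⟨2 ^ (r - 1) * (2 * η / |β| + 1), by positivity, fun R => ?_⟩
  set T : Finset (V r) := Fintype.piFinset fun i => if i = i₀ then {0} else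
    Finset.Icc (-(R : ℤ)) R with hT
  have hTc : (T.card : ℝ) = (2 * (R : ℝ) + 1) ^ (r - 1) := by
    rw [hT, Fintype.card_piFinset]
    have h1 : ∏ i : Fin r, ((if i = i₀ then ({0} : Finset ℤ) else Finset.Icc (-(R : ℤ)) R).card) =
        (2 * R + 1) ^ (r - 1) := by
      rw [← Finset.mul_prod_erase Finset.univ _ (Finset.mem_univ i₀)]
      rw [if_pos rfl, Finset.card_singleton, one_mul]
      have h2 : ∀ i ∈ Finset.univ.erase i₀,
          ((if i = i₀ then ({0} : Finset ℤ) else Finset.Icc (-(R : ℤ)) R).card) = 2 * R + 1 := by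
        intro i hi
        rw [if_neg (Finset.ne_of_mem_erase hi), Int.card_Icc]
        omega
      rw [Finset.prod_congr rfl h2, Finset.prod_const, Finset.card_erase_of_mem (Finset.mem_univ _),
        Finset.card_univ, Fintype.card_fin]
    rw [h1]
    push_cast
    ring
  have hmaps : ∀ m ∈ strip w 1 η R, (fun m : V r => Function.update m i₀ 0) m ∈ T := by
    intro m hm
    rw [mem_strip] at hm
    rw [hT, Fintype.mem_piFinset]
    intro i
    by_cases hi : i = i₀
    · subst hi
      simp
    · simp only [Function.update_of_ne hi, if_neg hi, Finset.mem_Icc]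
      exact abs_le.mp (hm.1 i)
  have hfib : ∀ b ∈ T, (((strip w 1 η R).filter fun m => (fun m : V r => Function.update m i₀ 0) m = b).card
      : ℝ) ≤ 2 * η / |β| + 1 := by
    intro b hb
    set x : ℝ := -(w b) / β with hx
    have hinj : ((strip w 1 η R).filter fun m => (fun m : V r => Function.update m i₀ 0) m = b).card ≤
        (Finset.Icc ⌈x - η / |β|⌉ ⌊x + η / |β|⌋).card := by
      apply Finset.card_le_card_of_injOn (fun m : V r => m i₀)
      · intro m hm
        rw [Finset.mem_coe, Finset.mem_filter, mem_strip] at hm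
        obtain ⟨⟨h1, -, h2⟩, h3⟩ := hm
        have hm' : m = b + (m i₀) • (Pi.single i₀ 1 : V r) := by
          rw [← h3]
          funext i
          by_cases hi : i = i₀
          · subst hi
            simp
          · simp [hi]
        have hwm : w m = w b + (m i₀ : ℝ) * β := by
          conv_lhs => rw [hm']
          rw [map_add, map_zsmul, zsmul_eq_mul]
        rw [hwm] at h2
        have h4 : |(m i₀ : ℝ) - x| < η / |β| := by
          rw [lt_div_iff₀ hB, ← abs_mul]
          have : ((m i₀ : ℝ) - x) * β = w b + (m i₀ : ℝ) * β := by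
            rw [hx]; field_simp; ring
          rw [this]; exact h2
        rw [abs_lt] at h4
        rw [Finset.mem_coe, Finset.mem_Icc]
        refine ⟨Int.ceil_le.mpr (by linarith), Int.le_floor.mpr (by linarith)⟩
      · intro m hm m' hm' he
        rw [Finset.mem_coe, Finset.mem_filter] at hm hm'
        have h3 := hm.2
        have h4 := hm'.2
        funext i
        by_cases hi : i = i₀
        · rw [hi]; exact he
        · have h5 := congrFun (h3.trans h4.symm) i
          simpa [hi] using h5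
    have hcard : ((Finset.Icc ⌈x - η / |β|⌉ ⌊x + η / |β|⌋).card : ℝ) ≤ 2 * η / |β| + 1 := by
      rw [Int.card_Icc]
      apply toNat_cast_le
      · push_cast
        have a1 := Int.floor_le (x + η / |β|)
        have a2 := Int.le_ceil (x - η / |β|)
        have a3 : 2 * η / |β| = η / |β| + η / |β| := by ring
        rw [a3]
        linarith
      · positivity
    calc _ ≤ ((Finset.Icc ⌈x - η / |β|⌉ ⌊x + η / |β|⌋).card : ℝ) := by exact_mod_cast hinj
      _ ≤ _ := hcard
  have hsum : ((strip w 1 η R).card : ℝ) ≤ T.card * (2 * η / |β| + 1) := by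
    rw [Finset.card_eq_sum_card_fiberwise (f := fun m : V r => Function.update m i₀ 0) (t := T) hmaps]
    push_cast
    calc _ ≤ ∑ b ∈ T, (2 * η / |β| + 1) := Finset.sum_le_sum fun b hb => hfib b hb
      _ = _ := by rw [Finset.sum_const, nsmul_eq_mul]
  refine hsum.trans ?_
  rw [hTc]
  have h2 : (2 * (R : ℝ) + 1) ^ (r - 1) ≤ 2 ^ (r - 1) * ((R : ℝ) + 1) ^ (r - 1) := by
    rw [← mul_pow]
    apply pow_le_pow_left₀ (by positivity)
    linarith
  calc _ ≤ (2 ^ (r - 1) * ((R : ℝ) + 1) ^ (r - 1)) * (2 * η / |β| + 1) :=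
        mul_le_mul_of_nonneg_right h2 (by positivity)
    _ = _ := by ring

theorem le_strip_card {r : ℕ} (hr : 1 ≤ r) (w : V r →+ ℝ) (N : ℕ) (hN : 0 < N) (η : ℝ)
    (hη : 0 < η) :
    ∃ c : ℝ, 0 < c ∧ ∀ R : ℕ, c * ((R : ℝ) + 1) ^ (r - 1) ≤ ((strip w N η R).card : ℝ) := by
  classical
  set S : ℝ := ∑ i, |w (Pi.single i 1)| with hS
  have hS0 : 0 ≤ S := Finset.sum_nonneg fun i _ => abs_nonneg _
  have hNr : (0 : ℝ) < N := by exact_mod_cast hN
  refine ⟨1 / ((N : ℝ) ^ r * (2 * S / η + 2)), by positivity, fun R => ?_⟩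
  set P : ℕ := R / N with hP
  have hP1 : ((R : ℝ) + 1) / N ≤ (P : ℝ) + 1 := by
    rw [div_le_iff₀ hNr]
    have : R < N * (R / N + 1) := Nat.lt_mul_div_succ R hN
    have h2 : R + 1 ≤ (P + 1) * N := by rw [hP]; nlinarith
    exact_mod_cast h2
  have hPN : P * N ≤ R := Nat.div_mul_le_self R N
  -- expansion of w
  have hexp : ∀ m : V r, w m = ∑ i, (m i : ℝ) * w (Pi.single i 1) := by
    intro m
    conv_lhs => rw [← Finset.univ_sum_single m]
    rw [map_sum]
    refine Finset.sum_congr rfl fun i _ => ?_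
    have : (Pi.single i (m i) : V r) = (m i) • (Pi.single i 1 : V r) := by
      funext j
      by_cases hj : j = i
      · subst hj
        simp
      · simp [hj]
    rw [this, map_zsmul, zsmul_eq_mul]
  set g : (Fin r → ℕ) → V r := fun m i => (N : ℤ) * (m i : ℤ) with hg
  set A : Finset (Fin r → ℕ) := Fintype.piFinset fun _ => Finset.range (P + 1) with hA
  have hAc : (A.card : ℝ) = ((P : ℝ) + 1) ^ r := by
    rw [hA, Fintype.card_piFinset]
    simp
  have hgb : ∀ m ∈ A, |w (g m)| ≤ R * S := by
    intro m hm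
    rw [hA, Fintype.mem_piFinset] at hm
    rw [hexp, hS, Finset.mul_sum]
    refine (Finset.abs_sum_le_sum_abs _ _).trans (Finset.sum_le_sum fun i _ => ?_)
    rw [abs_mul]
    apply mul_le_mul_of_nonneg_right _ (abs_nonneg _)
    have h1 := Finset.mem_range.mp (hm i)
    rw [hg]
    push_cast
    rw [abs_of_nonneg (by positivity)]
    have h2 : N * m i ≤ R := by
      calc N * m i ≤ N * P := Nat.mul_le_mul_left _ (by omega)
        _ = P * N := by ring
        _ ≤ R := hPN
    exact_mod_cast h2
  set B : Finset ℤ := Finset.Icc ⌊-(R * S / η)⌋ ⌊R * S / η⌋ with hB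
  have hRS : 0 ≤ R * S / η := by positivity
  have hmaps : ∀ m ∈ A, ⌊w (g m) / η⌋ ∈ B := by
    intro m hm
    have h1 := abs_le.mp (hgb m hm)
    rw [hB, Finset.mem_Icc]
    constructor
    · apply Int.floor_le_floor
      rw [← neg_div]
      exact div_le_div_of_nonneg_right h1.1 hη.le
    · apply Int.floor_le_floor
      exact div_le_div_of_nonneg_right h1.2 hη.le
  have hBne : B.Nonempty := by
    rw [hB, Finset.nonempty_Icc]
    exact Int.floor_le_floor (by linarith)
  have hBc : (B.card : ℝ) ≤ 2 * (R * S / η) + 2 := by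
    rw [hB, Int.card_Icc]
    apply toNat_cast_le
    · push_cast
      have a1 := Int.floor_le (R * S / η)
      have a2 := Int.lt_floor_add_one (-(R * S / η))
      linarith
    · positivity
  have hBpos : (0 : ℝ) < B.card := by exact_mod_cast hBne.card_pos
  obtain ⟨y, hy, hb⟩ := Finset.exists_le_card_fiber_of_nsmul_le_card_of_maps_to
    (b := (A.card : ℝ) / B.card) hmaps hBne (by
      rw [nsmul_eq_mul, mul_div_cancel₀ _ hBpos.ne'])
  set Φ : Finset (Fin r → ℕ) := A.filter fun m => ⌊w (g m) / η⌋ = y with hΦ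
  have hApos : (0 : ℝ) < A.card := by rw [hAc]; positivity
  have hΦpos : (0 : ℝ) < Φ.card := lt_of_lt_of_le (div_pos hApos hBpos) hb
  have hΦne : Φ.Nonempty := Finset.card_pos.mp (by exact_mod_cast hΦpos)
  obtain ⟨m₀, hm₀⟩ := hΦne
  have hΦle : Φ.card ≤ (strip w N η R).card := by
    apply Finset.card_le_card_of_injOn (fun m => g m - g m₀)
    · intro m hm
      rw [Finset.mem_coe, hΦ, Finset.mem_filter] at hm
      rw [hΦ, Finset.mem_filter] at hm₀
      rw [Finset.mem_coe, mem_strip]
      have hmA := hm.1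
      have hmA₀ := hm₀.1
      rw [hA, Fintype.mem_piFinset] at hmA hmA₀
      refine ⟨fun i => ?_, fun i => ?_, ?_⟩
      · have a1 := Finset.mem_range.mp (hmA i)
        have a2 := Finset.mem_range.mp (hmA₀ i)
        have h1 : N * m i ≤ R := by
          calc N * m i ≤ N * P := Nat.mul_le_mul_left _ (by omega)
            _ = P * N := by ring
            _ ≤ R := hPN
        have h2 : N * m₀ i ≤ R := by
          calc N * m₀ i ≤ N * P := Nat.mul_le_mul_left _ (by omega)
            _ = P * N := by ring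
            _ ≤ R := hPN
        simp only [hg, Pi.sub_apply]
        have h1' : (N : ℤ) * (m i : ℤ) ≤ R := by exact_mod_cast h1
        have h2' : (N : ℤ) * (m₀ i : ℤ) ≤ R := by exact_mod_cast h2
        have h3 : (0 : ℤ) ≤ (N : ℤ) * (m i : ℤ) := by positivity
        have h4 : (0 : ℤ) ≤ (N : ℤ) * (m₀ i : ℤ) := by positivity
        rw [abs_le]
        constructor <;> linarith
      · simp only [hg, Pi.sub_apply]
        exact ⟨(m i : ℤ) - m₀ i, by ring⟩
      · rw [map_sub]
        have h1 := hm.2
        have h2 := hm₀.2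
        have a1 := Int.floor_le (w (g m) / η)
        have a2 := Int.lt_floor_add_one (w (g m) / η)
        have b1 := Int.floor_le (w (g m₀) / η)
        have b2 := Int.lt_floor_add_one (w (g m₀) / η)
        rw [h1] at a1 a2
        rw [h2] at b1 b2
        have h3 : |w (g m) / η - w (g m₀) / η| < 1 := by
          rw [abs_lt]; constructor <;> linarith
        rw [← sub_div, abs_div, abs_of_pos hη, div_lt_one hη] at h3
        exact h3
    · intro m hm m' hm' he
      funext i
      have h1 := congrFun he i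
      simp only [hg, Pi.sub_apply] at h1
      have h2 : (N : ℤ) * (m i : ℤ) = (N : ℤ) * (m' i : ℤ) := by linarith
      have h3 : (N : ℤ) ≠ 0 := by exact_mod_cast hN.ne'
      exact_mod_cast mul_left_cancel₀ h3 h2
  have hfinal : 1 / ((N : ℝ) ^ r * (2 * S / η + 2)) * ((R : ℝ) + 1) ^ (r - 1) ≤
      (A.card : ℝ) / B.card := by
    rw [le_div_iff₀ hBpos]
    have h1 : (B.card : ℝ) ≤ (2 * S / η + 2) * ((R : ℝ) + 1) := by
      refine hBc.trans ?_
      have : 0 ≤ 2 * S / η := by positivity
      have e : 2 * (R * S / η) = (2 * S / η) * R := by ring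
      rw [e]
      nlinarith [(Nat.cast_nonneg R : (0 : ℝ) ≤ R)]
    have hpow : ((R : ℝ) + 1) ^ r = ((R : ℝ) + 1) ^ (r - 1) * ((R : ℝ) + 1) := by
      rw [← pow_succ]
      congr 1
      omega
    calc _ ≤ 1 / ((N : ℝ) ^ r * (2 * S / η + 2)) * ((R : ℝ) + 1) ^ (r - 1) *
          ((2 * S / η + 2) * ((R : ℝ) + 1)) := mul_le_mul_of_nonneg_left h1 (by positivity)
      _ = (((R : ℝ) + 1) / N) ^ r := by
          rw [div_pow, hpow]
          field_simp
      _ ≤ ((P : ℝ) + 1) ^ r := pow_le_pow_left₀ (by positivity) hP1 r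
      _ = (A.card : ℝ) := hAc.symm
  calc _ ≤ (A.card : ℝ) / B.card := hfinal
    _ ≤ (Φ.card : ℝ) := hb
    _ ≤ _ := by exact_mod_cast hΦle

end PoolMX
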