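import Pool.Agent.Work.MP_67388f_an.TS.Horo

set_option autoImplicit false

/-!
Definitions for the project MX: polynomial mixing forces unipotent invariance.

`V r` is the group of the integer vectors of length `r` with the sup norm `‖m‖`. A group `G` acts on
a space `X`, `a : V r → G` satisfies `a (m + m') = a m * a m'`.
-/

namespace PoolMX

open MeasureTheory Filter Topology

/-- integer vectors of length `r` -/
abbrev V (r : ℕ) : Type := Fin r → ℤ

open Classical in
/-- The integer vectors `m` with `|m i| ≤ R`, `N ∣ m i` and `|w m| < η`. -/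
noncomputable def strip {r : ℕ} (w : V r →+ ℝ) (N : ℕ) (η : ℝ) (R : ℕ) : Finset (V r) :=
  (Fintype.piFinset fun _ => Finset.Icc (-(R : ℤ)) R).filter
    (fun m => (∀ i, (N : ℤ) ∣ m i) ∧ |w m| < η)

lemma mem_strip {r : ℕ} {w : V r →+ ℝ} {N : ℕ} {η : ℝ} {R : ℕ} {m : V r} :
    m ∈ strip w N η R ↔ (∀ i, |m i| ≤ (R : ℤ)) ∧ (∀ i, (N : ℤ) ∣ m i) ∧ |w m| < η := by
  classical
  unfold strip
  rw [Finset.mem_filter, Fintype.mem_piFinset]
  simp only [Finset.mem_Icc, abs_le]

/-- average of `f` over the points `a m • x`, `m ∈ F` -/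
noncomputable def avg {G X : Type*} [SMul G X] {r : ℕ} (a : V r → G) (F : Finset (V r))
    (f : X → ℝ) (x : X) : ℝ :=
  (∑ m ∈ F, f (a m • x)) / (F.card : ℝ)

/-- `f` is mixing of order `d` with rate `κ`: for finite sequences `s`, `t` of vectors of total
length at most `d` and mutual distances at least `g`, the products of the translates of `f` over
`s` and over `t` are uncorrelated up to `C g ^ (-κ)`. -/
def MixRate {G X : Type*} [SMul G X] [MeasurableSpace X] {r : ℕ} (a : V r → G) (μ : Measure X)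
    (d : ℕ) (κ : ℝ) (f : X → ℝ) : Prop :=
  ∃ C : ℝ, ∀ (s t : List (V r)) (g : ℝ), s.length + t.length ≤ d → 0 < g →
    (∀ m ∈ s, ∀ m' ∈ t, g ≤ ‖m - m'‖) →
    |∫ x, (s.map fun m => f (a m • x)).prod * (t.map fun m => f (a m • x)).prod ∂μ -
      (∫ x, (s.map fun m => f (a m • x)).prod ∂μ) * ∫ x, (t.map fun m => f (a m • x)).prod ∂μ| ≤
      C * g ^ (-κ)

/-- Polynomial mixing of order `d` with exponents larger than one, for a dense set of compactly
supported continuous functions. -/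
def PolyMix {G X : Type*} [SMul G X] [TopologicalSpace X] [MeasurableSpace X] {r : ℕ}
    (a : V r → G) (μ : Measure X) (d : ℕ) : Prop :=
  ∀ θ : C(X, ℝ), HasCompactSupport θ → ∀ ε : ℝ, 0 < ε →
    ∃ f : C(X, ℝ), HasCompactSupport f ∧ (∀ x, |θ x - f x| ≤ ε) ∧
      ∃ κ : ℝ, 1 < κ ∧ MixRate a μ d κ f

/-- The averages of `f` over the strips of `w` converge completely. -/
def CConv {G X : Type*} [SMul G X] [MeasurableSpace X] {r : ℕ} (a : V r → G) (μ : Measure X)
    (w : V r →+ ℝ) (f : X → ℝ) : Prop :=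
  ∀ (N : ℕ) (η δ : ℝ), 0 < N → 0 < η → 0 < δ →
    Summable fun R : ℕ => μ.real {x | δ < |avg a (strip w N η R) f x - ∫ y, f y ∂μ|}

/-- `w'` is a positive multiple of `w`. -/
def Ray {r : ℕ} (w w' : V r →+ ℝ) : Prop := ∃ l : ℝ, 0 < l ∧ ∀ m, w' m = l * w m

/-- The lattice point next to the point of the hyperplane `w = k` which is closest to the origin. -/
noncomputable def ctr {r : ℕ} (w : V r →+ ℝ) (k : ℕ) : V r :=
  fun i => round ((k : ℝ) * w (Pi.single i 1) / ∑ j, w (Pi.single j 1) ^ 2)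

/-- Multi-parameter gauge: the numbers `s c h` measure the distance of `h` to the identity and are
scaled by the conjugation by `a m` with the factor `exp (w c m)`. -/
structure MGauge {G : Type*} [Group G] [TopologicalSpace G] {r : ℕ} {C : Type*}
    (s : C → G → ℝ) (a : V r → G) (w : C → V r →+ ℝ) : Prop where
  nonneg : ∀ c h, 0 ≤ s c h
  cont : ∀ c, Continuous (s c)
  eq_one : ∀ h, (∀ c, s c h = 0) ↔ h = 1
  cpt : ∀ R : ℝ, IsCompact {h | ∀ c, s c h ≤ R}
  conj : ∀ c m h, s c (a m * h * (a m)⁻¹) = Real.exp (w c m) * s c h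
  /-- class `𝒜` -/
  cen : ∀ h, (∀ c, w c ≠ 0 → s c h = 0) → ∀ m, a m * h = h * a m
  /-- near a hyperplane `w β = const` the conjugation by the elements of a finite index sublattice
  hardly moves the entries with weights on the ray of `w β` -/
  slow : ∀ β, w β ≠ 0 → ∀ W ∈ 𝓝 (1 : G), ∀ R : ℝ, ∃ N : ℕ, 0 < N ∧ ∃ η : ℝ, 0 < η ∧
    ∃ δ : ℝ, 0 < δ ∧ ∀ m : V r, (∀ i, (N : ℤ) ∣ m i) → |w β m| < η → ∀ g : G,
      (∀ c, s c g ≤ R) → (∀ c, ¬ Ray (w β) (w c) → s c g ≤ δ ∧ Real.exp (w c m) * s c g ≤ δ) →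
        a m * g * (a m)⁻¹ * g⁻¹ ∈ W

/-- The averages over the strips around the centers `ctr (w c) k` converge uniformly on `E`. -/
def UGood {G X C : Type*} [SMul G X] [TopologicalSpace X] [MeasurableSpace X] {r : ℕ}
    (a : V r → G) (μ : Measure X) (M : ℕ) (w : C → V r →+ ℝ) (E : Set X) : Prop :=
  ∀ c, w c ≠ 0 → ∀ N p : ℕ, 0 < N → ∀ θ : C(X, ℝ), HasCompactSupport θ → ∀ ε : ℝ, 0 < ε →
    ∀ᶠ k : ℕ in atTop, ∀ x ∈ E,
      |avg a (strip (w c) N (1 / ((p : ℝ) + 1)) (k / M)) θ (a (ctr (w c) k) • x) -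
        ∫ y, θ y ∂μ| ≤ ε

end PoolMX
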