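import Pool.Agent.Work.MP_67388f_an.MX.Facet

/-!
MODULE Dyn (size M-L). Two uniformly good points which are displaced by `h j → 1` give a symmetry `u` of `μ`.
Uses `facet`'s conclusion (passed as hypotheses) and `Pool.Agent.Work.MP_67388f_an.unif_action` (Share.lean; the imports
of Defs contain it) and `map_eq_iff_test` (TV/Fun.lean).

Let `x j, h j • x j ∈ E`, `n j = ctr (w β) (k j)`, `g j = a (n j) * h j * (a (n j))⁻¹ → u` along `U`. By `map_eq_iff_test` it is enough
to show `∫ θ (u • x) = ∫ θ x` for `θ` continuous with compact support. Let `ε > 0`. By `unif_action` there is `W ∈ 𝓝 1` with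
`|θ (v • z) - θ z| < ε` for `v ∈ W` and all `z`. Choose `W₁ ∈ 𝓝 1` with `W₁ * W₁ ⊆ W`. Let `R` be larger than all `s c u` (finitely
many `c`): U-eventually `s c (g j) ≤ R` for all `c`. `H.slow β hβ W₁ R` gives `N, η, δ`; choose `p` with `1/(p+1) ≤ η`.
Put `F j = strip (w β) N (1/(p+1)) (k j / M)`. For `m ∈ F j`: `N ∣ m i`, `|w β m| < η`, `|m i| ≤ k j / M`, so by the last
property of `facet` and `slow`: `v = a m * g j * (a m)⁻¹` satisfies `v * (g j)⁻¹ ∈ W₁`; U-eventually `g j * u⁻¹ ∈ W₁`; hence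
`v * u⁻¹ ∈ W`. With `z = a m • a (n j) • x j`:
`a m • a (n j) • (h j • x j) = v • z` (`v * a m * a (n j) = a m * g j * a (n j) = a m * a (n j) * h j`), and
`|θ (v • z) - θ (u • z)| = |θ ((v u⁻¹) • (u • z)) - θ (u • z)| < ε`. Averaging over `m ∈ F j`:
`|avg a (F j) θ (a (n j) • (h j • x j)) - avg a (F j) (θ ∘ (u • ·)) (a (n j) • x j)| ≤ ε`. `UGood` (with `θ` and with the function
`z ↦ θ (u • z)`, which has compact support: `HasCompactSupport.comp_homeomorph`) at the points `h j • x j`, `x j` of `E`, applied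
at `k j → ∞`: both averages are within `ε` of `∫ θ` and `∫ θ (u • x)`. So `|∫ θ - ∫ θ (u • x)| ≤ 3 ε`.
-/

set_option autoImplicit false

namespace PoolMX

open MeasureTheory Filter Topology

theorem dyn {G X : Type*} [Group G] [TopologicalSpace G] [IsTopologicalGroup G]
    [TopologicalSpace X] [LocallyCompactSpace X] [T2Space X] [SecondCountableTopology X]
    [MeasurableSpace X] [BorelSpace X] [MulAction G X] [ContinuousSMul G X] {r : ℕ}
    (a : V r → G) (μ : Measure X) [IsProbabilityMeasure μ] {C : Type*} [Finite C]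
    {s : C → G → ℝ} {w : C → V r →+ ℝ} (H : MGauge s a w) (M : ℕ) (E : Set X)
    (hE : UGood a μ M w E) (β : C) (hβ : w β ≠ 0) (U : Ultrafilter ℕ) (k : ℕ → ℕ)
    (hk : Tendsto k U atTop) (x : ℕ → X) (h : ℕ → G) (u : G)
    (hx : ∀ j, x j ∈ E) (hhx : ∀ j, h j • x j ∈ E)
    (hu : Tendsto (fun j => a (ctr (w β) (k j)) * h j * (a (ctr (w β) (k j)))⁻¹) U (𝓝 u))
    (hsmall : ∀ δ : ℝ, 0 < δ → ∀ᶠ j in (U : Filter ℕ), ∀ m : V r,
      (∀ i, |m i| ≤ ((k j / M : ℕ) : ℤ)) → ∀ c, ¬ Ray (w β) (w c) →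
      s c (a (ctr (w β) (k j)) * h j * (a (ctr (w β) (k j)))⁻¹) ≤ δ ∧
      Real.exp (w c m) * s c (a (ctr (w β) (k j)) * h j * (a (ctr (w β) (k j)))⁻¹) ≤ δ) :
    μ.map (fun z => u • z) = μ := by
  have key : ∀ θ : C(X, ℝ), HasCompactSupport θ → ∀ ε : ℝ, 0 < ε →
      |∫ y, θ (u • y) ∂μ - ∫ y, θ y ∂μ| ≤ 3 * ε := by
    intro θ hθ ε hε
    have hW := Pool.Agent.Work.MP_67388f_an.unif_action (G := G) θ hθ ε hε
    obtain ⟨W₁, hW₁, hmul⟩ := exists_nhds_one_split hW
    obtain ⟨R, hR⟩ : ∃ R : ℝ, ∀ c, s c u < R := by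
      have := Fintype.ofFinite C
      refine ⟨∑ c, s c u + 1, fun c => ?_⟩
      have h1 := Finset.single_le_sum (fun c _ => H.nonneg c u) (Finset.mem_univ c)
      linarith
    obtain ⟨N, hN, η, hη, δ, hδ, hslow⟩ := H.slow β hβ W₁ hW₁ R
    obtain ⟨p, hp⟩ := exists_nat_one_div_lt hη
    set θ' : C(X, ℝ) := ⟨fun z => θ (u • z), θ.continuous.comp (continuous_const_smul u)⟩ with hθ'def
    have hθ' : HasCompactSupport θ' := hθ.comp_homeomorph (Homeomorph.smul u)
    have e1 := hk.eventually (hE β hβ N p hN θ hθ ε hε)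
    have e2 := hk.eventually (hE β hβ N p hN θ' hθ' ε hε)
    have e3 : ∀ᶠ j in (U : Filter ℕ), ∀ c,
        s c (a (ctr (w β) (k j)) * h j * (a (ctr (w β) (k j)))⁻¹) ≤ R := by
      rw [eventually_all]
      intro c
      exact ((((H.cont c).tendsto u).comp hu).eventually (gt_mem_nhds (hR c))).mono
        fun j hj => le_of_lt hj
    have e4 : ∀ᶠ j in (U : Filter ℕ),
        a (ctr (w β) (k j)) * h j * (a (ctr (w β) (k j)))⁻¹ * u⁻¹ ∈ W₁ := by
      have h1 := hu.mul_const u⁻¹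
      rw [mul_inv_cancel] at h1
      exact h1.eventually hW₁
    have e5 := hsmall δ hδ
    obtain ⟨j, h1, h2, h3, h4, h5⟩ := (e1.and (e2.and (e3.and (e4.and e5)))).exists
    replace h1 := h1 _ (hhx j)
    replace h2 := h2 _ (hx j)
    set n := ctr (w β) (k j) with hn
    set g := a n * h j * (a n)⁻¹ with hg
    set F := strip (w β) N (1 / ((p : ℝ) + 1)) (k j / M) with hF
    have hpt : ∀ m ∈ F, |θ (a m • a n • h j • x j) - θ' (a m • a n • x j)| ≤ ε := by
      intro m hm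
      obtain ⟨hm1, hm2, hm3⟩ := mem_strip.1 hm
      have h6 := hslow m hm2 (hm3.trans hp) g h3 (fun c hc => h5 m hm1 c hc)
      have h7 := hmul _ h6 _ h4
      have h8 : a m * g * (a m)⁻¹ * g⁻¹ * (g * u⁻¹) = a m * g * (a m)⁻¹ * u⁻¹ := by group
      rw [h8] at h7
      have h9 := h7 (u • a m • a n • x j)
      have h10 : (a m * g * (a m)⁻¹ * u⁻¹) • u • a m • a n • x j = a m • a n • h j • x j := by
        simp only [smul_smul]
        congr 1
        rw [hg]
        group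
      rw [h10] at h9
      exact h9.le
    have havg : |avg a F θ (a n • h j • x j) - avg a F θ' (a n • x j)| ≤ ε := by
      unfold avg
      rw [← sub_div, ← Finset.sum_sub_distrib, abs_div, Nat.abs_cast]
      rcases Nat.eq_zero_or_pos F.card with hc | hc
      · rw [hc]
        simpa using hε.le
      · have hc' : (0 : ℝ) < (F.card : ℝ) := by exact_mod_cast hc
        rw [div_le_iff₀ hc']
        refine (Finset.abs_sum_le_sum_abs _ _).trans ?_
        refine (Finset.sum_le_sum hpt).trans ?_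
        rw [Finset.sum_const, nsmul_eq_mul, mul_comm]
    have h6 : ∫ y, θ' y ∂μ = ∫ y, θ (u • y) ∂μ := rfl
    rw [h6] at h2
    have h7 : ∫ y, θ (u • y) ∂μ - ∫ y, θ y ∂μ =
        -(avg a F θ' (a n • x j) - ∫ y, θ (u • y) ∂μ) +
        -(avg a F θ (a n • h j • x j) - avg a F θ' (a n • x j)) +
        (avg a F θ (a n • h j • x j) - ∫ y, θ y ∂μ) := by ring
    rw [h7]
    refine (abs_add_three _ _ _).trans ?_
    rw [abs_neg, abs_neg]
    linarith
  rw [Pool.Agent.Work.MP_67388f_an.map_eq_iff_test]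
  intro θ hθ
  have h0 : |∫ y, θ (u • y) ∂μ - ∫ y, θ y ∂μ| ≤ 0 := le_of_forall_pos_le_add fun δ hδ => by
    rw [zero_add]
    have := key θ hθ (δ / 3) (by linarith)
    linarith
  exact sub_eq_zero.1 (abs_eq_zero.1 (le_antisymm h0 (abs_nonneg _)))

end PoolMX
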