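import Pool.Agent.Work.MP_67388f_an.MX.ETree

/-!
MODULE EMom (size M-L). Moments of sums over trees under exponential mixing of order two.

Situation: the clauses of `ExpMix` are hypotheses (see below), `f ∈ T`, `c₀ = ∫ f`, `S j p x = ∑_{m ∈ tree j p} (f (a m • x) - c₀)`
(list sum). The steps satisfy, for a constant `Q₀` and for all `j`,
  `hv : 2 q (j log 2 + |L| ∑_{i<j} ‖v i‖) ≤ c ‖v j‖`.
Claim: for `i ≤ 2 q` there is `M` with `|∫ (S j p)^i| ≤ M (√2)^(i j)` for all `j`, `p`.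

(1) `g := f + const (-c₀) ∈ T`, `∫ g = 0`; `B := max (nm g) 1`. For a list `l` of vectors with `‖m‖ ≤ D` for `m ∈ l`, there
    is `G ∈ T` with `G x = (l.map fun m => g (a m • x)).sum` and `nm G ≤ l.length * exp (|L| D) * B` if `l ≠ []` (induction on
    the list; `nm g ≥ 0` because `|g x| ≤ nm g`; if `X` is empty everything is trivial, but `μ` is a probability
    measure so `X` is not empty). Powers: `nm (G^i) ≤ K₁ Q^i` if `nm G ≤ Q`, `K₁ = max K 1` (`i = 0`: the constant `1`).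
(2) `S j p x = G_{j,p} (a p • x)`, where `G_{j,p}` belongs to the list `(tree j p).map (· - p)`, all of whose members have
    norm at most `D_j = ∑_{i<j} ‖v i‖` (`tree_near`), length `2^j` (`tree_length`); so `nm G_{j,p} ≤ Q_j := 2^j exp (|L| D_j) B`.
(3) `p' = nxt w v j p`. `∫ (S j p)^l (S j p')^(i-l) = ∫ G^l (a p • x) G'^(i-l) (a p' • x) = ∫ G^l (x) G'^(i-l) (a (p' - p) • x)`
    (invariance of `μ` under `a (-p)`... or `integral_map` with `a p`), so by mixing (`‖p' - p‖ = ‖v j‖`)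
    `|∫ (S j p)^l (S j p')^(i-l) - ∫ (S j p)^l ∫ (S j p')^(i-l)| ≤ K₁² Q_j^i exp (-c ‖v j‖) ≤ K₁² B^(2q) =: E₀` for `i ≤ 2q`
    (`Q_j ≥ 1`, `Q_j^(2q) exp (-c ‖v j‖) = B^(2q) exp (2q (j log 2 + |L| D_j) - c ‖v j‖) ≤ B^(2q)`).
(4) Let `m_i j = sup_p |∫ (S j p)^i|`. Binomial theorem: `(S (j+1) p)^i = ∑_l C(i,l) (S j p)^l (S j p')^(i-l)`.
    `i = 0`: `1`. `i = 1`: `0`. `i ≥ 2`: the terms `l = 0, i` give `2 m_i j`, the terms `l = 1, i-1` vanish up to `E₀`, so
    `m_i (j+1) ≤ 2 m_i j + A b^j`, where `b = (√2)^i`, `A = 2^i (E₀ + max M_l M_{i-l})` (for `i = 2` one has `A`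
    without the factor `b^j`: only the errors `E₀`). For `i ≥ 3`: `b > 2`, and `M = max (m_i 0) (A / (b - 2))` satisfies
    `2 M b^j + A b^j ≤ M b^(j+1)`. For `i = 2`: `m_2 (j+1) + A ≤ 2 (m_2 j + A)`, so `m_2 j ≤ (m_2 0 + A) 2^j`.
    Strong induction on `i`; state it as: for all `i ≤ 2q` there is `M ≥ 0` such that for all `j p` ...
-/

set_option autoImplicit false

namespace PoolMX

open MeasureTheory Filter Topology

section aux

private lemma rec_bound {ι : Type*} (m : ℕ → ℕ → ι → ℝ) (n : ℕ) (E M0 : ℝ) (hE : 0 ≤ E)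
    (hM0 : 0 ≤ M0) (h0 : ∀ j p, |m 0 j p| ≤ 1) (h1 : ∀ j p, m 1 j p = 0)
    (hb : ∀ i ≤ n, ∀ p, |m i 0 p| ≤ M0)
    (hr : ∀ i, 2 ≤ i → i ≤ n → ∀ j p, ∃ p', |m i (j + 1) p| ≤ |m i j p| + |m i j p'| +
      ∑ l ∈ Finset.Ico 1 i, (i.choose l : ℝ) * (|m l j p| * |m (i - l) j p'| + E)) :
    ∀ i ≤ n, ∃ M : ℝ, 0 ≤ M ∧ ∀ j p, |m i j p| ≤ M * Real.sqrt 2 ^ (i * j) := by
  have hs1 : 1 < Real.sqrt 2 := (Real.lt_sqrt zero_le_one).2 (by norm_num)
  have hs2 : Real.sqrt 2 ^ 2 = 2 := Real.sq_sqrt (by norm_num)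
  intro i
  induction i using Nat.strong_induction_on with
  | _ i ih =>
    intro hi
    rcases Nat.lt_or_ge i 2 with h2 | h2
    · interval_cases i
      · exact ⟨1, zero_le_one, fun j p => by simpa using h0 j p⟩
      · exact ⟨0, le_rfl, fun j p => by simp [h1]⟩
    rcases Nat.eq_or_lt_of_le h2 with h3 | h3
    · subst h3
      refine ⟨M0 + 2 * E, by positivity, fun j p => ?_⟩
      have key : ∀ j p, |m 2 j p| ≤ (M0 + 2 * E) * 2 ^ j - 2 * E := by
        intro j
        induction j with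
        | zero =>
          intro p
          have := hb 2 hi p
          rw [pow_zero, mul_one]
          linarith
        | succ j ihj =>
          intro p
          obtain ⟨p', hp'⟩ := hr 2 le_rfl hi j p
          have h4 : ∑ l ∈ Finset.Ico 1 2, ((2 : ℕ).choose l : ℝ) *
              (|m l j p| * |m (2 - l) j p'| + E) = 2 * E := by
            simp [h1]
          rw [h4] at hp'
          have e1 := ihj p
          have e2 := ihj p'
          rw [pow_succ]
          linarith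
      have := key j p
      rw [pow_mul, hs2]
      linarith
    · have hch : ∀ l, ∃ M : ℝ, 0 ≤ M ∧ (l < i → ∀ j p, |m l j p| ≤ M * Real.sqrt 2 ^ (l * j)) := by
        intro l
        by_cases hl : l < i
        · obtain ⟨M, hM, hM'⟩ := ih l hl (by omega)
          exact ⟨M, hM, fun _ => hM'⟩
        · exact ⟨0, le_rfl, fun h => absurd h hl⟩
      choose F hF0 hF using hch
      obtain ⟨M', hM'⟩ : ∃ M', M' = ∑ l ∈ Finset.range i, F l := ⟨_, rfl⟩
      have hM'0 : 0 ≤ M' := by rw [hM']; exact Finset.sum_nonneg fun l _ => hF0 l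
      have hFM : ∀ l < i, F l ≤ M' := fun l hl => by
        rw [hM']
        exact Finset.single_le_sum (fun l _ => hF0 l) (Finset.mem_range.2 hl)
      have hpos : ∀ k : ℕ, 0 < Real.sqrt 2 ^ k := fun k => pow_pos (by linarith) k
      have hone : ∀ k : ℕ, 1 ≤ Real.sqrt 2 ^ k := fun k => one_le_pow₀ hs1.le
      have hlow : ∀ l < i, ∀ j p, |m l j p| ≤ M' * Real.sqrt 2 ^ (l * j) := fun l hl j p =>
        (hF l hl j p).trans (mul_le_mul_of_nonneg_right (hFM l hl) (hpos _).le)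
      obtain ⟨A, hA⟩ : ∃ A, A = ∑ l ∈ Finset.Ico 1 i, (i.choose l : ℝ) * (M' ^ 2 + E) := ⟨_, rfl⟩
      have hA0 : 0 ≤ A := by
        rw [hA]
        exact Finset.sum_nonneg fun l _ => by positivity
      have hsum : ∀ j p p', ∑ l ∈ Finset.Ico 1 i, (i.choose l : ℝ) *
          (|m l j p| * |m (i - l) j p'| + E) ≤ A * Real.sqrt 2 ^ (i * j) := by
        intro j p p'
        rw [hA, Finset.sum_mul]
        refine Finset.sum_le_sum fun l hl => ?_
        rw [Finset.mem_Ico] at hl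
        rw [mul_assoc]
        refine mul_le_mul_of_nonneg_left ?_ (Nat.cast_nonneg _)
        have e1 := hlow l hl.2 j p
        have e2 := hlow (i - l) (by omega) j p'
        have e3 : |m l j p| * |m (i - l) j p'| ≤
            (M' * Real.sqrt 2 ^ (l * j)) * (M' * Real.sqrt 2 ^ ((i - l) * j)) :=
          mul_le_mul e1 e2 (abs_nonneg _) (mul_nonneg hM'0 (hpos _).le)
        have e4 : Real.sqrt 2 ^ (l * j) * Real.sqrt 2 ^ ((i - l) * j) = Real.sqrt 2 ^ (i * j) := by
          rw [← pow_add, ← Nat.add_mul]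
          congr 2
          omega
        have e5 : (M' * Real.sqrt 2 ^ (l * j)) * (M' * Real.sqrt 2 ^ ((i - l) * j)) =
            M' ^ 2 * Real.sqrt 2 ^ (i * j) := by
          rw [← e4]
          ring
        have e6 : E ≤ E * Real.sqrt 2 ^ (i * j) := le_mul_of_one_le_right hE (hone _)
        rw [e5] at e3
        rw [add_mul]
        linarith
      have hb2 : 2 < Real.sqrt 2 ^ i := by
        have e1 : Real.sqrt 2 ^ 3 ≤ Real.sqrt 2 ^ i := pow_le_pow_right₀ hs1.le h3
        have e2 : Real.sqrt 2 ^ 3 = 2 * Real.sqrt 2 := by rw [pow_succ, hs2]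
        linarith
      refine ⟨max M0 (A / (Real.sqrt 2 ^ i - 2)), le_max_of_le_left hM0, ?_⟩
      obtain ⟨M, hM⟩ : ∃ M, M = max M0 (A / (Real.sqrt 2 ^ i - 2)) := ⟨_, rfl⟩
      rw [← hM]
      have hMM0 : M0 ≤ M := by rw [hM]; exact le_max_left _ _
      have hMA : A ≤ M * (Real.sqrt 2 ^ i - 2) := by
        have : A / (Real.sqrt 2 ^ i - 2) ≤ M := by rw [hM]; exact le_max_right _ _
        rwa [div_le_iff₀ (by linarith)] at this
      intro j
      induction j with
      | zero =>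
        intro p
        rw [mul_zero, pow_zero, mul_one]
        exact (hb i hi p).trans hMM0
      | succ j ihj =>
        intro p
        obtain ⟨p', hp'⟩ := hr i h2 hi j p
        have e1 := ihj p
        have e2 := ihj p'
        have e3 := hsum j p p'
        have e4 : A * Real.sqrt 2 ^ (i * j) ≤ M * (Real.sqrt 2 ^ i - 2) * Real.sqrt 2 ^ (i * j) :=
          mul_le_mul_of_nonneg_right hMA (hpos _).le
        have e5 : M * Real.sqrt 2 ^ (i * (j + 1)) =
            M * (Real.sqrt 2 ^ i - 2) * Real.sqrt 2 ^ (i * j) +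
            2 * (M * Real.sqrt 2 ^ (i * j)) := by
          rw [Nat.mul_succ, pow_add]
          ring
        rw [e5]
        linarith

private lemma int_bdd {X : Type*} [TopologicalSpace X] [MeasurableSpace X] [BorelSpace X]
    (μ : Measure X) [IsFiniteMeasure μ] (f : X → ℝ) (hf : Continuous f) (B : ℝ)
    (hB : ∀ x, |f x| ≤ B) : Integrable f μ :=
  Integrable.of_bound (C := B) hf.measurable.aestronglyMeasurable (Eventually.of_forall hB)

section alg

variable {G X : Type*} [Group G] [TopologicalSpace G] [TopologicalSpace X]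
    [MeasurableSpace X] [BorelSpace X] [MulAction G X] [ContinuousSMul G X] {r : ℕ}
    (a : V r → G) (T : Set C(X, ℝ)) (nm : C(X, ℝ) → ℝ) (K L : ℝ)

private lemma lsum_mem (B D : ℝ)
    (hconst : ∀ t : ℝ, ContinuousMap.const X t ∈ T ∧ nm (ContinuousMap.const X t) ≤ K * |t|)
    (halg : ∀ f ∈ T, ∀ g ∈ T, f + g ∈ T ∧ nm (f + g) ≤ nm f + nm g ∧ f * g ∈ T ∧
      nm (f * g) ≤ nm f * nm g)
    (htr : ∀ f ∈ T, (∀ x, |f x| ≤ nm f) ∧ ∀ m : V r, ∃ g ∈ T, (∀ x, g x = f (a m • x)) ∧
      nm g ≤ Real.exp (L * ‖m‖) * nm f)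
    (g : C(X, ℝ)) (hg : g ∈ T) (hg0 : 0 ≤ nm g) (hB : nm g ≤ B) (l : List (V r))
    (hl : ∀ m ∈ l, ‖m‖ ≤ D) :
    ∃ F ∈ T, (∀ x, F x = (l.map fun m => g (a m • x)).sum) ∧
      nm F ≤ l.length * (Real.exp (|L| * D) * B) := by
  induction l with
  | nil =>
    refine ⟨ContinuousMap.const X 0, (hconst 0).1, fun x => by simp, ?_⟩
    have := (hconst 0).2
    simpa using this
  | cons m l ih =>
    obtain ⟨F, hF, hFx, hFn⟩ := ih fun m' hm' => hl m' (List.mem_cons_of_mem _ hm')
    obtain ⟨-, htr2⟩ := htr g hg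
    obtain ⟨g', hg', hg'x, hg'n⟩ := htr2 m
    refine ⟨g' + F, (halg g' hg' F hF).1, fun x => ?_, ?_⟩
    · rw [ContinuousMap.add_apply, hg'x, hFx, List.map_cons, List.sum_cons]
    · refine ((halg g' hg' F hF).2.1).trans ?_
      have h1 : Real.exp (L * ‖m‖) * nm g ≤ Real.exp (|L| * D) * B := by
        refine mul_le_mul ?_ hB hg0 (Real.exp_pos _).le
        rw [Real.exp_le_exp]
        exact (mul_le_mul_of_nonneg_right (le_abs_self L) (norm_nonneg m)).trans
          (mul_le_mul_of_nonneg_left (hl m List.mem_cons_self) (abs_nonneg L))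
      rw [List.length_cons]
      push_cast
      linarith

private lemma pow_mem
    (hconst : ∀ t : ℝ, ContinuousMap.const X t ∈ T ∧ nm (ContinuousMap.const X t) ≤ K * |t|)
    (halg : ∀ f ∈ T, ∀ g ∈ T, f + g ∈ T ∧ nm (f + g) ≤ nm f + nm g ∧ f * g ∈ T ∧
      nm (f * g) ≤ nm f * nm g)
    (F : C(X, ℝ)) (hF : F ∈ T) (hF0 : 0 ≤ nm F) (Q : ℝ) (hQ : nm F ≤ Q) (i : ℕ) :
    ∃ H ∈ T, (∀ x, H x = F x ^ i) ∧ nm H ≤ max K 1 * Q ^ i := by
  induction i with
  | zero =>
    refine ⟨ContinuousMap.const X 1, (hconst 1).1, fun x => by simp, ?_⟩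
    have := (hconst 1).2
    rw [abs_one, mul_one] at this
    rw [pow_zero, mul_one]
    exact this.trans (le_max_left _ _)
  | succ i ih =>
    obtain ⟨H, hH, hHx, hHn⟩ := ih
    refine ⟨H * F, (halg H hH F hF).2.2.1, fun x => ?_, ?_⟩
    · rw [ContinuousMap.mul_apply, hHx, pow_succ]
    · refine ((halg H hH F hF).2.2.2).trans ?_
      rw [pow_succ, ← mul_assoc]
      refine mul_le_mul hHn hQ hF0 ?_
      have : (0 : ℝ) < max K 1 := lt_max_of_lt_right one_pos
      have h2 : 0 ≤ Q := hF0.trans hQ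
      positivity

end alg

end aux


theorem tree_moment {G X : Type*} [Group G] [TopologicalSpace G] [TopologicalSpace X]
    [MeasurableSpace X] [BorelSpace X] [MulAction G X] [ContinuousSMul G X] {r : ℕ}
    (a : V r → G) (ha : ∀ m m', a (m + m') = a m * a m') (μ : Measure X)
    [IsProbabilityMeasure μ] (hμ : ∀ m, μ.map (fun x => a m • x) = μ)
    (T : Set C(X, ℝ)) (nm : C(X, ℝ) → ℝ) (K L c : ℝ) (hc : 0 < c)
    (hconst : ∀ t : ℝ, ContinuousMap.const X t ∈ T ∧ nm (ContinuousMap.const X t) ≤ K * |t|)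
    (halg : ∀ f ∈ T, ∀ g ∈ T, f + g ∈ T ∧ nm (f + g) ≤ nm f + nm g ∧ f * g ∈ T ∧
      nm (f * g) ≤ nm f * nm g)
    (htr : ∀ f ∈ T, (∀ x, |f x| ≤ nm f) ∧ ∀ m : V r, ∃ g ∈ T, (∀ x, g x = f (a m • x)) ∧
      nm g ≤ Real.exp (L * ‖m‖) * nm f)
    (hmix : ∀ f ∈ T, ∀ g ∈ T, ∀ m : V r,
      |∫ x, f x * g (a m • x) ∂μ - (∫ x, f x ∂μ) * ∫ x, g x ∂μ| ≤
        nm f * nm g * Real.exp (-c * ‖m‖))
    (w : V r →+ ℝ) (v : ℕ → V r) (q : ℕ)
    (hv : ∀ j : ℕ, 2 * q * (j * Real.log 2 + |L| * ∑ i ∈ Finset.range j, ‖v i‖) ≤ c * ‖v j‖)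
    (f : C(X, ℝ)) (hf : f ∈ T) :
    ∃ M : ℝ, 0 ≤ M ∧ ∀ (j : ℕ) (p : V r),
      |∫ x, ((tree w v j p).map fun m => f (a m • x) - ∫ y, f y ∂μ).sum ^ (2 * q) ∂μ| ≤
        M * 2 ^ (q * j) := by
  classical
  have hne : Nonempty X := by
    by_contra hX
    rw [not_nonempty_iff] at hX
    have h1 : μ Set.univ = 0 := by
      rw [Set.univ_eq_empty_iff.2 hX, measure_empty]
    rw [measure_univ] at h1
    exact one_ne_zero h1
  have hnm0 : ∀ F ∈ T, 0 ≤ nm F := fun F hF =>
    (abs_nonneg _).trans ((htr F hF).1 (Classical.arbitrary X))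
  obtain ⟨c₀, hc₀⟩ : ∃ c₀, c₀ = ∫ y, f y ∂μ := ⟨_, rfl⟩
  obtain ⟨g, hgdef⟩ : ∃ g : C(X, ℝ), g = f + ContinuousMap.const X (-c₀) := ⟨_, rfl⟩
  have hg : g ∈ T := by rw [hgdef]; exact (halg f hf _ (hconst (-c₀)).1).1
  have hgx : ∀ x, g x = f x - c₀ := fun x => by
    rw [hgdef, ContinuousMap.add_apply, ContinuousMap.const_apply]
    ring
  obtain ⟨B, hBdef⟩ : ∃ B, B = max (nm g) 1 := ⟨_, rfl⟩
  have hB1 : 1 ≤ B := by rw [hBdef]; exact le_max_right _ _
  have hgB : nm g ≤ B := by rw [hBdef]; exact le_max_left _ _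
  obtain ⟨D, hD⟩ : ∃ D : ℕ → ℝ, D = fun j => ∑ i ∈ Finset.range j, ‖v i‖ := ⟨_, rfl⟩
  have hD0 : ∀ j, 0 ≤ D j := fun j => by
    rw [hD]
    exact Finset.sum_nonneg fun i _ => norm_nonneg _
  obtain ⟨Q, hQ⟩ : ∃ Q : ℕ → ℝ, Q = fun j => 2 ^ j * (Real.exp (|L| * D j) * B) := ⟨_, rfl⟩
  have hQ1 : ∀ j, 1 ≤ Q j := fun j => by
    rw [hQ]
    have h1 : (1 : ℝ) ≤ 2 ^ j := one_le_pow₀ (by norm_num)
    have h2 : 1 ≤ Real.exp (|L| * D j) := Real.one_le_exp (mul_nonneg (abs_nonneg _) (hD0 j))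
    have h3 : 1 ≤ Real.exp (|L| * D j) * B := one_le_mul_of_one_le_of_one_le h2 hB1
    exact one_le_mul_of_one_le_of_one_le h1 h3
  -- the function behind the sum over a tree
  have hG : ∀ j p, ∃ F ∈ T, (∀ x, F (a p • x) =
      ((tree w v j p).map fun m => f (a m • x) - c₀).sum) ∧ nm F ≤ Q j := by
    intro j p
    obtain ⟨F, hF, hFx, hFn⟩ := lsum_mem a T nm K L B (D j) hconst halg htr g hg (hnm0 g hg) hgB
      ((tree w v j p).map fun m => m - p) (by
        intro m hm
        rw [List.mem_map] at hm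
        obtain ⟨m', hm', rfl⟩ := hm
        rw [hD]
        exact tree_near w v j p m' hm')
    refine ⟨F, hF, fun x => ?_, ?_⟩
    · rw [hFx, List.map_map]
      congr 1
      refine List.map_congr_left fun m _ => ?_
      rw [Function.comp_apply, hgx, smul_smul, ← ha, sub_add_cancel]
    · rw [List.length_map, tree_length] at hFn
      rw [hQ]
      push_cast at hFn
      exact hFn
  choose F hFT hFx hFQ using hG
  have hmeas : ∀ p : V r, Measurable (fun x : X => a p • x) := fun p =>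
    (continuous_const_smul (a p)).measurable
  have hshift : ∀ (p : V r) (h : C(X, ℝ)), ∫ x, h (a p • x) ∂μ = ∫ x, h x ∂μ := by
    intro p h
    have h1 : ∫ x, h x ∂(μ.map (fun x => a p • x)) = ∫ x, h (a p • x) ∂μ :=
      integral_map (hmeas p).aemeasurable h.continuous.measurable.aestronglyMeasurable
    rw [← h1, hμ]
  obtain ⟨K₁, hK₁⟩ : ∃ K₁, K₁ = max K 1 := ⟨_, rfl⟩
  have hK₁1 : 1 ≤ K₁ := by rw [hK₁]; exact le_max_right _ _
  obtain ⟨E, hE⟩ : ∃ E, E = K₁ * K₁ * B ^ (2 * q) := ⟨_, rfl⟩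
  have hE0 : 0 ≤ E := by rw [hE]; positivity
  -- decorrelation
  have hdec : ∀ (j : ℕ) (p : V r) (l l' : ℕ), l + l' ≤ 2 * q →
      |∫ x, F j p (a p • x) ^ l * F j (nxt w v j p) (a (nxt w v j p) • x) ^ l' ∂μ -
        (∫ x, F j p (a p • x) ^ l ∂μ) *
          ∫ x, F j (nxt w v j p) (a (nxt w v j p) • x) ^ l' ∂μ| ≤ E := by
    intro j p l l' hll
    obtain ⟨p', hp'⟩ : ∃ p', p' = nxt w v j p := ⟨_, rfl⟩
    rw [← hp']
    obtain ⟨H, hH, hHx, hHn⟩ := pow_mem T nm K hconst halg (F j p) (hFT j p)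
      (hnm0 _ (hFT j p)) (Q j) (hFQ j p) l
    obtain ⟨H', hH', hH'x, hH'n⟩ := pow_mem T nm K hconst halg (F j p') (hFT j p')
      (hnm0 _ (hFT j p')) (Q j) (hFQ j p') l'
    simp only [← hHx, ← hH'x]
    rw [hshift p H, hshift p' H']
    obtain ⟨W, hW⟩ : ∃ W : C(X, ℝ), ∀ x, W x = H x * H' (a (p' - p) • x) :=
      ⟨⟨fun x => H x * H' (a (p' - p) • x), H.continuous.mul
        (H'.continuous.comp (continuous_const_smul _))⟩, fun x => rfl⟩
    have h1 : ∀ x, H (a p • x) * H' (a p' • x) = W (a p • x) := by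
      intro x
      rw [hW, smul_smul, ← ha, sub_add_cancel]
    simp only [h1]
    rw [hshift p W]
    simp only [hW]
    refine (hmix H hH H' hH' (p' - p)).trans ?_
    have h2 : ‖p' - p‖ = ‖v j‖ := by rw [hp']; exact nxt_norm w v j p
    rw [h2, hE]
    have h3 : nm H * nm H' ≤ (K₁ * Q j ^ l) * (K₁ * Q j ^ l') := by
      rw [hK₁]
      refine mul_le_mul hHn hH'n (hnm0 _ hH') ?_
      rw [← hK₁]
      have := hQ1 j
      positivity
    have h4 : (K₁ * Q j ^ l) * (K₁ * Q j ^ l') ≤ K₁ * K₁ * Q j ^ (2 * q) := by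
      have e1 : (K₁ * Q j ^ l) * (K₁ * Q j ^ l') = K₁ * K₁ * Q j ^ (l + l') := by
        rw [pow_add]
        ring
      rw [e1]
      exact mul_le_mul_of_nonneg_left (pow_le_pow_right₀ (hQ1 j) hll) (by positivity)
    have h5 : Q j ^ (2 * q) * Real.exp (-c * ‖v j‖) ≤ B ^ (2 * q) := by
      have e1 : Q j = Real.exp (j * Real.log 2 + |L| * D j) * B := by
        rw [hQ, Real.exp_add, mul_comm (j : ℝ), Real.exp_mul, Real.exp_log (by norm_num),
          Real.rpow_natCast]
        ring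
      rw [e1, mul_pow, ← Real.exp_nat_mul, mul_right_comm, ← Real.exp_add]
      have e2 : ((2 * q : ℕ) : ℝ) * (j * Real.log 2 + |L| * D j) + -c * ‖v j‖ ≤ 0 := by
        have := hv j
        rw [hD]
        push_cast
        linarith
      have e3 : Real.exp (((2 * q : ℕ) : ℝ) * (j * Real.log 2 + |L| * D j) + -c * ‖v j‖) ≤ 1 :=
        Real.exp_le_one_iff.2 e2
      calc _ ≤ 1 * B ^ (2 * q) := mul_le_mul_of_nonneg_right e3 (by positivity)
        _ = B ^ (2 * q) := one_mul _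
    calc nm H * nm H' * Real.exp (-c * ‖v j‖)
        ≤ (K₁ * K₁ * Q j ^ (2 * q)) * Real.exp (-c * ‖v j‖) :=
          mul_le_mul_of_nonneg_right (h3.trans h4) (Real.exp_pos _).le
      _ = K₁ * K₁ * (Q j ^ (2 * q) * Real.exp (-c * ‖v j‖)) := by ring
      _ ≤ K₁ * K₁ * B ^ (2 * q) := mul_le_mul_of_nonneg_left h5 (by positivity)
  -- boundedness and integrability
  have hbd : ∀ j p x, |F j p x| ≤ Q j := fun j p x => ((htr _ (hFT j p)).1 x).trans (hFQ j p)
  have hint : ∀ (j : ℕ) (p p' : V r) (l l' : ℕ),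
      Integrable (fun x => F j p (a p • x) ^ l * F j p' (a p' • x) ^ l') μ := by
    intro j p p' l l'
    refine int_bdd μ _ ?_ (Q j ^ l * Q j ^ l') fun x => ?_
    · exact (((F j p).continuous.comp (continuous_const_smul _)).pow l).mul
        (((F j p').continuous.comp (continuous_const_smul _)).pow l')
    · rw [abs_mul, abs_pow, abs_pow]
      have := hQ1 j
      exact mul_le_mul (pow_le_pow_left₀ (abs_nonneg _) (hbd j p _) l)
        (pow_le_pow_left₀ (abs_nonneg _) (hbd j p' _) l') (by positivity) (by positivity)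
  have hm1 : ∀ j p, ∫ x, F j p (a p • x) ^ 1 ∂μ = 0 := by
    intro j p
    have h1 : ∀ (l : List (V r)), ∫ x, (l.map fun m => f (a m • x) - c₀).sum ∂μ = 0 ∧
        Integrable (fun x => (l.map fun m => f (a m • x) - c₀).sum) μ := by
      intro l
      induction l with
      | nil => simp
      | cons m l ih =>
        have hfi : Integrable (fun x => f (a m • x) - c₀) μ := by
          refine int_bdd μ _ ((f.continuous.comp (continuous_const_smul _)).sub
            continuous_const) (nm g) fun x => ?_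
          have := (htr g hg).1 (a m • x)
          rwa [hgx] at this
        have hfi2 : Integrable (fun x => f (a m • x)) μ := by
          have := hfi.add (integrable_const c₀)
          refine this.congr (Eventually.of_forall fun x => ?_)
          simp
        have hs : ∀ x, ((m :: l).map fun m => f (a m • x) - c₀).sum =
            (f (a m • x) - c₀) + (l.map fun m => f (a m • x) - c₀).sum := fun x => by
          rw [List.map_cons, List.sum_cons]
        simp only [hs]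
        refine ⟨?_, hfi.add ih.2⟩
        rw [integral_add hfi ih.2, ih.1, integral_sub hfi2 (integrable_const c₀), hshift m f,
          ← hc₀, integral_const]
        simp
    simp only [pow_one, hFx]
    exact (h1 _).1
  have hmain := rec_bound (fun i j p => ∫ x, F j p (a p • x) ^ i ∂μ) (2 * q) E (B ^ (2 * q)) hE0
    (by positivity) (fun j p => by simp) hm1 ?_ ?_ (2 * q) le_rfl
  · obtain ⟨M, hM0, hM⟩ := hmain
    refine ⟨M, hM0, fun j p => ?_⟩
    have h1 := hM j p
    simp only [hFx, hc₀] at h1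
    refine h1.trans (le_of_eq ?_)
    rw [mul_assoc 2 q j, pow_mul, Real.sq_sqrt (by norm_num)]
  · intro i hi p
    have h1 : ∀ x, |F 0 p (a p • x) ^ i| ≤ B ^ (2 * q) := by
      intro x
      rw [abs_pow, hFx]
      have h2 : |((tree w v 0 p).map fun m => f (a m • x) - c₀).sum| ≤ B := by
        have := (htr g hg).1 (a p • x)
        rw [hgx] at this
        simpa [tree] using this.trans hgB
      exact (pow_le_pow_left₀ (abs_nonneg _) h2 i).trans (pow_le_pow_right₀ hB1 hi)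
    calc |∫ x, F 0 p (a p • x) ^ i ∂μ| ≤ ∫ x, |F 0 p (a p • x) ^ i| ∂μ :=
          abs_integral_le_integral_abs
      _ ≤ ∫ _, B ^ (2 * q) ∂μ := by
          refine integral_mono ?_ (integrable_const _) h1
          have := (hint 0 p p i 0).abs
          simpa using this
      _ = B ^ (2 * q) := by simp
  · intro i hi2 hi j p
    refine ⟨nxt w v j p, ?_⟩
    obtain ⟨p', hp'⟩ : ∃ p', p' = nxt w v j p := ⟨_, rfl⟩
    have hsplit : ∀ x, F (j + 1) p (a p • x) = F j p (a p • x) + F j p' (a p' • x) := by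
      intro x
      rw [hFx, hFx, hFx, hp', ← List.sum_append, ← List.map_append]
      rfl
    have hexp : ∫ x, F (j + 1) p (a p • x) ^ i ∂μ = ∑ l ∈ Finset.range (i + 1),
        (i.choose l : ℝ) * ∫ x, F j p (a p • x) ^ l * F j p' (a p' • x) ^ (i - l) ∂μ := by
      have h1 : ∀ x, F (j + 1) p (a p • x) ^ i = ∑ l ∈ Finset.range (i + 1),
          (i.choose l : ℝ) * (F j p (a p • x) ^ l * F j p' (a p' • x) ^ (i - l)) := by
        intro x
        rw [hsplit, add_pow]
        exact Finset.sum_congr rfl fun l _ => by ring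
      simp only [h1]
      rw [integral_finsetSum _ fun l _ => (hint j p p' l (i - l)).const_mul _]
      exact Finset.sum_congr rfl fun l _ => integral_const_mul _ _
    have hr1 : Finset.range (i + 1) = insert 0 (insert i (Finset.Ico 1 i)) := by
      ext l
      simp only [Finset.mem_range, Finset.mem_insert, Finset.mem_Ico]
      omega
    have h0n : (0 : ℕ) ∉ insert i (Finset.Ico 1 i) := by
      simp only [Finset.mem_insert, Finset.mem_Ico]
      omega
    have hin : i ∉ Finset.Ico 1 i := by simp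
    rw [← hp', hexp, hr1, Finset.sum_insert h0n, Finset.sum_insert hin]
    simp only [Nat.choose_zero_right, Nat.choose_self, Nat.cast_one, one_mul, pow_zero, mul_one,
      Nat.sub_zero, Nat.sub_self]
    have hterm : |∑ l ∈ Finset.Ico 1 i, (i.choose l : ℝ) *
        ∫ x, F j p (a p • x) ^ l * F j p' (a p' • x) ^ (i - l) ∂μ| ≤
        ∑ l ∈ Finset.Ico 1 i, (i.choose l : ℝ) *
          (|∫ x, F j p (a p • x) ^ l ∂μ| * |∫ x, F j p' (a p' • x) ^ (i - l) ∂μ| + E) := by
      refine (Finset.abs_sum_le_sum_abs _ _).trans (Finset.sum_le_sum fun l hl => ?_)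
      rw [Finset.mem_Ico] at hl
      rw [abs_mul, Nat.abs_cast]
      refine mul_le_mul_of_nonneg_left ?_ (Nat.cast_nonneg _)
      have h1 := hdec j p l (i - l) (by omega)
      rw [← hp'] at h1
      rw [← abs_mul]
      have h2 := abs_sub_abs_le_abs_sub
        (∫ x, F j p (a p • x) ^ l * F j p' (a p' • x) ^ (i - l) ∂μ)
        ((∫ x, F j p (a p • x) ^ l ∂μ) * ∫ x, F j p' (a p' • x) ^ (i - l) ∂μ)
      linarith
    rw [← add_assoc]
    refine (abs_add_three _ _ _).trans ?_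
    linarith

end PoolMX
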