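import Pool.Agent.Work.MP_67388f_an.MX.EDefs

/-!
MODULE ETree (size S-M). Elementary properties of the tree. Induction on `j`, for all `p`.

`nxt`: `‖nxt w v j p - p‖ = ‖v j‖`; if `|w p| < η` and `|w (v j)| < η` then `|w (nxt w v j p)| < η` (two numbers of the
same sign of absolute value `< η` have a difference `< η` in absolute value; of opposite sign: the sum).
-/

set_option autoImplicit false

namespace PoolMX

theorem nxt_norm {r : ℕ} (w : V r →+ ℝ) (v : ℕ → V r) (j : ℕ) (p : V r) :
    ‖nxt w v j p - p‖ = ‖v j‖ := by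
  unfold nxt
  split_ifs
  · rw [sub_sub_cancel_left, norm_neg]
  · rw [add_sub_cancel_left]

theorem tree_length {r : ℕ} (w : V r →+ ℝ) (v : ℕ → V r) (j : ℕ) (p : V r) :
    (tree w v j p).length = 2 ^ j := by
  induction j generalizing p with
  | zero => simp [tree]
  | succ j ih =>
    rw [tree, List.length_append, ih, ih, pow_succ]
    ring

theorem tree_near {r : ℕ} (w : V r →+ ℝ) (v : ℕ → V r) (j : ℕ) (p m : V r)
    (hm : m ∈ tree w v j p) : ‖m - p‖ ≤ ∑ i ∈ Finset.range j, ‖v i‖ := by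
  induction j generalizing p with
  | zero =>
    simp only [tree, List.mem_singleton] at hm
    simp [hm]
  | succ j ih =>
    rw [tree, List.mem_append] at hm
    rw [Finset.sum_range_succ]
    rcases hm with hm | hm
    · exact (ih p hm).trans (le_add_of_nonneg_right (norm_nonneg _))
    · have h1 := ih _ hm
      have h2 := nxt_norm w v j p
      calc ‖m - p‖ = ‖(m - nxt w v j p) + (nxt w v j p - p)‖ := by rw [sub_add_sub_cancel]
        _ ≤ ‖m - nxt w v j p‖ + ‖nxt w v j p - p‖ := norm_add_le _ _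
        _ ≤ _ := by rw [h2]; exact add_le_add_left h1 _

theorem nxt_strip {r : ℕ} (w : V r →+ ℝ) (v : ℕ → V r) (N : ℕ) (η : ℝ)
    (hv : ∀ j, (∀ i, (N : ℤ) ∣ v j i) ∧ |w (v j)| < η) (j : ℕ) (p : V r)
    (hp : (∀ i, (N : ℤ) ∣ p i) ∧ |w p| < η) :
    (∀ i, (N : ℤ) ∣ nxt w v j p i) ∧ |w (nxt w v j p)| < η := by
  obtain ⟨h1, h2⟩ := hv j
  obtain ⟨h3, h4⟩ := hp
  rw [abs_lt] at h2 h4
  unfold nxt
  split_ifs with h
  · refine ⟨fun i => by rw [Pi.sub_apply]; exact dvd_sub (h3 i) (h1 i), ?_⟩
    rw [map_sub, abs_lt]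
    rcases le_or_gt 0 (w p) with h5 | h5
    · rcases le_or_gt 0 (w (v j)) with h6 | h6
      · constructor <;> linarith
      · have : w p = 0 := by
          by_contra h7
          have h8 : 0 < w p := lt_of_le_of_ne h5 (Ne.symm h7)
          exact absurd h (not_le.2 (mul_neg_of_pos_of_neg h8 h6))
        constructor <;> linarith
    · rcases le_or_gt (w (v j)) 0 with h6 | h6
      · constructor <;> linarith
      · exact absurd h (not_le.2 (mul_neg_of_neg_of_pos h5 h6))
  · refine ⟨fun i => by rw [Pi.add_apply]; exact dvd_add (h3 i) (h1 i), ?_⟩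
    rw [map_add, abs_lt]
    rw [not_le] at h
    rcases le_or_gt 0 (w p) with h5 | h5
    · rcases le_or_gt 0 (w (v j)) with h6 | h6
      · exact absurd h (not_lt.2 (mul_nonneg h5 h6))
      · constructor <;> linarith
    · rcases le_or_gt (w (v j)) 0 with h6 | h6
      · exact absurd h (not_lt.2 (mul_nonneg_of_nonpos_of_nonpos h5.le h6))
      · constructor <;> linarith

theorem tree_strip {r : ℕ} (w : V r →+ ℝ) (v : ℕ → V r) (N : ℕ) (η : ℝ)
    (hv : ∀ j, (∀ i, (N : ℤ) ∣ v j i) ∧ |w (v j)| < η) (j : ℕ) (p m : V r)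
    (hp : (∀ i, (N : ℤ) ∣ p i) ∧ |w p| < η) (hm : m ∈ tree w v j p) :
    (∀ i, (N : ℤ) ∣ m i) ∧ |w m| < η := by
  induction j generalizing p with
  | zero =>
    simp only [tree, List.mem_singleton] at hm
    rw [hm]
    exact hp
  | succ j ih =>
    rw [tree, List.mem_append] at hm
    rcases hm with hm | hm
    · exact ih p hp hm
    · exact ih _ (nxt_strip w v N η hv j p hp) hm

end PoolMX
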