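import Mathlib

/-!
MODULE Ego (size S, Mathlib only). Uniform Borel-Cantelli.

Let `e : ι → ℕ` be injective (`exists_injective_nat ι`). For each `i` the tails `∑_{k ≥ K} μ.real (b i k)` tend
to `0`, so choose `K i` with `∑_{k ≥ K i} μ.real (b i k) < 2^(-(e i) - 2)`. Let `U = ⋃ i, ⋃ k ≥ K i, b i k`. Then
`μ U ≤ ∑ i, ∑_{k ≥ K i} μ (b i k) ≤ ∑_i 2^(-(e i)-2) ≤ 1/2` (countable subadditivity of the outer measure,
`measure_iUnion_le`; in `ℝ≥0∞`, `ENNReal.tsum_geometric`...). `E = Uᶜ`: `1 = μ univ ≤ μ E + μ U`, so `μ E > 0`.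
For `x ∈ E` and `k ≥ K i` we have `x ∉ b i k`. If `ι` is empty take `E = univ`. (Working with
`ENNReal.ofReal_tsum...` or with finite partial sums is equally fine.)
-/

set_option autoImplicit false

namespace PoolMX

open MeasureTheory Filter

theorem exists_uniform {Ω ι : Type*} [Countable ι] [MeasurableSpace Ω] (μ : Measure Ω)
    [IsProbabilityMeasure μ] (b : ι → ℕ → Set Ω) (hs : ∀ i, Summable fun k => μ.real (b i k)) :
    ∃ E : Set Ω, 0 < μ E ∧ ∀ i, ∀ᶠ k : ℕ in atTop, ∀ x ∈ E, x ∉ b i k := by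
  obtain ⟨ε, hε, hεs⟩ := ENNReal.exists_pos_sum_of_countable (one_ne_zero : (1 : ENNReal) ≠ 0) ι
  have htail : ∀ i, ∃ K : ℕ, ∑' k, μ (b i (k + K)) < ε i := by
    intro i
    have h1 : ∑' k, μ (b i k) ≠ ⊤ := by
      have h2 : ∀ k, μ (b i k) = ENNReal.ofReal (μ.real (b i k)) := fun k =>
        (ofReal_measureReal (measure_ne_top _ _)).symm
      rw [tsum_congr h2]
      exact (hs i).tsum_ofReal_ne_top
    have h3 := ENNReal.tendsto_sum_nat_add (fun k => μ (b i k)) h1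
    exact ((tendsto_order.1 h3).2 _ (ENNReal.coe_pos.2 (hε i))).exists
  choose K hK using htail
  refine ⟨(⋃ i, ⋃ k, b i (k + K i))ᶜ, ?_, ?_⟩
  · by_contra hcon
    have h0 : μ (⋃ i, ⋃ k, b i (k + K i))ᶜ = 0 := by
      rwa [not_lt, nonpos_iff_eq_zero] at hcon
    have h1 : μ (⋃ i, ⋃ k, b i (k + K i)) < 1 := by
      refine lt_of_le_of_lt ((measure_iUnion_le _).trans ?_) hεs
      refine ENNReal.tsum_le_tsum fun i => (measure_iUnion_le _).trans (hK i).le
    have h2 : (1 : ENNReal) ≤ μ (⋃ i, ⋃ k, b i (k + K i)) := by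
      have h3 : μ (Set.univ : Set Ω) ≤ μ (⋃ i, ⋃ k, b i (k + K i)) +
          μ (⋃ i, ⋃ k, b i (k + K i))ᶜ := by
        rw [← Set.union_compl_self (⋃ i, ⋃ k, b i (k + K i))]
        exact measure_union_le _ _
      rwa [measure_univ, h0, add_zero] at h3
    exact absurd h1 (not_lt.2 h2)
  · intro i
    filter_upwards [eventually_ge_atTop (K i)] with k hk x hx hxb
    apply hx
    refine Set.mem_iUnion.2 ⟨i, Set.mem_iUnion.2 ⟨k - K i, ?_⟩⟩
    rwa [Nat.sub_add_cancel hk]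

end PoolMX
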