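import Pool.Agent.Work.MP_67388f_an.MX.Defs

/-!
MODULE Erg (size M). Complete convergence of the averages (for one functional `w`) implies ergodicity.

Let `t` be measurable and `a m`-invariant mod `μ` for all `m`. Let `f` be continuous with compact support and
`CConv a μ w f`. With `F R = strip w 1 1 R` the functions `avg a (F R) f` are bounded by `sup |f|` and converge to
`c = ∫ f` in measure (the summands `μ.real {δ < |avg - c|}` tend to `0`), hence in `L¹`:
`∫ |avg a (F R) f - c| ≤ δ + (sup|f| + |c|) μ.real {δ < ...}`. By invariance of `μ` and `t`: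
`∫_t f (a m • x) = ∫_t f x` for all `m`, so `∫_t avg a (F R) f = ∫_t f` (`F R` is nonempty, it contains `0`). Therefore
`∫_t f = c μ.real t`, for all such `f`; by density (`hconv`, sup norm) for all continuous `f` with compact support:
`∫_t f dμ = μ.real t ∫ f dμ`. Hence the finite measures `μ.restrict t` and `(μ t) • μ` coincide
(`Measure.ext_of_integral_eq_on_compactlySupported`, see the use in `map_eq_iff_test` in TV/Fun.lean), and evaluation at
`tᶜ` gives `0 = μ t * μ tᶜ`.
-/

set_option autoImplicit false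

namespace PoolMX

open MeasureTheory Filter Topology

section aux

variable {G X : Type*} [Group G] [TopologicalSpace G] [TopologicalSpace X]
    [LocallyCompactSpace X] [T2Space X] [SecondCountableTopology X] [MeasurableSpace X]
    [BorelSpace X] [MulAction G X] [ContinuousSMul G X] {r : ℕ}

private lemma setInt_smul (a : V r → G) (μ : Measure X)
    (hμ : ∀ m, μ.map (fun x => a m • x) = μ)
    (t : Set X) (hinv : ∀ m, (fun z => a m • z) ⁻¹' t =ᵐ[μ] t) (f : C(X, ℝ)) (m : V r) :
    ∫ x in t, f (a m • x) ∂μ = ∫ x in t, f x ∂μ := by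
  have hmp : MeasurePreserving (fun x : X => a m • x) μ μ :=
    ⟨(continuous_const_smul (a m)).measurable, hμ m⟩
  have hemb : MeasurableEmbedding (fun x : X => a m • x) :=
    (Homeomorph.smul (a m)).measurableEmbedding
  rw [← setIntegral_congr_set (hinv m)]
  exact hmp.setIntegral_preimage_emb hemb (fun x => f x) t

private lemma bdd_cpt (f : C(X, ℝ)) (hf : HasCompactSupport f) : ∃ B : ℝ, 0 ≤ B ∧ ∀ x, |f x| ≤ B := by
  obtain ⟨B, hB⟩ := hf.exists_bound_of_continuous f.continuous
  exact ⟨max B 0, le_max_right _ _, fun x => (hB x).trans (le_max_left _ _)⟩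

private lemma int_cpt (μ : Measure X) [IsFiniteMeasure μ] (f : C(X, ℝ)) (hf : HasCompactSupport f) :
    Integrable (fun x => f x) μ := by
  obtain ⟨B, -, hB⟩ := bdd_cpt f hf
  exact Integrable.of_bound (C := B) f.continuous.measurable.aestronglyMeasurable
    (Eventually.of_forall hB)

private lemma one_fun (a : V r → G) (μ : Measure X)
    [IsProbabilityMeasure μ] (hμ : ∀ m, μ.map (fun x => a m • x) = μ) (w : V r →+ ℝ)
    (t : Set X) (hinv : ∀ m, (fun z => a m • z) ⁻¹' t =ᵐ[μ] t)
    (f : C(X, ℝ)) (hf : HasCompactSupport f) (hc : CConv a μ w f) :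
    ∫ x in t, f x ∂μ = μ.real t * ∫ x, f x ∂μ := by
  obtain ⟨B, hB0, hB⟩ := bdd_cpt f hf
  set c : ℝ := ∫ x, f x ∂μ with hcdef
  have hmc : ∀ m, Continuous (fun x : X => f (a m • x)) := fun m =>
    f.continuous.comp (continuous_const_smul (a m))
  have hne : ∀ R, (strip w 1 1 R).Nonempty := fun R =>
    ⟨0, mem_strip.2 ⟨fun i => by simp, fun i => by simp, by simp⟩⟩
  have hcard : ∀ R, (0 : ℝ) < ((strip w 1 1 R).card : ℝ) := fun R => by
    exact_mod_cast (hne R).card_pos
  have hac : ∀ R, Continuous (fun x => avg a (strip w 1 1 R) f x) := fun R => by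
    unfold avg
    exact (continuous_finset_sum _ fun m _ => hmc m).div_const _
  have hab : ∀ R x, |avg a (strip w 1 1 R) f x| ≤ B := by
    intro R x
    unfold avg
    rw [abs_div, abs_of_pos (hcard R), div_le_iff₀ (hcard R)]
    refine (Finset.abs_sum_le_sum_abs _ _).trans ?_
    refine (Finset.sum_le_sum fun m _ => hB (a m • x)).trans ?_
    rw [Finset.sum_const, nsmul_eq_mul, mul_comm]
  have hai : ∀ R, Integrable (fun x => avg a (strip w 1 1 R) f x) μ := fun R =>
    Integrable.of_bound (C := B) (hac R).measurable.aestronglyMeasurable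
      (Eventually.of_forall (hab R))
  have hmi : ∀ m, Integrable (fun x => f (a m • x)) μ := fun m =>
    Integrable.of_bound (C := B) (hmc m).measurable.aestronglyMeasurable
      (Eventually.of_forall fun x => hB _)
  have havg : ∀ R, ∫ x in t, avg a (strip w 1 1 R) f x ∂μ = ∫ x in t, f x ∂μ := by
    intro R
    unfold avg
    rw [integral_div, integral_finset_sum _ (fun m _ => (hmi m).integrableOn)]
    rw [Finset.sum_congr rfl (fun m _ => setInt_smul a μ hμ t hinv f m), Finset.sum_const,
      nsmul_eq_mul]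
    field_simp [(hcard R).ne']
  have hkey : ∀ δ : ℝ, 0 < δ → ∀ R : ℕ, |∫ x in t, f x ∂μ - μ.real t * c| ≤
      δ + (B + |c|) * μ.real {x | δ < |avg a (strip w 1 1 R) f x - c|} := by
    intro δ hδ R
    set S : Set X := {x | δ < |avg a (strip w 1 1 R) f x - c|} with hS
    have hSm : MeasurableSet S :=
      (isOpen_lt continuous_const ((hac R).sub continuous_const).abs).measurableSet
    have h1 : ∫ x in t, f x ∂μ - μ.real t * c = ∫ x in t, (avg a (strip w 1 1 R) f x - c) ∂μ := by
      rw [integral_sub (hai R).integrableOn (integrable_const c).integrableOn, havg R,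
        setIntegral_const, smul_eq_mul]
    have hint : Integrable (fun x => |avg a (strip w 1 1 R) f x - c|) μ :=
      ((hai R).sub (integrable_const c)).abs
    have hpt : ∀ x, |avg a (strip w 1 1 R) f x - c| ≤
        δ + S.indicator (fun _ => B + |c|) x := by
      intro x
      by_cases hx : x ∈ S
      · rw [Set.indicator_of_mem hx]
        have h2 := abs_sub (avg a (strip w 1 1 R) f x) c
        have h3 := hab R x
        linarith
      · rw [Set.indicator_of_notMem hx, add_zero]
        exact not_lt.1 hx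
    calc |∫ x in t, f x ∂μ - μ.real t * c|
        = |∫ x in t, (avg a (strip w 1 1 R) f x - c) ∂μ| := by rw [h1]
      _ ≤ ∫ x in t, |avg a (strip w 1 1 R) f x - c| ∂μ := abs_integral_le_integral_abs
      _ ≤ ∫ x, |avg a (strip w 1 1 R) f x - c| ∂μ :=
          setIntegral_le_integral hint (Eventually.of_forall fun x => abs_nonneg _)
      _ ≤ ∫ x, (δ + S.indicator (fun _ => B + |c|) x) ∂μ := by
          refine integral_mono hint ?_ hpt
          exact (integrable_const δ).add ((integrable_const (B + |c|)).indicator hSm)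
      _ = δ + (B + |c|) * μ.real S := by
          rw [integral_add (integrable_const δ) ((integrable_const (B + |c|)).indicator hSm),
            integral_indicator hSm, setIntegral_const, integral_const]
          simp [mul_comm]
  have hlim : ∀ δ : ℝ, 0 < δ → |∫ x in t, f x ∂μ - μ.real t * c| ≤ δ := by
    intro δ hδ
    have h1 := (hc 1 1 δ Nat.one_pos one_pos hδ).tendsto_atTop_zero
    have h2 : Tendsto (fun R : ℕ => δ + (B + |c|) *
        μ.real {x | δ < |avg a (strip w 1 1 R) f x - c|}) atTop (𝓝 (δ + (B + |c|) * 0)) :=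
      tendsto_const_nhds.add (h1.const_mul _)
    rw [mul_zero, add_zero] at h2
    exact ge_of_tendsto' h2 (hkey δ hδ)
  have h0 : |∫ x in t, f x ∂μ - μ.real t * c| ≤ 0 := le_of_forall_pos_le_add fun δ hδ => by
    rw [zero_add]
    exact hlim δ hδ
  exact sub_eq_zero.1 (abs_eq_zero.1 (le_antisymm h0 (abs_nonneg _)))

end aux

theorem erg_of_cconv {G X : Type*} [Group G] [TopologicalSpace G] [TopologicalSpace X]
    [LocallyCompactSpace X] [T2Space X] [SecondCountableTopology X] [MeasurableSpace X]
    [BorelSpace X] [MulAction G X] [ContinuousSMul G X] {r : ℕ} (a : V r → G) (μ : Measure X)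
    [IsProbabilityMeasure μ] (hμ : ∀ m, μ.map (fun x => a m • x) = μ) (w : V r →+ ℝ)
    (hconv : ∀ θ : C(X, ℝ), HasCompactSupport θ → ∀ ε : ℝ, 0 < ε →
      ∃ f : C(X, ℝ), HasCompactSupport f ∧ (∀ x, |θ x - f x| ≤ ε) ∧ CConv a μ w f)
    (t : Set X) (ht : MeasurableSet t) (hinv : ∀ m, (fun z => a m • z) ⁻¹' t =ᵐ[μ] t) :
    μ t = 0 ∨ μ tᶜ = 0 := by
  have hall : ∀ θ : C(X, ℝ), HasCompactSupport θ →
      ∫ x in t, θ x ∂μ = μ.real t * ∫ x, θ x ∂μ := by
    intro θ hθ
    have hle : ∀ ε : ℝ, 0 < ε → |∫ x in t, θ x ∂μ - μ.real t * ∫ x, θ x ∂μ| ≤ 2 * ε := by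
      intro ε hε
      obtain ⟨f, hf, hfθ, hc⟩ := hconv θ hθ ε hε
      have h1 := one_fun a μ hμ w t hinv f hf hc
      have hiθ := int_cpt μ θ hθ
      have hif := int_cpt μ f hf
      have h2 : |∫ x in t, θ x ∂μ - ∫ x in t, f x ∂μ| ≤ ε := by
        rw [← integral_sub hiθ.integrableOn hif.integrableOn]
        refine abs_integral_le_integral_abs.trans ?_
        refine (setIntegral_le_integral (hiθ.sub hif).abs
          (Eventually.of_forall fun x => abs_nonneg _)).trans ?_
        refine (integral_mono (hiθ.sub hif).abs (integrable_const ε) hfθ).trans ?_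
        simp
      have h3 : |∫ x, θ x ∂μ - ∫ x, f x ∂μ| ≤ ε := by
        rw [← integral_sub hiθ hif]
        refine abs_integral_le_integral_abs.trans ?_
        refine (integral_mono (hiθ.sub hif).abs (integrable_const ε) hfθ).trans ?_
        simp
      have h4 : 0 ≤ μ.real t := measureReal_nonneg
      have h5 : μ.real t ≤ 1 := measureReal_le_one
      have h6 : ∫ x in t, θ x ∂μ - μ.real t * ∫ x, θ x ∂μ =
          (∫ x in t, θ x ∂μ - ∫ x in t, f x ∂μ) - μ.real t * (∫ x, θ x ∂μ - ∫ x, f x ∂μ) := by
        rw [h1]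
        ring
      rw [h6]
      refine (abs_sub _ _).trans ?_
      rw [abs_mul, abs_of_nonneg h4]
      have h7 : μ.real t * |∫ x, θ x ∂μ - ∫ x, f x ∂μ| ≤ 1 * ε :=
        mul_le_mul h5 h3 (abs_nonneg _) (by norm_num)
      linarith
    have h0 : |∫ x in t, θ x ∂μ - μ.real t * ∫ x, θ x ∂μ| ≤ 0 :=
      le_of_forall_pos_le_add fun δ hδ => by
        rw [zero_add]
        have := hle (δ / 2) (by linarith)
        linarith
    exact sub_eq_zero.1 (abs_eq_zero.1 (le_antisymm h0 (abs_nonneg _)))
  have hmeas : μ.restrict t = (μ t) • μ := by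
    have hfin : IsFiniteMeasure ((μ t) • μ) := by
      refine ⟨?_⟩
      rw [Measure.smul_apply, measure_univ, smul_eq_mul, mul_one]
      exact measure_lt_top μ t
    apply Measure.ext_of_integral_eq_on_compactlySupported
    intro f
    have h1 := hall f.toContinuousMap f.hasCompactSupport
    rw [integral_smul_measure]
    exact h1
  have h1 : μ.restrict t tᶜ = 0 := by
    rw [Measure.restrict_apply ht.compl, Set.compl_inter_self, measure_empty]
  rw [hmeas, Measure.smul_apply, smul_eq_mul, mul_eq_zero] at h1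
  exact h1

end PoolMX
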