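import Pool.Agent.Work.MP_67388f_an.MX.Pot

/-!
MODULE Four (size M-L). Four point correlations of the centered functions `ψ m = φ m - c`.

Hypothesis `hmix` (lists): for `s.length + t.length ≤ 4` and mutual distances `≥ g > 0`,
`|E(∏_s φ ∏_t φ) - E(∏_s φ) E(∏_t φ)| ≤ C g^(-κ)`. Note `C ≥ 0` (take `s = t = []`, `g = 1`).

(1) Centered versions. Expanding products of `φ - c` gives sums over sublists with coefficients powers of
`-c`, so with `C₁ = C (1 + |c|)^4`: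
  (1|3)  if `g ≤ ‖p - q‖` for `q ∈ {q1,q2,q3}`: `|E(ψ p ψ q1 ψ q2 ψ q3)| ≤ C₁ g^(-κ)` (`E ψ p = 0`),
  (2|2)  if `g ≤ ‖p i - q j‖` for all `i, j`:
         `|E(ψ p1 ψ p2 ψ q1 ψ q2) - E(ψ p1 ψ p2) E(ψ q1 ψ q2)| ≤ C₁ g^(-κ)`,
  (1|1)  `|E(ψ p ψ q)| ≤ C₂ cor κ (p - q)` (for `p = q` by the bound `|ψ| ≤ 2B`; for `p ≠ q` take `g = ‖p - q‖`).
(Only cases with lists of length 1, 2, 3 are needed: use `hmix` with `[p]`, `[q1,q2,q3]`, `[p]`, `[q1,q2]` etc. and
linearity of the integral; `|ψ| ≤ 2B`, all functions bounded measurable, hence integrable.)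

(2) Gap. Let `D = max (‖m2-m1‖) (‖m3-m1‖) (‖m4-m1‖)`. If `D = 0` all four points are equal and the trivial bound
`(2B)^4` is enough (the third term of the claim is then `3`). If `D > 0` put `t i = ‖m_i - m1‖`, so `t 1 = 0`,
`max t = D` attained at `q`. The two remaining values can meet at most two of the three intervals
`(0,D/3)`, `(D/3,2D/3)`, `(2D/3,D)`; take a free one `(u, u + D/3)`; `I = {i : t i ≤ u}` and
`J = {i : t i ≥ u + D/3}` are nonempty, complementary, and `‖m_i - m_j‖ ≥ t j - t i ≥ D/3` for `i ∈ I`, `j ∈ J`.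
According to `#I = 1, 2, 3` use (1|3) or (2|2) with `g = D/3`: `|E| ≤ C₁ 3^κ D^(-κ) + (pair term)`,
and the pair term is `≤ C₂² cor cor` of the corresponding pairing. (8 cases for `I ∋ 1`, `I ≠` everything.)
-/

set_option autoImplicit false

namespace PoolMX

open MeasureTheory

/-- `x ^ (-κ)`, `1` at `x = 0` -/
noncomputable def dk (κ x : ℝ) : ℝ := if x = 0 then 1 else x ^ (-κ)

section FourAux

variable {Ω : Type*} [MeasurableSpace Ω]

private def FBM (f : Ω → ℝ) : Prop := Measurable f ∧ ∃ B : ℝ, ∀ x, |f x| ≤ B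

private lemma fbm_mul {f g : Ω → ℝ} (hf : FBM f) (hg : FBM g) : FBM (fun x => f x * g x) := by
  obtain ⟨hf, B, hB⟩ := hf
  obtain ⟨hg, B', hB'⟩ := hg
  refine ⟨hf.mul hg, B * B', fun x => ?_⟩
  rw [abs_mul]
  exact mul_le_mul (hB x) (hB' x) (abs_nonneg _) ((abs_nonneg _).trans (hB x))

private lemma fbm_int {f : Ω → ℝ} (hf : FBM f) (μ : Measure Ω) [IsProbabilityMeasure μ] :
    Integrable f μ := by
  obtain ⟨hf, B, hB⟩ := hf
  exact Integrable.of_bound hf.aestronglyMeasurable B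
    (ae_of_all _ fun x => by rw [Real.norm_eq_abs]; exact hB x)

variable (μ : Measure Ω) [IsProbabilityMeasure μ]

private def FI (f : Ω → ℝ) (v : ℝ) : Prop := Integrable f μ ∧ ∫ x, f x ∂μ = v

variable {μ}

omit [IsProbabilityMeasure μ] in
private lemma fi_add {f g : Ω → ℝ} {v w : ℝ} (h : FI μ f v) (h' : FI μ g w) :
    FI μ (fun x => f x + g x) (v + w) :=
  ⟨h.1.add h'.1, by rw [integral_add h.1 h'.1, h.2, h'.2]⟩

omit [IsProbabilityMeasure μ] in
private lemma fi_sub {f g : Ω → ℝ} {v w : ℝ} (h : FI μ f v) (h' : FI μ g w) :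
    FI μ (fun x => f x - g x) (v - w) :=
  ⟨h.1.sub h'.1, by rw [integral_sub h.1 h'.1, h.2, h'.2]⟩

omit [IsProbabilityMeasure μ] in
private lemma fi_mul {f : Ω → ℝ} {v : ℝ} (c : ℝ) (h : FI μ f v) :
    FI μ (fun x => c * f x) (c * v) :=
  ⟨h.1.const_mul c, by rw [integral_const_mul, h.2]⟩

private lemma fi_const (c : ℝ) : FI μ (fun _ : Ω => c) c :=
  ⟨integrable_const _, by simp⟩

private lemma fi_of {f : Ω → ℝ} (h : FBM f) : FI μ f (∫ x, f x ∂μ) := ⟨fbm_int h μ, rfl⟩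

private lemma f_duo {a b : Ω → ℝ} (ha : FBM a) (hb : FBM b) (c : ℝ) :
    ∫ x, (a x - c) * (b x - c) ∂μ =
      ∫ x, a x * b x ∂μ - c * (∫ x, a x ∂μ + ∫ x, b x ∂μ) + c ^ 2 := by
  have h := fi_add (fi_sub (fi_of (μ := μ) (fbm_mul ha hb))
    (fi_mul c (fi_add (fi_of ha) (fi_of hb)))) (fi_const (c ^ 2))
  rw [← h.2]
  congr 1
  funext x
  ring

private lemma f_quad {a b d e : Ω → ℝ} (ha : FBM a) (hb : FBM b) (hd : FBM d) (he : FBM e)
    (c : ℝ) :
    ∫ x, (a x - c) * (b x - c) * (d x - c) * (e x - c) ∂μ =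
      ∫ x, a x * b x * d x * e x ∂μ
      - c * (∫ x, a x * b x * d x ∂μ + ∫ x, a x * b x * e x ∂μ + ∫ x, a x * d x * e x ∂μ +
          ∫ x, b x * d x * e x ∂μ)
      + c ^ 2 * (∫ x, a x * b x ∂μ + ∫ x, a x * d x ∂μ + ∫ x, a x * e x ∂μ +
          ∫ x, b x * d x ∂μ + ∫ x, b x * e x ∂μ + ∫ x, d x * e x ∂μ)
      - c ^ 3 * (∫ x, a x ∂μ + ∫ x, b x ∂μ + ∫ x, d x ∂μ + ∫ x, e x ∂μ) + c ^ 4 := by
  have a1 := fi_of (μ := μ) ha
  have b1 := fi_of (μ := μ) hb
  have d1 := fi_of (μ := μ) hd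
  have e1 := fi_of (μ := μ) he
  have ab := fi_of (μ := μ) (fbm_mul ha hb)
  have ad := fi_of (μ := μ) (fbm_mul ha hd)
  have ae := fi_of (μ := μ) (fbm_mul ha he)
  have bd := fi_of (μ := μ) (fbm_mul hb hd)
  have be := fi_of (μ := μ) (fbm_mul hb he)
  have de := fi_of (μ := μ) (fbm_mul hd he)
  have abd := fi_of (μ := μ) (fbm_mul (fbm_mul ha hb) hd)
  have abe := fi_of (μ := μ) (fbm_mul (fbm_mul ha hb) he)
  have ade := fi_of (μ := μ) (fbm_mul (fbm_mul ha hd) he)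
  have bde := fi_of (μ := μ) (fbm_mul (fbm_mul hb hd) he)
  have abde := fi_of (μ := μ) (fbm_mul (fbm_mul (fbm_mul ha hb) hd) he)
  have h := fi_add (fi_sub (fi_add (fi_sub abde
    (fi_mul c (fi_add (fi_add (fi_add abd abe) ade) bde)))
    (fi_mul (c ^ 2) (fi_add (fi_add (fi_add (fi_add (fi_add ab ad) ae) bd) be) de)))
    (fi_mul (c ^ 3) (fi_add (fi_add (fi_add a1 b1) d1) e1))) (fi_const (c ^ 4))
  rw [← h.2]
  congr 1
  funext x
  ring

private lemma f_abs3 {T1 T2 T3 c K : ℝ} (h1 : |T1| ≤ K) (h2 : |T2| ≤ 4 * K) (h3 : |T3| ≤ 4 * K) :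
    |T1 - c * T2 + c ^ 2 * T3| ≤ K * (1 + 4 * |c| + 4 * c ^ 2) := by
  have h4 : |T1 - c * T2 + c ^ 2 * T3| ≤ |T1| + |c| * |T2| + c ^ 2 * |T3| := by
    calc |T1 - c * T2 + c ^ 2 * T3| ≤ |T1 - c * T2| + |c ^ 2 * T3| := abs_add_le _ _
      _ ≤ |T1| + |c * T2| + |c ^ 2 * T3| := by
          have := abs_sub T1 (c * T2)
          linarith
      _ = |T1| + |c| * |T2| + c ^ 2 * |T3| := by
          rw [abs_mul, abs_mul, abs_of_nonneg (sq_nonneg c)]
  have h5 : |c| * |T2| ≤ |c| * (4 * K) := mul_le_mul_of_nonneg_left h2 (abs_nonneg c)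
  have h6 : c ^ 2 * |T3| ≤ c ^ 2 * (4 * K) := mul_le_mul_of_nonneg_left h3 (sq_nonneg c)
  linarith

private lemma f_gap0 {x y z g : ℝ} (hz : z = 3 * g) : g ≤ x ∨ g ≤ y - x ∨ g ≤ z - y := by
  by_contra hcon
  simp only [not_or, not_le] at hcon
  obtain ⟨h1, h2, h3⟩ := hcon
  linarith

/-- the gap -/
private lemma f_gap {a b d g : ℝ} (ha : 0 ≤ a) (hb : 0 ≤ b) (hd : 0 ≤ d)
    (hmax : a = 3 * g ∨ b = 3 * g ∨ d = 3 * g) (ha' : a ≤ 3 * g)
    (hb' : b ≤ 3 * g) (hd' : d ≤ 3 * g) :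
    (g ≤ a ∧ g ≤ b ∧ g ≤ d) ∨
    (g ≤ b ∧ g ≤ d ∧ g ≤ b - a ∧ g ≤ d - a) ∨
    (g ≤ a ∧ g ≤ d ∧ g ≤ a - b ∧ g ≤ d - b) ∨
    (g ≤ a ∧ g ≤ b ∧ g ≤ a - d ∧ g ≤ b - d) ∨
    (g ≤ d ∧ g ≤ d - a ∧ g ≤ d - b) ∨
    (g ≤ b ∧ g ≤ b - a ∧ g ≤ b - d) ∨
    (g ≤ a ∧ g ≤ a - b ∧ g ≤ a - d) := by
  rcases le_total a b with h1 | h1 <;> rcases le_total b d with h2 | h2 <;>
    rcases le_total a d with h3 | h3
  · -- a b d
    have hz : d = 3 * g := by rcases hmax with h | h | h <;> linarith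
    rcases f_gap0 (x := a) (y := b) hz with h | h | h
    · exact Or.inl ⟨by linarith, by linarith, by linarith⟩
    · exact Or.inr (Or.inl ⟨by linarith, by linarith, by linarith, by linarith⟩)
    · exact Or.inr (Or.inr (Or.inr (Or.inr (Or.inl ⟨by linarith, by linarith, by linarith⟩))))
  · -- a b d (degenerate)
    have hz : d = 3 * g := by rcases hmax with h | h | h <;> linarith
    rcases f_gap0 (x := a) (y := b) hz with h | h | h
    · exact Or.inl ⟨by linarith, by linarith, by linarith⟩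
    · exact Or.inr (Or.inl ⟨by linarith, by linarith, by linarith, by linarith⟩)
    · exact Or.inr (Or.inr (Or.inr (Or.inr (Or.inl ⟨by linarith, by linarith, by linarith⟩))))
  · -- a d b
    have hz : b = 3 * g := by rcases hmax with h | h | h <;> linarith
    rcases f_gap0 (x := a) (y := d) hz with h | h | h
    · exact Or.inl ⟨by linarith, by linarith, by linarith⟩
    · exact Or.inr (Or.inl ⟨by linarith, by linarith, by linarith, by linarith⟩)
    · exact Or.inr (Or.inr (Or.inr (Or.inr (Or.inr (Or.inl ⟨by linarith, by linarith, by linarith⟩)))))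
  · -- d a b
    have hz : b = 3 * g := by rcases hmax with h | h | h <;> linarith
    rcases f_gap0 (x := d) (y := a) hz with h | h | h
    · exact Or.inl ⟨by linarith, by linarith, by linarith⟩
    · exact Or.inr (Or.inr (Or.inr (Or.inl ⟨by linarith, by linarith, by linarith, by linarith⟩)))
    · exact Or.inr (Or.inr (Or.inr (Or.inr (Or.inr (Or.inl ⟨by linarith, by linarith, by linarith⟩)))))
  · -- b a d
    have hz : d = 3 * g := by rcases hmax with h | h | h <;> linarith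
    rcases f_gap0 (x := b) (y := a) hz with h | h | h
    · exact Or.inl ⟨by linarith, by linarith, by linarith⟩
    · exact Or.inr (Or.inr (Or.inl ⟨by linarith, by linarith, by linarith, by linarith⟩))
    · exact Or.inr (Or.inr (Or.inr (Or.inr (Or.inl ⟨by linarith, by linarith, by linarith⟩))))
  · -- b d a
    have hz : a = 3 * g := by rcases hmax with h | h | h <;> linarith
    rcases f_gap0 (x := b) (y := d) hz with h | h | h
    · exact Or.inl ⟨by linarith, by linarith, by linarith⟩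
    · exact Or.inr (Or.inr (Or.inl ⟨by linarith, by linarith, by linarith, by linarith⟩))
    · exact Or.inr (Or.inr (Or.inr (Or.inr (Or.inr (Or.inr ⟨by linarith, by linarith, by linarith⟩)))))
  · -- d b a degenerate
    have hz : a = 3 * g := by rcases hmax with h | h | h <;> linarith
    rcases f_gap0 (x := d) (y := b) hz with h | h | h
    · exact Or.inl ⟨by linarith, by linarith, by linarith⟩
    · exact Or.inr (Or.inr (Or.inr (Or.inl ⟨by linarith, by linarith, by linarith, by linarith⟩)))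
    · exact Or.inr (Or.inr (Or.inr (Or.inr (Or.inr (Or.inr ⟨by linarith, by linarith, by linarith⟩)))))
  · -- d b a
    have hz : a = 3 * g := by rcases hmax with h | h | h <;> linarith
    rcases f_gap0 (x := d) (y := b) hz with h | h | h
    · exact Or.inl ⟨by linarith, by linarith, by linarith⟩
    · exact Or.inr (Or.inr (Or.inr (Or.inl ⟨by linarith, by linarith, by linarith, by linarith⟩)))
    · exact Or.inr (Or.inr (Or.inr (Or.inr (Or.inr (Or.inr ⟨by linarith, by linarith, by linarith⟩)))))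

private lemma f_ab4 {a b c d K : ℝ} (h1 : |a| ≤ K) (h2 : |b| ≤ K) (h3 : |c| ≤ K) (h4 : |d| ≤ K) :
    |a + b + c + d| ≤ 4 * K := by
  rw [abs_le] at *
  constructor <;> linarith [h1.1, h1.2, h2.1, h2.2, h3.1, h3.2, h4.1, h4.2]

private lemma f_ab3 {a b c K : ℝ} (h1 : |a| ≤ K) (h2 : |b| ≤ K) (h3 : |c| ≤ K) :
    |a + b + c| ≤ 4 * K := by
  have hK : 0 ≤ K := (abs_nonneg _).trans h1
  rw [abs_le] at *
  constructor <;> linarith [h1.1, h1.2, h2.1, h2.2, h3.1, h3.2]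

end FourAux

theorem four_bound {Ω : Type*} [MeasurableSpace Ω] (μ : Measure Ω) [IsProbabilityMeasure μ]
    {r : ℕ} (κ : ℝ) (hκ : 0 < κ) (φ : V r → Ω → ℝ) (hm : ∀ m, Measurable (φ m)) (B : ℝ)
    (hB : ∀ m x, |φ m x| ≤ B) (c C : ℝ) (hc : ∀ m, ∫ x, φ m x ∂μ = c)
    (hmix : ∀ (s t : List (V r)) (g : ℝ), s.length + t.length ≤ 4 → 0 < g →
      (∀ m ∈ s, ∀ m' ∈ t, g ≤ ‖m - m'‖) →
      |∫ x, (s.map fun m => φ m x).prod * (t.map fun m => φ m x).prod ∂μ -
        (∫ x, (s.map fun m => φ m x).prod ∂μ) * ∫ x, (t.map fun m => φ m x).prod ∂μ| ≤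
        C * g ^ (-κ)) :
    ∃ K : ℝ, 0 < K ∧ (∀ p q, |∫ x, (φ p x - c) * (φ q x - c) ∂μ| ≤ K * cor κ (p - q)) ∧
      ∀ m1 m2 m3 m4 : V r,
      |∫ x, (φ m1 x - c) * (φ m2 x - c) * (φ m3 x - c) * (φ m4 x - c) ∂μ| ≤
        K * (dk κ (max ‖m2 - m1‖ (max ‖m3 - m1‖ ‖m4 - m1‖)) +
          cor κ (m1 - m2) * cor κ (m3 - m4) + cor κ (m1 - m3) * cor κ (m2 - m4) +
          cor κ (m1 - m4) * cor κ (m2 - m3)) := by
  have hC : 0 ≤ C := by
    have h := hmix [] [] 1 (by simp) one_pos (by simp)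
    have h2 := (abs_nonneg _).trans h
    simpa using h2
  set b : ℝ := |B| + |c| with hb
  have hb0 : 0 ≤ b := by positivity
  have hF : ∀ m, FBM (φ m) := fun m => ⟨hm m, B, hB m⟩
  have hψ : ∀ m x, |φ m x - c| ≤ b := fun m x =>
    (abs_sub _ _).trans (add_le_add ((hB m x).trans (le_abs_self B)) le_rfl)
  have c11 : ∀ (p q : V r) (g : ℝ), 0 < g → g ≤ ‖p - q‖ →
      |∫ x, φ p x * φ q x ∂μ - c * c| ≤ C * g ^ (-κ) := by
    intro p q g hg h
    have h1 := hmix [p] [q] g (by simp) hg (by simpa using h)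
    simpa [hc] using h1
  have c12 : ∀ (p q u : V r) (g : ℝ), 0 < g → g ≤ ‖p - q‖ → g ≤ ‖p - u‖ →
      |∫ x, φ p x * φ q x * φ u x ∂μ - c * ∫ x, φ q x * φ u x ∂μ| ≤ C * g ^ (-κ) := by
    intro p q u g hg h h'
    have h1 := hmix [p] [q, u] g (by simp) hg (by simp [h, h'])
    simpa [hc, mul_assoc] using h1
  have c13 : ∀ (p q u v : V r) (g : ℝ), 0 < g → g ≤ ‖p - q‖ → g ≤ ‖p - u‖ → g ≤ ‖p - v‖ →
      |∫ x, φ p x * φ q x * φ u x * φ v x ∂μ - c * ∫ x, φ q x * φ u x * φ v x ∂μ| ≤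
        C * g ^ (-κ) := by
    intro p q u v g hg h h' h''
    have h1 := hmix [p] [q, u, v] g (by simp) hg (by simp [h, h', h''])
    simpa [hc, mul_assoc] using h1
  have c22 : ∀ (p q u v : V r) (g : ℝ), 0 < g → g ≤ ‖p - u‖ → g ≤ ‖p - v‖ → g ≤ ‖q - u‖ →
      g ≤ ‖q - v‖ →
      |∫ x, φ p x * φ q x * φ u x * φ v x ∂μ - (∫ x, φ p x * φ q x ∂μ) *
        ∫ x, φ u x * φ v x ∂μ| ≤ C * g ^ (-κ) := by
    intro p q u v g hg h1 h2 h3 h4
    have h5 := hmix [p, q] [u, v] g (by simp) hg (by simp [h1, h2, h3, h4])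
    simpa [hc, mul_assoc] using h5
  have M3comm : ∀ p q u : V r, ∫ x, φ p x * φ q x * φ u x ∂μ = ∫ x, φ u x * φ p x * φ q x ∂μ := by
    intro p q u
    congr 1
    funext x
    ring
  have P13 : ∀ (p q u v : V r) (g : ℝ), 0 < g → g ≤ ‖p - q‖ → g ≤ ‖p - u‖ → g ≤ ‖p - v‖ →
      |∫ x, (φ p x - c) * (φ q x - c) * (φ u x - c) * (φ v x - c) ∂μ| ≤
        C * g ^ (-κ) * (1 + 4 * |c| + 4 * c ^ 2) := by
    intro p q u v g hg h1 h2 h3
    have e : ∫ x, (φ p x - c) * (φ q x - c) * (φ u x - c) * (φ v x - c) ∂μ =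
        (∫ x, φ p x * φ q x * φ u x * φ v x ∂μ - c * ∫ x, φ q x * φ u x * φ v x ∂μ) -
        c * ((∫ x, φ p x * φ q x * φ u x ∂μ - c * ∫ x, φ q x * φ u x ∂μ) +
          (∫ x, φ p x * φ q x * φ v x ∂μ - c * ∫ x, φ q x * φ v x ∂μ) +
          (∫ x, φ p x * φ u x * φ v x ∂μ - c * ∫ x, φ u x * φ v x ∂μ)) +
        c ^ 2 * ((∫ x, φ p x * φ q x ∂μ - c * c) + (∫ x, φ p x * φ u x ∂μ - c * c) +
          (∫ x, φ p x * φ v x ∂μ - c * c)) := by
      rw [f_quad (hF p) (hF q) (hF u) (hF v), hc, hc, hc, hc]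
      ring
    rw [e]
    exact f_abs3 (c13 p q u v g hg h1 h2 h3)
      (f_ab3 (c12 p q u g hg h1 h2) (c12 p q v g hg h1 h3) (c12 p u v g hg h2 h3))
      (f_ab3 (c11 p q g hg h1) (c11 p u g hg h2) (c11 p v g hg h3))
  have P22 : ∀ (p q u v : V r) (g : ℝ), 0 < g → g ≤ ‖p - u‖ → g ≤ ‖p - v‖ → g ≤ ‖q - u‖ →
      g ≤ ‖q - v‖ →
      |∫ x, (φ p x - c) * (φ q x - c) * (φ u x - c) * (φ v x - c) ∂μ -
        (∫ x, (φ p x - c) * (φ q x - c) ∂μ) * ∫ x, (φ u x - c) * (φ v x - c) ∂μ| ≤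
        C * g ^ (-κ) * (1 + 4 * |c| + 4 * c ^ 2) := by
    intro p q u v g hg h1 h2 h3 h4
    have e : ∫ x, (φ p x - c) * (φ q x - c) * (φ u x - c) * (φ v x - c) ∂μ -
        (∫ x, (φ p x - c) * (φ q x - c) ∂μ) * ∫ x, (φ u x - c) * (φ v x - c) ∂μ =
        (∫ x, φ p x * φ q x * φ u x * φ v x ∂μ - (∫ x, φ p x * φ q x ∂μ) *
          ∫ x, φ u x * φ v x ∂μ) -
        c * ((∫ x, φ u x * φ p x * φ q x ∂μ - c * ∫ x, φ p x * φ q x ∂μ) +
          (∫ x, φ v x * φ p x * φ q x ∂μ - c * ∫ x, φ p x * φ q x ∂μ) +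
          (∫ x, φ p x * φ u x * φ v x ∂μ - c * ∫ x, φ u x * φ v x ∂μ) +
          (∫ x, φ q x * φ u x * φ v x ∂μ - c * ∫ x, φ u x * φ v x ∂μ)) +
        c ^ 2 * ((∫ x, φ p x * φ u x ∂μ - c * c) + (∫ x, φ p x * φ v x ∂μ - c * c) +
          (∫ x, φ q x * φ u x ∂μ - c * c) + (∫ x, φ q x * φ v x ∂μ - c * c)) := by
      rw [f_quad (hF p) (hF q) (hF u) (hF v), f_duo (hF p) (hF q), f_duo (hF u) (hF v),
        hc, hc, hc, hc, M3comm p q u, M3comm p q v]
      ring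
    rw [e]
    have h1' : g ≤ ‖u - p‖ := by rwa [norm_sub_rev]
    have h2' : g ≤ ‖v - p‖ := by rwa [norm_sub_rev]
    have h3' : g ≤ ‖u - q‖ := by rwa [norm_sub_rev]
    have h4' : g ≤ ‖v - q‖ := by rwa [norm_sub_rev]
    exact f_abs3 (c22 p q u v g hg h1 h2 h3 h4)
      (f_ab4 (c12 u p q g hg h1' h3') (c12 v p q g hg h2' h4') (c12 p u v g hg h1 h2)
        (c12 q u v g hg h3 h4))
      (f_ab4 (c11 p u g hg h1) (c11 p v g hg h2) (c11 q u g hg h3) (c11 q v g hg h4))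
  -- the pair bound
  have hcor0 : ∀ m : V r, 0 ≤ cor κ m := by
    intro m
    unfold cor
    split_ifs
    · exact zero_le_one
    · exact Real.rpow_nonneg (norm_nonneg _) _
  have hdk0 : ∀ x : ℝ, 0 ≤ x → 0 ≤ dk κ x := by
    intro x hx
    unfold dk
    split_ifs
    · exact zero_le_one
    · exact Real.rpow_nonneg hx _
  set K₂ : ℝ := C + b ^ 2 with hK₂
  have hK₂0 : 0 ≤ K₂ := by positivity
  have hpair : ∀ p q : V r, |∫ x, (φ p x - c) * (φ q x - c) ∂μ| ≤ K₂ * cor κ (p - q) := by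
    intro p q
    by_cases hpq : p - q = 0
    · unfold cor
      rw [if_pos hpq, mul_one]
      have h1 : |∫ x, (φ p x - c) * (φ q x - c) ∂μ| ≤ b ^ 2 := by
        have h2 := norm_integral_le_of_norm_le_const (μ := μ)
          (f := fun x => (φ p x - c) * (φ q x - c)) (C := b ^ 2)
          (ae_of_all _ fun x => by
            rw [Real.norm_eq_abs, abs_mul, sq]
            exact mul_le_mul (hψ p x) (hψ q x) (abs_nonneg _) hb0)
        simpa using h2
      linarith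
    · unfold cor
      rw [if_neg hpq]
      have hpos : 0 < ‖p - q‖ := norm_pos_iff.2 hpq
      have h1 := c11 p q _ hpos le_rfl
      rw [f_duo (hF p) (hF q), hc, hc]
      have e : ∫ x, φ p x * φ q x ∂μ - c * (c + c) + c ^ 2 =
          ∫ x, φ p x * φ q x ∂μ - c * c := by ring
      rw [e]
      refine h1.trans (mul_le_mul_of_nonneg_right ?_ (Real.rpow_nonneg (norm_nonneg _) _))
      have := sq_nonneg b
      linarith
  set C₁ : ℝ := C * (1 + 4 * |c| + 4 * c ^ 2) * 3 ^ κ with hC₁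
  have hC₁0 : 0 ≤ C₁ := by positivity
  set K : ℝ := K₂ + K₂ ^ 2 + C₁ + b ^ 4 + 1 with hK
  have hK2 : K₂ ≤ K := by
    have : 0 ≤ K₂ ^ 2 := sq_nonneg _
    have : 0 ≤ b ^ 4 := by positivity
    linarith
  have hKK : K₂ ^ 2 ≤ K := by
    have : 0 ≤ b ^ 4 := by positivity
    linarith
  have hKC : C₁ ≤ K := by
    have : 0 ≤ K₂ ^ 2 := sq_nonneg _
    have : 0 ≤ b ^ 4 := by positivity
    linarith
  have hKb : b ^ 4 ≤ K := by
    have : 0 ≤ K₂ ^ 2 := sq_nonneg _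
    linarith
  have hK0 : 0 < K := by
    have : 0 ≤ K₂ ^ 2 := sq_nonneg _
    have : 0 ≤ b ^ 4 := by positivity
    linarith
  refine ⟨K, hK0, fun p q => (hpair p q).trans (mul_le_mul_of_nonneg_right hK2 (hcor0 _)), ?_⟩
  intro m1 m2 m3 m4
  set D : ℝ := max ‖m2 - m1‖ (max ‖m3 - m1‖ ‖m4 - m1‖) with hD
  have t2 : 0 ≤ ‖m2 - m1‖ := norm_nonneg _
  have t3 : 0 ≤ ‖m3 - m1‖ := norm_nonneg _
  have t4 : 0 ≤ ‖m4 - m1‖ := norm_nonneg _
  have hD2 : ‖m2 - m1‖ ≤ D := le_max_left _ _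
  have hD3 : ‖m3 - m1‖ ≤ D := (le_max_left _ _).trans (le_max_right _ _)
  have hD4 : ‖m4 - m1‖ ≤ D := (le_max_right _ _).trans (le_max_right _ _)
  have hD0 : 0 ≤ D := t2.trans hD2
  have q12 : 0 ≤ cor κ (m1 - m2) * cor κ (m3 - m4) := mul_nonneg (hcor0 _) (hcor0 _)
  have q13 : 0 ≤ cor κ (m1 - m3) * cor κ (m2 - m4) := mul_nonneg (hcor0 _) (hcor0 _)
  have q14 : 0 ≤ cor κ (m1 - m4) * cor κ (m2 - m3) := mul_nonneg (hcor0 _) (hcor0 _)
  have q0 : 0 ≤ dk κ D := hdk0 D hD0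
  rcases hD0.eq_or_lt with hD1 | hDpos
  · -- D = 0
    have h1 : |∫ x, (φ m1 x - c) * (φ m2 x - c) * (φ m3 x - c) * (φ m4 x - c) ∂μ| ≤ b ^ 4 := by
      have h2 := norm_integral_le_of_norm_le_const (μ := μ)
        (f := fun x => (φ m1 x - c) * (φ m2 x - c) * (φ m3 x - c) * (φ m4 x - c)) (C := b ^ 4)
        (ae_of_all _ fun x => by
          rw [Real.norm_eq_abs, abs_mul, abs_mul, abs_mul]
          have e : b ^ 4 = b * b * b * b := by ring
          rw [e]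
          have n1 := abs_nonneg (φ m1 x - c)
          have n2 := abs_nonneg (φ m2 x - c)
          have n3 := abs_nonneg (φ m3 x - c)
          have n4 := abs_nonneg (φ m4 x - c)
          have k1 := mul_le_mul (hψ m1 x) (hψ m2 x) n2 hb0
          have k2 := mul_le_mul k1 (hψ m3 x) n3 (mul_nonneg hb0 hb0)
          exact mul_le_mul k2 (hψ m4 x) n4 (mul_nonneg (mul_nonneg hb0 hb0) hb0))
      simpa using h2
    have h3 : dk κ D = 1 := by unfold dk; rw [if_pos hD1.symm]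
    rw [h3]
    calc |∫ x, (φ m1 x - c) * (φ m2 x - c) * (φ m3 x - c) * (φ m4 x - c) ∂μ| ≤ b ^ 4 := h1
      _ ≤ K * 1 := by rw [mul_one]; exact hKb
      _ ≤ _ := mul_le_mul_of_nonneg_left (by linarith) hK0.le
  · -- D > 0
    have hg : 0 < D / 3 := by linarith
    have hgk : C * (D / 3) ^ (-κ) * (1 + 4 * |c| + 4 * c ^ 2) = C₁ * dk κ D := by
      unfold dk
      rw [if_neg hDpos.ne', Real.div_rpow hDpos.le (by norm_num), Real.rpow_neg (by norm_num : (0:ℝ) ≤ 3),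
        div_inv_eq_mul, hC₁]
      ring
    have hmain : C * (D / 3) ^ (-κ) * (1 + 4 * |c| + 4 * c ^ 2) ≤ K * dk κ D := by
      rw [hgk]
      exact mul_le_mul_of_nonneg_right hKC q0
    -- comparison of the products of pairs
    have hpp : ∀ p q u v : V r, |(∫ x, (φ p x - c) * (φ q x - c) ∂μ) *
        ∫ x, (φ u x - c) * (φ v x - c) ∂μ| ≤ K * (cor κ (p - q) * cor κ (u - v)) := by
      intro p q u v
      rw [abs_mul]
      calc _ ≤ (K₂ * cor κ (p - q)) * (K₂ * cor κ (u - v)) :=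
            mul_le_mul (hpair p q) (hpair u v) (abs_nonneg _) (mul_nonneg hK₂0 (hcor0 _))
        _ = K₂ ^ 2 * (cor κ (p - q) * cor κ (u - v)) := by ring
        _ ≤ K * (cor κ (p - q) * cor κ (u - v)) :=
            mul_le_mul_of_nonneg_right hKK (mul_nonneg (hcor0 _) (hcor0 _))
    have h22 : ∀ p q u v : V r, D / 3 ≤ ‖p - u‖ → D / 3 ≤ ‖p - v‖ → D / 3 ≤ ‖q - u‖ →
        D / 3 ≤ ‖q - v‖ →
        |∫ x, (φ p x - c) * (φ q x - c) * (φ u x - c) * (φ v x - c) ∂μ| ≤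
          K * dk κ D + K * (cor κ (p - q) * cor κ (u - v)) := by
      intro p q u v h1 h2 h3 h4
      have h5 := P22 p q u v _ hg h1 h2 h3 h4
      have h6 := hpp p q u v
      rw [abs_le] at h5 h6 ⊢
      constructor <;> linarith [h5.1, h5.2, h6.1, h6.2]
    have h13 : ∀ p q u v : V r, D / 3 ≤ ‖p - q‖ → D / 3 ≤ ‖p - u‖ → D / 3 ≤ ‖p - v‖ →
        |∫ x, (φ p x - c) * (φ q x - c) * (φ u x - c) * (φ v x - c) ∂μ| ≤ K * dk κ D := by
      intro p q u v h1 h2 h3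
      exact (P13 p q u v _ hg h1 h2 h3).trans hmain
    have hrev : ∀ p q : V r, ‖p - m1‖ - ‖q - m1‖ ≤ ‖p - q‖ := by
      intro p q
      have h1 := norm_sub_norm_le (p - m1) (q - m1)
      rwa [sub_sub_sub_cancel_right] at h1
    have hfin : ∀ X : ℝ, (X ≤ K * dk κ D ∨ X ≤ K * dk κ D + K * (cor κ (m1 - m2) * cor κ (m3 - m4)) ∨
        X ≤ K * dk κ D + K * (cor κ (m1 - m3) * cor κ (m2 - m4)) ∨
        X ≤ K * dk κ D + K * (cor κ (m1 - m4) * cor κ (m2 - m3))) →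
        X ≤ K * (dk κ D + cor κ (m1 - m2) * cor κ (m3 - m4) + cor κ (m1 - m3) * cor κ (m2 - m4) +
          cor κ (m1 - m4) * cor κ (m2 - m3)) := by
      intro X hX
      have k2 := mul_nonneg hK0.le q12
      have k3 := mul_nonneg hK0.le q13
      have k4 := mul_nonneg hK0.le q14
      rcases hX with h | h | h | h <;> linarith
    apply hfin
    have hmax : ‖m2 - m1‖ = 3 * (D / 3) ∨ ‖m3 - m1‖ = 3 * (D / 3) ∨ ‖m4 - m1‖ = 3 * (D / 3) := by
      have e : 3 * (D / 3) = D := by ring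
      rw [e]
      rcases max_choice ‖m2 - m1‖ (max ‖m3 - m1‖ ‖m4 - m1‖) with h | h
      · left; rw [hD, h]
      · rcases max_choice ‖m3 - m1‖ ‖m4 - m1‖ with h' | h'
        · right; left; rw [hD, h, h']
        · right; right; rw [hD, h, h']
    have e21 : ‖m1 - m2‖ = ‖m2 - m1‖ := norm_sub_rev _ _
    have e31 : ‖m1 - m3‖ = ‖m3 - m1‖ := norm_sub_rev _ _
    have e41 : ‖m1 - m4‖ = ‖m4 - m1‖ := norm_sub_rev _ _
    have r23 := hrev m2 m3
    have r32 := hrev m3 m2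
    have r24 := hrev m2 m4
    have r42 := hrev m4 m2
    have r34 := hrev m3 m4
    have r43 := hrev m4 m3
    rw [norm_sub_rev m3 m2] at r32
    rw [norm_sub_rev m4 m2] at r42
    rw [norm_sub_rev m4 m3] at r43
    have e32 : ‖m3 - m2‖ = ‖m2 - m3‖ := norm_sub_rev _ _
    have e42 : ‖m4 - m2‖ = ‖m2 - m4‖ := norm_sub_rev _ _
    have e43 : ‖m4 - m3‖ = ‖m3 - m4‖ := norm_sub_rev _ _
    rcases f_gap t2 t3 t4 hmax (by linarith) (by linarith) (by linarith) with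
      h | h | h | h | h | h | h
    · left
      exact h13 m1 m2 m3 m4 (by linarith) (by linarith) (by linarith)
    · right; left
      exact h22 m1 m2 m3 m4 (by linarith) (by linarith) (by linarith) (by linarith)
    · right; right; left
      have e : ∫ x, (φ m1 x - c) * (φ m2 x - c) * (φ m3 x - c) * (φ m4 x - c) ∂μ =
          ∫ x, (φ m1 x - c) * (φ m3 x - c) * (φ m2 x - c) * (φ m4 x - c) ∂μ := by
        congr 1; funext x; ring
      rw [e]
      exact h22 m1 m3 m2 m4 (by linarith) (by linarith) (by linarith) (by linarith)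
    · right; right; right
      have e : ∫ x, (φ m1 x - c) * (φ m2 x - c) * (φ m3 x - c) * (φ m4 x - c) ∂μ =
          ∫ x, (φ m1 x - c) * (φ m4 x - c) * (φ m2 x - c) * (φ m3 x - c) ∂μ := by
        congr 1; funext x; ring
      rw [e]
      exact h22 m1 m4 m2 m3 (by linarith) (by linarith) (by linarith) (by linarith)
    · left
      have e : ∫ x, (φ m1 x - c) * (φ m2 x - c) * (φ m3 x - c) * (φ m4 x - c) ∂μ =
          ∫ x, (φ m4 x - c) * (φ m1 x - c) * (φ m2 x - c) * (φ m3 x - c) ∂μ := by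
        congr 1; funext x; ring
      rw [e]
      exact h13 m4 m1 m2 m3 (by linarith) (by linarith) (by linarith)
    · left
      have e : ∫ x, (φ m1 x - c) * (φ m2 x - c) * (φ m3 x - c) * (φ m4 x - c) ∂μ =
          ∫ x, (φ m3 x - c) * (φ m1 x - c) * (φ m2 x - c) * (φ m4 x - c) ∂μ := by
        congr 1; funext x; ring
      rw [e]
      exact h13 m3 m1 m2 m4 (by linarith) (by linarith) (by linarith)
    · left
      have e : ∫ x, (φ m1 x - c) * (φ m2 x - c) * (φ m3 x - c) * (φ m4 x - c) ∂μ =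
          ∫ x, (φ m2 x - c) * (φ m1 x - c) * (φ m3 x - c) * (φ m4 x - c) ∂μ := by
        congr 1; funext x; ring
      rw [e]
      exact h13 m2 m1 m3 m4 (by linarith) (by linarith) (by linarith)

end PoolMX
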