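import Pool.Agent.Work.MP_67388f_an.MX.Cvx

/-!
MODULE Hom (size S-M). An ergodic measure carried by one orbit of a group `Z` commuting with the `a m` is homogeneous: it is
carried by one orbit of `{c ∈ Z | c μ = μ}`. Uses `exists_erg_samples` (Cvx) and `map_eq_iff_test` (TV/Fun.lean, in the
imports).

Let `E` be the conull set of `exists_erg_samples` and `O = {z | ∃ c ∈ Z, z = c • x₀}`, conull. Choose `y ∈ E ∩ O`
(conull in a probability space, so not empty). For `z ∈ E ∩ O`: `z = c • y` with `c ∈ Z` (`Z` a subgroup). For `θ` with compact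
support, `θ' = θ ∘ (c • ·)` has compact support (`HasCompactSupport.comp_homeomorph`, `Homeomorph.smul`), and
`lavg a l θ (c • y) = lavg a l θ' y` because `a m • c • y = c • a m • y`. As `z, y ∈ E` both sides converge: `∫ θ = ∫ θ (c • ·)`. So
`μ.map (c • ·) = μ` by `map_eq_iff_test`, i.e. `E ∩ O` is contained in the set of the claim.
-/

set_option autoImplicit false

namespace PoolMX

open MeasureTheory Filter Topology

theorem homog_of_orbit {G X : Type*} [Group G] [TopologicalSpace G] [IsTopologicalGroup G]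
    [TopologicalSpace X]
    [LocallyCompactSpace X] [T2Space X] [SecondCountableTopology X] [MeasurableSpace X]
    [BorelSpace X] [MulAction G X] [ContinuousSMul G X] {r : ℕ} (a : V r → G)
    (ha : ∀ m m', a (m + m') = a m * a m') (μ : Measure X) [IsProbabilityMeasure μ]
    (hμ : ∀ m, μ.map (fun x => a m • x) = μ)
    (herg : ∀ t : Set X, MeasurableSet t → (∀ m, (fun z => a m • z) ⁻¹' t =ᵐ[μ] t) →
      μ t = 0 ∨ μ tᶜ = 0)
    (Z : Subgroup G) (hZ : ∀ c ∈ Z, ∀ m, a m * c = c * a m) (x₀ : X)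
    (h₀ : μ {y | ∃ c ∈ Z, y = c • x₀}ᶜ = 0) :
    ∃ y : X, μ {z | ∃ c ∈ Z, μ.map (fun x => c • x) = μ ∧ z = c • y}ᶜ = 0 := by
  obtain ⟨F, hF⟩ := exists_erg_samples a ha μ hμ herg
  have hO : ∀ᵐ x ∂μ, ∃ c ∈ Z, x = c • x₀ := h₀
  have hboth := hF.and hO
  obtain ⟨y, hyF, cy, hcy, hy⟩ := hboth.exists
  refine ⟨y, ?_⟩
  have key : ∀ᵐ z ∂μ, ∃ c ∈ Z, μ.map (fun x => c • x) = μ ∧ z = c • y := by
    filter_upwards [hboth] with z hz
    obtain ⟨hzF, cz, hcz, hz⟩ := hz
    have hzy : z = (cz * cy⁻¹) • y := by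
      rw [hz, hy, mul_smul, inv_smul_smul]
    have hc : cz * cy⁻¹ ∈ Z := Z.mul_mem hcz (Z.inv_mem hcy)
    refine ⟨cz * cy⁻¹, hc, ?_, hzy⟩
    rw [Pool.Agent.Work.MP_67388f_an.map_eq_iff_test]
    intro θ hθ
    set c := cz * cy⁻¹ with hcdef
    have hθ' : HasCompactSupport (θ.comp ⟨fun x : X => c • x, continuous_const_smul c⟩) :=
      hθ.comp_homeomorph (Homeomorph.smul c)
    have h1 := hyF _ hθ'
    have h2 := hzF θ hθ
    have h3 : ∀ l : List (V r), lavg a l θ z =
        lavg a l (θ.comp ⟨fun x : X => c • x, continuous_const_smul c⟩) y := by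
      intro l
      have h4 : (fun m : V r => θ (a m • z)) = fun m : V r =>
          (θ.comp ⟨fun x : X => c • x, continuous_const_smul c⟩) (a m • y) := by
        funext m
        change θ (a m • z) = θ (c • a m • y)
        rw [hzy, smul_smul, smul_smul, hZ c hc m]
      unfold lavg
      rw [h4]
    simp only [h3] at h2
    exact tendsto_nhds_unique h1 h2
  exact key

end PoolMX
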