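import Pool.Agent.Work.MP_67388f_an.MX.Four

/-!
MODULE VarFour (size M-L). Fourth moment and Markov's inequality for `r = 2`. Uses `four_bound` (Four), `pot_two` (Pot),
`strip_card_le`, `le_strip_card` (Cnt). Pure bookkeeping.

Replace `κ` by `κ' = min κ 2` in the hypothesis first (the hypothesis with `g^(-κ)` for `g ≥ 1` gives it with
`g^(-κ')`; for `g < 1`: `g^(-κ') ≥ 1` and the left side is at most `2 B'^4`, `B' = max B 1`, so enlarge `C`). So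
assume `1 < κ ≤ 2`. Let `F = strip w N η R`, `n = #F`, `S = ∑_{m ∈ F} (φ m - c)`. Then
`∫ (S/n)^4 = n^(-4) ∑_{m1,m2,m3,m4 ∈ F} ∫ ψ m1 ψ m2 ψ m3 ψ m4`. By `four_bound`:
* the three pairing sums are each `≤ (∑_{m,m' ∈ F} cor κ (m-m'))² ≤ (n C)²` (for fixed `m`, `m' ↦ m - m'` is
  injective from `F` into `strip w 1 (2η) (2R)`; pot_two);
* `∑ dk κ (max ...)`: for fixed `m1` substitute `u = m2-m1, v = m3-m1, z = m4-m1 ∈ G = strip w 1 (2η) (2R)`.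
  `dk κ (max ‖u‖ ‖v‖ ‖z‖) ≤` sum of the three terms `cor κ (u) 1[‖v‖ ≤ ‖u‖, ‖z‖ ≤ ‖u‖]` and permutations (`cor κ u = dk κ ‖u‖`),
  and the number of `v ∈ G` with `‖v‖ ≤ ‖u‖` is at most `C (‖u‖+1)` (strip_card_le with `R = ‖u‖` as a natural
  number, `r - 1 = 1`). So the sum is `≤ 3 ∑_{u ∈ G} cor κ u C² (‖u‖+1)² ≤ C' ∑_{u ∈ G} (‖u‖+1)^(2-κ)
  ≤ C' #G (2R+1)^(2-κ) ≤ C'' (R+1)^(3-κ)`. Summing over `m1`: `n C'' (R+1)^(3-κ)`.
With `n ≥ c₁ (R+1)`: `∫ (S/n)^4 ≤ C''' ((R+1)^(-κ) + (R+1)^(-2))`. Markov: `μ.real {δ < |S/n|} ≤ δ^(-4) ∫ (S/n)^4`, summable.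
(`(∑ φ m)/n - c = S/n` since `n > 0`; `0 ∈ F`.)
-/

set_option autoImplicit false

namespace PoolMX

open MeasureTheory

section VarFourAux

variable {Ω : Type*} [MeasurableSpace Ω] {μ : Measure Ω} [IsProbabilityMeasure μ]

private lemma v4_markov {Y : Ω → ℝ} (hY : Measurable Y) {B : ℝ} (hB : ∀ x, |Y x| ≤ B) (k : ℕ)
    (hk : Even k) {δ K : ℝ} (hδ : 0 < δ) (hK : ∫ x, Y x ^ k ∂μ ≤ K) :
    μ.real {x | δ < |Y x|} ≤ K / δ ^ k := by
  have hint : Integrable (fun x => Y x ^ k) μ :=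
    Integrable.of_bound (hY.pow_const k).aestronglyMeasurable (B ^ k)
      (ae_of_all _ fun x => by
        rw [Real.norm_eq_abs, abs_pow]
        exact pow_le_pow_left₀ (abs_nonneg _) (hB x) k)
  have h := mul_meas_ge_le_integral_of_nonneg (μ := μ) (f := fun x => Y x ^ k)
    (ae_of_all _ fun x => hk.pow_nonneg _) hint (δ ^ k)
  have hsub : {x | δ < |Y x|} ⊆ {x | δ ^ k ≤ Y x ^ k} := by
    intro x hx
    have h1 : δ ^ k ≤ |Y x| ^ k := pow_le_pow_left₀ hδ.le (le_of_lt hx) k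
    rwa [hk.pow_abs] at h1
  have h2 : μ.real {x | δ < |Y x|} ≤ μ.real {x | δ ^ k ≤ Y x ^ k} := measureReal_mono hsub
  rw [le_div_iff₀ (pow_pos hδ k), mul_comm]
  exact (mul_le_mul_of_nonneg_left h2 (pow_pos hδ k).le).trans (h.trans hK)

private lemma v4_moment {ι : Type*} (F : Finset ι) {ψ : ι → Ω → ℝ} (hm : ∀ m, Measurable (ψ m))
    {b : ℝ} (hb : ∀ m x, |ψ m x| ≤ b) (hb0 : 0 ≤ b) :
    ∫ x, (∑ m ∈ F, ψ m x) ^ 4 ∂μ = ∑ m1 ∈ F, ∑ m2 ∈ F, ∑ m3 ∈ F, ∑ m4 ∈ F,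
      ∫ x, ψ m1 x * ψ m2 x * ψ m3 x * ψ m4 x ∂μ := by
  have hint : ∀ m1 m2 m3 m4, Integrable (fun x => ψ m1 x * ψ m2 x * ψ m3 x * ψ m4 x) μ :=
    fun m1 m2 m3 m4 =>
    Integrable.of_bound ((((hm m1).mul (hm m2)).mul (hm m3)).mul (hm m4)).aestronglyMeasurable
      (b * b * b * b)
      (ae_of_all _ fun x => by
        rw [Real.norm_eq_abs, abs_mul, abs_mul, abs_mul]
        have k1 := mul_le_mul (hb m1 x) (hb m2 x) (abs_nonneg _) hb0
        have k2 := mul_le_mul k1 (hb m3 x) (abs_nonneg _) (mul_nonneg hb0 hb0)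
        exact mul_le_mul k2 (hb m4 x) (abs_nonneg _) (mul_nonneg (mul_nonneg hb0 hb0) hb0))
  have e : (fun x => (∑ m ∈ F, ψ m x) ^ 4) = fun x => ∑ m1 ∈ F, ∑ m2 ∈ F, ∑ m3 ∈ F, ∑ m4 ∈ F,
      ψ m1 x * ψ m2 x * ψ m3 x * ψ m4 x := by
    funext x
    simp only [← Finset.mul_sum, ← Finset.sum_mul]
    ring
  rw [e, integral_finsetSum F fun m1 _ => integrable_finsetSum F fun m2 _ =>
    integrable_finsetSum F fun m3 _ => integrable_finsetSum F fun m4 _ => hint m1 m2 m3 m4]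
  refine Finset.sum_congr rfl fun m1 _ => ?_
  rw [integral_finsetSum F fun m2 _ =>
    integrable_finsetSum F fun m3 _ => integrable_finsetSum F fun m4 _ => hint m1 m2 m3 m4]
  refine Finset.sum_congr rfl fun m2 _ => ?_
  rw [integral_finsetSum F fun m3 _ => integrable_finsetSum F fun m4 _ => hint m1 m2 m3 m4]
  refine Finset.sum_congr rfl fun m3 _ => ?_
  exact integral_finsetSum F fun m4 _ => hint m1 m2 m3 m4

end VarFourAux

private lemma v4_mem {r : ℕ} {w : V r →+ ℝ} {N : ℕ} {η : ℝ} {R : ℕ} {m m' : V r}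
    (hm : m ∈ strip w N η R) (hm' : m' ∈ strip w N η R) :
    m - m' ∈ strip w 1 (2 * η) (2 * R) := by
  obtain ⟨h1, -, h3⟩ := mem_strip.1 hm
  obtain ⟨h1', -, h3'⟩ := mem_strip.1 hm'
  refine mem_strip.2 ⟨fun i => ?_, fun i => ?_, ?_⟩
  · have h4 := abs_sub (m i) (m' i)
    have h5 := h1 i
    have h6 := h1' i
    rw [Pi.sub_apply]
    push_cast
    linarith
  · rw [Nat.cast_one]
    exact one_dvd _
  · rw [map_sub]
    have h4 := abs_sub (w m) (w m')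
    linarith

private lemma v4_diff {r : ℕ} {w : V r →+ ℝ} {N : ℕ} {η : ℝ} {R : ℕ} {f : V r → ℝ}
    (hf : ∀ u, 0 ≤ f u) {m : V r} (hm : m ∈ strip w N η R) :
    ∑ m' ∈ strip w N η R, f (m - m') ≤ ∑ u ∈ strip w 1 (2 * η) (2 * R), f u := by
  classical
  have hinj : ∀ a ∈ strip w N η R, ∀ b ∈ strip w N η R, m - a = m - b → a = b :=
    fun a _ b _ h => sub_right_injective h
  rw [← Finset.sum_image (f := f) (g := fun m' => m - m') hinj]
  refine Finset.sum_le_sum_of_subset_of_nonneg ?_ fun u _ _ => hf u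
  intro u hu
  obtain ⟨m', hm', rfl⟩ := Finset.mem_image.1 hu
  exact v4_mem hm hm'

private lemma v4_diff' {r : ℕ} {w : V r →+ ℝ} {N : ℕ} {η : ℝ} {R : ℕ} {f : V r → ℝ}
    (hf : ∀ u, 0 ≤ f u) {m : V r} (hm : m ∈ strip w N η R) :
    ∑ m' ∈ strip w N η R, f (m' - m) ≤ ∑ u ∈ strip w 1 (2 * η) (2 * R), f u := by
  classical
  have hinj : ∀ a ∈ strip w N η R, ∀ b ∈ strip w N η R, a - m = b - m → a = b :=
    fun a _ b _ h => sub_left_injective h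
  rw [← Finset.sum_image (f := f) (g := fun m' => m' - m) hinj]
  refine Finset.sum_le_sum_of_subset_of_nonneg ?_ fun u _ _ => hf u
  intro u hu
  obtain ⟨m', hm', rfl⟩ := Finset.mem_image.1 hu
  exact v4_mem hm' hm

private lemma v4_norm {r : ℕ} {m : V r} (hm : m ≠ 0) : 1 ≤ ‖m‖ := by
  by_contra hlt
  push Not at hlt
  apply hm
  funext i
  have h1 : ‖m i‖ < 1 := (norm_le_pi_norm m i).trans_lt hlt
  rw [Int.norm_eq_abs] at h1
  have h2 : |m i| < 1 := by exact_mod_cast h1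
  rw [Int.abs_lt_one_iff] at h2
  exact h2

private lemma v4_cor0 (κ : ℝ) {r : ℕ} (m : V r) : 0 ≤ cor κ m := by
  unfold cor
  split_ifs
  · exact zero_le_one
  · exact Real.rpow_nonneg (norm_nonneg _) _

private lemma v4_cor_mono {κ κ' : ℝ} (h : κ' ≤ κ) {r : ℕ} (m : V r) : cor κ m ≤ cor κ' m := by
  unfold cor
  split_ifs with h0
  · exact le_rfl
  · exact Real.rpow_le_rpow_of_exponent_le (v4_norm h0) (by linarith)

private lemma v4_dk {κ : ℝ} {r : ℕ} (u : V r) : dk κ ‖u‖ = cor κ u := by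
  unfold dk cor
  simp only [norm_eq_zero]

/-- indicator of `‖v‖ ≤ ‖u‖` -/
private noncomputable def v4_ind {r : ℕ} (u v : V r) : ℝ := if ‖v‖ ≤ ‖u‖ then 1 else 0

private lemma v4_ind0 {r : ℕ} (u v : V r) : 0 ≤ v4_ind u v := by
  unfold v4_ind
  split_ifs
  · exact zero_le_one
  · exact le_rfl

private lemma v4_ind1 {r : ℕ} {u v : V r} (h : ‖v‖ ≤ ‖u‖) : v4_ind u v = 1 := if_pos h

private lemma v4_max (κ : ℝ) {r : ℕ} (u v z : V r) : dk κ (max ‖u‖ (max ‖v‖ ‖z‖)) ≤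
    cor κ u * v4_ind u v * v4_ind u z + cor κ v * v4_ind v u * v4_ind v z +
      cor κ z * v4_ind z u * v4_ind z v := by
  have hu : 0 ≤ cor κ u * v4_ind u v * v4_ind u z :=
    mul_nonneg (mul_nonneg (v4_cor0 κ u) (v4_ind0 _ _)) (v4_ind0 _ _)
  have hv : 0 ≤ cor κ v * v4_ind v u * v4_ind v z :=
    mul_nonneg (mul_nonneg (v4_cor0 κ v) (v4_ind0 _ _)) (v4_ind0 _ _)
  have hz : 0 ≤ cor κ z * v4_ind z u * v4_ind z v :=
    mul_nonneg (mul_nonneg (v4_cor0 κ z) (v4_ind0 _ _)) (v4_ind0 _ _)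
  rcases le_total (max ‖v‖ ‖z‖) ‖u‖ with h | h
  · rw [max_eq_left h, v4_dk]
    have h1 := v4_ind1 ((le_max_left _ _).trans h)
    have h2 := v4_ind1 ((le_max_right _ _).trans h)
    rw [h1, h2, mul_one, mul_one] at *
    linarith
  · rw [max_eq_right h]
    rcases le_total ‖z‖ ‖v‖ with h' | h'
    · rw [max_eq_left h'] at h ⊢
      rw [v4_dk]
      have h1 := v4_ind1 h
      have h2 := v4_ind1 h'
      rw [h1, h2, mul_one, mul_one] at *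
      linarith
    · rw [max_eq_right h'] at h ⊢
      rw [v4_dk]
      have h1 := v4_ind1 h
      have h2 := v4_ind1 h'
      rw [h1, h2, mul_one, mul_one] at *
      linarith

/-- the sum of `dk` over the triples of `G` -/
private lemma v4_triple (κ : ℝ) {r : ℕ} (G : Finset (V r)) :
    ∑ u ∈ G, ∑ v ∈ G, ∑ z ∈ G, dk κ (max ‖u‖ (max ‖v‖ ‖z‖)) ≤
      3 * ∑ u ∈ G, cor κ u * (∑ v ∈ G, v4_ind u v) ^ 2 := by
  have ha : ∑ u ∈ G, ∑ v ∈ G, ∑ z ∈ G, cor κ u * v4_ind u v * v4_ind u z =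
      ∑ u ∈ G, cor κ u * (∑ v ∈ G, v4_ind u v) ^ 2 := by
    refine Finset.sum_congr rfl fun u _ => ?_
    simp_rw [← Finset.mul_sum, ← Finset.sum_mul, ← Finset.mul_sum]
    ring
  have hb : ∑ u ∈ G, ∑ v ∈ G, ∑ z ∈ G, cor κ v * v4_ind v u * v4_ind v z =
      ∑ u ∈ G, cor κ u * (∑ v ∈ G, v4_ind u v) ^ 2 := by
    rw [Finset.sum_comm]
    refine Finset.sum_congr rfl fun u _ => ?_
    simp_rw [← Finset.mul_sum, ← Finset.sum_mul, ← Finset.mul_sum]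
    ring
  have hc : ∑ u ∈ G, ∑ v ∈ G, ∑ z ∈ G, cor κ z * v4_ind z u * v4_ind z v =
      ∑ u ∈ G, cor κ u * (∑ v ∈ G, v4_ind u v) ^ 2 := by
    have e : ∀ u ∈ G, ∑ v ∈ G, ∑ z ∈ G, cor κ z * v4_ind z u * v4_ind z v =
        ∑ z ∈ G, ∑ v ∈ G, cor κ z * v4_ind z u * v4_ind z v := fun u _ => Finset.sum_comm
    rw [Finset.sum_congr rfl e, Finset.sum_comm]
    refine Finset.sum_congr rfl fun u _ => ?_
    simp_rw [← Finset.mul_sum, ← Finset.sum_mul, ← Finset.mul_sum]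
    ring
  calc _ ≤ ∑ u ∈ G, ∑ v ∈ G, ∑ z ∈ G, (cor κ u * v4_ind u v * v4_ind u z +
        cor κ v * v4_ind v u * v4_ind v z + cor κ z * v4_ind z u * v4_ind z v) :=
        Finset.sum_le_sum fun u _ => Finset.sum_le_sum fun v _ => Finset.sum_le_sum fun z _ =>
          v4_max κ u v z
    _ = 3 * ∑ u ∈ G, cor κ u * (∑ v ∈ G, v4_ind u v) ^ 2 := by
        simp_rw [Finset.sum_add_distrib]
        rw [ha, hb, hc]
        ring

/-- the number of the `v` with `‖v‖ ≤ ‖u‖` -/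
private lemma v4_count {w : V 2 →+ ℝ} {η C : ℝ}
    (hC : ∀ R : ℕ, ((strip w 1 η R).card : ℝ) ≤ C * ((R : ℝ) + 1)) (hC0 : 0 ≤ C) (R : ℕ)
    (u : V 2) : ∑ v ∈ strip w 1 η R, v4_ind u v ≤ C * (‖u‖ + 1) := by
  classical
  unfold v4_ind
  rw [Finset.sum_boole]
  have hsub : (strip w 1 η R).filter (fun v => ‖v‖ ≤ ‖u‖) ⊆ strip w 1 η ⌊‖u‖⌋₊ := by
    intro v hv
    rw [Finset.mem_filter] at hv
    obtain ⟨h1, h2, h3⟩ := mem_strip.1 hv.1
    refine mem_strip.2 ⟨fun i => ?_, h2, h3⟩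
    have h4 : ‖v i‖ ≤ ‖u‖ := (norm_le_pi_norm v i).trans hv.2
    rw [Int.norm_eq_abs] at h4
    have h5 : ((v i).natAbs : ℝ) ≤ ‖u‖ := by
      rw [Nat.cast_natAbs, Int.cast_abs]
      exact h4
    have h6 : (v i).natAbs ≤ ⌊‖u‖⌋₊ := Nat.le_floor h5
    rw [Int.abs_eq_natAbs]
    exact_mod_cast h6
  have h1 : (((strip w 1 η R).filter (fun v => ‖v‖ ≤ ‖u‖)).card : ℝ) ≤
      ((strip w 1 η ⌊‖u‖⌋₊).card : ℝ) := by
    exact_mod_cast Finset.card_le_card hsub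
  refine h1.trans ((hC _).trans (mul_le_mul_of_nonneg_left ?_ hC0))
  have := Nat.floor_le (norm_nonneg u)
  linarith

private lemma v4_cor_le {κ : ℝ} (hκ : 0 ≤ κ) {r : ℕ} (u : V r) :
    cor κ u ≤ 2 ^ κ * (‖u‖ + 1) ^ (-κ) := by
  unfold cor
  split_ifs with h0
  · rw [h0, norm_zero, zero_add, Real.one_rpow, mul_one]
    exact Real.one_le_rpow (by norm_num) hκ
  · have h1 := v4_norm h0
    have h2 : 0 < ‖u‖ := by linarith
    have h3 : (2 * ‖u‖) ^ (-κ) ≤ (‖u‖ + 1) ^ (-κ) :=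
      Real.rpow_le_rpow_of_nonpos (by linarith) (by linarith) (by linarith)
    have h4 : ‖u‖ ^ (-κ) = 2 ^ κ * (2 * ‖u‖) ^ (-κ) := by
      rw [Real.mul_rpow (by norm_num) h2.le, ← mul_assoc, ← Real.rpow_add (by norm_num),
        add_neg_cancel, Real.rpow_zero, one_mul]
    rw [h4]
    exact mul_le_mul_of_nonneg_left h3 (Real.rpow_nonneg (by norm_num) _)

/-- the sum of `dk` over the triples of a strip -/
private lemma v4_sum {w : V 2 →+ ℝ} {η C κ : ℝ} (hκ0 : 0 ≤ κ) (hκ : κ ≤ 2)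
    (hC : ∀ R : ℕ, ((strip w 1 η R).card : ℝ) ≤ C * ((R : ℝ) + 1)) (hC0 : 0 ≤ C) (R : ℕ) :
    ∑ u ∈ strip w 1 η R, ∑ v ∈ strip w 1 η R, ∑ z ∈ strip w 1 η R,
      dk κ (max ‖u‖ (max ‖v‖ ‖z‖)) ≤ 3 * (C ^ 3 * 2 ^ κ * ((R : ℝ) + 1) ^ (3 - κ)) := by
  refine (v4_triple κ _).trans (mul_le_mul_of_nonneg_left ?_ (by norm_num))
  have hR : (0 : ℝ) < (R : ℝ) + 1 := by positivity
  have h1 : ∀ u ∈ strip w 1 η R, cor κ u * (∑ v ∈ strip w 1 η R, v4_ind u v) ^ 2 ≤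
      C ^ 2 * 2 ^ κ * ((R : ℝ) + 1) ^ (2 - κ) := by
    intro u hu
    have hn : ‖u‖ ≤ (R : ℝ) := by
      refine (pi_norm_le_iff_of_nonneg (Nat.cast_nonneg R)).2 fun i => ?_
      rw [Int.norm_eq_abs]
      exact_mod_cast (mem_strip.1 hu).1 i
    have hn0 : 0 < ‖u‖ + 1 := by positivity
    have hi0 : 0 ≤ ∑ v ∈ strip w 1 η R, v4_ind u v :=
      Finset.sum_nonneg fun v _ => v4_ind0 u v
    calc cor κ u * (∑ v ∈ strip w 1 η R, v4_ind u v) ^ 2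
        ≤ (2 ^ κ * (‖u‖ + 1) ^ (-κ)) * (C * (‖u‖ + 1)) ^ 2 :=
          mul_le_mul (v4_cor_le hκ0 u) (pow_le_pow_left₀ hi0 (v4_count hC hC0 R u) 2)
            (sq_nonneg _) (by positivity)
      _ = C ^ 2 * 2 ^ κ * (‖u‖ + 1) ^ (2 - κ) := by
          have e : (‖u‖ + 1) ^ (2 - κ) = (‖u‖ + 1) ^ (-κ) * (‖u‖ + 1) ^ 2 := by
            rw [← Real.rpow_two, ← Real.rpow_add hn0]
            congr 1
            ring
          rw [e]
          ring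
      _ ≤ C ^ 2 * 2 ^ κ * ((R : ℝ) + 1) ^ (2 - κ) := by
          refine mul_le_mul_of_nonneg_left ?_ (by positivity)
          exact Real.rpow_le_rpow hn0.le (by linarith) (by linarith)
  calc _ ≤ ∑ u ∈ strip w 1 η R, C ^ 2 * 2 ^ κ * ((R : ℝ) + 1) ^ (2 - κ) := Finset.sum_le_sum h1
    _ = ((strip w 1 η R).card : ℝ) * (C ^ 2 * 2 ^ κ * ((R : ℝ) + 1) ^ (2 - κ)) := by
        rw [Finset.sum_const, nsmul_eq_mul]
    _ ≤ (C * ((R : ℝ) + 1)) * (C ^ 2 * 2 ^ κ * ((R : ℝ) + 1) ^ (2 - κ)) :=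
        mul_le_mul_of_nonneg_right (hC R) (by positivity)
    _ = C ^ 3 * 2 ^ κ * ((R : ℝ) + 1) ^ (3 - κ) := by
        have e : ((R : ℝ) + 1) ^ (3 - κ) = ((R : ℝ) + 1) * ((R : ℝ) + 1) ^ (2 - κ) := by
          rw [← Real.rpow_one_add' hR.le (by linarith)]
          congr 1
          ring
        rw [e]
        ring

theorem var_four {Ω : Type*} [MeasurableSpace Ω] (μ : Measure Ω) [IsProbabilityMeasure μ]
    (w : V 2 →+ ℝ) (hw : w ≠ 0) (N : ℕ) (hN : 0 < N) (η : ℝ) (hη : 0 < η) (κ : ℝ)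
    (hκ : 1 < κ) (φ : V 2 → Ω → ℝ) (hm : ∀ m, Measurable (φ m)) (B : ℝ)
    (hB : ∀ m x, |φ m x| ≤ B) (c C : ℝ) (hc : ∀ m, ∫ x, φ m x ∂μ = c)
    (hmix : ∀ (s t : List (V 2)) (g : ℝ), s.length + t.length ≤ 4 → 0 < g →
      (∀ m ∈ s, ∀ m' ∈ t, g ≤ ‖m - m'‖) →
      |∫ x, (s.map fun m => φ m x).prod * (t.map fun m => φ m x).prod ∂μ -
        (∫ x, (s.map fun m => φ m x).prod ∂μ) * ∫ x, (t.map fun m => φ m x).prod ∂μ| ≤
        C * g ^ (-κ))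
    (δ : ℝ) (hδ : 0 < δ) :
    Summable fun R : ℕ => μ.real {x | δ <
      |(∑ m ∈ strip w N η R, φ m x) / ((strip w N η R).card : ℝ) - c|} := by
  obtain ⟨K, hK0, -, hfour⟩ := four_bound μ κ (by linarith) φ hm B hB c C hc hmix
  set κ' : ℝ := min κ 2 with hκ'
  have hk1 : 1 < κ' := lt_min hκ (by norm_num)
  have hk2 : κ' ≤ 2 := min_le_right _ _
  have hkk : κ' ≤ κ := min_le_left _ _
  set b : ℝ := |B| + |c| with hb
  have hb0 : 0 ≤ b := by positivity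
  have hψ : ∀ m x, |φ m x - c| ≤ b := fun m x =>
    (abs_sub _ _).trans (add_le_add ((hB m x).trans (le_abs_self B)) le_rfl)
  have hψm : ∀ m, Measurable fun x => φ m x - c := fun m => (hm m).sub_const c
  have hfour' : ∀ m1 m2 m3 m4 : V 2,
      ∫ x, (φ m1 x - c) * (φ m2 x - c) * (φ m3 x - c) * (φ m4 x - c) ∂μ ≤
        K * (dk κ' (max ‖m2 - m1‖ (max ‖m3 - m1‖ ‖m4 - m1‖)) +
          cor κ' (m1 - m2) * cor κ' (m3 - m4) + cor κ' (m1 - m3) * cor κ' (m2 - m4) +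
          cor κ' (m1 - m4) * cor κ' (m2 - m3)) := by
    intro m1 m2 m3 m4
    refine (le_abs_self _).trans ((hfour m1 m2 m3 m4).trans
      (mul_le_mul_of_nonneg_left ?_ hK0.le))
    have hdk : ∀ u v z : V 2, dk κ (max ‖u‖ (max ‖v‖ ‖z‖)) ≤ dk κ' (max ‖u‖ (max ‖v‖ ‖z‖)) := by
      intro u v z
      rcases max_choice ‖u‖ (max ‖v‖ ‖z‖) with h | h
      · rw [h, v4_dk, v4_dk]
        exact v4_cor_mono hkk u
      · rw [h]
        rcases max_choice ‖v‖ ‖z‖ with h' | h'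
        · rw [h', v4_dk, v4_dk]
          exact v4_cor_mono hkk v
        · rw [h', v4_dk, v4_dk]
          exact v4_cor_mono hkk z
    have hcc : ∀ u v : V 2, cor κ u * cor κ v ≤ cor κ' u * cor κ' v := fun u v =>
      mul_le_mul (v4_cor_mono hkk u) (v4_cor_mono hkk v) (v4_cor0 _ _) (v4_cor0 _ _)
    have h1 := hdk (m2 - m1) (m3 - m1) (m4 - m1)
    have h2 := hcc (m1 - m2) (m3 - m4)
    have h3 := hcc (m1 - m3) (m2 - m4)
    have h4 := hcc (m1 - m4) (m2 - m3)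
    linarith
  obtain ⟨Cp, hCp, hpot⟩ := pot_two w hw (2 * η) (by linarith) κ' hk1
  obtain ⟨C₂, hC₂, hcard2'⟩ := strip_card_le w hw (2 * η) (by linarith)
  have hcard2 : ∀ R : ℕ, ((strip w 1 (2 * η) R).card : ℝ) ≤ C₂ * ((R : ℝ) + 1) := by
    intro R
    have h := hcard2' R
    simpa using h
  obtain ⟨c₁, hc₁, hcard'⟩ := le_strip_card (by norm_num : 1 ≤ 2) w N hN η hη
  have hcard : ∀ R : ℕ, c₁ * ((R : ℝ) + 1) ≤ ((strip w N η R).card : ℝ) := by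
    intro R
    have h := hcard' R
    simpa using h
  set M₁ : ℝ := 3 * (C₂ ^ 3 * 2 ^ κ' * 2 ^ (3 - κ')) / c₁ ^ 3 with hM₁
  set M₂ : ℝ := 3 * Cp ^ 2 / c₁ ^ 2 with hM₂
  set M : ℝ := K * (M₁ + M₂) / δ ^ 4 with hM
  have hM₁0 : 0 ≤ M₁ := by positivity
  have hM₂0 : 0 ≤ M₂ := by positivity
  have hM0 : 0 ≤ M := by positivity
  have hbound : ∀ R : ℕ, μ.real {x | δ <
      |(∑ m ∈ strip w N η R, φ m x) / ((strip w N η R).card : ℝ) - c|} ≤
      M * ((R : ℝ) + 1) ^ (-κ') := by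
    intro R
    set F := strip w N η R with hF
    set n : ℝ := (F.card : ℝ) with hn
    have hR1 : (0 : ℝ) < (R : ℝ) + 1 := by positivity
    have hn1 : c₁ * ((R : ℝ) + 1) ≤ n := hcard R
    have hn0 : 0 < n := (mul_pos hc₁ hR1).trans_le hn1
    have hS : ∀ x, (∑ m ∈ F, φ m x) / n - c = (∑ m ∈ F, (φ m x - c)) / n := by
      intro x
      rw [Finset.sum_sub_distrib, Finset.sum_const, nsmul_eq_mul]
      field_simp
      rw [hn]
      ring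
    have hYm : Measurable fun x => (∑ m ∈ F, (φ m x - c)) / n :=
      (Finset.measurable_fun_sum F fun m _ => hψm m).div_const n
    have hYb : ∀ x, |(∑ m ∈ F, (φ m x - c)) / n| ≤ n * b / n := by
      intro x
      rw [abs_div, abs_of_pos hn0]
      refine div_le_div_of_nonneg_right ?_ hn0.le
      refine (Finset.abs_sum_le_sum_abs _ _).trans ?_
      refine (Finset.sum_le_sum fun m _ => hψ m x).trans ?_
      rw [Finset.sum_const, nsmul_eq_mul]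
    set G := strip w 1 (2 * η) (2 * R) with hG
    set T : ℝ := 3 * (C₂ ^ 3 * 2 ^ κ' * 2 ^ (3 - κ')) * ((R : ℝ) + 1) ^ (3 - κ') with hT
    -- the sum over the maxima
    have hs1 : ∑ m1 ∈ F, ∑ m2 ∈ F, ∑ m3 ∈ F, ∑ m4 ∈ F,
        dk κ' (max ‖m2 - m1‖ (max ‖m3 - m1‖ ‖m4 - m1‖)) ≤ n * T := by
      have h1 : ∀ m1 ∈ F, ∑ m2 ∈ F, ∑ m3 ∈ F, ∑ m4 ∈ F,
          dk κ' (max ‖m2 - m1‖ (max ‖m3 - m1‖ ‖m4 - m1‖)) ≤ T := by
        intro m1 hm1
        have hdk0 : ∀ u v z : V 2, 0 ≤ dk κ' (max ‖u‖ (max ‖v‖ ‖z‖)) := by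
          intro u v z
          unfold dk
          split_ifs
          · exact zero_le_one
          · exact Real.rpow_nonneg ((norm_nonneg u).trans (le_max_left _ _)) _
        calc ∑ m2 ∈ F, ∑ m3 ∈ F, ∑ m4 ∈ F, dk κ' (max ‖m2 - m1‖ (max ‖m3 - m1‖ ‖m4 - m1‖))
            ≤ ∑ m2 ∈ F, ∑ m3 ∈ F, ∑ z ∈ G, dk κ' (max ‖m2 - m1‖ (max ‖m3 - m1‖ ‖z‖)) :=
              Finset.sum_le_sum fun m2 _ => Finset.sum_le_sum fun m3 _ =>
                v4_diff' (f := fun z => dk κ' (max ‖m2 - m1‖ (max ‖m3 - m1‖ ‖z‖)))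
                  (fun z => hdk0 _ _ _) hm1
          _ ≤ ∑ m2 ∈ F, ∑ v ∈ G, ∑ z ∈ G, dk κ' (max ‖m2 - m1‖ (max ‖v‖ ‖z‖)) :=
              Finset.sum_le_sum fun m2 _ =>
                v4_diff' (f := fun v => ∑ z ∈ G, dk κ' (max ‖m2 - m1‖ (max ‖v‖ ‖z‖)))
                  (fun v => Finset.sum_nonneg fun z _ => hdk0 _ _ _) hm1
          _ ≤ ∑ u ∈ G, ∑ v ∈ G, ∑ z ∈ G, dk κ' (max ‖u‖ (max ‖v‖ ‖z‖)) :=
              v4_diff' (f := fun u => ∑ v ∈ G, ∑ z ∈ G, dk κ' (max ‖u‖ (max ‖v‖ ‖z‖)))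
                (fun u => Finset.sum_nonneg fun v _ => Finset.sum_nonneg fun z _ => hdk0 _ _ _) hm1
          _ ≤ 3 * (C₂ ^ 3 * 2 ^ κ' * (((2 * R : ℕ) : ℝ) + 1) ^ (3 - κ')) :=
              v4_sum (by linarith) hk2 hcard2 hC₂.le (2 * R)
          _ ≤ 3 * (C₂ ^ 3 * 2 ^ κ' * (2 ^ (3 - κ') * ((R : ℝ) + 1) ^ (3 - κ'))) := by
              refine mul_le_mul_of_nonneg_left (mul_le_mul_of_nonneg_left ?_ (by positivity))
                (by norm_num)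
              rw [← Real.mul_rpow (by norm_num) hR1.le]
              refine Real.rpow_le_rpow (by positivity) ?_ (by linarith)
              push_cast
              linarith
          _ = T := by rw [hT]; ring
      refine (Finset.sum_le_sum h1).trans ?_
      rw [Finset.sum_const, nsmul_eq_mul]
    -- the pairings
    set P : ℝ := ∑ m ∈ F, ∑ m' ∈ F, cor κ' (m - m') with hP
    have hP0 : 0 ≤ P := Finset.sum_nonneg fun m _ => Finset.sum_nonneg fun m' _ => v4_cor0 _ _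
    have hPn : P ≤ n * Cp := by
      have h1 : ∀ m ∈ F, ∑ m' ∈ F, cor κ' (m - m') ≤ Cp := fun m hmF =>
        (v4_diff (v4_cor0 κ') hmF).trans (hpot (2 * R))
      refine (Finset.sum_le_sum h1).trans ?_
      rw [Finset.sum_const, nsmul_eq_mul]
    have hs2 : ∑ m1 ∈ F, ∑ m2 ∈ F, ∑ m3 ∈ F, ∑ m4 ∈ F,
        cor κ' (m1 - m2) * cor κ' (m3 - m4) = P ^ 2 := by
      simp_rw [← Finset.mul_sum, ← Finset.sum_mul]
      rw [sq]
    have hs3 : ∑ m1 ∈ F, ∑ m2 ∈ F, ∑ m3 ∈ F, ∑ m4 ∈ F,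
        cor κ' (m1 - m3) * cor κ' (m2 - m4) = P ^ 2 := by
      simp_rw [← Finset.mul_sum, ← Finset.sum_mul, ← Finset.mul_sum, ← Finset.sum_mul]
      rw [sq]
    have hs4 : ∑ m1 ∈ F, ∑ m2 ∈ F, ∑ m3 ∈ F, ∑ m4 ∈ F,
        cor κ' (m1 - m4) * cor κ' (m2 - m3) = P ^ 2 := by
      simp_rw [← Finset.sum_mul, ← Finset.mul_sum, ← Finset.sum_mul]
      rw [sq]
    have hall : ∑ m1 ∈ F, ∑ m2 ∈ F, ∑ m3 ∈ F, ∑ m4 ∈ F,
        ∫ x, (φ m1 x - c) * (φ m2 x - c) * (φ m3 x - c) * (φ m4 x - c) ∂μ ≤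
        K * (n * T + 3 * (n * Cp) ^ 2) := by
      calc _ ≤ ∑ m1 ∈ F, ∑ m2 ∈ F, ∑ m3 ∈ F, ∑ m4 ∈ F,
            K * (dk κ' (max ‖m2 - m1‖ (max ‖m3 - m1‖ ‖m4 - m1‖)) +
              cor κ' (m1 - m2) * cor κ' (m3 - m4) + cor κ' (m1 - m3) * cor κ' (m2 - m4) +
              cor κ' (m1 - m4) * cor κ' (m2 - m3)) :=
            Finset.sum_le_sum fun m1 _ => Finset.sum_le_sum fun m2 _ =>
              Finset.sum_le_sum fun m3 _ => Finset.sum_le_sum fun m4 _ => hfour' m1 m2 m3 m4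
        _ = K * ((∑ m1 ∈ F, ∑ m2 ∈ F, ∑ m3 ∈ F, ∑ m4 ∈ F,
              dk κ' (max ‖m2 - m1‖ (max ‖m3 - m1‖ ‖m4 - m1‖))) + P ^ 2 + P ^ 2 + P ^ 2) := by
            simp_rw [← Finset.mul_sum, Finset.sum_add_distrib]
            rw [hs2, hs3, hs4]
        _ ≤ K * (n * T + 3 * (n * Cp) ^ 2) := by
            refine mul_le_mul_of_nonneg_left ?_ hK0.le
            have h1 : P ^ 2 ≤ (n * Cp) ^ 2 := pow_le_pow_left₀ hP0 hPn 2
            linarith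
    have h1 : ∫ x, ((∑ m ∈ F, (φ m x - c)) / n) ^ 4 ∂μ ≤
        K * (M₁ + M₂) * ((R : ℝ) + 1) ^ (-κ') := by
      have e1 : (fun x => ((∑ m ∈ F, (φ m x - c)) / n) ^ 4) =
          fun x => (∑ m ∈ F, (φ m x - c)) ^ 4 / n ^ 4 := by
        funext x
        rw [div_pow]
      rw [e1, integral_div, v4_moment F hψm hψ hb0]
      have h2 : (∑ m1 ∈ F, ∑ m2 ∈ F, ∑ m3 ∈ F, ∑ m4 ∈ F,
          ∫ x, (φ m1 x - c) * (φ m2 x - c) * (φ m3 x - c) * (φ m4 x - c) ∂μ) / n ^ 4 ≤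
          K * (T / n ^ 3 + 3 * Cp ^ 2 / n ^ 2) := by
        refine (div_le_div_of_nonneg_right hall (by positivity)).trans (le_of_eq ?_)
        field_simp
      have hT0 : 0 ≤ T := by positivity
      have h3 : T / n ^ 3 ≤ M₁ * ((R : ℝ) + 1) ^ (-κ') := by
        have h4 : T / n ^ 3 ≤ T / (c₁ * ((R : ℝ) + 1)) ^ 3 :=
          div_le_div_of_nonneg_left hT0 (by positivity) (pow_le_pow_left₀ (by positivity) hn1 3)
        refine h4.trans (le_of_eq ?_)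
        have e2 : ((R : ℝ) + 1) ^ (3 - κ') = ((R : ℝ) + 1) ^ (-κ') * ((R : ℝ) + 1) ^ 3 := by
          have h5 : ((R : ℝ) + 1) ^ 3 = ((R : ℝ) + 1) ^ (3 : ℝ) := by
            rw [← Real.rpow_natCast]
            norm_num
          rw [h5, ← Real.rpow_add hR1]
          congr 1
          ring
        rw [hT, hM₁, e2]
        field_simp
      have h5 : 3 * Cp ^ 2 / n ^ 2 ≤ M₂ * ((R : ℝ) + 1) ^ (-κ') := by
        have h6 : 3 * Cp ^ 2 / n ^ 2 ≤ 3 * Cp ^ 2 / (c₁ * ((R : ℝ) + 1)) ^ 2 :=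
          div_le_div_of_nonneg_left (by positivity) (by positivity)
            (pow_le_pow_left₀ (by positivity) hn1 2)
        have h7 : 3 * Cp ^ 2 / (c₁ * ((R : ℝ) + 1)) ^ 2 = M₂ * (((R : ℝ) + 1) ^ 2)⁻¹ := by
          rw [hM₂]
          field_simp
        have h8 : (((R : ℝ) + 1) ^ 2)⁻¹ ≤ ((R : ℝ) + 1) ^ (-κ') := by
          have h9 : (((R : ℝ) + 1) ^ 2)⁻¹ = ((R : ℝ) + 1) ^ (-2 : ℝ) := by
            rw [Real.rpow_neg hR1.le, Real.rpow_two]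
          rw [h9]
          refine Real.rpow_le_rpow_of_exponent_le ?_ (by linarith)
          have : (0 : ℝ) ≤ (R : ℝ) := Nat.cast_nonneg R
          linarith
        rw [h7] at h6
        exact h6.trans (mul_le_mul_of_nonneg_left h8 hM₂0)
      refine h2.trans ?_
      calc K * (T / n ^ 3 + 3 * Cp ^ 2 / n ^ 2)
          ≤ K * (M₁ * ((R : ℝ) + 1) ^ (-κ') + M₂ * ((R : ℝ) + 1) ^ (-κ')) :=
            mul_le_mul_of_nonneg_left (add_le_add h3 h5) hK0.le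
        _ = K * (M₁ + M₂) * ((R : ℝ) + 1) ^ (-κ') := by ring
    have h2 := v4_markov (μ := μ) hYm hYb 4 (by decide) hδ h1
    have e3 : {x | δ < |(∑ m ∈ F, φ m x) / n - c|} = {x | δ < |(∑ m ∈ F, (φ m x - c)) / n|} := by
      ext x
      rw [Set.mem_ofPred_eq, Set.mem_ofPred_eq, hS x]
    rw [e3]
    refine h2.trans (le_of_eq ?_)
    rw [hM]
    ring
  have hsum : Summable fun R : ℕ => M * ((R : ℝ) + 1) ^ (-κ') := by
    refine Summable.mul_left M ?_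
    have h1 : Summable fun n : ℕ => (n : ℝ) ^ (-κ') := Real.summable_nat_rpow.2 (by linarith)
    have h2 := (summable_nat_add_iff 1).2 h1
    refine h2.congr fun n => ?_
    push_cast
    rfl
  exact Summable.of_nonneg_of_le (fun R => measureReal_nonneg) hbound hsum

end PoolMX
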