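import Pool.Agent.Work.MP_67388f_an.MX.VarTwo
import Pool.Agent.Work.MP_67388f_an.MX.VarFour

/-!
MODULE MixCC (size S-M). Polynomial mixing implies complete convergence. Uses `var_two`, `var_four` (stubs).

Given `θ, ε`, `PolyMix` gives `f`, `κ > 1`, `C` with `MixRate`. Let `φ m x = f (a m • x)`, bounded by `B = sup |f|` (compact support,
cf. `cc_bdd` in TV/WEAK.lean), continuous hence measurable, `∫ φ m = ∫ f = c` by invariance of `μ`
(`integral_map`). `avg a F f x = (∑ m ∈ F, φ m x) / #F` by definition.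
Case `3 ≤ r`, order 2: for `m ≠ m'` use `s = [m]`, `t = [m']`, `g = ‖m - m'‖ > 0` (lists: `List.map`, `List.prod` simp).
Case `r = 2`, order 4: `var_four` directly (`subst`).
`2 ≤ r` and order 4: if `r ≥ 3` then order 4 implies order 2 (`s.length + t.length ≤ 2 ≤ 4`).
-/

set_option autoImplicit false

namespace PoolMX

open MeasureTheory Filter Topology

private theorem mix_bdd {X : Type*} [TopologicalSpace X] (θ : C(X, ℝ))
    (hθ : HasCompactSupport θ) : ∃ B : ℝ, ∀ x, |θ x| ≤ B := by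
  obtain ⟨B, hB⟩ := θ.continuous.bounded_above_of_compact_support hθ
  exact ⟨B, fun x => by rw [← Real.norm_eq_abs]; exact hB x⟩

private theorem mixRate_two {G X : Type*} [SMul G X] [MeasurableSpace X] {r : ℕ}
    {a : V r → G} {μ : Measure X} {κ : ℝ} {f : X → ℝ} (h : MixRate a μ 4 κ f) :
    MixRate a μ 2 κ f := by
  obtain ⟨C, hC⟩ := h
  exact ⟨C, fun s t g hl hg hd => hC s t g (by omega) hg hd⟩

theorem cconv_of_mix {G X : Type*} [Group G] [TopologicalSpace G] [TopologicalSpace X]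
    [LocallyCompactSpace X] [T2Space X] [SecondCountableTopology X] [MeasurableSpace X]
    [BorelSpace X] [MulAction G X] [ContinuousSMul G X] {r : ℕ} (a : V r → G) (μ : Measure X)
    [IsProbabilityMeasure μ] (hμ : ∀ m, μ.map (fun x => a m • x) = μ)
    (hmix : (3 ≤ r ∧ PolyMix a μ 2) ∨ (2 ≤ r ∧ PolyMix a μ 4)) :
    ∀ θ : C(X, ℝ), HasCompactSupport θ → ∀ ε : ℝ, 0 < ε →
      ∃ f : C(X, ℝ), HasCompactSupport f ∧ (∀ x, |θ x - f x| ≤ ε) ∧
        ∀ w : V r →+ ℝ, w ≠ 0 → CConv a μ w f := by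
  have hcont : ∀ m, Continuous fun x : X => a m • x := fun m => continuous_const_smul (a m)
  have hint : ∀ (f : C(X, ℝ)) m, ∫ x, f (a m • x) ∂μ = ∫ x, f x ∂μ := by
    intro f m
    have h1 := integral_map (μ := μ) (φ := fun x : X => a m • x) (f := fun x => f x)
      (hcont m).measurable.aemeasurable f.continuous.aestronglyMeasurable
    rw [hμ m] at h1
    exact h1.symm
  have two : 3 ≤ r → PolyMix a μ 2 → ∀ θ : C(X, ℝ), HasCompactSupport θ → ∀ ε : ℝ, 0 < ε →
      ∃ f : C(X, ℝ), HasCompactSupport f ∧ (∀ x, |θ x - f x| ≤ ε) ∧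
        ∀ w : V r →+ ℝ, w ≠ 0 → CConv a μ w f := by
    intro hr hP θ hθ ε hε
    obtain ⟨f, hf, hθf, κ, hκ, C, hC⟩ := hP θ hθ ε hε
    refine ⟨f, hf, hθf, fun w hw N η δ hN hη hδ => ?_⟩
    obtain ⟨B, hB⟩ := mix_bdd f hf
    refine var_two μ hr w hw N hN η hη κ hκ (fun m x => f (a m • x))
      (fun m => (f.continuous.comp (hcont m)).measurable) B (fun m x => hB _)
      (∫ y, f y ∂μ) C (fun m => hint f m) (fun m m' hne => ?_) δ hδ
    have h1 := hC [m] [m'] ‖m - m'‖ (by simp) (norm_pos_iff.2 (sub_ne_zero.2 hne))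
      (by simp)
    simp only [List.map_cons, List.map_nil, List.prod_cons, List.prod_nil, mul_one] at h1
    rw [hint f m, hint f m', ← pow_two] at h1
    exact h1
  intro θ hθ ε hε
  rcases hmix with ⟨hr, hP⟩ | ⟨hr, hP⟩
  · exact two hr hP θ hθ ε hε
  · by_cases h3 : 3 ≤ r
    · refine two h3 (fun θ hθ ε hε => ?_) θ hθ ε hε
      obtain ⟨f, hf, hθf, κ, hκ, hM⟩ := hP θ hθ ε hε
      exact ⟨f, hf, hθf, κ, hκ, mixRate_two hM⟩
    · obtain rfl : r = 2 := by omega
      obtain ⟨f, hf, hθf, κ, hκ, C, hC⟩ := hP θ hθ ε hε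
      refine ⟨f, hf, hθf, fun w hw N η δ hN hη hδ => ?_⟩
      obtain ⟨B, hB⟩ := mix_bdd f hf
      exact var_four μ w hw N hN η hη κ hκ (fun m x => f (a m • x))
        (fun m => (f.continuous.comp (hcont m)).measurable) B (fun m x => hB _)
        (∫ y, f y ∂μ) C (fun m => hint f m) hC δ hδ

/-- Order 4 mixing implies order 2 mixing. -/
theorem PolyMix.two {G X : Type*} [SMul G X] [TopologicalSpace X] [MeasurableSpace X] {r : ℕ}
    {a : V r → G} {μ : Measure X} (h : PolyMix a μ 4) : PolyMix a μ 2 := by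
  intro θ hθ ε hε
  obtain ⟨f, hf, hθf, κ, hκ, hM⟩ := h θ hθ ε hε
  exact ⟨f, hf, hθf, κ, hκ, mixRate_two hM⟩

end PoolMX
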