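import Pool.Agent.Work.MP_67388f_an.MX.Cnt

/-!
MODULE Pot (size M). Sums of `‖m‖ ^ (-κ)` over strips. Uses only `strip_card_le` (stub in Cnt).

Let `n ρ = (strip w 1 η ρ).card ≤ C (ρ+1)^(r-1)` for `ρ ≤ R`. `‖m‖` is a natural number `ρ` (sup norm of an
integer vector); `m ∈ strip w 1 η R`, `‖m‖ ≤ ρ` iff `m ∈ strip w 1 η ρ` for `ρ ≤ R`. The term `m = 0`
contributes `1`. For `m ≠ 0`, `‖m‖ = ρ ≥ 1`:
`ρ^(-κ) = R^(-κ) + ∑_{ρ ≤ j < R} (j^(-κ) - (j+1)^(-κ))` and `j^(-κ) - (j+1)^(-κ) ≤ κ j^(-κ-1)` (mean value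
theorem; or any bound `≤ C' j^(-κ-1)`). Exchanging the sums
`∑_{m ≠ 0} ‖m‖^(-κ) ≤ n R * R^(-κ) + ∑_{1 ≤ j < R} κ j^(-κ-1) n j ≤ C'' (R^(r-1-κ) + ∑_{1 ≤ j < R} j^(r-2-κ))`.
`pot_three`: `r - 2 - κ ≥ -1/2`, so `∑_{1 ≤ j < R} j^(r-2-κ) ≤ C R^(r-1-κ)` (e.g. for exponent
`e = r-2-κ ≥ -1/2`: `j^e ≤ C_e ((j+1)^(e+1) - j^(e+1))`, or: `j^e = j^(e + 1/2) j^(-1/2) ≤ R^(e+1/2) j^(-1/2)` and
`∑_{j<R} j^(-1/2) ≤ 2 R^(1/2)`).
`pot_two`: the sum is `∑ j^(-κ) < ∞` and `R^(1-κ) ≤ 1`.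

A dyadic decomposition works as well: `∑_{m ≠ 0} ‖m‖^(-κ) ≤ ∑_{j, 2^j ≤ R} 2^(-jκ) n(2^(j+1))`, geometric sum.
-/

set_option autoImplicit false

namespace PoolMX

/-- the kernel `‖m‖ ^ (-κ)`, `1` at `m = 0` -/
noncomputable def cor (κ : ℝ) {r : ℕ} (m : V r) : ℝ := if m = 0 then 1 else ‖m‖ ^ (-κ)

private lemma exists_nat_norm {r : ℕ} (m : V r) : ∃ n : ℕ, ‖m‖ = n ∧ (m ≠ 0 → n ≠ 0) ∧
    (∀ i, |m i| ≤ (n : ℤ)) ∧ ∀ R : ℕ, (∀ i, |m i| ≤ (R : ℤ)) → n ≤ R := by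
  classical
  by_cases hm : m = 0
  · refine ⟨0, by simp [hm], fun h => absurd hm h, fun i => by simp [hm], fun R _ => Nat.zero_le R⟩
  · have hne : (Finset.univ : Finset (Fin r)).Nonempty := by
      by_contra h
      rw [Finset.not_nonempty_iff_eq_empty, Finset.univ_eq_empty_iff] at h
      exact hm (funext fun i => h.elim i)
    obtain ⟨i, -, hi⟩ := Finset.exists_mem_eq_sup Finset.univ hne (fun b => ‖m b‖₊)
    have h1 : ‖m‖ = ‖m i‖ := by
      rw [Pi.norm_def, hi]; rfl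
    have h2 : ‖m‖ = ((m i).natAbs : ℝ) := by
      rw [h1, Int.norm_eq_abs, Nat.cast_natAbs, Int.cast_abs]
    refine ⟨(m i).natAbs, h2, fun _ h0 => ?_, fun j => ?_, fun R hR => ?_⟩
    · rw [h0] at h2
      simp at h2
      exact hm h2
    · have h3 := norm_le_pi_norm m j
      rw [h2, Int.norm_eq_abs, Nat.cast_natAbs] at h3
      rw [← Int.abs_eq_natAbs]
      exact_mod_cast h3
    · have := hR i
      rw [Int.abs_eq_natAbs] at this
      exact_mod_cast this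

private lemma pot_gen {r : ℕ} (w : V r →+ ℝ) (hw : w ≠ 0) (η : ℝ) (hη : 0 < η)
    (κ : ℝ) (h1 : 1 < κ) :
    ∃ C : ℝ, 0 < C ∧ ∀ R : ℕ, ∑ m ∈ strip w 1 η R, cor κ m ≤
      1 + C * ∑ j ∈ Finset.range (Nat.log 2 R + 1), ((2 : ℝ) ^ ((r : ℝ) - 1 - κ)) ^ j := by
  classical
  obtain ⟨C, hC, hcard⟩ := strip_card_le w hw η hη
  have hr : 1 ≤ r := by
    by_contra h
    have h0 : r = 0 := by omega
    subst h0
    apply hw
    refine AddMonoidHom.ext fun m => ?_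
    have hm : m = 0 := funext fun i => i.elim0
    rw [hm, map_zero, map_zero]
  refine ⟨C * 4 ^ (r - 1), by positivity, fun R => ?_⟩
  choose n hn hn0 hnc hnR using fun m : V r => exists_nat_norm m
  set S := strip w 1 η R with hS
  rw [← Finset.sum_filter_add_sum_filter_not S (fun m => m = 0)]
  apply add_le_add
  · have hsub : (S.filter fun m => m = 0) ⊆ {0} := by
      intro m hm
      rw [Finset.mem_filter] at hm
      rw [Finset.mem_singleton]
      exact hm.2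
    calc _ ≤ ∑ m ∈ ({0} : Finset (V r)), cor κ m := by
          apply Finset.sum_le_sum_of_subset_of_nonneg hsub
          intro m _ _
          unfold cor
          split_ifs <;> positivity
      _ = 1 := by simp [cor]
  · set S' := S.filter fun m => ¬ m = 0 with hS'
    have hmem : ∀ m ∈ S', (∀ i, |m i| ≤ (R : ℤ)) ∧ |w m| < η ∧ m ≠ 0 := by
      intro m hm
      rw [hS', Finset.mem_filter, hS, mem_strip] at hm
      exact ⟨hm.1.1, hm.1.2.2, hm.2⟩
    have hmaps : ∀ m ∈ S', Nat.log 2 (n m) ∈ Finset.range (Nat.log 2 R + 1) := by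
      intro m hm
      obtain ⟨a1, -, -⟩ := hmem m hm
      rw [Finset.mem_range]
      have := Nat.log_mono_right (b := 2) (hnR m R a1)
      omega
    rw [← Finset.sum_fiberwise_of_maps_to hmaps, Finset.mul_sum]
    refine Finset.sum_le_sum fun j _ => ?_
    have hsub : (S'.filter fun m => Nat.log 2 (n m) = j) ⊆ strip w 1 η (2 ^ (j + 1)) := by
      intro m hm
      rw [Finset.mem_filter] at hm
      obtain ⟨hm1, hm2⟩ := hm
      obtain ⟨a1, a2, a3⟩ := hmem m hm1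
      rw [mem_strip]
      refine ⟨fun i => (hnc m i).trans ?_, fun i => by simp, a2⟩
      have h3 := Nat.lt_pow_succ_log_self (b := 2) (by norm_num) (n m)
      rw [hm2] at h3
      exact_mod_cast h3.le
    have hterm : ∀ m ∈ S'.filter fun m => Nat.log 2 (n m) = j, cor κ m ≤ ((2 : ℝ) ^ j) ^ (-κ) := by
      intro m hm
      rw [Finset.mem_filter] at hm
      obtain ⟨hm1, hm2⟩ := hm
      obtain ⟨a1, a2, a3⟩ := hmem m hm1
      unfold cor
      rw [if_neg a3, hn m]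
      have h3 := Nat.pow_log_le_self 2 (hn0 m a3)
      rw [hm2] at h3
      have h4 : ((2 : ℝ) ^ j) ≤ (n m : ℝ) := by exact_mod_cast h3
      exact Real.rpow_le_rpow_of_nonpos (by positivity) h4 (by linarith)
    calc _ ≤ ∑ m ∈ S'.filter (fun m => Nat.log 2 (n m) = j), ((2 : ℝ) ^ j) ^ (-κ) :=
          Finset.sum_le_sum hterm
      _ = ((S'.filter fun m => Nat.log 2 (n m) = j).card : ℝ) * ((2 : ℝ) ^ j) ^ (-κ) := by
          rw [Finset.sum_const, nsmul_eq_mul]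
      _ ≤ (C * ((2 : ℝ) ^ (j + 1) + 1) ^ (r - 1)) * ((2 : ℝ) ^ j) ^ (-κ) := by
          apply mul_le_mul_of_nonneg_right _ (by positivity)
          have h3 := hcard (2 ^ (j + 1))
          push_cast at h3
          have h4 : ((S'.filter fun m => Nat.log 2 (n m) = j).card : ℝ) ≤
              ((strip w 1 η (2 ^ (j + 1))).card : ℝ) := by
            exact_mod_cast Finset.card_le_card hsub
          exact h4.trans h3
      _ ≤ (C * (4 * (2 : ℝ) ^ j) ^ (r - 1)) * ((2 : ℝ) ^ j) ^ (-κ) := by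
          apply mul_le_mul_of_nonneg_right _ (by positivity)
          apply mul_le_mul_of_nonneg_left _ hC.le
          apply pow_le_pow_left₀ (by positivity)
          have : (1 : ℝ) ≤ 2 ^ j := one_le_pow₀ (by norm_num)
          rw [pow_succ]
          linarith
      _ = C * 4 ^ (r - 1) * ((2 : ℝ) ^ ((r : ℝ) - 1 - κ)) ^ j := by
          rw [mul_pow]
          have e1 : ((2 : ℝ) ^ ((r : ℝ) - 1 - κ)) ^ j = ((2 : ℝ) ^ j) ^ (r - 1) * ((2 : ℝ) ^ j) ^ (-κ) := by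
            have hj : (0 : ℝ) < (2 : ℝ) ^ j := by positivity
            rw [← Real.rpow_natCast ((2 : ℝ) ^ ((r : ℝ) - 1 - κ)) j, ← Real.rpow_mul (by norm_num),
              ← Real.rpow_natCast ((2 : ℝ) ^ j) (r - 1), ← Real.rpow_add hj,
              ← Real.rpow_natCast (2 : ℝ) j, ← Real.rpow_mul (by norm_num)]
            congr 1
            rw [Nat.cast_sub hr]
            push_cast
            ring
          rw [e1]
          ring

theorem pot_three {r : ℕ} (hr : 3 ≤ r) (w : V r →+ ℝ) (hw : w ≠ 0) (η : ℝ) (hη : 0 < η)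
    (κ : ℝ) (h1 : 1 < κ) (h2 : κ ≤ 3 / 2) :
    ∃ C : ℝ, 0 < C ∧ ∀ R : ℕ,
      ∑ m ∈ strip w 1 η R, cor κ m ≤ C * ((R : ℝ) + 1) ^ ((r : ℝ) - 1 - κ) := by
  obtain ⟨C, hC, h⟩ := pot_gen w hw η hη κ h1
  have hr' : (3 : ℝ) ≤ r := by exact_mod_cast hr
  set e : ℝ := (r : ℝ) - 1 - κ with he
  have he0 : 0 < e := by rw [he]; linarith
  set q : ℝ := (2 : ℝ) ^ e with hq
  have hq1 : 1 < q := Real.one_lt_rpow (by norm_num) he0
  have hq0 : 0 < q - 1 := by linarith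
  refine ⟨1 + C * (q / (q - 1)), by positivity, fun R => (h R).trans ?_⟩
  have hL : (2 : ℝ) ^ (Nat.log 2 R) ≤ (R : ℝ) + 1 := by
    rcases Nat.eq_zero_or_pos R with h0 | h0
    · subst h0; simp
    · have h3 := Nat.pow_log_le_self 2 h0.ne'
      have h4 : (2 : ℝ) ^ (Nat.log 2 R) ≤ (R : ℝ) := by exact_mod_cast h3
      linarith
  have hqL : q ^ (Nat.log 2 R) ≤ ((R : ℝ) + 1) ^ e := by
    have : q ^ (Nat.log 2 R) = ((2 : ℝ) ^ (Nat.log 2 R)) ^ e := by
      rw [hq, ← Real.rpow_natCast, ← Real.rpow_natCast, ← Real.rpow_mul (by norm_num),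
        ← Real.rpow_mul (by norm_num), mul_comm]
    rw [this]
    exact Real.rpow_le_rpow (by positivity) hL he0.le
  have hone : 1 ≤ ((R : ℝ) + 1) ^ e :=
    Real.one_le_rpow (by linarith [(Nat.cast_nonneg R : (0 : ℝ) ≤ R)]) he0.le
  have hgeom : ∑ j ∈ Finset.range (Nat.log 2 R + 1), q ^ j ≤ q / (q - 1) * ((R : ℝ) + 1) ^ e := by
    rw [geom_sum_eq hq1.ne', div_mul_eq_mul_div]
    apply div_le_div_of_nonneg_right _ hq0.le
    rw [pow_succ]
    nlinarith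
  calc _ ≤ 1 + C * (q / (q - 1) * ((R : ℝ) + 1) ^ e) := by
        have := mul_le_mul_of_nonneg_left hgeom hC.le
        linarith
    _ ≤ _ := by
        rw [add_mul, one_mul]
        linarith

theorem pot_two (w : V 2 →+ ℝ) (hw : w ≠ 0) (η : ℝ) (hη : 0 < η) (κ : ℝ) (h1 : 1 < κ) :
    ∃ C : ℝ, 0 < C ∧ ∀ R : ℕ, ∑ m ∈ strip w 1 η R, cor κ m ≤ C := by
  obtain ⟨C, hC, h⟩ := pot_gen w hw η hη κ h1
  set q : ℝ := (2 : ℝ) ^ (((2 : ℕ) : ℝ) - 1 - κ) with hq
  have hq0 : 0 < q := Real.rpow_pos_of_pos (by norm_num) _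
  have hq1 : q < 1 := by
    apply Real.rpow_lt_one_of_one_lt_of_neg (by norm_num)
    push_cast
    linarith
  have hq2 : 0 < 1 - q := by linarith
  refine ⟨1 + C * (1 / (1 - q)), by positivity, fun R => (h R).trans ?_⟩
  have hgeom : ∑ j ∈ Finset.range (Nat.log 2 R + 1), q ^ j ≤ 1 / (1 - q) := by
    rw [geom_sum_eq hq1.ne, ← neg_div_neg_eq]
    have e1 : -(q - 1) = 1 - q := by ring
    rw [e1]
    apply div_le_div_of_nonneg_right _ hq2.le
    have := pow_pos hq0 (Nat.log 2 R + 1)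
    linarith
  have := mul_le_mul_of_nonneg_left hgeom hC.le
  linarith

end PoolMX
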