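import Pool.Agent.Work.MP_67388f_an.MX.Sep
import Pool.Agent.Work.MP_67388f_an.MX.Ego
import Pool.Agent.Work.MP_67388f_an.MX.EDefs
import Pool.Agent.Work.MP_67388f_an.MX.MixCC

/-!
The modules UG, Dyn, Erg for arbitrary finite samples in the strips instead of the whole strips
(adapted from the proofs of helper28 and helper97).
-/

set_option autoImplicit false

namespace PoolMX

open MeasureTheory Filter Topology

section lists

variable {ι : Type*}

private lemma list_sum_sub_le (l : List ι) (F H : ι → ℝ) (δ : ℝ)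
    (h : ∀ m ∈ l, |F m - H m| ≤ δ) : |(l.map F).sum - (l.map H).sum| ≤ l.length * δ := by
  induction l with
  | nil => simp
  | cons b l ih =>
    have h1 := ih fun m hm => h m (List.mem_cons_of_mem _ hm)
    have h2 := h b List.mem_cons_self
    simp only [List.map_cons, List.sum_cons, List.length_cons, Nat.cast_add, Nat.cast_one]
    have h3 : F b + (l.map F).sum - (H b + (l.map H).sum) =
        (F b - H b) + ((l.map F).sum - (l.map H).sum) := by ring
    rw [h3]
    refine (abs_add_le _ _).trans ?_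
    linarith

private lemma list_sum_abs_le (l : List ι) (F : ι → ℝ) (δ : ℝ) (h : ∀ m ∈ l, |F m| ≤ δ) :
    |(l.map F).sum| ≤ l.length * δ := by
  have h1 := list_sum_sub_le l F (fun _ => 0) δ (fun m hm => by simpa using h m hm)
  simpa using h1

private lemma list_integral {Ω : Type*} [MeasurableSpace Ω] (μ : Measure Ω) (l : List ι)
    (F : ι → Ω → ℝ) (h : ∀ m ∈ l, Integrable (F m) μ) :
    Integrable (fun x => (l.map fun m => F m x).sum) μ ∧
      ∫ x, (l.map fun m => F m x).sum ∂μ = (l.map fun m => ∫ x, F m x ∂μ).sum := by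
  induction l with
  | nil => simp
  | cons b l ih =>
    obtain ⟨h1, h2⟩ := ih fun m hm => h m (List.mem_cons_of_mem _ hm)
    have h3 := h b List.mem_cons_self
    simp only [List.map_cons, List.sum_cons]
    exact ⟨h3.add h1, by rw [integral_add h3 h1, h2]⟩

end lists

section samp

variable {G X : Type*} [Group G] [TopologicalSpace G] [TopologicalSpace X]
    [MeasurableSpace X] [BorelSpace X] [MulAction G X] [ContinuousSMul G X] {r : ℕ}

private lemma lavg_sub_le (a : V r → G) (l : List (V r)) (f g : X → ℝ) {δ : ℝ} (hδ : 0 ≤ δ)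
    (x y : X) (h : ∀ m ∈ l, |f (a m • x) - g (a m • y)| ≤ δ) :
    |lavg a l f x - lavg a l g y| ≤ δ := by
  rw [lavg, lavg, ← sub_div, abs_div, Nat.abs_cast]
  refine div_le_of_le_mul₀ (Nat.cast_nonneg _) hδ ?_
  rw [mul_comm]
  exact list_sum_sub_le l _ _ δ h

private lemma lavg_cont (a : V r → G) (l : List (V r)) (f : C(X, ℝ)) :
    Continuous fun x => lavg a l f x := by
  unfold lavg
  refine Continuous.div_const ?_ _
  exact continuous_list_sum _ fun m _ => f.continuous.comp (continuous_const_smul (a m))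

private lemma lavg_bdd (a : V r → G) (l : List (V r)) (f : X → ℝ) {B : ℝ} (hB0 : 0 ≤ B)
    (hB : ∀ x, |f x| ≤ B) (x : X) : |lavg a l f x| ≤ B := by
  rw [lavg, abs_div, Nat.abs_cast]
  refine div_le_of_le_mul₀ (Nat.cast_nonneg _) hB0 ?_
  rw [mul_comm]
  exact list_sum_abs_le l _ B fun m _ => hB _

private lemma lavg_toList (a : V r → G) (S : Finset (V r)) (f : X → ℝ) (x : X) :
    lavg a S.toList f x = avg a S f x := by
  rw [lavg, avg, Finset.length_toList, Finset.sum_map_toList]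

end samp

/-- The averages over the samples around the centers `ctr (w c) k` converge uniformly on `E`. -/
def SGood {G X C : Type*} [SMul G X] [TopologicalSpace X] [MeasurableSpace X] {r : ℕ}
    (a : V r → G) (μ : Measure X) (M : ℕ) (w : C → V r →+ ℝ)
    (F : C → ℕ → ℕ → ℕ → List (V r)) (E : Set X) : Prop :=
  ∀ c, w c ≠ 0 → ∀ N p : ℕ, 0 < N → ∀ θ : C(X, ℝ), HasCompactSupport θ → ∀ ε : ℝ, 0 < ε →
    ∀ᶠ k : ℕ in atTop, ∀ x ∈ E,
      |lavg a (F c N p (k / M)) θ (a (ctr (w c) k) • x) - ∫ y, θ y ∂μ| ≤ ε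

private theorem sum_div (g : ℕ → ℝ) (M : ℕ) (hM : 0 < M) (n : ℕ) :
    ∑ k ∈ Finset.range (n * M), g (k / M) = M * ∑ R ∈ Finset.range n, g R := by
  induction n with
  | zero => simp
  | succ n ih =>
    rw [Nat.succ_mul, Finset.sum_range_add, ih, Finset.sum_range_succ, mul_add]
    congr 1
    have h : ∀ x ∈ Finset.range M, g ((n * M + x) / M) = g n := by
      intro x hx
      congr 1
      rw [add_comm, Nat.add_mul_div_right _ _ hM, Nat.div_eq_of_lt (Finset.mem_range.1 hx), zero_add]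
    rw [Finset.sum_congr rfl h, Finset.sum_const, Finset.card_range, nsmul_eq_mul]

private theorem summable_div {g : ℕ → ℝ} (hg : Summable g) (h0 : ∀ n, 0 ≤ g n) {M : ℕ}
    (hM : 0 < M) : Summable fun k => g (k / M) := by
  refine summable_of_sum_range_le (c := M * ∑' R, g R) (fun n => h0 _) fun n => ?_
  calc ∑ k ∈ Finset.range n, g (k / M) ≤ ∑ k ∈ Finset.range (n * M), g (k / M) := by
        refine Finset.sum_le_sum_of_subset_of_nonneg ?_ fun k _ _ => h0 _
        exact Finset.range_mono (Nat.le_mul_of_pos_right n hM)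
    _ = M * ∑ R ∈ Finset.range n, g R := sum_div g M hM n
    _ ≤ M * ∑' R, g R := by
        refine mul_le_mul_of_nonneg_left ?_ (Nat.cast_nonneg _)
        exact hg.sum_le_tsum _ fun k _ => h0 k

theorem sgood_exists {G X : Type*} [Group G] [TopologicalSpace G] [TopologicalSpace X]
    [LocallyCompactSpace X] [T2Space X] [SecondCountableTopology X] [MeasurableSpace X]
    [BorelSpace X] [MulAction G X] [ContinuousSMul G X] {r : ℕ} (a : V r → G) (μ : Measure X)
    [IsProbabilityMeasure μ] (hμ : ∀ m, μ.map (fun x => a m • x) = μ) {C : Type*} [Finite C]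
    (w : C → V r →+ ℝ) (M : ℕ) (hM : 0 < M)
    (hconv : ∀ c, w c ≠ 0 → Sampled a μ (w c)) :
    ∃ F : C → ℕ → ℕ → ℕ → List (V r),
      (∀ c, w c ≠ 0 → ∀ N p : ℕ, 0 < N → ∀ R, F c N p R ≠ [] ∧
        ∀ m ∈ F c N p R, m ∈ strip (w c) N (1 / ((p : ℝ) + 1)) R) ∧
      ∃ E : Set X, 0 < μ E ∧ SGood a μ M w F E := by
  classical
  obtain ⟨D, hD, hDd⟩ := exists_dense_cc X
  have hFch : ∀ (c : C) (N p : ℕ), ∃ F : ℕ → List (V r), w c ≠ 0 → 0 < N →
      (∀ R, F R ≠ [] ∧ ∀ m ∈ F R, m ∈ strip (w c) N (1 / ((p : ℝ) + 1)) R) ∧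
        SampleConv a μ F := by
    intro c N p
    by_cases h : w c ≠ 0 ∧ 0 < N
    · obtain ⟨F, hF⟩ := hconv c h.1 N (1 / ((p : ℝ) + 1)) h.2 (by positivity)
      exact ⟨F, fun _ _ => hF⟩
    · exact ⟨fun _ => [], fun h1 h2 => absurd ⟨h1, h2⟩ h⟩
  choose F hF using hFch
  have hch : ∀ (c : C) (N p n l : ℕ), ∃ f : C(X, ℝ), HasCompactSupport f ∧
      (∀ x, |D n x - f x| ≤ 1 / ((l : ℝ) + 1)) ∧ (w c ≠ 0 → 0 < N → ∀ δ : ℝ, 0 < δ →
        Summable fun R : ℕ => μ.real {x | δ < |lavg a (F c N p R) f x - ∫ y, f y ∂μ|}) := by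
    intro c N p n l
    by_cases h : w c ≠ 0 ∧ 0 < N
    · obtain ⟨f, h1, h2, h3⟩ := (hF c N p h.1 h.2).2 (D n) (hD n) (1 / ((l : ℝ) + 1))
        (by positivity)
      exact ⟨f, h1, h2, fun _ _ => h3⟩
    · refine ⟨D n, hD n, fun x => ?_, fun h1 h2 => absurd ⟨h1, h2⟩ h⟩
      rw [sub_self, abs_zero]
      positivity
  choose f hf1 hf2 hf3 using hch
  refine ⟨F, fun c hc N p hN => (hF c N p hc hN).1, ?_⟩
  let b : (ℕ × ℕ × C × ℕ × ℕ × ℕ) → ℕ → Set X := fun i k =>
    {x | w i.2.2.1 ≠ 0 ∧ 1 / ((i.2.2.2.2.2 : ℝ) + 1) <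
      |lavg a (F i.2.2.1 (i.2.2.2.1 + 1) i.2.2.2.2.1 (k / M))
        (f i.2.2.1 (i.2.2.2.1 + 1) i.2.2.2.2.1 i.1 i.2.1) (a (ctr (w i.2.2.1) k) • x) -
        ∫ y, f i.2.2.1 (i.2.2.2.1 + 1) i.2.2.2.2.1 i.1 i.2.1 y ∂μ|}
  have hsum : ∀ i, Summable fun k => μ.real (b i k) := by
    rintro ⟨n, l, c, N, p, q⟩
    by_cases hc : w c = 0
    · have : ∀ k, b (n, l, c, N, p, q) k = ∅ := by
        intro k
        ext x
        simp [b, hc]
      simp only [this, measureReal_empty]
      exact summable_zero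
    · have h1 : Summable fun R : ℕ => μ.real {x | 1 / ((q : ℝ) + 1) <
          |lavg a (F c (N + 1) p R) (f c (N + 1) p n l) x - ∫ y, f c (N + 1) p n l y ∂μ|} :=
        hf3 c (N + 1) p n l hc (Nat.succ_pos N) _ (by positivity)
      have h2 := summable_div h1 (fun R => measureReal_nonneg) hM
      refine h2.congr fun k => ?_
      have hcont := lavg_cont a (F c (N + 1) p (k / M)) (f c (N + 1) p n l)
      have hms : MeasurableSet {x | 1 / ((q : ℝ) + 1) <
          |lavg a (F c (N + 1) p (k / M)) (f c (N + 1) p n l) x -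
            ∫ y, f c (N + 1) p n l y ∂μ|} :=
        (isOpen_lt continuous_const ((hcont.sub continuous_const).abs)).measurableSet
      have h3 : b (n, l, c, N, p, q) k = (fun x => a (ctr (w c) k) • x) ⁻¹'
          {x | 1 / ((q : ℝ) + 1) <
          |lavg a (F c (N + 1) p (k / M)) (f c (N + 1) p n l) x -
            ∫ y, f c (N + 1) p n l y ∂μ|} := by
        ext x
        simp only [b, Set.mem_ofPred_eq, Set.mem_preimage]
        exact ⟨fun h => h.2, fun h => ⟨hc, h⟩⟩
      have h4 : Measurable fun x : X => a (ctr (w c) k) • x :=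
        (continuous_const_smul (a (ctr (w c) k))).measurable
      rw [h3, measureReal_def, measureReal_def, ← Measure.map_apply h4 hms, hμ]
  obtain ⟨E, hE, hEb⟩ := exists_uniform μ b hsum
  refine ⟨E, hE, ?_⟩
  intro c hc N p hN θ hθ ε hε
  obtain ⟨N, rfl⟩ : ∃ N', N = N' + 1 := ⟨N - 1, by omega⟩
  obtain ⟨n, hn⟩ := hDd θ hθ (ε / 8) (by positivity)
  obtain ⟨l, hl⟩ := exists_nat_one_div_lt (by positivity : 0 < ε / 8)
  obtain ⟨q, hq⟩ := exists_nat_one_div_lt (by positivity : 0 < ε / 2)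
  filter_upwards [hEb (n, l, c, N, p, q)] with k hk x hx
  have h1 := hk x hx
  simp only [b, Set.mem_ofPred_eq, not_and, not_lt] at h1
  have h2 := h1 hc
  set f₀ := f c (N + 1) p n l with hf₀
  set l₀ := F c (N + 1) p (k / M) with hl₀
  have hclose : ∀ y, |θ y - f₀ y| ≤ ε / 4 := by
    intro y
    have e1 := hn y
    have e2 := hf2 c (N + 1) p n l y
    have e3 : θ y - f₀ y = (θ y - D n y) + (D n y - f₀ y) := by ring
    rw [e3]
    refine (abs_add_le _ _).trans ?_
    linarith
  have h3 := lavg_sub_le a l₀ θ f₀ (by positivity : 0 ≤ ε / 4) (a (ctr (w c) k) • x)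
    (a (ctr (w c) k) • x) (fun m _ => hclose _)
  have h4 : |∫ y, θ y ∂μ - ∫ y, f₀ y ∂μ| ≤ ε / 4 := by
    have i1 : Integrable (fun y => θ y) μ := θ.continuous.integrable_of_hasCompactSupport hθ
    have i2 : Integrable (fun y => f₀ y) μ :=
      f₀.continuous.integrable_of_hasCompactSupport (hf1 c (N + 1) p n l)
    rw [← integral_sub i1 i2, ← Real.norm_eq_abs]
    have e1 := norm_integral_le_of_norm_le_const (μ := μ) (f := fun y => θ y - f₀ y) (C := ε / 4)
      (Eventually.of_forall fun y => by rw [Real.norm_eq_abs]; exact hclose y)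
    rwa [probReal_univ, mul_one] at e1
  have e4 : lavg a l₀ θ (a (ctr (w c) k) • x) - ∫ y, θ y ∂μ =
      (lavg a l₀ θ (a (ctr (w c) k) • x) - lavg a l₀ f₀ (a (ctr (w c) k) • x)) +
      (lavg a l₀ f₀ (a (ctr (w c) k) • x) - ∫ y, f₀ y ∂μ) -
        (∫ y, θ y ∂μ - ∫ y, f₀ y ∂μ) := by ring
  rw [e4]
  refine (abs_sub _ _).trans ?_
  have e5 := abs_add_le
    (lavg a l₀ θ (a (ctr (w c) k) • x) - lavg a l₀ f₀ (a (ctr (w c) k) • x))
      (lavg a l₀ f₀ (a (ctr (w c) k) • x) - ∫ y, f₀ y ∂μ)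
  linarith

theorem sdyn {G X : Type*} [Group G] [TopologicalSpace G] [IsTopologicalGroup G]
    [TopologicalSpace X] [LocallyCompactSpace X] [T2Space X] [SecondCountableTopology X]
    [MeasurableSpace X] [BorelSpace X] [MulAction G X] [ContinuousSMul G X] {r : ℕ}
    (a : V r → G) (μ : Measure X) [IsProbabilityMeasure μ] {C : Type*} [Finite C]
    {s : C → G → ℝ} {w : C → V r →+ ℝ} (H : MGauge s a w) (M : ℕ)
    (F : C → ℕ → ℕ → ℕ → List (V r))
    (hF : ∀ c, w c ≠ 0 → ∀ N p : ℕ, 0 < N → ∀ R, F c N p R ≠ [] ∧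
        ∀ m ∈ F c N p R, m ∈ strip (w c) N (1 / ((p : ℝ) + 1)) R) (E : Set X)
    (hE : SGood a μ M w F E) (β : C) (hβ : w β ≠ 0) (U : Ultrafilter ℕ) (k : ℕ → ℕ)
    (hk : Tendsto k U atTop) (x : ℕ → X) (h : ℕ → G) (u : G)
    (hx : ∀ j, x j ∈ E) (hhx : ∀ j, h j • x j ∈ E)
    (hu : Tendsto (fun j => a (ctr (w β) (k j)) * h j * (a (ctr (w β) (k j)))⁻¹) U (𝓝 u))
    (hsmall : ∀ δ : ℝ, 0 < δ → ∀ᶠ j in (U : Filter ℕ), ∀ m : V r,
      (∀ i, |m i| ≤ ((k j / M : ℕ) : ℤ)) → ∀ c, ¬ Ray (w β) (w c) →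
      s c (a (ctr (w β) (k j)) * h j * (a (ctr (w β) (k j)))⁻¹) ≤ δ ∧
      Real.exp (w c m) * s c (a (ctr (w β) (k j)) * h j * (a (ctr (w β) (k j)))⁻¹) ≤ δ) :
    μ.map (fun z => u • z) = μ := by
  have key : ∀ θ : C(X, ℝ), HasCompactSupport θ → ∀ ε : ℝ, 0 < ε →
      |∫ y, θ (u • y) ∂μ - ∫ y, θ y ∂μ| ≤ 3 * ε := by
    intro θ hθ ε hε
    have hW := Pool.Agent.Work.MP_67388f_an.unif_action (G := G) θ hθ ε hε
    obtain ⟨W₁, hW₁, hmul⟩ := exists_nhds_one_split hW
    obtain ⟨R, hR⟩ : ∃ R : ℝ, ∀ c, s c u < R := by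
      have := Fintype.ofFinite C
      refine ⟨∑ c, s c u + 1, fun c => ?_⟩
      have h1 := Finset.single_le_sum (fun c _ => H.nonneg c u) (Finset.mem_univ c)
      linarith
    obtain ⟨N, hN, η, hη, δ, hδ, hslow⟩ := H.slow β hβ W₁ hW₁ R
    obtain ⟨p, hp⟩ := exists_nat_one_div_lt hη
    set θ' : C(X, ℝ) := ⟨fun z => θ (u • z), θ.continuous.comp (continuous_const_smul u)⟩ with hθ'def
    have hθ' : HasCompactSupport θ' := hθ.comp_homeomorph (Homeomorph.smul u)
    have e1 := hk.eventually (hE β hβ N p hN θ hθ ε hε)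
    have e2 := hk.eventually (hE β hβ N p hN θ' hθ' ε hε)
    have e3 : ∀ᶠ j in (U : Filter ℕ), ∀ c,
        s c (a (ctr (w β) (k j)) * h j * (a (ctr (w β) (k j)))⁻¹) ≤ R := by
      rw [eventually_all]
      intro c
      exact ((((H.cont c).tendsto u).comp hu).eventually (gt_mem_nhds (hR c))).mono
        fun j hj => le_of_lt hj
    have e4 : ∀ᶠ j in (U : Filter ℕ),
        a (ctr (w β) (k j)) * h j * (a (ctr (w β) (k j)))⁻¹ * u⁻¹ ∈ W₁ := by
      have h1 := hu.mul_const u⁻¹
      rw [mul_inv_cancel] at h1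
      exact h1.eventually hW₁
    have e5 := hsmall δ hδ
    obtain ⟨j, h1, h2, h3, h4, h5⟩ := (e1.and (e2.and (e3.and (e4.and e5)))).exists
    replace h1 := h1 _ (hhx j)
    replace h2 := h2 _ (hx j)
    set n := ctr (w β) (k j) with hn
    set g := a n * h j * (a n)⁻¹ with hg
    set l := F β N p (k j / M) with hl
    have hpt : ∀ m ∈ l, |θ (a m • a n • h j • x j) - θ' (a m • a n • x j)| ≤ ε := by
      intro m hm
      obtain ⟨hm1, hm2, hm3⟩ := mem_strip.1 ((hF β hβ N p hN _).2 m hm)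
      have h6 := hslow m hm2 (hm3.trans hp) g h3 (fun c hc => h5 m hm1 c hc)
      have h7 := hmul _ h6 _ h4
      have h8 : a m * g * (a m)⁻¹ * g⁻¹ * (g * u⁻¹) = a m * g * (a m)⁻¹ * u⁻¹ := by group
      rw [h8] at h7
      have h9 := h7 (u • a m • a n • x j)
      have h10 : (a m * g * (a m)⁻¹ * u⁻¹) • u • a m • a n • x j = a m • a n • h j • x j := by
        simp only [smul_smul]
        congr 1
        rw [hg]
        group
      rw [h10] at h9
      exact h9.le
    have havg : |lavg a l θ (a n • h j • x j) - lavg a l θ' (a n • x j)| ≤ ε :=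
      lavg_sub_le a l θ θ' hε.le _ _ hpt
    have h6 : ∫ y, θ' y ∂μ = ∫ y, θ (u • y) ∂μ := rfl
    rw [h6] at h2
    have h7 : ∫ y, θ (u • y) ∂μ - ∫ y, θ y ∂μ =
        -(lavg a l θ' (a n • x j) - ∫ y, θ (u • y) ∂μ) +
        -(lavg a l θ (a n • h j • x j) - lavg a l θ' (a n • x j)) +
        (lavg a l θ (a n • h j • x j) - ∫ y, θ y ∂μ) := by ring
    rw [h7]
    refine (abs_add_three _ _ _).trans ?_
    rw [abs_neg, abs_neg]
    linarith
  rw [Pool.Agent.Work.MP_67388f_an.map_eq_iff_test]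
  intro θ hθ
  have h0 : |∫ y, θ (u • y) ∂μ - ∫ y, θ y ∂μ| ≤ 0 := le_of_forall_pos_le_add fun δ hδ => by
    rw [zero_add]
    have := key θ hθ (δ / 3) (by linarith)
    linarith
  exact sub_eq_zero.1 (abs_eq_zero.1 (le_antisymm h0 (abs_nonneg _)))

section erg

variable {G X : Type*} [Group G] [TopologicalSpace G] [TopologicalSpace X]
    [LocallyCompactSpace X] [T2Space X] [SecondCountableTopology X] [MeasurableSpace X]
    [BorelSpace X] [MulAction G X] [ContinuousSMul G X] {r : ℕ}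

private lemma setInt_smul (a : V r → G) (μ : Measure X)
    (hμ : ∀ m, μ.map (fun x => a m • x) = μ)
    (t : Set X) (hinv : ∀ m, (fun z => a m • z) ⁻¹' t =ᵐ[μ] t) (f : C(X, ℝ)) (m : V r) :
    ∫ x in t, f (a m • x) ∂μ = ∫ x in t, f x ∂μ := by
  have hmp : MeasurePreserving (fun x : X => a m • x) μ μ :=
    ⟨(continuous_const_smul (a m)).measurable, hμ m⟩
  have hemb : MeasurableEmbedding (fun x : X => a m • x) :=
    (Homeomorph.smul (a m)).measurableEmbedding
  rw [← setIntegral_congr_set (hinv m)]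
  exact hmp.setIntegral_preimage_emb hemb (fun x => f x) t

private lemma bdd_cpt (f : C(X, ℝ)) (hf : HasCompactSupport f) :
    ∃ B : ℝ, 0 ≤ B ∧ ∀ x, |f x| ≤ B := by
  obtain ⟨B, hB⟩ := hf.exists_bound_of_continuous f.continuous
  exact ⟨max B 0, le_max_right _ _, fun x => (hB x).trans (le_max_left _ _)⟩

private lemma int_cpt (μ : Measure X) [IsFiniteMeasure μ] (f : C(X, ℝ))
    (hf : HasCompactSupport f) : Integrable (fun x => f x) μ := by
  obtain ⟨B, -, hB⟩ := bdd_cpt f hf
  exact Integrable.of_bound (C := B) f.continuous.measurable.aestronglyMeasurable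
    (Eventually.of_forall hB)

private lemma one_fun (a : V r → G) (μ : Measure X)
    [IsProbabilityMeasure μ] (hμ : ∀ m, μ.map (fun x => a m • x) = μ)
    (F : ℕ → List (V r)) (hne : ∀ R, F R ≠ [])
    (t : Set X) (hinv : ∀ m, (fun z => a m • z) ⁻¹' t =ᵐ[μ] t)
    (f : C(X, ℝ)) (hf : HasCompactSupport f)
    (hc : ∀ δ : ℝ, 0 < δ → Summable fun R : ℕ =>
        μ.real {x | δ < |lavg a (F R) f x - ∫ y, f y ∂μ|}) :
    ∫ x in t, f x ∂μ = μ.real t * ∫ x, f x ∂μ := by
  obtain ⟨B, hB0, hB⟩ := bdd_cpt f hf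
  set c : ℝ := ∫ x, f x ∂μ with hcdef
  have hmc : ∀ m, Continuous (fun x : X => f (a m • x)) := fun m =>
    f.continuous.comp (continuous_const_smul (a m))
  have hcard : ∀ R, (0 : ℝ) < ((F R).length : ℝ) := fun R => by
    exact_mod_cast List.length_pos_of_ne_nil (hne R)
  have hac : ∀ R, Continuous (fun x => lavg a (F R) f x) := fun R => lavg_cont a (F R) f
  have hab : ∀ R x, |lavg a (F R) f x| ≤ B := fun R x => lavg_bdd a (F R) f hB0 hB x
  have hai : ∀ R, Integrable (fun x => lavg a (F R) f x) μ := fun R =>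
    Integrable.of_bound (C := B) (hac R).measurable.aestronglyMeasurable
      (Eventually.of_forall (hab R))
  have hmi : ∀ m, Integrable (fun x => f (a m • x)) μ := fun m =>
    Integrable.of_bound (C := B) (hmc m).measurable.aestronglyMeasurable
      (Eventually.of_forall fun x => hB _)
  have havg : ∀ R, ∫ x in t, lavg a (F R) f x ∂μ = ∫ x in t, f x ∂μ := by
    intro R
    unfold lavg
    rw [integral_div, (list_integral (μ.restrict t) (F R) (fun m x => f (a m • x))
      (fun m _ => (hmi m).integrableOn)).2]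
    have h1 : ((F R).map fun m => ∫ x in t, f (a m • x) ∂μ) =
        (F R).map fun _ => ∫ x in t, f x ∂μ :=
      List.map_congr_left fun m _ => setInt_smul a μ hμ t hinv f m
    rw [h1, List.map_const', List.sum_replicate, nsmul_eq_mul]
    field_simp [(hcard R).ne']
  have hkey : ∀ δ : ℝ, 0 < δ → ∀ R : ℕ, |∫ x in t, f x ∂μ - μ.real t * c| ≤
      δ + (B + |c|) * μ.real {x | δ < |lavg a (F R) f x - c|} := by
    intro δ hδ R
    set S : Set X := {x | δ < |lavg a (F R) f x - c|} with hS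
    have hSm : MeasurableSet S :=
      (isOpen_lt continuous_const ((hac R).sub continuous_const).abs).measurableSet
    have h1 : ∫ x in t, f x ∂μ - μ.real t * c = ∫ x in t, (lavg a (F R) f x - c) ∂μ := by
      rw [integral_sub (hai R).integrableOn (integrable_const c).integrableOn, havg R,
        setIntegral_const, smul_eq_mul]
    have hint : Integrable (fun x => |lavg a (F R) f x - c|) μ :=
      ((hai R).sub (integrable_const c)).abs
    have hpt : ∀ x, |lavg a (F R) f x - c| ≤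
        δ + S.indicator (fun _ => B + |c|) x := by
      intro x
      by_cases hx : x ∈ S
      · rw [Set.indicator_of_mem hx]
        have h2 := abs_sub (lavg a (F R) f x) c
        have h3 := hab R x
        linarith
      · rw [Set.indicator_of_notMem hx, add_zero]
        exact not_lt.1 hx
    calc |∫ x in t, f x ∂μ - μ.real t * c|
        = |∫ x in t, (lavg a (F R) f x - c) ∂μ| := by rw [h1]
      _ ≤ ∫ x in t, |lavg a (F R) f x - c| ∂μ := abs_integral_le_integral_abs
      _ ≤ ∫ x, |lavg a (F R) f x - c| ∂μ :=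
          setIntegral_le_integral hint (Eventually.of_forall fun x => abs_nonneg _)
      _ ≤ ∫ x, (δ + S.indicator (fun _ => B + |c|) x) ∂μ := by
          refine integral_mono hint ?_ hpt
          exact (integrable_const δ).add ((integrable_const (B + |c|)).indicator hSm)
      _ = δ + (B + |c|) * μ.real S := by
          rw [integral_add (integrable_const δ) ((integrable_const (B + |c|)).indicator hSm),
            integral_indicator hSm, setIntegral_const, integral_const]
          simp [mul_comm]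
  have hlim : ∀ δ : ℝ, 0 < δ → |∫ x in t, f x ∂μ - μ.real t * c| ≤ δ := by
    intro δ hδ
    have h1 := (hc δ hδ).tendsto_atTop_zero
    have h2 : Tendsto (fun R : ℕ => δ + (B + |c|) *
        μ.real {x | δ < |lavg a (F R) f x - c|}) atTop (𝓝 (δ + (B + |c|) * 0)) :=
      tendsto_const_nhds.add (h1.const_mul _)
    rw [mul_zero, add_zero] at h2
    exact ge_of_tendsto' h2 (hkey δ hδ)
  have h0 : |∫ x in t, f x ∂μ - μ.real t * c| ≤ 0 := le_of_forall_pos_le_add fun δ hδ => by
    rw [zero_add]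
    exact hlim δ hδ
  exact sub_eq_zero.1 (abs_eq_zero.1 (le_antisymm h0 (abs_nonneg _)))

/-- Convergence along the samples of one functional implies ergodicity. -/
theorem serg (a : V r → G) (μ : Measure X)
    [IsProbabilityMeasure μ] (hμ : ∀ m, μ.map (fun x => a m • x) = μ) (w : V r →+ ℝ)
    (hconv : Sampled a μ w)
    (t : Set X) (ht : MeasurableSet t) (hinv : ∀ m, (fun z => a m • z) ⁻¹' t =ᵐ[μ] t) :
    μ t = 0 ∨ μ tᶜ = 0 := by
  obtain ⟨F, hF, hFc⟩ := hconv 1 1 one_pos one_pos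
  have hall : ∀ θ : C(X, ℝ), HasCompactSupport θ →
      ∫ x in t, θ x ∂μ = μ.real t * ∫ x, θ x ∂μ := by
    intro θ hθ
    have hle : ∀ ε : ℝ, 0 < ε → |∫ x in t, θ x ∂μ - μ.real t * ∫ x, θ x ∂μ| ≤ 2 * ε := by
      intro ε hε
      obtain ⟨f, hf, hfθ, hc⟩ := hFc θ hθ ε hε
      have h1 := one_fun a μ hμ F (fun R => (hF R).1) t hinv f hf hc
      have hiθ := int_cpt μ θ hθ
      have hif := int_cpt μ f hf
      have h2 : |∫ x in t, θ x ∂μ - ∫ x in t, f x ∂μ| ≤ ε := by
        rw [← integral_sub hiθ.integrableOn hif.integrableOn]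
        refine abs_integral_le_integral_abs.trans ?_
        refine (setIntegral_le_integral (hiθ.sub hif).abs
          (Eventually.of_forall fun x => abs_nonneg _)).trans ?_
        refine (integral_mono (hiθ.sub hif).abs (integrable_const ε) hfθ).trans ?_
        simp
      have h3 : |∫ x, θ x ∂μ - ∫ x, f x ∂μ| ≤ ε := by
        rw [← integral_sub hiθ hif]
        refine abs_integral_le_integral_abs.trans ?_
        refine (integral_mono (hiθ.sub hif).abs (integrable_const ε) hfθ).trans ?_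
        simp
      have h4 : 0 ≤ μ.real t := measureReal_nonneg
      have h5 : μ.real t ≤ 1 := measureReal_le_one
      have h6 : ∫ x in t, θ x ∂μ - μ.real t * ∫ x, θ x ∂μ =
          (∫ x in t, θ x ∂μ - ∫ x in t, f x ∂μ) - μ.real t * (∫ x, θ x ∂μ - ∫ x, f x ∂μ) := by
        rw [h1]
        ring
      rw [h6]
      refine (abs_sub _ _).trans ?_
      rw [abs_mul, abs_of_nonneg h4]
      have h7 : μ.real t * |∫ x, θ x ∂μ - ∫ x, f x ∂μ| ≤ 1 * ε :=
        mul_le_mul h5 h3 (abs_nonneg _) (by norm_num)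
      linarith
    have h0 : |∫ x in t, θ x ∂μ - μ.real t * ∫ x, θ x ∂μ| ≤ 0 :=
      le_of_forall_pos_le_add fun δ hδ => by
        rw [zero_add]
        have := hle (δ / 2) (by linarith)
        linarith
    exact sub_eq_zero.1 (abs_eq_zero.1 (le_antisymm h0 (abs_nonneg _)))
  have hmeas : μ.restrict t = (μ t) • μ := by
    have hfin : IsFiniteMeasure ((μ t) • μ) := by
      refine ⟨?_⟩
      rw [Measure.smul_apply, measure_univ, smul_eq_mul, mul_one]
      exact measure_lt_top μ t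
    apply Measure.ext_of_integral_eq_on_compactlySupported
    intro f
    have h1 := hall f.toContinuousMap f.hasCompactSupport
    rw [integral_smul_measure]
    exact h1
  have h1 : μ.restrict t tᶜ = 0 := by
    rw [Measure.restrict_apply ht.compl, Set.compl_inter_self, measure_empty]
  rw [hmeas, Measure.smul_apply, smul_eq_mul, mul_eq_zero] at h1
  exact h1

omit [LocallyCompactSpace X] [T2Space X] [SecondCountableTopology X] in
/-- Complete convergence along the strips is a special case. -/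
theorem sampled_of_cconv (a : V r → G) (μ : Measure X) (w : V r →+ ℝ)
    (hconv : ∀ θ : C(X, ℝ), HasCompactSupport θ → ∀ ε : ℝ, 0 < ε →
      ∃ f : C(X, ℝ), HasCompactSupport f ∧ (∀ x, |θ x - f x| ≤ ε) ∧ CConv a μ w f) :
    Sampled a μ w := by
  intro N η hN hη
  refine ⟨fun R => (strip w N η R).toList, fun R => ⟨?_, fun m hm => Finset.mem_toList.1 hm⟩, ?_⟩
  · have h0 : (0 : V r) ∈ (strip w N η R).toList :=
      Finset.mem_toList.2 (mem_strip.2 ⟨fun i => by simp, fun i => by simp, by simpa using hη⟩)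
    exact List.ne_nil_of_mem h0
  · intro θ hθ ε hε
    obtain ⟨f, h1, h2, h3⟩ := hconv θ hθ ε hε
    refine ⟨f, h1, h2, fun δ hδ => ?_⟩
    simp_rw [lavg_toList]
    exact h3 N η δ hN hη hδ

end erg

end PoolMX
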