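import Mathlib

/-!
MODULE Sep (size M, Mathlib only). A countable family of compactly supported continuous functions which is
dense for the sup norm among all of them, on a second countable locally compact Hausdorff space.

Let `K : CompactExhaustion X` (`CompactExhaustion.choice X`; X is sigma compact). For each `n` choose a
cutoff `χ_n : C(X, ℝ)` with values in `[0,1]`, `χ_n = 1` on `K n`, compact support
(`exists_continuous_one_of_compact_subset_open` or similar). `C(X, ℝ)` with the compact-open topology is second
countable (instance `ContinuousMap.instSecondCountableTopology`), hence separable: a countable dense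
sequence `d i`. Put `D (n, i) = χ_n * d i`. If `θ` has compact support, it is contained in some `K n`
(compact exhaustion: `K.exists_superset_of_isCompact`). `tsupport χ_n` is compact, so the set of `f` with
`|f - θ| < ε` on `tsupport χ_n` is a neighbourhood of `θ` in the compact-open topology
(`ContinuousMap.tendsto_iff_forall_isCompact_tendstoUniformlyOn`, or
`ContinuousMap.hasBasis_nhds ...`) and contains some `d i`. Then for all `x`:
`|θ x - χ_n x d i x| = |χ_n x| |θ x - d i x| ≤ ε` because `θ = χ_n θ` (`χ_n = 1` on the support of `θ`), and both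
sides vanish off `tsupport χ_n`. Encode the pairs `(n, i)` by a natural number (`Nat.unpair`).
-/

set_option autoImplicit false

namespace PoolMX

theorem exists_dense_cc (X : Type*) [TopologicalSpace X] [LocallyCompactSpace X] [T2Space X]
    [SecondCountableTopology X] :
    ∃ D : ℕ → C(X, ℝ), (∀ n, HasCompactSupport (D n)) ∧
      ∀ θ : C(X, ℝ), HasCompactSupport θ → ∀ ε : ℝ, 0 < ε → ∃ n, ∀ x, |θ x - D n x| ≤ ε := by
  classical
  set K : CompactExhaustion X := CompactExhaustion.choice X with hK
  have hcut : ∀ n : ℕ, ∃ χ : C(X, ℝ), Set.EqOn χ 1 (K n) ∧ HasCompactSupport χ ∧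
      ∀ x, χ x ∈ Set.Icc (0 : ℝ) 1 := by
    intro n
    obtain ⟨f, h1, -, h3, h4⟩ := exists_continuous_one_zero_of_isCompact (K.isCompact n)
      (isClosed_empty) (by simp : Disjoint (K n) (∅ : Set X))
    exact ⟨f, h1, h3, h4⟩
  choose χ hχ1 hχ2 hχ3 using hcut
  set d : ℕ → C(X, ℝ) := TopologicalSpace.denseSeq C(X, ℝ) with hd
  refine ⟨fun m => χ m.unpair.1 * d m.unpair.2, fun m => ?_, fun θ hθ ε hε => ?_⟩
  · exact (hχ2 m.unpair.1).mul_right
  obtain ⟨n, hn⟩ := K.exists_superset_of_isCompact hθ
  have hden := TopologicalSpace.denseRange_denseSeq C(X, ℝ)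
  set U : Set C(X, ℝ) := {f | ∀ x ∈ tsupport (χ n), dist (θ x) (f x) < ε} with hU
  have hUn : U ∈ nhds θ := by
    have h1 := ContinuousMap.tendsto_iff_forall_isCompact_tendstoUniformlyOn.mp
      (Filter.tendsto_id (x := nhds θ)) (tsupport (χ n)) (hχ2 n)
    rw [Metric.tendstoUniformlyOn_iff] at h1
    exact h1 ε hε
  obtain ⟨i, hi⟩ := hden.exists_mem_open isOpen_interior ⟨θ, mem_interior_iff_mem_nhds.mpr hUn⟩
  have hi' := interior_subset hi
  refine ⟨Nat.pair n i, fun x => ?_⟩
  simp only [Nat.unpair_pair, ContinuousMap.mul_apply]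
  by_cases hx : x ∈ tsupport (χ n)
  · have h1 : |θ x - d i x| < ε := by
      have := hi' x hx
      rwa [Real.dist_eq] at this
    have h2 : θ x = χ n x * θ x := by
      by_cases hx2 : x ∈ tsupport θ
      · rw [hχ1 n (hn hx2)]; simp
      · rw [image_eq_zero_of_notMem_tsupport hx2]; simp
    have h3 : θ x - χ n x * d i x = χ n x * (θ x - d i x) := by
      rw [mul_sub, ← h2]
    rw [h3, abs_mul, abs_of_nonneg (hχ3 n x).1]
    calc χ n x * |θ x - d i x| ≤ 1 * |θ x - d i x| :=
          mul_le_mul_of_nonneg_right (hχ3 n x).2 (abs_nonneg _)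
      _ ≤ ε := by linarith
  · have h1 : χ n x = 0 := image_eq_zero_of_notMem_tsupport hx
    have h2 : θ x = 0 := by
      by_contra h
      have hx2 : x ∈ tsupport θ := subset_tsupport _ h
      have := hχ1 n (hn hx2)
      rw [h1] at this
      simp at this
    rw [h1, h2]
    simp [hε.le]

end PoolMX
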