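import Pool.Agent.Work.MP_67388f_an.MX.Defs

/-!
MODULE Slow (size M-L). Elementary: characters of `V r` with values in a field which are almost constant on strips.

(1) `slow_real`: `χ : V r → ℝ` multiplicative (`χ (m+m') = χ m * χ m'`, `χ m ≠ 0`) with `log |χ m| = l * w m`, `l > 0`. For `m` with
all coordinates even, `m = 2 m'`, `χ m = (χ m')² > 0`, so `χ m = exp (l * w m)`, and `|w m| < η` gives
`|χ m - 1| ≤ exp (l η) - 1 ≤ ε` for small `η` (continuity of `exp` at `0`). `N = 2`; the statement asks for one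
`N₀` such that all multiples `N` of `N₀` work (same proof: `2 ∣ N ∣ m i`).

(2) `slow_padic`: `χ : V r → ℚ_[p]` multiplicative, nonzero, `log ‖χ m‖ = l * w m`, `l > 0`. Take `η ≤ log p / l`: `‖χ m‖` is a power
of `p` (`padicNormE.norm... = p^(-valuation)`, `Padic.norm_eq_zpow_neg_valuation`) with `|log ‖χ m‖| < log p`, so `‖χ m‖ = 1`. If
`m = N m'` then `χ m = (χ m')^N` (multiplicativity), `‖χ m'‖^N = 1`, so `‖χ m'‖ = 1`. For a unit `x` (`‖x‖ = 1`) and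
`N = (p-1) p^K`: `‖x^N - 1‖ ≤ p^(-K)`... : `x^(p-1) ≡ 1 mod p` (reduction mod `p`: `PadicInt.toZMod`, `ZMod.pow_card_sub_one_eq_one`),
and `‖y - 1‖ ≤ p^(-k)` with `k ≥ 1` implies `‖y^p - 1‖ ≤ p^(-k-1)` (binomial theorem / `y^p - 1 = (y-1)(1 + y + ... + y^(p-1))` and the
second factor is `≡ p ≡ 0 mod p`, norm `≤ 1/p`). So for every `ε` there is `K`. If `N₀ ∣ N` then `x^N - 1` is a multiple of
`x^(N₀) - 1` by an element of norm `≤ 1`. (Alternative: `ZMod (p^K)` units have order dividing `φ(p^K)`: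
`ZMod.pow_totient` through `PadicInt.toZModPow K`; then `x^N ≡ 1 mod p^K`, `‖x^N - 1‖ ≤ p^(-K)` by
`PadicInt.norm_le_pow_iff_mem_span_pow` / `PadicInt.ker_toZModPow`.) This alternative is shorter: `N₀ = φ(p^K)`.
-/

set_option autoImplicit false

namespace PoolMX

private theorem char_zero {F : Type*} [Field F] {r : ℕ} {χ : V r → F}
    (h1 : ∀ m m', χ (m + m') = χ m * χ m') (h2 : ∀ m, χ m ≠ 0) : χ 0 = 1 := by
  have h := h1 0 0
  rw [add_zero] at h
  exact (mul_eq_left₀ (h2 0)).1 h.symm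

private theorem char_nsmul {F : Type*} [Field F] {r : ℕ} {χ : V r → F}
    (h1 : ∀ m m', χ (m + m') = χ m * χ m') (h2 : ∀ m, χ m ≠ 0) (n : ℕ) (m : V r) :
    χ (n • m) = χ m ^ n := by
  induction n with
  | zero => rw [zero_smul, pow_zero, char_zero h1 h2]
  | succ n ih => rw [succ_nsmul, h1, ih, pow_succ]

private theorem exists_div {r : ℕ} {N : ℕ} {m : V r} (h : ∀ i, (N : ℤ) ∣ m i) :
    ∃ m' : V r, m = N • m' := by
  refine ⟨fun i => m i / N, ?_⟩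
  funext i
  rw [Pi.smul_apply, nsmul_eq_mul]
  exact (Int.mul_ediv_cancel' (h i)).symm

theorem slow_real {r : ℕ} (w : V r →+ ℝ) (l : ℝ) (hl : 0 < l) (ε : ℝ) (hε : 0 < ε) :
    ∃ N₀ : ℕ, 0 < N₀ ∧ ∃ η : ℝ, 0 < η ∧ ∀ χ : V r → ℝ,
      (∀ m m', χ (m + m') = χ m * χ m') → (∀ m, χ m ≠ 0) → (∀ m, Real.log ‖χ m‖ = l * w m) →
      ∀ N : ℕ, N₀ ∣ N → ∀ m : V r, (∀ i, (N : ℤ) ∣ m i) → |w m| < η → ‖χ m - 1‖ ≤ ε := by
  have hlog : 0 < Real.log (1 + ε) := Real.log_pos (by linarith)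
  refine ⟨2, by norm_num, Real.log (1 + ε) / l, div_pos hlog hl, fun χ h1 h2 h3 N hN m hm hw => ?_⟩
  obtain ⟨k, rfl⟩ := hN
  obtain ⟨m', hm'⟩ := exists_div hm
  have hpos : 0 < χ m := by
    rw [hm', char_nsmul h1 h2, pow_mul]
    have h5 : 0 < χ m' ^ 2 := by
      have := h2 m'
      positivity
    exact pow_pos h5 _
  have hexp : χ m = Real.exp (l * w m) := by
    rw [← h3, Real.norm_of_nonneg hpos.le, Real.exp_log hpos]
  rw [lt_div_iff₀ hl, mul_comm] at hw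
  have habs : |l * w m| < Real.log (1 + ε) := by
    rw [abs_mul, abs_of_pos hl]
    exact hw
  obtain ⟨ha, hb⟩ := abs_lt.1 habs
  rw [Real.norm_eq_abs, hexp, abs_le]
  constructor
  · have h4 : Real.exp (-Real.log (1 + ε)) ≤ Real.exp (l * w m) := Real.exp_le_exp.2 ha.le
    rw [Real.exp_neg, Real.exp_log (by linarith)] at h4
    have h5 : 1 - ε ≤ (1 + ε)⁻¹ := by
      rw [← one_div, le_div_iff₀ (by linarith)]
      nlinarith
    linarith
  · have h4 : Real.exp (l * w m) ≤ Real.exp (Real.log (1 + ε)) := Real.exp_le_exp.2 hb.le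
    rw [Real.exp_log (by linarith)] at h4
    linarith

private theorem unit_pow {p : ℕ} [Fact p.Prime] (K : ℕ) {u : ℚ_[p]} (hu : ‖u‖ = 1) :
    ‖u ^ (p ^ K).totient - 1‖ ≤ (p : ℝ) ^ (-(K : ℤ)) := by
  let x : ℤ_[p] := ⟨u, hu.le⟩
  have hx : IsUnit x := PadicInt.isUnit_iff.2 hu
  have h1 : PadicInt.toZModPow K (x ^ (p ^ K).totient - 1) = 0 := by
    obtain ⟨y, hy⟩ := hx.map (PadicInt.toZModPow (p := p) K)
    rw [map_sub, map_pow, map_one, ← hy, ← Units.val_pow_eq_pow_val, ZMod.pow_totient,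
      Units.val_one, sub_self]
  have h2 : x ^ (p ^ K).totient - 1 ∈ RingHom.ker (PadicInt.toZModPow (p := p) K) := h1
  rw [PadicInt.ker_toZModPow, ← PadicInt.norm_le_pow_iff_mem_span_pow] at h2
  exact h2

theorem slow_padic {p : ℕ} [Fact p.Prime] {r : ℕ} (w : V r →+ ℝ) (l : ℝ) (hl : 0 < l) (ε : ℝ)
    (hε : 0 < ε) :
    ∃ N₀ : ℕ, 0 < N₀ ∧ ∃ η : ℝ, 0 < η ∧ ∀ χ : V r → ℚ_[p],
      (∀ m m', χ (m + m') = χ m * χ m') → (∀ m, χ m ≠ 0) → (∀ m, Real.log ‖χ m‖ = l * w m) →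
      ∀ N : ℕ, N₀ ∣ N → ∀ m : V r, (∀ i, (N : ℤ) ∣ m i) → |w m| < η → ‖χ m - 1‖ ≤ ε := by
  have hp : 1 < (p : ℝ) := by exact_mod_cast (Fact.out : p.Prime).one_lt
  have hlog : 0 < Real.log p := Real.log_pos hp
  obtain ⟨K, hK⟩ := exists_pow_lt_of_lt_one hε (inv_lt_one_of_one_lt₀ hp)
  have htot : 0 < (p ^ K).totient := Nat.totient_pos.2 (pow_pos (Fact.out : p.Prime).pos K)
  refine ⟨(p ^ K).totient, htot, Real.log p / l, div_pos hlog hl,
    fun χ h1 h2 h3 N hN m hm hw => ?_⟩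
  have hnorm : ‖χ m‖ = 1 := by
    have h4 := h3 m
    rw [Padic.norm_eq_zpow_neg_valuation (h2 m), Real.log_zpow] at h4
    have h5 : |l * w m| < Real.log p := by
      rw [abs_mul, abs_of_pos hl, mul_comm]
      rwa [lt_div_iff₀ hl] at hw
    rw [← h4, abs_mul, abs_of_pos hlog] at h5
    have h6 : |((-(χ m).valuation : ℤ) : ℝ)| < 1 := by
      by_contra h7
      have := mul_le_mul_of_nonneg_right (not_lt.1 h7) hlog.le
      linarith
    have h7 : |(-(χ m).valuation : ℤ)| < 1 := by exact_mod_cast h6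
    have h8 : (-(χ m).valuation : ℤ) = 0 := Int.abs_lt_one_iff.1 h7
    rw [Padic.norm_eq_zpow_neg_valuation (h2 m), h8, zpow_zero]
  obtain ⟨m', hm'⟩ := exists_div hm
  obtain ⟨k, hk⟩ := hN
  have hχ : χ m = (χ m' ^ k) ^ (p ^ K).totient := by
    rw [hm', char_nsmul h1 h2, hk, mul_comm, pow_mul]
  have hu : ‖χ m' ^ k‖ = 1 := by
    rw [hχ, norm_pow] at hnorm
    exact (pow_eq_one_iff_of_nonneg (norm_nonneg _) htot.ne').1 hnorm
  rw [hχ]
  refine (unit_pow K hu).trans ?_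
  rw [zpow_neg, zpow_natCast, ← inv_pow]
  exact hK.le

end PoolMX
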