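import Mathlib

/-!
# A continuous function supported in `[-1, 1]` with nonnegative integrable Fourier transform
-/

set_option autoImplicit false

namespace PoolMX

open MeasureTheory Filter Topology FourierTransform Convolution ContinuousLinearMap

/-- a bump function -/
private noncomputable def bmp : ContDiffBump (0 : ℝ) := ⟨1 / 4, 1 / 2, by norm_num, by norm_num⟩

private lemma bmp_cd : ContDiff ℝ (⊤ : ℕ∞) fun x => ((bmp x : ℝ) : ℂ) :=
  Complex.ofRealCLM.contDiff.comp bmp.contDiff

private lemma bmp_cs : HasCompactSupport fun x => ((bmp x : ℝ) : ℂ) :=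
  bmp.hasCompactSupport.comp_left Complex.ofReal_zero

private noncomputable def bS : SchwartzMap ℝ ℂ := bmp_cs.toSchwartzMap bmp_cd

private lemma bS_apply (x : ℝ) : bS x = ((bmp x : ℝ) : ℂ) := rfl

private lemma bS_four_conj (s : ℝ) : (starRingEnd ℂ) (𝓕 bS s) = 𝓕 bS s := by
  rw [SchwartzMap.fourier_coe, Real.fourier_real_eq_integral_exp_smul, ← integral_conj]
  rw [← integral_neg_eq_self]
  refine integral_congr_ae (ae_of_all _ fun x => ?_)
  simp only [smul_eq_mul, map_mul, bS_apply, Complex.conj_ofReal, bmp.neg, ← Complex.exp_conj]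
  congr 2
  simp only [map_mul, Complex.conj_ofReal, Complex.conj_I]
  push_cast
  ring

/-- A continuous function supported in `[-1, 1]` with nonnegative integrable Fourier transform. -/
theorem exists_bump : ∃ χ g : ℝ → ℝ, (∀ t, 0 ≤ χ t) ∧ (∀ t, 1 ≤ |t| → χ t = 0) ∧ Continuous χ ∧
    0 < χ 0 ∧ (∀ s, 0 ≤ g s) ∧ Continuous g ∧ Integrable g ∧
    ∀ t, ((χ t : ℝ) : ℂ) = ∫ s, (g s : ℂ) * Complex.exp (2 * Real.pi * Complex.I * (s * t)) := by
  set ψ : SchwartzMap ℝ ℂ := SchwartzMap.convolution (mul ℂ ℂ) bS bS with hψ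
  set g : ℝ → ℝ := fun s => ‖𝓕 bS s‖ ^ 2 with hg
  set χ : ℝ → ℝ := fun t => ∫ x, bmp x * bmp (t - x) with hχ
  have hψχ : ∀ t, ψ t = ((χ t : ℝ) : ℂ) := by
    intro t
    rw [hψ, SchwartzMap.convolution_apply, convolution_def, hχ]
    simp only [mul_apply', bS_apply]
    rw [← integral_complex_ofReal]
    refine integral_congr_ae (ae_of_all _ fun x => ?_)
    simp
  have hFψ : ∀ s, 𝓕 ψ s = ((g s : ℝ) : ℂ) := by
    intro s
    rw [hψ, SchwartzMap.fourier_convolution, SchwartzMap.pairing_apply_apply, mul_apply', hg]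
    simp only
    rw [← Complex.normSq_eq_norm_sq, ← Complex.mul_conj, bS_four_conj]
  refine ⟨χ, g, fun t => ?_, fun t ht => ?_, ?_, ?_, fun s => by positivity, ?_, ?_, fun t => ?_⟩
  · exact integral_nonneg fun x => mul_nonneg bmp.nonneg bmp.nonneg
  · rw [hχ]
    simp only
    rw [integral_eq_zero_of_ae (ae_of_all _ fun x => ?_)]
    by_contra hne
    have h1 : bmp x ≠ 0 ∧ bmp (t - x) ≠ 0 := by
      constructor <;> intro h <;> apply hne <;> simp [h]
    have h2 : |x| < 1 / 2 := by
      by_contra h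
      push Not at h
      exact h1.1 (bmp.zero_of_le_dist (by rw [Real.dist_eq, sub_zero]; exact h))
    have h3 : |t - x| < 1 / 2 := by
      by_contra h
      push Not at h
      exact h1.2 (bmp.zero_of_le_dist (by rw [Real.dist_eq, sub_zero]; exact h))
    have h4 : |t| ≤ |t - x| + |x| := by
      have := abs_add_le (t - x) x
      simpa using this
    linarith
  · have h1 : Continuous fun t => (ψ t).re := Complex.continuous_re.comp ψ.continuous
    refine h1.congr fun t => ?_
    rw [hψχ, Complex.ofReal_re]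
  · rw [hχ]
    simp only [zero_sub, bmp.neg]
    have hc : Continuous fun x => bmp x * bmp x := bmp.continuous.mul bmp.continuous
    refine hc.integral_pos_of_hasCompactSupport_nonneg_nonzero
      (bmp.hasCompactSupport.mul_left) (fun x => mul_nonneg bmp.nonneg bmp.nonneg) (x := 0) ?_
    have h1 : bmp (0 : ℝ) = 1 := bmp.one_of_mem_closedBall (by simp [bmp])
    rw [h1]
    norm_num
  · exact ((𝓕 bS).continuous.norm).pow 2
  · have h1 : Integrable fun s => (𝓕 ψ s).re := (𝓕 ψ).integrable.re
    refine h1.congr (ae_of_all _ fun s => ?_)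
    simp only [hFψ, Complex.ofReal_re]
  · rw [← hψχ]
    have h1 : ψ = 𝓕⁻ (𝓕 ψ) := by simp
    conv_lhs => rw [h1]
    rw [SchwartzMap.fourierInv_coe, Real.fourierInv_eq']
    refine integral_congr_ae (ae_of_all _ fun s => ?_)
    simp only [hFψ, smul_eq_mul]
    rw [mul_comm]
    congr 2
    simp
    ring

end PoolMX
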