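import Pool.Agent.Work.MP_67388f_an.MX.Defs

/-!
# Exponential sums over boxes
-/

set_option autoImplicit false

namespace PoolMX

open MeasureTheory Filter Topology

/-- the character of `m` -/
noncomputable def chr {r : ℕ} (m : V r) (y : Fin r → ℝ) : ℂ :=
  Complex.exp (2 * Real.pi * Complex.I * ((∑ i, (m i : ℝ) * y i : ℝ) : ℂ))

lemma chr_add {r : ℕ} (m m' : V r) (y : Fin r → ℝ) : chr (m + m') y = chr m y * chr m' y := by
  unfold chr
  rw [← Complex.exp_add]
  congr 1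
  rw [← mul_add]
  congr 1
  rw [← Complex.ofReal_add, ← Finset.sum_add_distrib]
  congr 1
  refine Finset.sum_congr rfl fun i _ => ?_
  rw [Pi.add_apply]
  push_cast
  ring

lemma chr_conj {r : ℕ} (m : V r) (y : Fin r → ℝ) : (starRingEnd ℂ) (chr m y) = chr (-m) y := by
  unfold chr
  rw [← Complex.exp_conj]
  congr 1
  simp only [map_mul, Complex.conj_ofReal, Complex.conj_I, map_ofNat]
  have h : (∑ i, ((-m) i : ℝ) * y i) = -∑ i, (m i : ℝ) * y i := by
    rw [← Finset.sum_neg_distrib]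
    refine Finset.sum_congr rfl fun i _ => ?_
    rw [Pi.neg_apply]
    push_cast
    ring
  rw [h]
  push_cast
  ring

lemma chr_sub {r : ℕ} (m m' : V r) (y : Fin r → ℝ) :
    chr (m - m') y = chr m y * (starRingEnd ℂ) (chr m' y) := by
  rw [sub_eq_add_neg, chr_add, chr_conj]

lemma norm_chr {r : ℕ} (m : V r) (y : Fin r → ℝ) : ‖chr m y‖ = 1 := by
  unfold chr
  rw [show (2 * Real.pi * Complex.I * ((∑ i, (m i : ℝ) * y i : ℝ) : ℂ)) =
    ((2 * Real.pi * ∑ i, (m i : ℝ) * y i : ℝ) : ℂ) * Complex.I by push_cast; ring]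
  exact Complex.norm_exp_ofReal_mul_I _

lemma chr_re {r : ℕ} (m : V r) (y : Fin r → ℝ) :
    (chr m y).re = Real.cos (2 * Real.pi * ∑ i, (m i : ℝ) * y i) := by
  unfold chr
  rw [show (2 * Real.pi * Complex.I * ((∑ i, (m i : ℝ) * y i : ℝ) : ℂ)) =
    ((2 * Real.pi * ∑ i, (m i : ℝ) * y i : ℝ) : ℂ) * Complex.I by push_cast; ring]
  exact Complex.exp_ofReal_mul_I_re _

lemma continuous_chr {r : ℕ} (m : V r) : Continuous (chr m) := by
  unfold chr
  fun_prop

/-! ### one variable -/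

lemma norm_one_sub (t : ℝ) :
    4 * |t - round t| ≤ ‖Complex.exp (2 * Real.pi * Complex.I * (t : ℂ)) - 1‖ := by
  have h1 : Complex.exp (2 * Real.pi * Complex.I * (t : ℂ)) =
      Complex.exp (Complex.I * ((2 * Real.pi * (t - round t) : ℝ) : ℂ)) := by
    have h2 : (2 * Real.pi * Complex.I * (t : ℂ)) =
        Complex.I * ((2 * Real.pi * (t - round t) : ℝ) : ℂ) +
          (round t : ℤ) * (2 * Real.pi * Complex.I) := by
      push_cast
      ring
    rw [h2, Complex.exp_add, Complex.exp_int_mul_two_pi_mul_I, mul_one]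
  rw [h1, Complex.norm_exp_I_mul_ofReal_sub_one]
  rw [norm_mul, Real.norm_eq_abs, Real.norm_eq_abs]
  have h3 : (2 * Real.pi * (t - round t)) / 2 = Real.pi * (t - round t) := by ring
  rw [h3]
  have h4 : |t - round t| ≤ 1 / 2 := abs_sub_round t
  have h5 : |Real.sin (Real.pi * (t - round t))| = Real.sin (Real.pi * |t - round t|) := by
    rcases le_total 0 (t - round t) with h | h
    · rw [abs_of_nonneg h, abs_of_nonneg]
      refine Real.sin_nonneg_of_nonneg_of_le_pi (by positivity) ?_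
      rw [abs_of_nonneg h] at h4
      nlinarith [Real.pi_pos]
    · rw [abs_of_nonpos h, mul_neg, Real.sin_neg, abs_of_nonpos]
      have h6 : 0 ≤ Real.sin (Real.pi * -(t - round t)) := by
        rw [abs_of_nonpos h] at h4
        refine Real.sin_nonneg_of_nonneg_of_le_pi (mul_nonneg Real.pi_pos.le (by linarith)) ?_
        nlinarith [Real.pi_pos]
      rw [mul_neg, Real.sin_neg] at h6
      linarith
  rw [h5, abs_of_pos (by norm_num : (0 : ℝ) < 2)]
  have h7 := Real.mul_le_sin (x := Real.pi * |t - round t|) (by positivity)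
    (by nlinarith [Real.pi_pos])
  have h8 : 2 / Real.pi * (Real.pi * |t - round t|) = 2 * |t - round t| := by
    field_simp
  rw [h8] at h7
  linarith

/-- one variable sum -/
noncomputable def gs (L : ℕ) (t : ℝ) : ℂ :=
  ∑ k : Fin L, Complex.exp (2 * Real.pi * Complex.I * (((k : ℕ) * t : ℝ) : ℂ))

lemma norm_gs_le (L : ℕ) (t : ℝ) : ‖gs L t‖ ≤ L := by
  unfold gs
  refine (norm_sum_le _ _).trans ?_
  have h : ∀ k : Fin L, ‖Complex.exp (2 * Real.pi * Complex.I * (((k : ℕ) * t : ℝ) : ℂ))‖ = 1 := by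
    intro k
    rw [show (2 * Real.pi * Complex.I * (((k : ℕ) * t : ℝ) : ℂ)) =
      ((2 * Real.pi * ((k : ℕ) * t) : ℝ) : ℂ) * Complex.I by push_cast; ring]
    exact Complex.norm_exp_ofReal_mul_I _
  rw [Finset.sum_congr rfl fun k _ => h k]
  simp

lemma norm_gs_mul_le (L : ℕ) (t : ℝ) : ‖gs L t‖ * (2 * |t - round t|) ≤ 1 := by
  set z := Complex.exp (2 * Real.pi * Complex.I * (t : ℂ)) with hz
  have hz1 : ‖z‖ = 1 := by
    rw [hz, show (2 * Real.pi * Complex.I * (t : ℂ)) =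
      ((2 * Real.pi * t : ℝ) : ℂ) * Complex.I by push_cast; ring]
    exact Complex.norm_exp_ofReal_mul_I _
  have h1 : gs L t = ∑ k ∈ Finset.range L, z ^ k := by
    unfold gs
    rw [Finset.sum_range]
    refine Finset.sum_congr rfl fun k _ => ?_
    rw [hz, ← Complex.exp_nat_mul]
    congr 1
    push_cast
    ring
  have h2 : gs L t * (z - 1) = z ^ L - 1 := by
    rw [h1]
    exact geom_sum_mul z L
  have h3 : ‖gs L t‖ * ‖z - 1‖ ≤ 2 := by
    rw [← norm_mul, h2]
    refine (norm_sub_le _ _).trans ?_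
    rw [norm_pow, hz1]
    norm_num
  have h4 := norm_one_sub t
  have h5 := mul_le_mul_of_nonneg_left h4 (norm_nonneg (gs L t))
  rw [← hz] at h5
  nlinarith

/-- the comparison kernel -/
noncomputable def ker (z : ℝ) : ℝ := 2 / (1 + z ^ 2)

lemma ker_nonneg (z : ℝ) : 0 ≤ ker z := by
  unfold ker
  positivity

lemma norm_gs_sq_le (L : ℕ) (t : ℝ) :
    ‖gs L t‖ ^ 2 ≤ (L : ℝ) ^ 2 * ker (2 * L * |t - round t|) := by
  have h1 := norm_gs_le L t
  have h2 := norm_gs_mul_le L t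
  have h0 : 0 ≤ ‖gs L t‖ := norm_nonneg _
  have h3 : ‖gs L t‖ ^ 2 ≤ (L : ℝ) ^ 2 := pow_le_pow_left₀ h0 h1 2
  have h4 : (‖gs L t‖ * (2 * |t - round t|)) ^ 2 ≤ 1 := by
    refine pow_le_one₀ ?_ h2
    positivity
  unfold ker
  rw [mul_div_assoc', le_div_iff₀ (by positivity)]
  have h5 : ‖gs L t‖ ^ 2 * (2 * L * |t - round t|) ^ 2 =
      (L : ℝ) ^ 2 * (‖gs L t‖ * (2 * |t - round t|)) ^ 2 := by ring
  rw [mul_add, mul_one, h5]
  have h6 : (L : ℝ) ^ 2 * (‖gs L t‖ * (2 * |t - round t|)) ^ 2 ≤ (L : ℝ) ^ 2 * 1 :=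
    mul_le_mul_of_nonneg_left h4 (by positivity)
  linarith

/-! ### boxes -/

/-- points of the box as integer vectors -/
def bx {r L : ℕ} (b : Fin r → Fin L) : V r := fun i => ((b i : ℕ) : ℤ)

/-- the exponential sum of the box -/
noncomputable def bsum {r : ℕ} (L : ℕ) (y : Fin r → ℝ) : ℂ := ∑ b : Fin r → Fin L, chr (bx b) y

lemma bsum_eq {r : ℕ} (L : ℕ) (y : Fin r → ℝ) : bsum L y = ∏ i, gs L (y i) := by
  unfold bsum gs
  rw [Finset.prod_univ_sum, Fintype.piFinset_univ]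
  refine Finset.sum_congr rfl fun b _ => ?_
  rw [← Complex.exp_sum]
  unfold chr
  congr 1
  rw [← Finset.mul_sum, ← Complex.ofReal_sum]
  congr 2

lemma norm_bsum_sq_le {r : ℕ} (L : ℕ) (y : Fin r → ℝ) (i : Fin r) :
    ‖bsum L y‖ ^ 2 ≤ (L : ℝ) ^ (2 * r) * ker (2 * L * |y i - round (y i)|) := by
  rw [bsum_eq, norm_prod, ← Finset.prod_pow, ← Finset.mul_prod_erase _ _ (Finset.mem_univ i)]
  have h1 := norm_gs_sq_le L (y i)
  have h2 : ∏ j ∈ Finset.univ.erase i, ‖gs L (y j)‖ ^ 2 ≤ ((L : ℝ) ^ 2) ^ (r - 1) := by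
    have h3 : ∏ j ∈ Finset.univ.erase i, ‖gs L (y j)‖ ^ 2 ≤
        ∏ _j ∈ Finset.univ.erase i, (L : ℝ) ^ 2 :=
      Finset.prod_le_prod (fun j _ => by positivity) fun j _ =>
        pow_le_pow_left₀ (norm_nonneg _) (norm_gs_le L (y j)) 2
    rw [Finset.prod_const, Finset.card_erase_of_mem (Finset.mem_univ i), Finset.card_univ,
      Fintype.card_fin] at h3
    exact h3
  have hr : 1 ≤ r := i.pos
  calc ‖gs L (y i)‖ ^ 2 * ∏ j ∈ Finset.univ.erase i, ‖gs L (y j)‖ ^ 2
      ≤ ((L : ℝ) ^ 2 * ker (2 * L * |y i - round (y i)|)) * ((L : ℝ) ^ 2) ^ (r - 1) :=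
        mul_le_mul h1 h2 (Finset.prod_nonneg fun j _ => by positivity)
          (mul_nonneg (by positivity) (ker_nonneg _))
    _ = (L : ℝ) ^ (2 * r) * ker (2 * L * |y i - round (y i)|) := by
        have h4 : (L : ℝ) ^ (2 * r) = (L : ℝ) ^ 2 * ((L : ℝ) ^ 2) ^ (r - 1) := by
          rw [← pow_succ', pow_mul]
          congr 1
          omega
        rw [h4]
        ring

/-- quadruples of points of the box -/
abbrev Quad (r L : ℕ) : Type :=
  ((Fin r → Fin L) × (Fin r → Fin L)) × ((Fin r → Fin L) × (Fin r → Fin L))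

/-- the vector of the quadruple -/
def qv {r L : ℕ} (Q : Quad r L) : V r := (bx Q.1.1 + bx Q.1.2) - (bx Q.2.1 + bx Q.2.2)

lemma sum_chr_qv {r : ℕ} (L : ℕ) (y : Fin r → ℝ) :
    ∑ Q : Quad r L, chr (qv Q) y = ((‖bsum L y‖ ^ 4 : ℝ) : ℂ) := by
  have h1 : ∑ p : (Fin r → Fin L) × (Fin r → Fin L), chr (bx p.1 + bx p.2) y = bsum L y ^ 2 := by
    rw [Fintype.sum_prod_type, sq]
    unfold bsum
    rw [Finset.sum_mul_sum]
    exact Finset.sum_congr rfl fun b _ => Finset.sum_congr rfl fun b' _ => chr_add _ _ _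
  have h2 : ∑ Q : Quad r L, chr (qv Q) y =
      (∑ p : (Fin r → Fin L) × (Fin r → Fin L), chr (bx p.1 + bx p.2) y) *
        (starRingEnd ℂ) (∑ p : (Fin r → Fin L) × (Fin r → Fin L), chr (bx p.1 + bx p.2) y) := by
    rw [map_sum, Finset.sum_mul_sum, Fintype.sum_prod_type]
    exact Finset.sum_congr rfl fun b _ => Finset.sum_congr rfl fun b' _ => chr_sub _ _ _
  rw [h2, h1, Complex.mul_conj, Complex.normSq_eq_norm_sq, norm_pow]
  congr 1
  ring

lemma abs_qv_le {r L : ℕ} (Q : Quad r L) (i : Fin r) : |qv Q i| ≤ 2 * ((L : ℤ) - 1) := by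
  have h : ∀ (b : Fin r → Fin L), 0 ≤ bx b i ∧ bx b i ≤ (L : ℤ) - 1 := by
    intro b
    unfold bx
    have := (b i).isLt
    omega
  have h1 := h Q.1.1
  have h2 := h Q.1.2
  have h3 := h Q.2.1
  have h4 := h Q.2.2
  unfold qv
  simp only [Pi.sub_apply, Pi.add_apply]
  rw [abs_le]
  constructor <;> linarith [h1.1, h1.2, h2.1, h2.2, h3.1, h3.2, h4.1, h4.2]

/-! ### counting -/

theorem quad_weight {r : ℕ} (ω : Fin r → ℝ) (χ : ℝ → ℝ) (hχ0 : ∀ t, 0 ≤ χ t)
    (hχc : Continuous χ) (hχ : 0 < χ 0) :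
    ∃ c : ℝ, 0 < c ∧ ∀ L : ℕ, 1 ≤ L →
      c * (L : ℝ) ^ (4 * r) ≤ L * ∑ Q : Quad r L, χ (∑ i, ω i * (qv Q i : ℝ)) := by
  classical
  obtain ⟨η, hη, hχη⟩ : ∃ η : ℝ, 0 < η ∧ ∀ t, |t| < η → χ 0 / 2 < χ t := by
    have h1 := Metric.continuous_iff.1 hχc 0 (χ 0 / 2) (by positivity)
    obtain ⟨η, hη, h2⟩ := h1
    refine ⟨η, hη, fun t ht => ?_⟩
    have h3 := h2 t (by rw [Real.dist_eq, sub_zero]; exact ht)
    rw [Real.dist_eq, abs_lt] at h3
    linarith [h3.1]
  set W : ℝ := ∑ i, |ω i| with hW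
  have hW0 : 0 ≤ W := Finset.sum_nonneg fun i _ => abs_nonneg _
  -- number of cells is at most `C L`
  set C : ℝ := 4 * W / η + 5 with hC
  have hC0 : 0 < C := by positivity
  refine ⟨χ 0 / 2 / C, by positivity, fun L hL => ?_⟩
  have hL1 : (1 : ℝ) ≤ L := by exact_mod_cast hL
  set u : (Fin r → Fin L) × (Fin r → Fin L) → ℝ := fun p =>
    ∑ i, ω i * ((bx p.1 + bx p.2) i : ℝ) with hu
  have hub : ∀ p, |u p| ≤ 2 * W * L := by
    intro p
    rw [hu]
    refine (Finset.abs_sum_le_sum_abs _ _).trans ?_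
    have h2 : ∀ i, |ω i * ((bx p.1 + bx p.2) i : ℝ)| ≤ |ω i| * (2 * L) := by
      intro i
      rw [abs_mul]
      refine mul_le_mul_of_nonneg_left ?_ (abs_nonneg _)
      have h3 := (p.1 i).isLt
      have h4 := (p.2 i).isLt
      have h5 : |((bx p.1 + bx p.2) i : ℤ)| ≤ 2 * (L : ℤ) := by
        rw [Pi.add_apply]
        unfold bx
        rw [abs_le]
        constructor <;> omega
      exact_mod_cast h5
    refine (Finset.sum_le_sum fun i _ => h2 i).trans (le_of_eq ?_)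
    rw [← Finset.sum_mul, hW]
    ring
  set K : ℕ := ⌈2 * W * L / η⌉₊ + 1 with hK
  set S : Finset ℤ := Finset.Icc (-(K : ℤ)) K with hS
  set cell : (Fin r → Fin L) × (Fin r → Fin L) → ℤ := fun p => ⌊u p / η⌋ with hcell
  have hmem : ∀ p, cell p ∈ S := by
    intro p
    rw [hS, Finset.mem_Icc]
    have h1 := abs_le.1 (hub p)
    have h2 : 2 * W * L / η ≤ (⌈2 * W * L / η⌉₊ : ℝ) := Nat.le_ceil _
    have h3 : u p / η ≤ 2 * W * L / η := div_le_div_of_nonneg_right h1.2 hη.le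
    have h4 : -(2 * W * L / η) ≤ u p / η := by
      rw [← neg_div]
      exact div_le_div_of_nonneg_right h1.1 hη.le
    constructor
    · rw [hcell]
      simp only
      rw [Int.le_floor]
      push_cast
      rw [hK]
      push_cast
      linarith
    · have h5 : (cell p : ℝ) ≤ u p / η := Int.floor_le _
      have h6 : (cell p : ℝ) ≤ (K : ℤ) := by
        rw [hK]
        push_cast
        linarith
      exact_mod_cast h6
  have hcardS : (S.card : ℝ) ≤ C * L := by
    rw [hS, Int.card_Icc]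
    have h1 : ((K : ℤ) + 1 - -(K : ℤ)).toNat = 2 * K + 1 := by omega
    rw [h1]
    have h2 : (⌈2 * W * L / η⌉₊ : ℝ) < 2 * W * L / η + 1 := Nat.ceil_lt_add_one (by positivity)
    push_cast
    rw [hK]
    push_cast
    have h3 : C * L = 2 * (2 * W * L / η) + 5 * L := by
      rw [hC]
      field_simp
      ring
    rw [h3]
    linarith
  -- Cauchy-Schwarz
  have hcs := sq_sum_le_card_mul_sum_sq (s := S)
    (f := fun c => ∑ p : (Fin r → Fin L) × (Fin r → Fin L), if cell p = c then (1 : ℝ) else 0)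
  have hsum : ∑ c ∈ S, ∑ p : (Fin r → Fin L) × (Fin r → Fin L),
      (if cell p = c then (1 : ℝ) else 0) = (L : ℝ) ^ (2 * r) := by
    rw [Finset.sum_comm]
    have h1 : ∀ p ∈ (Finset.univ : Finset ((Fin r → Fin L) × (Fin r → Fin L))),
        ∑ c ∈ S, (if cell p = c then (1 : ℝ) else 0) = 1 := by
      intro p _
      rw [Finset.sum_ite_eq, if_pos (hmem p)]
    rw [Finset.sum_congr rfl h1]
    simp only [Finset.sum_const, nsmul_eq_mul, mul_one, Finset.card_univ, Fintype.card_prod,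
      Fintype.card_pi, Fintype.card_fin, Finset.prod_const]
    push_cast
    ring
  have hsq : ∑ c ∈ S, (∑ p : (Fin r → Fin L) × (Fin r → Fin L),
      (if cell p = c then (1 : ℝ) else 0)) ^ 2 =
      ∑ Q : Quad r L, if cell Q.1 = cell Q.2 then (1 : ℝ) else 0 := by
    have h1 : ∀ c ∈ S, (∑ p : (Fin r → Fin L) × (Fin r → Fin L),
        (if cell p = c then (1 : ℝ) else 0)) ^ 2 =
        ∑ Q : Quad r L, if cell Q.1 = c ∧ cell Q.2 = c then (1 : ℝ) else 0 := by
      intro c _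
      have e1 : ∑ Q : Quad r L, (if cell Q.1 = c ∧ cell Q.2 = c then (1 : ℝ) else 0) =
          ∑ p : (Fin r → Fin L) × (Fin r → Fin L), ∑ p' : (Fin r → Fin L) × (Fin r → Fin L),
            if cell p = c ∧ cell p' = c then (1 : ℝ) else 0 := Fintype.sum_prod_type _
      rw [sq, Finset.sum_mul_sum, e1]
      refine Finset.sum_congr rfl fun p _ => ?_
      refine Finset.sum_congr rfl fun p' _ => ?_
      by_cases h2 : cell p = c <;> by_cases h3 : cell p' = c <;> simp [h2, h3]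
    rw [Finset.sum_congr rfl h1, Finset.sum_comm]
    refine Finset.sum_congr rfl fun Q _ => ?_
    by_cases h2 : cell Q.1 = cell Q.2
    · rw [if_pos h2]
      have h3 : ∀ c ∈ S, (if cell Q.1 = c ∧ cell Q.2 = c then (1 : ℝ) else 0) =
          if cell Q.1 = c then 1 else 0 := by
        intro c _
        rw [← h2]
        simp
      rw [Finset.sum_congr rfl h3, Finset.sum_ite_eq, if_pos (hmem _)]
    · rw [if_neg h2]
      refine Finset.sum_eq_zero fun c _ => ?_
      rw [if_neg]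
      rintro ⟨h3, h4⟩
      exact h2 (h3.trans h4.symm)
  rw [hsum, hsq] at hcs
  have hle : ∀ Q : Quad r L, χ 0 / 2 * (if cell Q.1 = cell Q.2 then (1 : ℝ) else 0) ≤
      χ (∑ i, ω i * (qv Q i : ℝ)) := by
    intro Q
    by_cases h2 : cell Q.1 = cell Q.2
    · rw [if_pos h2, mul_one]
      refine (hχη _ ?_).le
      have h3 : ∑ i, ω i * (qv Q i : ℝ) = u Q.1 - u Q.2 := by
        rw [hu]
        simp only
        rw [← Finset.sum_sub_distrib]
        refine Finset.sum_congr rfl fun i _ => ?_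
        unfold qv
        rw [Pi.sub_apply]
        push_cast
        ring
      rw [h3]
      have h4 : |u Q.1 / η - u Q.2 / η| < 1 := Int.abs_sub_lt_one_of_floor_eq_floor h2
      rw [← sub_div, abs_div, abs_of_pos hη, div_lt_one hη] at h4
      exact h4
    · rw [if_neg h2, mul_zero]
      exact hχ0 _
  have hfin : ∑ Q : Quad r L, χ 0 / 2 * (if cell Q.1 = cell Q.2 then (1 : ℝ) else 0) ≤
      ∑ Q : Quad r L, χ (∑ i, ω i * (qv Q i : ℝ)) := Finset.sum_le_sum fun Q _ => hle Q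
  rw [← Finset.mul_sum] at hfin
  set T : ℝ := ∑ Q : Quad r L, if cell Q.1 = cell Q.2 then (1 : ℝ) else 0 with hT
  have hT0 : 0 ≤ T := Finset.sum_nonneg fun Q _ => by split_ifs <;> norm_num
  have h5 : (L : ℝ) ^ (4 * r) ≤ C * L * T := by
    have h6 : (L : ℝ) ^ (4 * r) = ((L : ℝ) ^ (2 * r)) ^ 2 := by
      rw [← pow_mul]
      congr 1
      ring
    rw [h6]
    exact hcs.trans (mul_le_mul_of_nonneg_right hcardS hT0)
  calc χ 0 / 2 / C * (L : ℝ) ^ (4 * r) ≤ χ 0 / 2 / C * (C * L * T) :=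
        mul_le_mul_of_nonneg_left h5 (by positivity)
    _ = L * (χ 0 / 2 * T) := by field_simp
    _ ≤ L * ∑ Q : Quad r L, χ (∑ i, ω i * (qv Q i : ℝ)) :=
        mul_le_mul_of_nonneg_left hfin (by positivity)

end PoolMX
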