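import Pool.Agent.Work.MP_67388f_an.MX.SpecC
import Pool.Agent.Work.MP_67388f_an.MX.SpecD

/-!
# Smooth samples in strips and spectral measures with a ball condition
-/

set_option autoImplicit false

namespace PoolMX

open MeasureTheory Filter Topology

/-! ### weights and lists -/

theorem exists_list {ι M : Type*} [Fintype ι] (p : ι → ℝ) (hp : ∀ i, 0 ≤ p i)
    (hZ : 0 < ∑ i, p i) (e : ι → M) (ε : ℝ) (hε : 0 < ε) :
    ∃ l : List M, l ≠ [] ∧ (∀ m ∈ l, ∃ i, 0 < p i ∧ e i = m) ∧
      ∀ (F : M → ℝ) (B : ℝ), (∀ m, |F m| ≤ B) →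
        |(l.map F).sum / (l.length : ℝ) - (∑ i, p i * F (e i)) / ∑ i, p i| ≤ ε * B := by
  classical
  set Z : ℝ := ∑ i, p i with hZd
  set n : ℝ := (Fintype.card ι : ℝ) with hn
  have hn0 : 0 ≤ n := by positivity
  obtain ⟨K, hK⟩ := exists_nat_gt ((2 * n / ε + n) / Z)
  have hKZ : 2 * n / ε + n < K * Z := by rwa [div_lt_iff₀ hZ] at hK
  have hKZ1 : n < K * Z := by
    have : 0 ≤ 2 * n / ε := by positivity
    linarith
  have hKZ0 : 0 < K * Z := hn0.trans_lt hKZ1
  have hKZ2 : 2 * n ≤ ε * (K * Z) := by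
    have h1 : 2 * n / ε < K * Z := by linarith
    rw [div_lt_iff₀ hε] at h1
    linarith
  set l : List M := Finset.univ.toList.flatMap fun i => List.replicate ⌊K * p i⌋₊ (e i) with hl
  have hKp : ∀ i, 0 ≤ (K : ℝ) * p i := fun i => mul_nonneg (Nat.cast_nonneg _) (hp i)
  have hsum : ∀ F : M → ℝ, (l.map F).sum = ∑ i, (⌊K * p i⌋₊ : ℝ) * F (e i) := by
    intro F
    rw [hl, List.map_flatMap, List.flatMap_def, List.sum_flatten, List.map_map,
      ← Finset.sum_map_toList]
    congr 1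
    refine List.map_congr_left fun i _ => ?_
    simp only [Function.comp_apply]
    rw [List.map_replicate, List.sum_replicate, nsmul_eq_mul]
  have hlen : (l.length : ℝ) = ∑ i, (⌊K * p i⌋₊ : ℝ) := by
    have h1 := hsum fun _ => (1 : ℝ)
    simp only [mul_one, List.map_const', List.sum_replicate, nsmul_eq_mul] at h1
    exact h1
  set S : ℝ := ∑ i, (⌊K * p i⌋₊ : ℝ) with hS
  have hfl : ∀ i, (⌊K * p i⌋₊ : ℝ) ≤ K * p i := fun i => Nat.floor_le (hKp i)
  have hfl' : ∀ i, K * p i - ⌊K * p i⌋₊ ≤ 1 := fun i => by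
    have := Nat.lt_floor_add_one ((K : ℝ) * p i)
    linarith
  have hKZsum : K * Z = ∑ i, K * p i := by rw [hZd, Finset.mul_sum]
  have hS1 : K * Z - S ≤ n := by
    rw [hKZsum, hS, ← Finset.sum_sub_distrib]
    refine (Finset.sum_le_sum fun i _ => hfl' i).trans ?_
    simp [hn]
  have hS2 : S ≤ K * Z := by
    rw [hKZsum, hS]
    exact Finset.sum_le_sum fun i _ => hfl i
  have hS0 : 0 < S := by linarith
  refine ⟨l, ?_, ?_, ?_⟩
  · intro h
    rw [← hlen, h] at hS0
    simp at hS0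
  · intro m hm
    rw [hl, List.mem_flatMap] at hm
    obtain ⟨i, _, hi⟩ := hm
    rw [List.mem_replicate] at hi
    refine ⟨i, ?_, hi.2.symm⟩
    rcases (hp i).eq_or_lt with h | h
    · exfalso
      apply hi.1
      rw [← h]
      simp
    · exact h
  · intro F B hB
    rw [hsum, hlen]
    set T : ℝ := ∑ i, (⌊K * p i⌋₊ : ℝ) * F (e i) with hT
    set P : ℝ := ∑ i, p i * F (e i) with hP
    rcases isEmpty_or_nonempty ι with hι | hι
    · exfalso
      have : Z = 0 := by rw [hZd]; simp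
      linarith
    have hB0 : 0 ≤ B := (abs_nonneg _).trans (hB (e (Classical.arbitrary ι)))
    have hT1 : |T| ≤ S * B := by
      rw [hT, hS, Finset.sum_mul]
      refine (Finset.abs_sum_le_sum_abs _ _).trans (Finset.sum_le_sum fun i _ => ?_)
      rw [abs_mul, abs_of_nonneg (Nat.cast_nonneg _)]
      exact mul_le_mul_of_nonneg_left (hB _) (Nat.cast_nonneg _)
    have hT2 : |T - K * P| ≤ n * B := by
      rw [hT, hP, Finset.mul_sum, ← Finset.sum_sub_distrib]
      refine (Finset.abs_sum_le_sum_abs _ _).trans ?_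
      have h1 : ∀ i ∈ (Finset.univ : Finset ι),
          |(⌊K * p i⌋₊ : ℝ) * F (e i) - K * (p i * F (e i))| ≤ B := by
        intro i _
        have h2 : (⌊K * p i⌋₊ : ℝ) * F (e i) - K * (p i * F (e i)) =
            -((K * p i - ⌊K * p i⌋₊) * F (e i)) := by ring
        rw [h2, abs_neg, abs_mul, abs_of_nonneg (sub_nonneg.2 (hfl i))]
        calc (K * p i - ⌊K * p i⌋₊) * |F (e i)| ≤ 1 * B :=
              mul_le_mul (hfl' i) (hB _) (abs_nonneg _) zero_le_one
          _ = B := one_mul B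
      refine (Finset.sum_le_sum h1).trans ?_
      simp [hn]
    have e1 : T / S - P / Z = T * (K * Z - S) / (S * (K * Z)) + (T - K * P) / (K * Z) := by
      have hK0 : (K : ℝ) ≠ 0 := by
        intro h
        rw [h, zero_mul] at hKZ0
        exact lt_irrefl _ hKZ0
      field_simp
      ring
    rw [e1]
    refine (abs_add_le _ _).trans ?_
    have h3 : |T * (K * Z - S) / (S * (K * Z))| ≤ n * B / (K * Z) := by
      rw [abs_div, abs_mul, abs_of_nonneg (sub_nonneg.2 hS2), abs_of_pos (mul_pos hS0 hKZ0)]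
      rw [div_le_div_iff₀ (mul_pos hS0 hKZ0) hKZ0]
      have h4 : |T| * (K * Z - S) ≤ S * B * n :=
        mul_le_mul hT1 hS1 (sub_nonneg.2 hS2) (by positivity)
      nlinarith
    have h5 : |(T - K * P) / (K * Z)| ≤ n * B / (K * Z) := by
      rw [abs_div, abs_of_pos hKZ0]
      exact div_le_div_of_nonneg_right hT2 hKZ0.le
    have h6 : n * B / (K * Z) + n * B / (K * Z) ≤ ε * B := by
      rw [← add_div, div_le_iff₀ hKZ0]
      nlinarith
    linarith

/-! ### the comparison kernel and dyadic balls -/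

lemma ker_sq_le (A : ℕ) (z : ℝ) (_h0 : 0 ≤ z) (hz : z ≤ 2 ^ A) :
    ker z ^ 2 ≤ 64 * ∑ a ∈ Finset.range (A + 1),
      (1 / 16 : ℝ) ^ a * (if z ≤ 2 ^ a then 1 else 0) := by
  have hnn : ∀ a ∈ Finset.range (A + 1), 0 ≤ (1 / 16 : ℝ) ^ a * (if z ≤ 2 ^ a then (1 : ℝ) else 0) := by
    intro a _
    refine mul_nonneg (by positivity) ?_
    split_ifs <;> norm_num
  by_cases h1 : z ≤ 1
  · have h2 := Finset.single_le_sum hnn (Finset.mem_range.2 (Nat.succ_pos A) : 0 ∈ _)
    simp only [pow_zero, if_pos h1, mul_one] at h2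
    have h3 : ker z ≤ 2 := by
      unfold ker
      rw [div_le_iff₀ (by positivity)]
      nlinarith [sq_nonneg z]
    have h4 : ker z ^ 2 ≤ 2 ^ 2 := pow_le_pow_left₀ (ker_nonneg z) h3 2
    linarith
  · push Not at h1
    -- the least `a` with `z ≤ 2 ^ a`
    have hex : ∃ a : ℕ, z ≤ 2 ^ a := ⟨A, hz⟩
    classical
    set a := Nat.find hex with ha
    have h2 : z ≤ 2 ^ a := Nat.find_spec hex
    have h3 : a ≤ A := Nat.find_min' hex hz
    have h4 : 0 < a := by
      rcases Nat.eq_zero_or_pos a with h | h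
      · rw [h, pow_zero] at h2
        linarith
      · exact h
    have h5 : (2 : ℝ) ^ (a - 1) < z := by
      have := Nat.find_min hex (m := a - 1) (by omega)
      push Not at this
      exact this
    have h6 := Finset.single_le_sum hnn (Finset.mem_range.2 (Nat.lt_succ_of_le h3) : a ∈ _)
    rw [if_pos h2, mul_one] at h6
    have h7 : ker z ≤ 2 / z ^ 2 := by
      unfold ker
      exact div_le_div_of_nonneg_left (by norm_num) (by positivity) (by linarith)
    have h8 : ker z ^ 2 ≤ 64 * (1 / 16 : ℝ) ^ a := by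
      calc ker z ^ 2 ≤ (2 / z ^ 2) ^ 2 := pow_le_pow_left₀ (ker_nonneg z) h7 2
        _ = 4 / z ^ 4 := by rw [div_pow]; ring
        _ ≤ 4 / (2 ^ (a - 1)) ^ 4 := by
            refine div_le_div_of_nonneg_left (by norm_num) (by positivity) ?_
            exact pow_le_pow_left₀ (by positivity) h5.le 4
        _ = 64 * (1 / 16 : ℝ) ^ a := by
            obtain ⟨b, hb⟩ : ∃ b, a = b + 1 := ⟨a - 1, by omega⟩
            have e1 : ((2 : ℝ) ^ b) ^ 4 = 16 ^ b := by
              rw [← pow_mul, mul_comm b 4, pow_mul]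
              norm_num
            rw [hb, Nat.add_sub_cancel, e1, pow_succ, div_pow, one_pow]
            field_simp
            norm_num
    linarith [mul_le_mul_of_nonneg_left h6 (by norm_num : (0 : ℝ) ≤ 64)]

/-- the `δ`-neighbourhood of `x` in the torus -/
def nbd {r : ℕ} (x : Fin r → ℝ) (δ : ℝ) : Set (Fin r → ℝ) :=
  {θ | ∃ k : Fin r → ℤ, ∀ i, |θ i - x i - k i| ≤ δ}

lemma abs_sub_round_le' (t : ℝ) (k : ℤ) : |t - round t| ≤ |t - k| := by
  exact round_le t k

/-- The integral of the fourth power of the exponential sum. -/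
theorem lint_bsum {r : ℕ} (hr : 0 < r) (σ : Measure (Fin r → ℝ)) [IsFiniteMeasure σ] (C s : ℝ)
    (hs0 : 0 < s) (hs4 : s ≤ 3)
    (hσ : ∀ (x : Fin r → ℝ) (δ : ℝ), 0 < δ → σ.real (nbd x δ) ≤ C * δ ^ s)
    (N : ℕ) (hN : 0 < N) :
    ∃ C' : ℝ, 0 ≤ C' ∧ ∀ (L : ℕ), 1 ≤ L → ∀ x : Fin r → ℝ,
      ∫⁻ θ, ENNReal.ofReal (‖bsum L (fun i => x i + N * θ i)‖ ^ 4) ∂σ ≤
        ENNReal.ofReal (C' * (L : ℝ) ^ (4 * r) * (L : ℝ) ^ (-s)) := by
  classical
  have hC0 : 0 ≤ C := by
    have h1 := hσ 0 1 one_pos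
    rw [Real.one_rpow, mul_one] at h1
    exact measureReal_nonneg.trans h1
  -- neighbourhoods under multiplication by `N`
  have hN1 : (1 : ℝ) ≤ N := by exact_mod_cast hN
  have hball : ∀ (x : Fin r → ℝ) (δ : ℝ), 0 < δ →
      σ.real {θ | ∀ i, |x i + N * θ i - round (x i + N * θ i)| ≤ δ} ≤ N ^ r * C * δ ^ s := by
    intro x δ hδ
    have hsub : {θ : Fin r → ℝ | ∀ i, |x i + N * θ i - round (x i + N * θ i)| ≤ δ} ⊆
        ⋃ c ∈ (Finset.univ : Finset (Fin r → Fin N)),
          nbd (fun i => (((c i : ℕ) : ℝ) - x i) / N) (δ / N) := by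
      intro θ hθ
      rw [Set.mem_iUnion₂]
      set k : Fin r → ℤ := fun i => round (x i + N * θ i) with hk
      have hNz : (0 : ℤ) < N := by exact_mod_cast hN
      refine ⟨fun i => ⟨(k i % N).toNat, ?_⟩, Finset.mem_univ _, fun i => k i / N, fun i => ?_⟩
      · have h1 := Int.emod_nonneg (k i) hNz.ne'
        have h2 := Int.emod_lt_of_pos (k i) hNz
        omega
      · have h1 := Int.emod_nonneg (k i) hNz.ne'
        have h3 : (((k i % N).toNat : ℕ) : ℝ) = ((k i % N : ℤ) : ℝ) := by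
          have : (((k i % N).toNat : ℕ) : ℤ) = k i % N := Int.toNat_of_nonneg h1
          exact_mod_cast this
        have h4 : ((k i : ℤ) : ℝ) = N * ((k i / N : ℤ) : ℝ) + ((k i % N : ℤ) : ℝ) := by
          exact_mod_cast (Int.mul_ediv_add_emod (k i) N).symm
        have h5 := hθ i
        simp only at h5 ⊢
        rw [h3]
        have h6 : θ i - (((k i % N : ℤ) : ℝ) - x i) / N - ((k i / N : ℤ) : ℝ) =
            (x i + N * θ i - (k i : ℤ)) / N := by
          rw [h4]
          field_simp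
          ring
        rw [h6, abs_div, abs_of_pos (by positivity : (0 : ℝ) < N)]
        exact div_le_div_of_nonneg_right h5 (by positivity)
    refine (measureReal_mono hsub (measure_ne_top _ _)).trans ?_
    refine (measureReal_biUnion_finset_le _ _).trans ?_
    have h7 : ∀ c ∈ (Finset.univ : Finset (Fin r → Fin N)),
        σ.real (nbd (fun i => (((c i : ℕ) : ℝ) - x i) / N) (δ / N)) ≤ C * δ ^ s := by
      intro c _
      refine (hσ _ _ (by positivity)).trans ?_
      refine mul_le_mul_of_nonneg_left ?_ hC0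
      refine Real.rpow_le_rpow (by positivity) ?_ hs0.le
      exact div_le_self hδ.le hN1
    refine (Finset.sum_le_sum h7).trans (le_of_eq ?_)
    simp only [Finset.sum_const, nsmul_eq_mul, Finset.card_univ, Fintype.card_pi,
      Fintype.card_fin, Finset.prod_const]
    push_cast
    ring
  set D : ℝ := 64 * (N ^ r * C) * (1 - 1 / 2)⁻¹ with hD
  have hD0 : 0 ≤ D := by positivity
  refine ⟨D, hD0, fun L hL x => ?_⟩
  have hL1 : (1 : ℝ) ≤ L := by exact_mod_cast hL
  have hL0 : (0 : ℝ) < L := by linarith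
  set S : ℕ → Set (Fin r → ℝ) := fun a =>
    {θ | ∀ i, |x i + N * θ i - round (x i + N * θ i)| ≤ 2 ^ a / (2 * L)} with hS
  have hSm : ∀ a, MeasurableSet (S a) := by
    intro a
    rw [hS]
    simp only [Set.ofPred_forall]
    refine MeasurableSet.iInter fun i => ?_
    have h1 : Measurable fun θ : Fin r → ℝ => x i + N * θ i :=
      (measurable_const.mul (measurable_pi_apply i)).const_add _
    have h2 : Measurable fun t : ℝ => ((round t : ℤ) : ℝ) := by
      have h3 : (fun t : ℝ => ((round t : ℤ) : ℝ)) = fun t => ((⌊t + 1 / 2⌋ : ℤ) : ℝ) := by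
        funext t
        rw [round_eq]
      rw [h3]
      exact (measurable_from_top (f := fun z : ℤ => (z : ℝ))).comp
        (Int.measurable_floor.comp (measurable_id.add_const _))
    exact measurableSet_le ((h1.sub (h2.comp h1)).abs) measurable_const
  have hpt : ∀ θ : Fin r → ℝ, ENNReal.ofReal (‖bsum L (fun i => x i + N * θ i)‖ ^ 4) ≤
      ∑ a ∈ Finset.range (L + 1), (S a).indicator
        (fun _ => ENNReal.ofReal (64 * (L : ℝ) ^ (4 * r) * (1 / 16) ^ a)) θ := by
    intro θ
    set y : Fin r → ℝ := fun i => x i + N * θ i with hy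
    have : Nonempty (Fin r) := ⟨⟨0, hr⟩⟩
    obtain ⟨i, hi⟩ := Finite.exists_max fun i => |y i - round (y i)|
    set z : ℝ := 2 * L * |y i - round (y i)| with hz
    have hz0 : 0 ≤ z := by positivity
    have hzL : z ≤ 2 ^ L := by
      have h1 : |y i - round (y i)| ≤ 1 / 2 := abs_sub_round _
      have h2 : z ≤ L := by
        rw [hz]
        nlinarith
      have h3 : (L : ℝ) ≤ 2 ^ L := by exact_mod_cast Nat.lt_two_pow_self.le
      linarith
    have h1 := norm_bsum_sq_le L y i
    have h2 : ‖bsum L y‖ ^ 4 ≤ (L : ℝ) ^ (4 * r) * ker z ^ 2 := by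
      calc ‖bsum L y‖ ^ 4 = (‖bsum L y‖ ^ 2) ^ 2 := by ring
        _ ≤ ((L : ℝ) ^ (2 * r) * ker z) ^ 2 := pow_le_pow_left₀ (by positivity) h1 2
        _ = (L : ℝ) ^ (4 * r) * ker z ^ 2 := by
            rw [mul_pow, ← pow_mul]
            congr 2
            ring
    have h3 := ker_sq_le L z hz0 hzL
    have h4 : ‖bsum L y‖ ^ 4 ≤ ∑ a ∈ Finset.range (L + 1),
        (64 * (L : ℝ) ^ (4 * r) * (1 / 16) ^ a) * (if z ≤ 2 ^ a then 1 else 0) := by
      refine h2.trans ((mul_le_mul_of_nonneg_left h3 (by positivity)).trans (le_of_eq ?_))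
      rw [Finset.mul_sum, Finset.mul_sum]
      refine Finset.sum_congr rfl fun a _ => ?_
      ring
    refine (ENNReal.ofReal_le_ofReal h4).trans ?_
    rw [ENNReal.ofReal_sum_of_nonneg]
    · refine Finset.sum_le_sum fun a _ => ?_
      by_cases h5 : z ≤ 2 ^ a
      · have h6 : θ ∈ S a := by
          intro j
          refine (hi j).trans ?_
          rw [le_div_iff₀ (by positivity)]
          rw [hz] at h5
          linarith
        rw [if_pos h5, mul_one, Set.indicator_of_mem h6]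
      · rw [if_neg h5, mul_zero, ENNReal.ofReal_zero]
        exact zero_le
    · intro a _
      refine mul_nonneg (by positivity) ?_
      split_ifs <;> norm_num
  refine (lintegral_mono hpt).trans ?_
  rw [lintegral_finsetSum _ fun a _ => (measurable_const.indicator (hSm a))]
  have h8 : ∀ a ∈ Finset.range (L + 1), ∫⁻ θ, (S a).indicator
      (fun _ => ENNReal.ofReal (64 * (L : ℝ) ^ (4 * r) * (1 / 16) ^ a)) θ ∂σ ≤
      ENNReal.ofReal (64 * (N ^ r * C) * (L : ℝ) ^ (4 * r) * (L : ℝ) ^ (-s) * (1 / 2) ^ a) := by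
    intro a _
    rw [lintegral_indicator (hSm a), lintegral_const, Measure.restrict_apply_univ,
      ← ofReal_measureReal (measure_ne_top _ _), ← ENNReal.ofReal_mul (by positivity)]
    refine ENNReal.ofReal_le_ofReal ?_
    have h9 := hball x (2 ^ a / (2 * L)) (by positivity)
    have h10 : ((2 : ℝ) ^ a / (2 * L)) ^ s ≤ 8 ^ a * (L : ℝ) ^ (-s) := by
      have h11 : ((2 : ℝ) ^ a / (2 * L)) ^ s ≤ ((2 : ℝ) ^ a / L) ^ s := by
        refine Real.rpow_le_rpow (by positivity) ?_ hs0.le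
        refine div_le_div_of_nonneg_left (by positivity) hL0 ?_
        linarith
      refine h11.trans ?_
      rw [Real.div_rpow (by positivity) hL0.le, Real.rpow_neg hL0.le, div_eq_mul_inv]
      refine mul_le_mul_of_nonneg_right ?_ (by positivity)
      rw [← Real.rpow_natCast 2 a, ← Real.rpow_mul (by norm_num), mul_comm (a : ℝ) s,
        Real.rpow_mul (by norm_num), Real.rpow_natCast]
      refine pow_le_pow_left₀ (by positivity) ?_ a
      calc (2 : ℝ) ^ s ≤ (2 : ℝ) ^ (3 : ℝ) := Real.rpow_le_rpow_of_exponent_le (by norm_num) hs4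
        _ = 8 := by norm_num
    have h12 : σ.real (S a) ≤ N ^ r * C * (8 ^ a * (L : ℝ) ^ (-s)) :=
      h9.trans (mul_le_mul_of_nonneg_left h10 (by positivity))
    calc 64 * (L : ℝ) ^ (4 * r) * (1 / 16) ^ a * σ.real (S a)
        ≤ 64 * (L : ℝ) ^ (4 * r) * (1 / 16) ^ a * (N ^ r * C * (8 ^ a * (L : ℝ) ^ (-s))) :=
          mul_le_mul_of_nonneg_left h12 (by positivity)
      _ = 64 * (N ^ r * C) * (L : ℝ) ^ (4 * r) * (L : ℝ) ^ (-s) * ((1 / 16) ^ a * 8 ^ a) := by ring
      _ = 64 * (N ^ r * C) * (L : ℝ) ^ (4 * r) * (L : ℝ) ^ (-s) * (1 / 2) ^ a := by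
          rw [← mul_pow]
          norm_num
  refine (Finset.sum_le_sum h8).trans ?_
  rw [← ENNReal.ofReal_sum_of_nonneg (fun a _ => by positivity)]
  refine ENNReal.ofReal_le_ofReal ?_
  rw [← Finset.mul_sum]
  have h13 : ∑ a ∈ Finset.range (L + 1), (1 / 2 : ℝ) ^ a ≤ (1 - 1 / 2)⁻¹ := by
    rw [← tsum_geometric_of_lt_one (by norm_num) (by norm_num)]
    exact (summable_geometric_of_lt_one (by norm_num) (by norm_num)).sum_le_tsum _
      fun a _ => by positivity
  refine (mul_le_mul_of_nonneg_left h13 (by positivity)).trans (le_of_eq ?_)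
  rw [hD]
  ring

end PoolMX
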