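import Pool.Agent.Work.MP_67388f_an.MX.Sep
import Pool.Agent.Work.MP_67388f_an.MX.Ego
import Pool.Agent.Work.MP_67388f_an.MX.Defs

/-!
MODULE UG (size M). A set of positive measure on which the averages converge uniformly. Uses `exists_dense_cc`
(Sep), `exists_uniform` (Ego).

Let `D n` be the dense family of Sep. For all `n, l : ℕ` choose by `hconv` a function `f n l` with compact support,
`|D n - f n l| ≤ 1/(l+1)` and `CConv a μ (w c) (f n l)` for all `c` with `w c ≠ 0`. Index set
`ι = {(n, l, c, N, p, q)}` = `ℕ × ℕ × {c // w c ≠ 0} × ℕ × ℕ × ℕ` (countable since `C` is finite; read `N + 1` for `N`),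
`b (n,l,c,N,p,q) k = {x | 1/(q+1) < |avg a (strip (w c) (N+1) (1/(p+1)) (k/M)) (f n l) (a (ctr (w c) k) • x) - ∫ f n l|}`.
`μ.real (b _ k) = μ.real {x | 1/(q+1) < |avg ... (k/M) ... x - ∫|}` because `μ` is invariant under `a (ctr (w c) k)`
(the set on the right is measurable: `avg` of a continuous function is continuous, `MeasurePreserving.measure_preimage`;
or `Measure.map_apply`). The sum over `k` of a function of `k / M` is summable if the sum over `R` is (each value `R` is
taken `M` times: e.g. `Nat.divModEquiv`, or bound the partial sums; `summable` of `fun k => g (k / M)` from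
`Summable g`, `g ≥ 0`). So `exists_uniform` gives `E` with `μ E > 0` and for all indices eventually in `k` for all `x ∈ E`:
`|avg ... (f n l) (a (ctr) • x) - ∫ f n l| ≤ 1/(q+1)`.
Given `θ` with compact support and `ε > 0` choose `n` with `|θ - D n| ≤ ε/8`, `l` with `1/(l+1) ≤ ε/8`, `q` with
`1/(q+1) ≤ ε/2`: then `|θ - f n l| ≤ ε/4` everywhere, so `|avg θ - avg f| ≤ ε/4` (averages, the strip is nonempty as it
contains `0`; if empty both averages are `0`), `|∫ θ - ∫ f| ≤ ε/4` (probability measure, bounded continuous functions).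
-/

set_option autoImplicit false

namespace PoolMX

open MeasureTheory Filter Topology

private theorem sum_div (g : ℕ → ℝ) (M : ℕ) (hM : 0 < M) (n : ℕ) :
    ∑ k ∈ Finset.range (n * M), g (k / M) = M * ∑ R ∈ Finset.range n, g R := by
  induction n with
  | zero => simp
  | succ n ih =>
    rw [Nat.succ_mul, Finset.sum_range_add, ih, Finset.sum_range_succ, mul_add]
    congr 1
    have h : ∀ x ∈ Finset.range M, g ((n * M + x) / M) = g n := by
      intro x hx
      congr 1
      rw [add_comm, Nat.add_mul_div_right _ _ hM, Nat.div_eq_of_lt (Finset.mem_range.1 hx), zero_add]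
    rw [Finset.sum_congr rfl h, Finset.sum_const, Finset.card_range, nsmul_eq_mul]

private theorem summable_div {g : ℕ → ℝ} (hg : Summable g) (h0 : ∀ n, 0 ≤ g n) {M : ℕ}
    (hM : 0 < M) : Summable fun k => g (k / M) := by
  refine summable_of_sum_range_le (c := M * ∑' R, g R) (fun n => h0 _) fun n => ?_
  calc ∑ k ∈ Finset.range n, g (k / M) ≤ ∑ k ∈ Finset.range (n * M), g (k / M) := by
        refine Finset.sum_le_sum_of_subset_of_nonneg ?_ fun k _ _ => h0 _
        exact Finset.range_mono (Nat.le_mul_of_pos_right n hM)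
    _ = M * ∑ R ∈ Finset.range n, g R := sum_div g M hM n
    _ ≤ M * ∑' R, g R := by
        refine mul_le_mul_of_nonneg_left ?_ (Nat.cast_nonneg _)
        exact hg.sum_le_tsum _ fun k _ => h0 k

private theorem avg_sub_le {G X : Type*} [SMul G X] {r : ℕ} (a : V r → G) (F : Finset (V r))
    (f g : X → ℝ) {δ : ℝ} (hδ : 0 ≤ δ) (h : ∀ x, |f x - g x| ≤ δ) (y : X) :
    |avg a F f y - avg a F g y| ≤ δ := by
  rw [avg, avg, ← sub_div, ← Finset.sum_sub_distrib, abs_div, Nat.abs_cast]
  refine div_le_of_le_mul₀ (Nat.cast_nonneg _) hδ ?_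
  refine (Finset.abs_sum_le_sum_abs _ _).trans ?_
  rw [mul_comm, ← nsmul_eq_mul]
  exact Finset.sum_le_card_nsmul _ _ _ fun m _ => h _

theorem ugood_exists {G X : Type*} [Group G] [TopologicalSpace G] [TopologicalSpace X]
    [LocallyCompactSpace X] [T2Space X] [SecondCountableTopology X] [MeasurableSpace X]
    [BorelSpace X] [MulAction G X] [ContinuousSMul G X] {r : ℕ} (a : V r → G) (μ : Measure X)
    [IsProbabilityMeasure μ] (hμ : ∀ m, μ.map (fun x => a m • x) = μ) {C : Type*} [Finite C]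
    (w : C → V r →+ ℝ) (M : ℕ) (hM : 0 < M)
    (hconv : ∀ θ : C(X, ℝ), HasCompactSupport θ → ∀ ε : ℝ, 0 < ε →
      ∃ f : C(X, ℝ), HasCompactSupport f ∧ (∀ x, |θ x - f x| ≤ ε) ∧
        ∀ c, w c ≠ 0 → CConv a μ (w c) f) :
    ∃ E : Set X, 0 < μ E ∧ UGood a μ M w E := by
  classical
  obtain ⟨D, hD, hDd⟩ := exists_dense_cc X
  have hch : ∀ n l : ℕ, ∃ f : C(X, ℝ), HasCompactSupport f ∧
      (∀ x, |D n x - f x| ≤ 1 / ((l : ℝ) + 1)) ∧ ∀ c, w c ≠ 0 → CConv a μ (w c) f :=
    fun n l => hconv (D n) (hD n) _ (by positivity)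
  choose f hf1 hf2 hf3 using hch
  let b : (ℕ × ℕ × C × ℕ × ℕ × ℕ) → ℕ → Set X := fun i k =>
    {x | w i.2.2.1 ≠ 0 ∧ 1 / ((i.2.2.2.2.2 : ℝ) + 1) <
      |avg a (strip (w i.2.2.1) (i.2.2.2.1 + 1) (1 / ((i.2.2.2.2.1 : ℝ) + 1)) (k / M))
        (f i.1 i.2.1) (a (ctr (w i.2.2.1) k) • x) - ∫ y, f i.1 i.2.1 y ∂μ|}
  have hsum : ∀ i, Summable fun k => μ.real (b i k) := by
    rintro ⟨n, l, c, N, p, q⟩
    by_cases hc : w c = 0
    · have : ∀ k, b (n, l, c, N, p, q) k = ∅ := by
        intro k
        ext x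
        simp [b, hc]
      simp only [this, measureReal_empty]
      exact summable_zero
    · have h1 : Summable fun R : ℕ => μ.real {x | 1 / ((q : ℝ) + 1) <
          |avg a (strip (w c) (N + 1) (1 / ((p : ℝ) + 1)) R) (f n l) x - ∫ y, f n l y ∂μ|} :=
        hf3 n l c hc (N + 1) _ _ (Nat.succ_pos N) (by positivity) (by positivity)
      have h2 := summable_div h1 (fun R => measureReal_nonneg) hM
      refine h2.congr fun k => ?_
      have hcont : Continuous fun x => avg a (strip (w c) (N + 1) (1 / ((p : ℝ) + 1)) (k / M))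
          (f n l) x := by
        unfold avg
        refine Continuous.div_const (continuous_finsetSum _ fun m _ => ?_) _
        exact (f n l).continuous.comp (continuous_const_smul (a m))
      have hms : MeasurableSet {x | 1 / ((q : ℝ) + 1) <
          |avg a (strip (w c) (N + 1) (1 / ((p : ℝ) + 1)) (k / M)) (f n l) x -
            ∫ y, f n l y ∂μ|} :=
        (isOpen_lt continuous_const ((hcont.sub continuous_const).abs)).measurableSet
      have h3 : b (n, l, c, N, p, q) k = (fun x => a (ctr (w c) k) • x) ⁻¹'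
          {x | 1 / ((q : ℝ) + 1) <
          |avg a (strip (w c) (N + 1) (1 / ((p : ℝ) + 1)) (k / M)) (f n l) x -
            ∫ y, f n l y ∂μ|} := by
        ext x
        simp only [b, Set.mem_ofPred_eq, Set.mem_preimage]
        exact ⟨fun h => h.2, fun h => ⟨hc, h⟩⟩
      have h4 : Measurable fun x : X => a (ctr (w c) k) • x :=
        (continuous_const_smul (a (ctr (w c) k))).measurable
      rw [h3, measureReal_def, measureReal_def, ← Measure.map_apply h4 hms, hμ]
  obtain ⟨E, hE, hEb⟩ := exists_uniform μ b hsum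
  refine ⟨E, hE, ?_⟩
  intro c hc N p hN θ hθ ε hε
  obtain ⟨N, rfl⟩ : ∃ N', N = N' + 1 := ⟨N - 1, by omega⟩
  obtain ⟨n, hn⟩ := hDd θ hθ (ε / 8) (by positivity)
  obtain ⟨l, hl⟩ := exists_nat_one_div_lt (by positivity : 0 < ε / 8)
  obtain ⟨q, hq⟩ := exists_nat_one_div_lt (by positivity : 0 < ε / 2)
  filter_upwards [hEb (n, l, c, N, p, q)] with k hk x hx
  have h1 := hk x hx
  simp only [b, Set.mem_ofPred_eq, not_and, not_lt] at h1
  have h2 := h1 hc
  have hclose : ∀ y, |θ y - f n l y| ≤ ε / 4 := by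
    intro y
    have e1 := hn y
    have e2 := hf2 n l y
    have e3 : θ y - f n l y = (θ y - D n y) + (D n y - f n l y) := by ring
    rw [e3]
    refine (abs_add_le _ _).trans ?_
    linarith
  have h3 := avg_sub_le a (strip (w c) (N + 1) (1 / ((p : ℝ) + 1)) (k / M)) θ (f n l)
    (by positivity : 0 ≤ ε / 4) hclose (a (ctr (w c) k) • x)
  have h4 : |∫ y, θ y ∂μ - ∫ y, f n l y ∂μ| ≤ ε / 4 := by
    have i1 : Integrable (fun y => θ y) μ := θ.continuous.integrable_of_hasCompactSupport hθ
    have i2 : Integrable (fun y => f n l y) μ :=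
      (f n l).continuous.integrable_of_hasCompactSupport (hf1 n l)
    rw [← integral_sub i1 i2, ← Real.norm_eq_abs]
    have e1 := norm_integral_le_of_norm_le_const (μ := μ) (f := fun y => θ y - f n l y) (C := ε / 4)
      (Eventually.of_forall fun y => by rw [Real.norm_eq_abs]; exact hclose y)
    rwa [probReal_univ, mul_one] at e1
  have e4 : avg a (strip (w c) (N + 1) (1 / ((p : ℝ) + 1)) (k / M)) θ (a (ctr (w c) k) • x) -
      ∫ y, θ y ∂μ =
      (avg a (strip (w c) (N + 1) (1 / ((p : ℝ) + 1)) (k / M)) θ (a (ctr (w c) k) • x) -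
        avg a (strip (w c) (N + 1) (1 / ((p : ℝ) + 1)) (k / M)) (f n l) (a (ctr (w c) k) • x)) +
      (avg a (strip (w c) (N + 1) (1 / ((p : ℝ) + 1)) (k / M)) (f n l) (a (ctr (w c) k) • x) -
        ∫ y, f n l y ∂μ) - (∫ y, θ y ∂μ - ∫ y, f n l y ∂μ) := by ring
  rw [e4]
  refine (abs_sub _ _).trans ?_
  have e5 := abs_add_le
    (avg a (strip (w c) (N + 1) (1 / ((p : ℝ) + 1)) (k / M)) θ (a (ctr (w c) k) • x) -
        avg a (strip (w c) (N + 1) (1 / ((p : ℝ) + 1)) (k / M)) (f n l) (a (ctr (w c) k) • x))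
      (avg a (strip (w c) (N + 1) (1 / ((p : ℝ) + 1)) (k / M)) (f n l) (a (ctr (w c) k) • x) -
        ∫ y, f n l y ∂μ)
  linarith

end PoolMX
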