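import Pool.Agent.Work.MP_67388f_an.MX.Pot

/-!
MODULE VarTwo (size M). Second moment and Chebyshev for `r ≥ 3`. Uses `le_strip_card` (Cnt), `pot_three` (Pot).

Replace `κ` by `κ' = min κ (3/2)`: since `‖m - m'‖ ≥ 1` for `m ≠ m'`, `‖m-m'‖^(-κ) ≤ ‖m-m'‖^(-κ')`; one may also
assume `C ≥ 0` (replace by `|C|`), and enlarge `C` to `C' = |C| + 2 B^2 + c^2 + 1` so that
`|∫ φ m φ m' - c²| ≤ C' cor κ' (m - m')` for ALL `m, m'` (for `m = m'` by `|φ| ≤ B`, `|c| ≤ B`).
With `F = strip w N η R`, `S = ∑_{m ∈ F} φ m`: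
`∫ (S/#F - c)² = (#F)^(-2) ∑_{m,m' ∈ F} (∫ φ m φ m' - c²) ≤ C' (#F)^(-2) ∑_{m ∈ F} ∑_{m' ∈ F} cor κ' (m - m')`.
For fixed `m ∈ F` the map `m' ↦ m - m'` is injective from `F` into `strip w 1 (2η) (2R)` and `cor ≥ 0`, so the inner
sum is at most `C'' (2R+1)^(r-1-κ')` (pot_three with `2η`). With `#F ≥ c₁ (R+1)^(r-1)`:
`∫ (S/#F - c)² ≤ C''' (R+1)^(-κ')`. Chebyshev: `μ.real {δ < |S/#F - c|} ≤ δ^(-2) C''' (R+1)^(-κ')` (e.g.
`mul_meas_ge_le_integral_of_nonneg`), summable because `κ' > 1` (`Real.summable_nat_rpow`, shifted by one;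
`Summable.of_nonneg_of_le`). `φ m` is bounded and measurable, so everything is integrable.
-/

set_option autoImplicit false

namespace PoolMX

open MeasureTheory

section VarTwoAux

variable {Ω : Type*} [MeasurableSpace Ω] {μ : Measure Ω} [IsProbabilityMeasure μ]

private lemma v2_markov {Y : Ω → ℝ} (hY : Measurable Y) {B : ℝ} (hB : ∀ x, |Y x| ≤ B) (k : ℕ)
    (hk : Even k) {δ K : ℝ} (hδ : 0 < δ) (hK : ∫ x, Y x ^ k ∂μ ≤ K) :
    μ.real {x | δ < |Y x|} ≤ K / δ ^ k := by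
  have hint : Integrable (fun x => Y x ^ k) μ :=
    Integrable.of_bound (hY.pow_const k).aestronglyMeasurable (B ^ k)
      (ae_of_all _ fun x => by
        rw [Real.norm_eq_abs, abs_pow]
        exact pow_le_pow_left₀ (abs_nonneg _) (hB x) k)
  have h := mul_meas_ge_le_integral_of_nonneg (μ := μ) (f := fun x => Y x ^ k)
    (ae_of_all _ fun x => hk.pow_nonneg _) hint (δ ^ k)
  have hsub : {x | δ < |Y x|} ⊆ {x | δ ^ k ≤ Y x ^ k} := by
    intro x hx
    have h1 : δ ^ k ≤ |Y x| ^ k := pow_le_pow_left₀ hδ.le (le_of_lt hx) k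
    rwa [hk.pow_abs] at h1
  have h2 : μ.real {x | δ < |Y x|} ≤ μ.real {x | δ ^ k ≤ Y x ^ k} := measureReal_mono hsub
  rw [le_div_iff₀ (pow_pos hδ k), mul_comm]
  exact (mul_le_mul_of_nonneg_left h2 (pow_pos hδ k).le).trans (h.trans hK)

private lemma v2_moment {ι : Type*} (F : Finset ι) {ψ : ι → Ω → ℝ} (hm : ∀ m, Measurable (ψ m))
    {b : ℝ} (hb : ∀ m x, |ψ m x| ≤ b) :
    ∫ x, (∑ m ∈ F, ψ m x) ^ 2 ∂μ = ∑ m ∈ F, ∑ m' ∈ F, ∫ x, ψ m x * ψ m' x ∂μ := by
  have hint : ∀ m m', Integrable (fun x => ψ m x * ψ m' x) μ := fun m m' =>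
    Integrable.of_bound ((hm m).mul (hm m')).aestronglyMeasurable (b * b)
      (ae_of_all _ fun x => by
        rw [Real.norm_eq_abs, abs_mul]
        exact mul_le_mul (hb m x) (hb m' x) (abs_nonneg _) ((abs_nonneg _).trans (hb m x)))
  have e : (fun x => (∑ m ∈ F, ψ m x) ^ 2) = fun x => ∑ m ∈ F, ∑ m' ∈ F, ψ m x * ψ m' x := by
    funext x
    rw [sq, Finset.sum_mul_sum]
  rw [e, integral_finsetSum F fun m _ => integrable_finsetSum F fun m' _ => hint m m']
  exact Finset.sum_congr rfl fun m _ => integral_finsetSum F fun m' _ => hint m m'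

end VarTwoAux

private lemma v2_diff {r : ℕ} {w : V r →+ ℝ} {N : ℕ} {η : ℝ} {R : ℕ} {f : V r → ℝ}
    (hf : ∀ u, 0 ≤ f u) {m : V r} (hm : m ∈ strip w N η R) :
    ∑ m' ∈ strip w N η R, f (m - m') ≤ ∑ u ∈ strip w 1 (2 * η) (2 * R), f u := by
  classical
  have hinj : ∀ a ∈ strip w N η R, ∀ b ∈ strip w N η R, m - a = m - b → a = b :=
    fun a _ b _ h => sub_right_injective h
  rw [← Finset.sum_image (f := f) (g := fun m' => m - m') hinj]
  refine Finset.sum_le_sum_of_subset_of_nonneg ?_ fun u _ _ => hf u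
  intro u hu
  obtain ⟨m', hm', rfl⟩ := Finset.mem_image.1 hu
  obtain ⟨h1, -, h3⟩ := mem_strip.1 hm
  obtain ⟨h1', -, h3'⟩ := mem_strip.1 hm'
  refine mem_strip.2 ⟨fun i => ?_, fun i => ?_, ?_⟩
  · have h4 := abs_sub (m i) (m' i)
    have h5 := h1 i
    have h6 := h1' i
    rw [Pi.sub_apply]
    push_cast
    linarith
  · rw [Nat.cast_one]
    exact one_dvd _
  · rw [map_sub]
    have h4 := abs_sub (w m) (w m')
    linarith

private lemma v2_norm {r : ℕ} {m : V r} (hm : m ≠ 0) : 1 ≤ ‖m‖ := by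
  by_contra hlt
  push Not at hlt
  apply hm
  funext i
  have h1 : ‖m i‖ < 1 := (norm_le_pi_norm m i).trans_lt hlt
  rw [Int.norm_eq_abs] at h1
  have h2 : |m i| < 1 := by exact_mod_cast h1
  rw [Int.abs_lt_one_iff] at h2
  exact h2

theorem var_two {Ω : Type*} [MeasurableSpace Ω] (μ : Measure Ω) [IsProbabilityMeasure μ] {r : ℕ}
    (hr : 3 ≤ r) (w : V r →+ ℝ) (hw : w ≠ 0) (N : ℕ) (hN : 0 < N) (η : ℝ) (hη : 0 < η) (κ : ℝ)
    (hκ : 1 < κ) (φ : V r → Ω → ℝ) (hm : ∀ m, Measurable (φ m)) (B : ℝ)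
    (hB : ∀ m x, |φ m x| ≤ B) (c C : ℝ) (hc : ∀ m, ∫ x, φ m x ∂μ = c)
    (hcor : ∀ m m', m ≠ m' → |∫ x, φ m x * φ m' x ∂μ - c ^ 2| ≤ C * ‖m - m'‖ ^ (-κ))
    (δ : ℝ) (hδ : 0 < δ) :
    Summable fun R : ℕ => μ.real {x | δ <
      |(∑ m ∈ strip w N η R, φ m x) / ((strip w N η R).card : ℝ) - c|} := by
  set κ' : ℝ := min κ (3 / 2) with hκ'
  have hk1 : 1 < κ' := lt_min hκ (by norm_num)
  have hk2 : κ' ≤ 3 / 2 := min_le_right _ _
  have hkk : κ' ≤ κ := min_le_left _ _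
  set b : ℝ := |B| + |c| with hb
  have hb0 : 0 ≤ b := by positivity
  have hψ : ∀ m x, |φ m x - c| ≤ b := fun m x =>
    (abs_sub _ _).trans (add_le_add ((hB m x).trans (le_abs_self B)) le_rfl)
  have hψm : ∀ m, Measurable fun x => φ m x - c := fun m => (hm m).sub_const c
  have hint : ∀ m, Integrable (φ m) μ := fun m =>
    Integrable.of_bound (hm m).aestronglyMeasurable B
      (ae_of_all _ fun x => by rw [Real.norm_eq_abs]; exact hB m x)
  have hint2 : ∀ m m', Integrable (fun x => φ m x * φ m' x) μ := fun m m' =>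
    Integrable.of_bound ((hm m).mul (hm m')).aestronglyMeasurable (B * B)
      (ae_of_all _ fun x => by
        rw [Real.norm_eq_abs, abs_mul]
        exact mul_le_mul (hB m x) (hB m' x) (abs_nonneg _) ((abs_nonneg _).trans (hB m x)))
  have hpm : ∀ m m', ∫ x, (φ m x - c) * (φ m' x - c) ∂μ = ∫ x, φ m x * φ m' x ∂μ - c ^ 2 := by
    intro m m'
    have i1 : Integrable (fun x => c * φ m x + c * φ m' x) μ :=
      ((hint m).const_mul c).add ((hint m').const_mul c)
    have i2 : Integrable (fun x => φ m x * φ m' x - (c * φ m x + c * φ m' x)) μ :=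
      (hint2 m m').sub i1
    have e : (fun x => (φ m x - c) * (φ m' x - c)) =
        fun x => (φ m x * φ m' x - (c * φ m x + c * φ m' x)) + c ^ 2 := by
      funext x; ring
    rw [e, integral_add i2 (integrable_const _), integral_sub (hint2 m m') i1,
      integral_add ((hint m).const_mul c) ((hint m').const_mul c), integral_const_mul,
      integral_const_mul, hc, hc, integral_const]
    simp
    ring
  have hcor0 : ∀ m : V r, 0 ≤ cor κ' m := by
    intro m
    unfold cor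
    split_ifs
    · exact zero_le_one
    · exact Real.rpow_nonneg (norm_nonneg _) _
  set K : ℝ := |C| + b ^ 2 with hK
  have hK0 : 0 ≤ K := by positivity
  have hpair : ∀ m m', ∫ x, (φ m x - c) * (φ m' x - c) ∂μ ≤ K * cor κ' (m - m') := by
    intro m m'
    by_cases hmm : m = m'
    · subst hmm
      unfold cor
      rw [sub_self, if_pos rfl, mul_one]
      have h2 := norm_integral_le_of_norm_le_const (μ := μ)
        (f := fun x => (φ m x - c) * (φ m x - c)) (C := b ^ 2)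
        (ae_of_all _ fun x => by
          rw [Real.norm_eq_abs, abs_mul, sq]
          exact mul_le_mul (hψ m x) (hψ m x) (abs_nonneg _) hb0)
      have h3 : |∫ x, (φ m x - c) * (φ m x - c) ∂μ| ≤ b ^ 2 := by simpa using h2
      have h4 := (le_abs_self _).trans h3
      have h5 := abs_nonneg C
      linarith
    · unfold cor
      rw [if_neg (sub_ne_zero.2 hmm), hpm]
      have h1 := (le_abs_self _).trans (hcor m m' hmm)
      have h2 : 1 ≤ ‖m - m'‖ := v2_norm (sub_ne_zero.2 hmm)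
      have h3 : ‖m - m'‖ ^ (-κ) ≤ ‖m - m'‖ ^ (-κ') :=
        Real.rpow_le_rpow_of_exponent_le h2 (by linarith)
      have h4 : 0 ≤ ‖m - m'‖ ^ (-κ) := Real.rpow_nonneg (norm_nonneg _) _
      have h5 : 0 ≤ ‖m - m'‖ ^ (-κ') := Real.rpow_nonneg (norm_nonneg _) _
      calc _ ≤ C * ‖m - m'‖ ^ (-κ) := h1
        _ ≤ |C| * ‖m - m'‖ ^ (-κ) := mul_le_mul_of_nonneg_right (le_abs_self C) h4
        _ ≤ |C| * ‖m - m'‖ ^ (-κ') := mul_le_mul_of_nonneg_left h3 (abs_nonneg C)
        _ ≤ K * ‖m - m'‖ ^ (-κ') := mul_le_mul_of_nonneg_right (by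
            have := sq_nonneg b
            linarith) h5
  obtain ⟨C₁, hC₁, hpot⟩ := pot_three hr w hw (2 * η) (by linarith) κ' hk1 hk2
  obtain ⟨c₁, hc₁, hcard⟩ := le_strip_card (by omega : 1 ≤ r) w N hN η hη
  set e : ℝ := (r : ℝ) - 1 - κ' with he
  have hr3 : (3 : ℝ) ≤ r := by exact_mod_cast hr
  have he0 : 0 ≤ e := by linarith
  set M : ℝ := K * C₁ * 2 ^ e / c₁ / δ ^ 2 with hM
  have hM0 : 0 ≤ M := by positivity
  have hbound : ∀ R : ℕ, μ.real {x | δ <
      |(∑ m ∈ strip w N η R, φ m x) / ((strip w N η R).card : ℝ) - c|} ≤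
      M * ((R : ℝ) + 1) ^ (-κ') := by
    intro R
    set F := strip w N η R with hF
    set n : ℝ := (F.card : ℝ) with hn
    have hR1 : (0 : ℝ) < (R : ℝ) + 1 := by positivity
    have hn1 : c₁ * ((R : ℝ) + 1) ^ (r - 1) ≤ n := hcard R
    have hn0 : 0 < n := (mul_pos hc₁ (pow_pos hR1 _)).trans_le hn1
    have hS : ∀ x, (∑ m ∈ F, φ m x) / n - c = (∑ m ∈ F, (φ m x - c)) / n := by
      intro x
      rw [Finset.sum_sub_distrib, Finset.sum_const, nsmul_eq_mul]
      field_simp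
      rw [hn]
      ring
    have hYm : Measurable fun x => (∑ m ∈ F, (φ m x - c)) / n :=
      (Finset.measurable_fun_sum F fun m _ => hψm m).div_const n
    have hYb : ∀ x, |(∑ m ∈ F, (φ m x - c)) / n| ≤ n * b / n := by
      intro x
      rw [abs_div, abs_of_pos hn0]
      refine div_le_div_of_nonneg_right ?_ hn0.le
      refine (Finset.abs_sum_le_sum_abs _ _).trans ?_
      refine (Finset.sum_le_sum fun m _ => hψ m x).trans ?_
      rw [Finset.sum_const, nsmul_eq_mul]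
    have h1 : ∫ x, ((∑ m ∈ F, (φ m x - c)) / n) ^ 2 ∂μ ≤
        K * C₁ * 2 ^ e / c₁ * ((R : ℝ) + 1) ^ (-κ') := by
      have e1 : (fun x => ((∑ m ∈ F, (φ m x - c)) / n) ^ 2) =
          fun x => (∑ m ∈ F, (φ m x - c)) ^ 2 / n ^ 2 := by
        funext x
        rw [div_pow]
      rw [e1, integral_div, v2_moment F hψm hψ]
      have h2 : ∑ m ∈ F, ∑ m' ∈ F, ∫ x, (φ m x - c) * (φ m' x - c) ∂μ ≤
          n * (K * (C₁ * (2 ^ e * ((R : ℝ) + 1) ^ e))) := by
        have h3 : ∀ m ∈ F, ∑ m' ∈ F, ∫ x, (φ m x - c) * (φ m' x - c) ∂μ ≤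
            K * (C₁ * (2 ^ e * ((R : ℝ) + 1) ^ e)) := by
          intro m hmF
          calc ∑ m' ∈ F, ∫ x, (φ m x - c) * (φ m' x - c) ∂μ
              ≤ ∑ m' ∈ F, K * cor κ' (m - m') := Finset.sum_le_sum fun m' _ => hpair m m'
            _ = K * ∑ m' ∈ F, cor κ' (m - m') := by rw [Finset.mul_sum]
            _ ≤ K * ∑ u ∈ strip w 1 (2 * η) (2 * R), cor κ' u :=
                mul_le_mul_of_nonneg_left (v2_diff hcor0 hmF) hK0
            _ ≤ K * (C₁ * ((((2 * R : ℕ) : ℝ)) + 1) ^ e) :=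
                mul_le_mul_of_nonneg_left (hpot (2 * R)) hK0
            _ ≤ K * (C₁ * (2 ^ e * ((R : ℝ) + 1) ^ e)) := by
                refine mul_le_mul_of_nonneg_left (mul_le_mul_of_nonneg_left ?_ hC₁.le) hK0
                rw [← Real.mul_rpow (by norm_num) hR1.le]
                refine Real.rpow_le_rpow (by positivity) ?_ he0
                push_cast
                linarith
        refine (Finset.sum_le_sum h3).trans ?_
        rw [Finset.sum_const, nsmul_eq_mul]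
      have h4 : (∑ m ∈ F, ∑ m' ∈ F, ∫ x, (φ m x - c) * (φ m' x - c) ∂μ) / n ^ 2 ≤
          (K * (C₁ * (2 ^ e * ((R : ℝ) + 1) ^ e))) / n := by
        rw [div_le_div_iff₀ (by positivity) hn0]
        calc _ ≤ n * (K * (C₁ * (2 ^ e * ((R : ℝ) + 1) ^ e))) * n :=
              mul_le_mul_of_nonneg_right h2 hn0.le
          _ = _ := by ring
      refine h4.trans ?_
      have h5 : (K * (C₁ * (2 ^ e * ((R : ℝ) + 1) ^ e))) / n ≤
          (K * (C₁ * (2 ^ e * ((R : ℝ) + 1) ^ e))) / (c₁ * ((R : ℝ) + 1) ^ (r - 1)) :=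
        div_le_div_of_nonneg_left (by positivity) (by positivity) hn1
      refine h5.trans (le_of_eq ?_)
      have e2 : ((R : ℝ) + 1) ^ e = ((R : ℝ) + 1) ^ (r - 1) * ((R : ℝ) + 1) ^ (-κ') := by
        rw [← Real.rpow_natCast, ← Real.rpow_add hR1]
        congr 1
        rw [Nat.cast_sub (by omega : 1 ≤ r), Nat.cast_one]
        ring
      rw [e2]
      have h6 : (0 : ℝ) < ((R : ℝ) + 1) ^ (r - 1) := pow_pos hR1 _
      field_simp
    have h2 := v2_markov (μ := μ) hYm hYb 2 even_two hδ h1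
    have e3 : {x | δ < |(∑ m ∈ F, φ m x) / n - c|} = {x | δ < |(∑ m ∈ F, (φ m x - c)) / n|} := by
      ext x
      rw [Set.mem_ofPred_eq, Set.mem_ofPred_eq, hS x]
    rw [e3]
    refine h2.trans (le_of_eq ?_)
    rw [hM]
    ring
  have hsum : Summable fun R : ℕ => M * ((R : ℝ) + 1) ^ (-κ') := by
    refine Summable.mul_left M ?_
    have h1 : Summable fun n : ℕ => (n : ℝ) ^ (-κ') := Real.summable_nat_rpow.2 (by linarith)
    have h2 := (summable_nat_add_iff 1).2 h1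
    refine h2.congr fun n => ?_
    push_cast
    rfl
  exact Summable.of_nonneg_of_le (fun R => measureReal_nonneg) hbound hsum

end PoolMX
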